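import Pool.Agent.Lib.DSH.TransG

/-!
# DSH.BoxA: boxes with the sizes `X ^ α k`

Slots: `t i * t j` with `α i + α j = 1` (`i = j` allowed), and `t i` with `α i = 1`.
-/

set_option autoImplicit false

open Finset Filter

namespace Pool.Agent.DSH

open Pool.Agent.HLB Pool.Agent.HLT Pool.Agent.HLR Pool.Agent.Lib.GMV Pool.Agent.BLF

/-- The sizes of the variables. -/
noncomputable def HA {m : ℕ} (α : Fin m → ℝ) (X : ℕ) (k : Fin m) : ℕ := ⌊(X : ℝ) ^ α k⌋₊

open scoped Classical in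
/-- Single slots: `t` if the exponent is `1`, and `t ^ 2` otherwise. -/
noncomputable def tauA {m r : ℕ} (α : Fin m → ℝ) (i : Fin r → Fin m) (e : Fin r) (t : ℕ) : ℕ :=
  if α (i e) = 1 then t else t ^ 2

/-- The conditions on the slots and on the exponents. -/
structure SltA {m r : ℕ} (i j : Fin r → Fin m) (α : Fin m → ℝ) : Prop where
  pos : ∀ k, 0 < α k
  ord : ∀ e, i e ≤ j e
  inj : Function.Injective (fun e => (i e, j e))
  edge : ∀ e, i e ≠ j e → α (i e) + α (j e) = 1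
  single : ∀ e, i e = j e → α (i e) = 1 ∨ α (i e) = 1 / 2

namespace BoxAAux

lemma fl_le (X : ℕ) (a : ℝ) : ((⌊(X : ℝ) ^ a⌋₊ : ℕ) : ℝ) ≤ (X : ℝ) ^ a := Nat.floor_le (by positivity)

lemma fl_ge (X : ℕ) (a : ℝ) (h : 2 ≤ (X : ℝ) ^ a) : (X : ℝ) ^ a / 2 ≤ ((⌊(X : ℝ) ^ a⌋₊ : ℕ) : ℝ) := by
  have := Nat.lt_floor_add_one ((X : ℝ) ^ a)
  linarith

lemma fl_one (X : ℕ) : ⌊(X : ℝ) ^ (1 : ℝ)⌋₊ = X := by
  rw [Real.rpow_one, Nat.floor_natCast]

lemma fl_half (X : ℕ) : ⌊(X : ℝ) ^ (1 / 2 : ℝ)⌋₊ = Nat.sqrt X := by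
  rw [← Real.sqrt_eq_rpow, Real.nat_floor_real_sqrt_eq_nat_sqrt]

lemma prod_le (X : ℕ) (a b : ℝ) (ha : 0 < a) (hab : a + b = 1) :
    ⌊(X : ℝ) ^ a⌋₊ * ⌊(X : ℝ) ^ b⌋₊ ≤ X := by
  rcases Nat.eq_zero_or_pos X with h | h
  · subst h
    rw [Nat.cast_zero, Real.zero_rpow ha.ne', Nat.floor_zero, zero_mul]
  · have hX : (0 : ℝ) < X := by exact_mod_cast h
    have h1 : ((⌊(X : ℝ) ^ a⌋₊ * ⌊(X : ℝ) ^ b⌋₊ : ℕ) : ℝ) ≤ X := by
      push_cast
      calc _ ≤ (X : ℝ) ^ a * (X : ℝ) ^ b := mul_le_mul (fl_le X a) (fl_le X b) (Nat.cast_nonneg _) (by positivity)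
        _ = X := by rw [← Real.rpow_add hX, hab, Real.rpow_one]
    exact_mod_cast h1

lemma prod_ge (X : ℕ) (a b : ℝ) (hX : 1 ≤ X) (ha : 2 ≤ (X : ℝ) ^ a) (hb : 2 ≤ (X : ℝ) ^ b) (hab : a + b = 1) :
    X ≤ 4 * (⌊(X : ℝ) ^ a⌋₊ * ⌊(X : ℝ) ^ b⌋₊) := by
  have hX0 : (0 : ℝ) < X := by exact_mod_cast hX
  have h1 : (X : ℝ) ≤ 4 * (((⌊(X : ℝ) ^ a⌋₊ : ℕ) : ℝ) * ((⌊(X : ℝ) ^ b⌋₊ : ℕ) : ℝ)) := by
    calc (X : ℝ) = (X : ℝ) ^ a * (X : ℝ) ^ b := by rw [← Real.rpow_add hX0, hab, Real.rpow_one]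
      _ = 4 * ((X : ℝ) ^ a / 2 * ((X : ℝ) ^ b / 2)) := by ring
      _ ≤ _ := by
        refine mul_le_mul_of_nonneg_left ?_ (by norm_num)
        exact mul_le_mul (fl_ge X a ha) (fl_ge X b hb) (by positivity) (Nat.cast_nonneg _)
  exact_mod_cast h1

end BoxAAux

open BoxAAux

theorem boxA {m r : ℕ} (hr : 1 ≤ r) (i j : Fin r → Fin m) (α : Fin m → ℝ) (hS : SltA i j α) :
    ∃ (κ : ℝ) (Z : ℕ), BoxD i j (HA α) (tauA α i) (∑ k, α k) κ Z := by
  obtain ⟨k0, -, hk0⟩ := Finset.exists_min_image univ α ⟨i ⟨0, hr⟩, mem_univ _⟩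
  have hα0 := hS.pos k0
  obtain ⟨Z, hZ⟩ := Filter.eventually_atTop.mp (((tendsto_rpow_atTop (show (0 : ℝ) < α k0 / 2 by positivity)).comp
    tendsto_natCast_atTop_atTop).eventually (eventually_ge_atTop (2 : ℝ)))
  have h2 : ∀ X ≥ Z + 1, ∀ k, 2 * (X : ℝ) ^ (α k0 / 2) ≤ (X : ℝ) ^ α k ∧ 2 ≤ (X : ℝ) ^ (α k0 / 2) := by
    intro X hX k
    have h3 : (2 : ℝ) ≤ (X : ℝ) ^ (α k0 / 2) := hZ X (by omega)
    have hX1 : (1 : ℝ) ≤ X := by
      have : 1 ≤ X := by omega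
      exact_mod_cast this
    refine ⟨?_, h3⟩
    calc 2 * (X : ℝ) ^ (α k0 / 2) ≤ (X : ℝ) ^ (α k0 / 2) * (X : ℝ) ^ (α k0 / 2) := by gcongr
      _ = (X : ℝ) ^ (α k0) := by rw [← Real.rpow_add (by linarith)]; congr 1; ring
      _ ≤ (X : ℝ) ^ α k := Real.rpow_le_rpow_of_exponent_le hX1 (hk0 k (mem_univ _))
  have h2' : ∀ X ≥ Z + 1, ∀ k, (2 : ℝ) ≤ (X : ℝ) ^ α k := by
    intro X hX k
    obtain ⟨h3, h4⟩ := h2 X hX k
    linarith
  refine ⟨α k0 / 2, Z + 1, ?_⟩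
  constructor
  · positivity
  · intro X hX k
    obtain ⟨h3, h4⟩ := h2 X hX k
    have := fl_ge X (α k) (h2' X hX k)
    unfold HA
    linarith
  · intro X hX
    refine ⟨hS.ord, hS.inj, fun e he => ?_, fun e he => ?_⟩
    · unfold HA
      have := prod_le X (α (i e)) (α (j e)) (hS.pos _) (hS.edge e he)
      omega
    · unfold HA tauA
      rcases hS.single e he with h | h
      · rw [h, fl_one]
        simp only [if_true]
        refine ⟨fun a _ b _ hab => hab, fun t ht => ?_⟩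
        rw [mem_Icc] at ht
        omega
      · rw [h, fl_half]
        have h1 : ¬ (1 / 2 : ℝ) = 1 := by norm_num
        simp only [h1, if_false]
        refine ⟨fun a _ b _ hab => ?_, fun t ht => ?_⟩
        · exact Nat.pow_left_injective (n := 2) (by norm_num) hab
        · rw [mem_Icc] at ht
          have h1 : t ^ 2 ≤ Nat.sqrt X ^ 2 := Nat.pow_le_pow_left ht.2 2
          have h2 := Nat.sqrt_le X
          rw [sq (Nat.sqrt X)] at h1
          omega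
  · intro X hX e he
    left
    refine ⟨HA α X (i e) * HA α X (j e), ?_, ?_, rfl⟩
    · unfold HA
      have := prod_le X (α (i e)) (α (j e)) (hS.pos _) (hS.edge e he)
      omega
    · unfold HA
      have := prod_ge X (α (i e)) (α (j e)) (by omega) (h2' X hX _) (h2' X hX _) (hS.edge e he)
      omega
  · intro X hX e he
    unfold HA tauA
    rcases hS.single e he with h | h
    · rw [h, fl_one]
      simp only [if_true]
      left
      exact ⟨X, by omega, by omega, Finset.image_id⟩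
    · rw [h, fl_half]
      have h1 : ¬ (1 / 2 : ℝ) = 1 := by norm_num
      simp only [h1, if_false]
      right
      rfl
  · intro X t ht e
    have ht' : ∀ k, t k ∈ Icc 1 (HA α X k) := fun k => Fintype.mem_piFinset.mp ht k
    unfold sf
    split_ifs with he
    · have hk := (mem_Icc.1 (ht' (i e))).2
      unfold HA at hk
      unfold tauA
      rcases hS.single e he with h | h
      · rw [h, fl_one] at hk
        rw [h]
        simp only [if_true]
        exact hk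
      · rw [h, fl_half] at hk
        rw [h]
        have h1 : ¬ (1 / 2 : ℝ) = 1 := by norm_num
        simp only [h1, if_false]
        have h1 := Nat.pow_le_pow_left hk 2
        have h2 := Nat.sqrt_le X
        rw [sq (Nat.sqrt X)] at h1
        omega
    · have k1 := (mem_Icc.1 (ht' (i e))).2
      have k2 := (mem_Icc.1 (ht' (j e))).2
      unfold HA at k1 k2
      exact (Nat.mul_le_mul k1 k2).trans (prod_le X (α (i e)) (α (j e)) (hS.pos _) (hS.edge e he))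
  · intro X hX
    have hX0 : (0 : ℝ) < X := by exact_mod_cast hX
    unfold Bg
    rw [Fintype.card_piFinset, Real.rpow_sum_of_pos hX0]
    push_cast
    refine Finset.prod_le_prod (fun _ _ => Nat.cast_nonneg _) fun k _ => ?_
    rw [Nat.card_Icc, Nat.add_sub_cancel]
    exact fl_le X (α k)

theorem famA {m r : ℕ} (hr : 1 ≤ r) (i j : Fin r → Fin m) (α : Fin m → ℝ) (hS : SltA i j α) (B c : ℝ) (hc : 0 < c)
    (hB : BS B c) : ∃ e e' c' K : ℝ, Fam r (Bg (HA α)) (sf i j (tauA α i)) (∑ k, α k) e e' c' K := by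
  obtain ⟨κ, Z, hD⟩ := boxA hr i j α hS
  exact famG hr i j (HA α) (tauA α i) (∑ k, α k) κ Z hD B c hc hB

end Pool.Agent.DSH
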