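import Pool.Agent.Lib.DSH.Defs

/-!
# DSH.MsL (0.5 h): calculus of the mean square property

PROOF. `add`: `‖a + b‖² ≤ 2 ‖a‖² + 2 ‖b‖²`. `smul`: pull the constant out. `of_l2`: Cauchy-Schwarz `‖∑_{n ≤ x} g n F (n+u)‖² ≤ x ∑_{n ≤ x} ‖F (n+u)‖²` and for `u ≤ x`
the `n + u` are distinct elements of `Icc 1 (2 x)`. `congr`: `n + u ∈ Icc 1 (2 x)` for `u ∈ T ⊆ range (x+1)`.
-/

set_option autoImplicit false

open Finset Filter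

namespace Pool.Agent.DSH

open Pool.Agent.HLB Pool.Agent.HLT Pool.Agent.HLR Pool.Agent.Lib.GMV Pool.Agent.BLF

theorem MSq.mono {x : ℕ} {ρ ρ' : ℝ} {F : ℕ → ℂ} {T : Finset ℕ} (h : MSq x ρ F T) (hρ : ρ ≤ ρ') :
    MSq x ρ' F T := by
  refine ⟨h.1, fun g hg => (h.2 g hg).trans ?_⟩
  exact mul_le_mul_of_nonneg_right hρ (by positivity)

theorem MSq.add {x : ℕ} {ρ ρ' : ℝ} {F G : ℕ → ℂ} {T : Finset ℕ} (h : MSq x ρ F T) (h' : MSq x ρ' G T) :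
    MSq x (2 * (ρ + ρ')) (fun n => F n + G n) T := by
  refine ⟨h.1, fun g hg => ?_⟩
  have h1 := h.2 g hg
  have h2 := h'.2 g hg
  have key : ∑ u ∈ T, ‖∑ n ∈ Icc 1 x, g n * (F (n + u) + G (n + u))‖ ^ 2 ≤
      2 * (∑ u ∈ T, ‖∑ n ∈ Icc 1 x, g n * F (n + u)‖ ^ 2 +
        ∑ u ∈ T, ‖∑ n ∈ Icc 1 x, g n * G (n + u)‖ ^ 2) := by
    rw [← Finset.sum_add_distrib, Finset.mul_sum]
    refine Finset.sum_le_sum fun u _ => ?_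
    have e : ∑ n ∈ Icc 1 x, g n * (F (n + u) + G (n + u)) =
        (∑ n ∈ Icc 1 x, g n * F (n + u)) + ∑ n ∈ Icc 1 x, g n * G (n + u) := by
      rw [← Finset.sum_add_distrib]
      exact Finset.sum_congr rfl fun n _ => by ring
    rw [e]
    set A := ∑ n ∈ Icc 1 x, g n * F (n + u)
    set B := ∑ n ∈ Icc 1 x, g n * G (n + u)
    have h3 := norm_add_le A B
    have h4 := norm_nonneg (A + B)
    nlinarith [sq_nonneg (‖A‖ - ‖B‖), norm_nonneg A, norm_nonneg B]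
  calc _ ≤ _ := key
    _ ≤ 2 * (ρ * ((T.card : ℝ) * (x : ℝ) ^ 2) + ρ' * ((T.card : ℝ) * (x : ℝ) ^ 2)) := by linarith
    _ = _ := by ring

theorem MSq.smul {x : ℕ} {ρ : ℝ} {F : ℕ → ℂ} {T : Finset ℕ} (h : MSq x ρ F T) (c : ℂ) :
    MSq x (‖c‖ ^ 2 * ρ) (fun n => c * F n) T := by
  refine ⟨h.1, fun g hg => ?_⟩
  have h1 := h.2 g hg
  have e : ∑ u ∈ T, ‖∑ n ∈ Icc 1 x, g n * (c * F (n + u))‖ ^ 2 =
      ‖c‖ ^ 2 * ∑ u ∈ T, ‖∑ n ∈ Icc 1 x, g n * F (n + u)‖ ^ 2 := by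
    rw [Finset.mul_sum]
    refine Finset.sum_congr rfl fun u _ => ?_
    have e2 : ∑ n ∈ Icc 1 x, g n * (c * F (n + u)) = c * ∑ n ∈ Icc 1 x, g n * F (n + u) := by
      rw [Finset.mul_sum]
      exact Finset.sum_congr rfl fun n _ => by ring
    rw [e2, norm_mul, mul_pow]
  calc _ = _ := e
    _ ≤ ‖c‖ ^ 2 * (ρ * ((T.card : ℝ) * (x : ℝ) ^ 2)) := mul_le_mul_of_nonneg_left h1 (by positivity)
    _ = _ := by ring

theorem MSq.of_l2 {x : ℕ} {E : ℝ} {F : ℕ → ℂ} {T : Finset ℕ} (hT : T ⊆ range (x + 1))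
    (h : ∑ m ∈ Icc 1 (2 * x), ‖F m‖ ^ 2 ≤ E * x) : MSq x E F T := by
  refine ⟨hT, fun g hg => ?_⟩
  have hu : ∀ u ∈ T, ‖∑ n ∈ Icc 1 x, g n * F (n + u)‖ ^ 2 ≤ E * (x : ℝ) ^ 2 := by
    intro u hu
    have hux : u ≤ x := by
      have := Finset.mem_range.mp (hT hu)
      omega
    have h1 : ‖∑ n ∈ Icc 1 x, g n * F (n + u)‖ ≤ ∑ n ∈ Icc 1 x, ‖F (n + u)‖ := by
      refine (norm_sum_le _ _).trans (Finset.sum_le_sum fun n hn => ?_)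
      rw [norm_mul]
      calc ‖g n‖ * ‖F (n + u)‖ ≤ 1 * ‖F (n + u)‖ :=
            mul_le_mul_of_nonneg_right (hg n hn) (norm_nonneg _)
        _ = _ := one_mul _
    have h2 : (∑ n ∈ Icc 1 x, ‖F (n + u)‖) ^ 2 ≤ ((Icc 1 x).card : ℝ) * ∑ n ∈ Icc 1 x, ‖F (n + u)‖ ^ 2 :=
      sq_sum_le_card_mul_sum_sq
    have h3 : ∑ n ∈ Icc 1 x, ‖F (n + u)‖ ^ 2 ≤ ∑ m ∈ Icc 1 (2 * x), ‖F m‖ ^ 2 := by
      have e : ∑ n ∈ Icc 1 x, ‖F (n + u)‖ ^ 2 = ∑ m ∈ (Icc 1 x).map (addRightEmbedding u), ‖F m‖ ^ 2 := by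
        rw [Finset.sum_map]
        rfl
      rw [e]
      refine Finset.sum_le_sum_of_subset_of_nonneg ?_ fun _ _ _ => by positivity
      intro m hm
      obtain ⟨n, hn, rfl⟩ := Finset.mem_map.mp hm
      simp only [addRightEmbedding_apply, Finset.mem_Icc] at hn ⊢
      omega
    have hc : ((Icc 1 x).card : ℝ) = x := by simp
    have h4 : 0 ≤ ∑ n ∈ Icc 1 x, ‖F (n + u)‖ := Finset.sum_nonneg fun _ _ => norm_nonneg _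
    calc ‖∑ n ∈ Icc 1 x, g n * F (n + u)‖ ^ 2 ≤ (∑ n ∈ Icc 1 x, ‖F (n + u)‖) ^ 2 :=
          pow_le_pow_left₀ (norm_nonneg _) h1 2
      _ ≤ (x : ℝ) * ∑ n ∈ Icc 1 x, ‖F (n + u)‖ ^ 2 := by rw [← hc]; exact h2
      _ ≤ (x : ℝ) * (E * x) := mul_le_mul_of_nonneg_left (h3.trans h) (Nat.cast_nonneg _)
      _ = _ := by ring
  calc ∑ u ∈ T, ‖∑ n ∈ Icc 1 x, g n * F (n + u)‖ ^ 2 ≤ ∑ _u ∈ T, E * (x : ℝ) ^ 2 :=
        Finset.sum_le_sum hu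
    _ = _ := by rw [Finset.sum_const, nsmul_eq_mul]; ring

theorem MSq.congr {x : ℕ} {ρ : ℝ} {F G : ℕ → ℂ} {T : Finset ℕ} (h : MSq x ρ F T)
    (hFG : ∀ n ∈ Icc 1 (2 * x), F n = G n) : MSq x ρ G T := by
  refine ⟨h.1, fun g hg => ?_⟩
  have h1 := h.2 g hg
  have e : ∑ u ∈ T, ‖∑ n ∈ Icc 1 x, g n * G (n + u)‖ ^ 2 =
      ∑ u ∈ T, ‖∑ n ∈ Icc 1 x, g n * F (n + u)‖ ^ 2 := by
    refine Finset.sum_congr rfl fun u hu => ?_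
    have hux : u ≤ x := by
      have := Finset.mem_range.mp (h.1 hu)
      omega
    congr 2
    refine Finset.sum_congr rfl fun n hn => ?_
    rw [hFG (n + u) (by simp only [Finset.mem_Icc] at hn ⊢; omega)]
  rw [e]
  exact h1

end Pool.Agent.DSH
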