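import Pool.Agent.Lib.DSH.Defs
import Pool.Agent.Lib.DSH.MsL

/-!
# DSH.Cmp (1 h): truncation

PROOF. `cmp`: `‖∏ G_i - ∏ tr G_i‖ ≤ ∑_j ‖G_j - tr G_j‖ ∏_{i ≠ j} ‖G_i‖` (telescoping, `norm_tr_le_norm`), `‖G_j - tr G_j‖ ≤ ‖G_j‖²/V` (it is `0` if `‖G_j‖ ≤ V`), and
`‖G_j‖² ∏_{i ≠ j} ‖G_i‖ ≤ (max ‖G_i‖)^(k+1) ≤ ∑_i ‖G_i‖^(k+1)`; sum over `n` (`n + b i ∈ Icc 1 (2x)`, injective in `n`).
`trunc_ms`: `(tr f - tr g)/(2V) = (2V)⁻¹ ((f - g) - (f - tr f) + (g - tr g))`, `‖f - tr f‖² ≤ V^(-p) ‖f‖^(p+2)`, `MSq.of_l2`, `MSq.add`, `MSq.smul`; (`a² + ...`): use `ρ_total ≤ (4V²)⁻¹ · (2 ρ + 2 (2 (R V^(-p)) + 2 (R V^(-p))))`, `V ≥ 1`.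
-/

set_option autoImplicit false

open Finset Filter

namespace Pool.Agent.DSH

open Pool.Agent.HLB Pool.Agent.HLT Pool.Agent.HLR Pool.Agent.Lib.GMV Pool.Agent.BLF

private lemma cmp_point {k : ℕ} (hk : 0 < k) (a t : Fin k → ℂ) (V : ℝ) (hV : 1 ≤ V)
    (ht : ∀ i, t i = if ‖a i‖ ≤ V then a i else 0) :
    ‖∏ i, a i - ∏ i, t i‖ ≤ (∑ i, ‖a i‖ ^ (k + 1)) / V := by
  have hV0 : (0 : ℝ) < V := by linarith
  have hs : 0 ≤ ∑ i, ‖a i‖ ^ (k + 1) := Finset.sum_nonneg fun _ _ => by positivity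
  by_cases hall : ∀ i, ‖a i‖ ≤ V
  · have e : ∏ i, t i = ∏ i, a i := Finset.prod_congr rfl fun i _ => by rw [ht i, if_pos (hall i)]
    rw [e, sub_self, norm_zero]
    positivity
  · push Not at hall
    obtain ⟨j, hj⟩ := hall
    have e : ∏ i, t i = 0 := by
      refine Finset.prod_eq_zero (Finset.mem_univ j) ?_
      rw [ht j, if_neg (not_le.mpr hj)]
    rw [e, sub_zero, norm_prod]
    have : Nonempty (Fin k) := ⟨⟨0, hk⟩⟩
    obtain ⟨m, -, hm⟩ := Finset.exists_max_image (Finset.univ : Finset (Fin k)) (fun i => ‖a i‖)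
      Finset.univ_nonempty
    have hVm : V ≤ ‖a m‖ := hj.le.trans (hm j (Finset.mem_univ j))
    have h1 : ∏ i, ‖a i‖ ≤ ‖a m‖ ^ k := by
      have := Finset.prod_le_prod (s := (Finset.univ : Finset (Fin k))) (f := fun i => ‖a i‖)
        (g := fun _ => ‖a m‖) (fun _ _ => norm_nonneg _) (fun i hi => hm i hi)
      simpa using this
    have h2 : ‖a m‖ ^ k ≤ ‖a m‖ ^ (k + 1) / V := by
      rw [le_div_iff₀ hV0, pow_succ]
      exact mul_le_mul_of_nonneg_left hVm (by positivity)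
    have h3 : ‖a m‖ ^ (k + 1) ≤ ∑ i, ‖a i‖ ^ (k + 1) :=
      Finset.single_le_sum (f := fun i => ‖a i‖ ^ (k + 1)) (fun _ _ => by positivity) (Finset.mem_univ m)
    exact h1.trans (h2.trans (div_le_div_of_nonneg_right h3 hV0.le))

theorem cmp {k : ℕ} (x y : ℕ) (hy : y ≤ x) (G : Fin k → ℕ → ℂ) (b : Fin k → ℕ) (hb : ∀ i, b i ≤ x) (V R : ℝ) (hV : 1 ≤ V)
    (hM : ∀ i, ∑ m ∈ Icc 1 (2 * x), ‖G i m‖ ^ (k + 1) ≤ R) :
    ∑ n ∈ Icc 1 y, ‖∏ i, G i (n + b i) - ∏ i, tr V (G i) (n + b i)‖ ≤ k ^ 2 * R / V := by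
  have hV0 : (0 : ℝ) < V := by linarith
  rcases Nat.eq_zero_or_pos k with hk | hk
  · subst hk
    simp
  · have hR : 0 ≤ R := (Finset.sum_nonneg fun _ _ => by positivity).trans (hM ⟨0, hk⟩)
    have h1 : ∀ n ∈ Icc 1 y, ‖∏ i, G i (n + b i) - ∏ i, tr V (G i) (n + b i)‖ ≤
        (∑ i, ‖G i (n + b i)‖ ^ (k + 1)) / V := fun n _ =>
      cmp_point hk (fun i => G i (n + b i)) (fun i => tr V (G i) (n + b i)) V hV (fun i => rfl)
    have h2 : ∀ i, ∑ n ∈ Icc 1 y, ‖G i (n + b i)‖ ^ (k + 1) ≤ R := by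
      intro i
      have e : ∑ n ∈ Icc 1 y, ‖G i (n + b i)‖ ^ (k + 1) =
          ∑ m ∈ (Icc 1 y).map (addRightEmbedding (b i)), ‖G i m‖ ^ (k + 1) := by
        rw [Finset.sum_map]
        rfl
      rw [e]
      refine (Finset.sum_le_sum_of_subset_of_nonneg ?_ fun _ _ _ => by positivity).trans (hM i)
      intro m hm
      obtain ⟨n, hn, rfl⟩ := Finset.mem_map.mp hm
      have := hb i
      simp only [addRightEmbedding_apply, Finset.mem_Icc] at hn ⊢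
      omega
    have hk1 : (1 : ℝ) ≤ k := by exact_mod_cast hk
    calc ∑ n ∈ Icc 1 y, ‖∏ i, G i (n + b i) - ∏ i, tr V (G i) (n + b i)‖
        ≤ ∑ n ∈ Icc 1 y, (∑ i, ‖G i (n + b i)‖ ^ (k + 1)) / V := Finset.sum_le_sum h1
      _ = (∑ i, ∑ n ∈ Icc 1 y, ‖G i (n + b i)‖ ^ (k + 1)) / V := by
          rw [← Finset.sum_div, Finset.sum_comm]
      _ ≤ (∑ _i : Fin k, R) / V := div_le_div_of_nonneg_right (Finset.sum_le_sum fun i _ => h2 i) hV0.le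
      _ = k * R / V := by simp
      _ ≤ k ^ 2 * R / V := by
          refine div_le_div_of_nonneg_right ?_ hV0.le
          refine mul_le_mul_of_nonneg_right ?_ hR
          nlinarith

private lemma l2_tr (x p : ℕ) (V R : ℝ) (hV : 1 ≤ V) (f : ℕ → ℂ)
    (hf : ∑ m ∈ Icc 1 (2 * x), ‖f m‖ ^ (p + 2) ≤ R * x) :
    ∑ m ∈ Icc 1 (2 * x), ‖f m - tr V f m‖ ^ 2 ≤ R / V ^ p * x := by
  have hV0 : (0 : ℝ) < V := by linarith
  have hp : (0 : ℝ) < V ^ p := by positivity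
  have h1 : ∀ m ∈ Icc 1 (2 * x), ‖f m - tr V f m‖ ^ 2 ≤ ‖f m‖ ^ (p + 2) / V ^ p := by
    intro m _
    unfold tr
    split_ifs with h
    · rw [sub_self, norm_zero]
      have : (0 : ℝ) ≤ ‖f m‖ ^ (p + 2) / V ^ p := by positivity
      simpa using this
    · rw [sub_zero, le_div_iff₀ hp, pow_add, mul_comm (‖f m‖ ^ 2)]
      refine mul_le_mul_of_nonneg_right ?_ (by positivity)
      exact pow_le_pow_left₀ hV0.le (not_le.mp h).le p
  calc ∑ m ∈ Icc 1 (2 * x), ‖f m - tr V f m‖ ^ 2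
      ≤ ∑ m ∈ Icc 1 (2 * x), ‖f m‖ ^ (p + 2) / V ^ p := Finset.sum_le_sum h1
    _ = (∑ m ∈ Icc 1 (2 * x), ‖f m‖ ^ (p + 2)) / V ^ p := by rw [Finset.sum_div]
    _ ≤ R * x / V ^ p := div_le_div_of_nonneg_right hf hp.le
    _ = R / V ^ p * x := by ring

theorem trunc_ms (x p : ℕ) (V ρ R : ℝ) (hV : 1 ≤ V) (hρ : 0 ≤ ρ) (f g : ℕ → ℂ) (T : Finset ℕ)
    (h : MSq x ρ (fun n => f n - g n) T) (hf : ∑ m ∈ Icc 1 (2 * x), ‖f m‖ ^ (p + 2) ≤ R * x)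
    (hg : ∑ m ∈ Icc 1 (2 * x), ‖g m‖ ^ (p + 2) ≤ R * x) :
    MSq x (ρ + 2 * (R / V ^ p)) (fun n => (tr V f n / V - tr V g n / V) / 2) T := by
  have hV0 : (0 : ℝ) < V := by linarith
  have hp : (0 : ℝ) < V ^ p := by positivity
  rcases Nat.eq_zero_or_pos x with hx | hx
  · subst hx
    refine ⟨h.1, fun g' _ => ?_⟩
    simp
  · have hx0 : (0 : ℝ) < x := by exact_mod_cast hx
    have hR : 0 ≤ R := by
      have h1 : 0 ≤ R * x := (Finset.sum_nonneg fun _ _ => by positivity).trans hf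
      by_contra hcon
      push Not at hcon
      nlinarith [mul_neg_of_neg_of_pos hcon hx0]
    have hRV : 0 ≤ R / V ^ p := by positivity
    have hF : MSq x (R / V ^ p) (fun n => f n - tr V f n) T := MSq.of_l2 h.1 (l2_tr x p V R hV f hf)
    have hG : MSq x (R / V ^ p) (fun n => g n - tr V g n) T := MSq.of_l2 h.1 (l2_tr x p V R hV g hg)
    have hF' := hF.smul (-1)
    have h2 := (h.add (hF'.add hG)).smul (((2 * V : ℝ) : ℂ)⁻¹)
    have e : (fun n => ((2 * V : ℝ) : ℂ)⁻¹ * ((f n - g n) + ((-1) * (f n - tr V f n) + (g n - tr V g n)))) =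
        fun n => (tr V f n / V - tr V g n / V) / 2 := by
      funext n
      have hVc : (V : ℂ) ≠ 0 := by exact_mod_cast hV0.ne'
      push_cast
      field_simp
      ring
    rw [← e]
    refine h2.mono ?_
    have hn : ‖(((2 * V : ℝ) : ℂ)⁻¹)‖ ^ 2 = 1 / (4 * V ^ 2) := by
      rw [norm_inv, Complex.norm_real, Real.norm_of_nonneg (by positivity)]
      field_simp
      ring
    rw [hn, norm_neg, norm_one]
    have hV2 : (1 : ℝ) ≤ V ^ 2 := one_le_pow₀ hV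
    rw [one_div, ← div_eq_inv_mul, div_le_iff₀ (by positivity)]
    nlinarith [mul_nonneg hρ (sub_nonneg.mpr hV2), mul_nonneg hRV (sub_nonneg.mpr hV2)]

end Pool.Agent.DSH
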