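import Pool.Agent.Lib.DSH.NormD
import Pool.Agent.Lib.GMV.Core

/-!
# DSH.CoreD (1 h): the main theorem for a single tuple

PROOF. The proof of `GMV.core` with `normD` instead of `norm_all` (`CoreAux` can be cited): `a = min a1 (e/16)`, `Q^(-e/2) ≤ Q^(-a) ≤ Er`.
-/

set_option autoImplicit false

open Finset Filter

namespace Pool.Agent.DSH

open Pool.Agent.HLB Pool.Agent.HLT Pool.Agent.HLR Pool.Agent.Lib.GMV Pool.Agent.BLF

open Pool.Agent.Lib.GMV.CoreAux in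
theorem coreD (r : ℕ) (hr : 1 ≤ r) (c1 c : ℝ) (hZ : ZFree c1) (hc : 0 < c) (hcc : c < c1) (e : ℝ) (he : 0 < e)
    (he2 : e ≤ 1 / 2) :
    ∃ a C c2 : ℝ, 0 < a ∧ 0 < C ∧ 0 < c2 ∧ ∃ X0 : ℕ, ∀ X Q : ℕ, X0 ≤ X →
    Real.exp (Real.sqrt (Real.log X)) ≤ Q → (Q : ℝ) ≤ (X : ℝ) ^ c2 →
    ∃ q : ℕ, ExMod c Q q ∧ ∀ a' ∈ Tup r (range (X + 1)), Dv e r X Q a' → Function.Injective (c0 a') →
      (∀ p : ℕ, p.Prime → nuI (c0 a') p < p) → ∀ y : ℕ, y ≤ X →
      |(((Icc 1 y).filter (fun n => ∀ i, (n + c0 a' i).Prime)).card : ℝ) -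
        SI (c0 a') * ∑ n ∈ Icc 2 y, ∏ i, (Real.log (n + c0 a' i))⁻¹| ≤
        C * (SI (c0 a') * X / Real.log X ^ (r + 1)) * (Er a X Q + Gq q (c0 a')) := by
  classical
  obtain ⟨a1, B, c21, ha1, hB, hc21, X1, hsum⟩ := sumB c1 c hZ hc hcc
  obtain ⟨c22, C2, hc22, hC2, X2, hnorm⟩ := normD r hr B e he he2
  obtain ⟨C3, hC3, hlogs⟩ := logs (r + 1) (by omega)
  obtain ⟨c4, hc4, hsi⟩ := si_ge (r + 1) (by omega)
  obtain ⟨C5, hC5, hlp⟩ := logpow (r + 1)
  set a : ℝ := min a1 (e / 16) with hadef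
  have ha0 : 0 < a := lt_min ha1 (by positivity)
  have haa1 : a ≤ a1 := min_le_left _ _
  have ha800 : a ≤ e / 16 := min_le_right _ _
  set c2 : ℝ := min (min c21 c22) (1 / 2) with hc2def
  have hc20 : 0 < c2 := lt_min (lt_min hc21 hc22) (by norm_num)
  have hc2a : c2 ≤ c21 := (min_le_left _ _).trans (min_le_left _ _)
  have hc2b : c2 ≤ c22 := (min_le_left _ _).trans (min_le_right _ _)
  have hc2c : c2 ≤ 1 / 2 := min_le_right _ _
  refine ⟨a, C3 * (C2 * (B + 1) + 1 / c4 + (1 / c4 + 1) * C5), c2, ha0, by positivity, hc20,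
    max (max X1 X2) 100, ?_⟩
  intro X Q hX0 hQl hQu
  have hXX1 : X1 ≤ X := ((le_max_left _ _).trans (le_max_left _ _)).trans hX0
  have hXX2 : X2 ≤ X := ((le_max_right _ _).trans (le_max_left _ _)).trans hX0
  have hX100 : 100 ≤ X := (le_max_right _ _).trans hX0
  have hXr : (100 : ℝ) ≤ X := by exact_mod_cast hX100
  have hX0' : (0 : ℝ) < X := by linarith
  have hX1' : (1 : ℝ) ≤ X := by linarith
  -- log X ≥ 4
  have hlogX4 : 4 ≤ Real.log X := by
    rw [Real.le_log_iff_exp_le hX0']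
    have h1 : Real.exp 1 < 2.7182818286 := Real.exp_one_lt_d9
    have h2 : Real.exp 4 = (Real.exp 1) ^ 4 := by
      rw [← Real.exp_nat_mul]; norm_num
    rw [h2]
    calc (Real.exp 1) ^ 4 ≤ (2.7182818286 : ℝ) ^ 4 := pow_le_pow_left₀ (Real.exp_pos _).le h1.le _
      _ ≤ 100 := by norm_num
      _ ≤ X := hXr
  have hlogX0 : 0 < Real.log X := by linarith
  have hsq2 : 2 ≤ Real.sqrt (Real.log X) := by
    rw [show (2 : ℝ) = Real.sqrt 4 by rw [show (4 : ℝ) = 2 ^ 2 by norm_num]; simp]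
    exact Real.sqrt_le_sqrt hlogX4
  have hQ4 : (4 : ℝ) < Q := by
    have h1 : (2.7182818283 : ℝ) < Real.exp 1 := Real.exp_one_gt_d9
    have h2 : Real.exp 2 = (Real.exp 1) ^ 2 := by
      rw [← Real.exp_nat_mul]; norm_num
    calc (4 : ℝ) < (2.7182818283 : ℝ) ^ 2 := by norm_num
      _ ≤ (Real.exp 1) ^ 2 := pow_le_pow_left₀ (by norm_num) h1.le _
      _ = Real.exp 2 := h2.symm
      _ ≤ Real.exp (Real.sqrt (Real.log X)) := Real.exp_le_exp.mpr hsq2
      _ ≤ Q := hQl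
  have hQ0 : (0 : ℝ) < Q := by linarith
  have hQ1 : (1 : ℝ) ≤ Q := by linarith
  have hlogQ : Real.sqrt (Real.log X) ≤ Real.log Q := by
    rw [Real.le_log_iff_exp_le hQ0]; exact hQl
  have hlogQ0 : 0 < Real.log Q := by linarith
  have hlogXQ : Real.log X ≤ Real.log Q ^ 2 := by
    calc Real.log X = Real.sqrt (Real.log X) ^ 2 := (Real.sq_sqrt hlogX0.le).symm
      _ ≤ Real.log Q ^ 2 := pow_le_pow_left₀ (Real.sqrt_nonneg _) hlogQ _
  -- the ranges
  have hlog2X : Real.log ((2 * X : ℕ) : ℝ) ≤ 4 * Real.log X := by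
    push_cast
    rw [Real.log_mul (by norm_num) hX0'.ne']
    have : Real.log 2 ≤ Real.log X := Real.log_le_log (by norm_num) (by linarith)
    linarith
  have hexp2 : Real.exp (Real.sqrt (Real.log ((2 * X : ℕ) : ℝ)) / 2) ≤ Q := by
    refine (Real.exp_le_exp.mpr ?_).trans hQl
    have h1 : Real.sqrt (Real.log ((2 * X : ℕ) : ℝ)) ≤ 2 * Real.sqrt (Real.log X) := by
      calc Real.sqrt (Real.log ((2 * X : ℕ) : ℝ)) ≤ Real.sqrt (4 * Real.log X) :=
            Real.sqrt_le_sqrt hlog2X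
        _ = 2 * Real.sqrt (Real.log X) := by
            rw [Real.sqrt_mul (by norm_num), show (4 : ℝ) = 2 ^ 2 by norm_num]; simp
    linarith
  have hXc : ∀ u : ℝ, c2 ≤ u → (Q : ℝ) ≤ ((2 * X : ℕ) : ℝ) ^ u := by
    intro u hu
    calc (Q : ℝ) ≤ (X : ℝ) ^ c2 := hQu
      _ ≤ (X : ℝ) ^ u := Real.rpow_le_rpow_of_exponent_le hX1' hu
      _ ≤ ((2 * X : ℕ) : ℝ) ^ u := by
          refine Real.rpow_le_rpow hX0'.le ?_ (hc20.le.trans hu)
          push_cast; linarith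
  have hQsq : (Q : ℝ) ^ 2 ≤ X := by
    calc (Q : ℝ) ^ 2 ≤ ((X : ℝ) ^ (1 / 2 : ℝ)) ^ 2 := by
          refine pow_le_pow_left₀ hQ0.le ?_ _
          exact hQu.trans (Real.rpow_le_rpow_of_exponent_le hX1' hc2c)
      _ = (X : ℝ) := by
          rw [← Real.rpow_natCast, ← Real.rpow_mul hX0'.le]; norm_num
  obtain ⟨b, M, q, hb1, hb2, hKept, hEx, hb3, hone⟩ :=
    hsum (2 * X) Q (by omega) ⟨hexp2, hXc c21 hc2a⟩
  have hmain := hnorm X Q hXX2 ⟨hexp2, hXc c22 hc2b⟩ b hb1 hb2 M q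
    (B * Er a1 (2 * X) Q) hKept hb3 hone
  refine ⟨q, hEx, ?_⟩
  intro a' ha' haD hinj hnu y hy
  set S : ℝ := SI (c0 a') with hS
  set G : ℝ := Gq q (c0 a') with hG
  set E : ℝ := Er a X Q with hE
  have hE0 : 0 < E := Er_pos _ _ _
  have hG0 : 0 ≤ G := (Gq_le_one q (c0 a')).1
  have hS1 : c4 ≤ S := hsi (c0 a') hinj hnu
  have hS0 : 0 < S := hc4.trans_le hS1
  have hEE : Er a1 (2 * X) Q ≤ E :=
    (Er_two ha1.le (by omega) hlogQ0).trans (Er_mono haa1 hlogX0.le hlogQ0)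
  have hEQ : (Q : ℝ) ^ (-a) ≤ E := Er_ge ha0.le hlogQ0 hQ0 hlogXQ
  -- t i ≤ X
  have ht : ∀ i, c0 a' i ≤ X := by
    intro i
    refine Fin.cases ?_ (fun j => ?_) i
    · simp [c0]
    · have := (Fintype.mem_piFinset.mp ha' j)
      rw [mem_range] at this
      simp only [c0, Fin.cons_succ]
      omega
  set D : ℝ := C2 * S * X * (B * Er a1 (2 * X) Q + G) + X * (Q : ℝ) ^ (-(e / 2)) with hD
  have hD0 : 0 ≤ D := by
    have := (Er_pos a1 (2 * X) Q).le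
    positivity
  have hQ4' : 4 ≤ Q := by
    have : (4 : ℝ) ≤ Q := hQ4.le
    exact_mod_cast this
  have hfin := hlogs X Q (c0 a') S D (by omega) hQ4' hQsq ht hS0.le hD0
    (fun y hy => hmain a' ha' haD hinj y hy) y hy
  refine hfin.trans ?_
  -- bounds
  set L : ℝ := Real.log X ^ (r + 1) with hL
  have hL0 : 0 < L := by positivity
  set K : ℝ := S * X / L with hK
  have hK0 : 0 < K := by positivity
  have hD1 : D / L ≤ (C2 * (B + 1) + 1 / c4) * K * (E + G) := by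
    have h1 : C2 * S * X * (B * Er a1 (2 * X) Q + G) ≤ C2 * (B + 1) * (S * X) * (E + G) := by
      have h2 : B * Er a1 (2 * X) Q + G ≤ (B + 1) * (E + G) := by
        have := mul_le_mul_of_nonneg_left hEE hB.le
        nlinarith [mul_nonneg hB.le hG0, hE0.le]
      calc C2 * S * X * (B * Er a1 (2 * X) Q + G) ≤ C2 * S * X * ((B + 1) * (E + G)) :=
            mul_le_mul_of_nonneg_left h2 (by positivity)
        _ = _ := by ring
    have h3 : X * (Q : ℝ) ^ (-(e / 2)) ≤ 1 / c4 * (S * X) * (E + G) := by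
      have h4 : (Q : ℝ) ^ (-(e / 2)) ≤ E + G := by
        have : (Q : ℝ) ^ (-(e / 2)) ≤ (Q : ℝ) ^ (-a) :=
          Real.rpow_le_rpow_of_exponent_le hQ1 (by linarith)
        linarith
      have h5 : 1 ≤ 1 / c4 * S := by
        rw [one_div, inv_mul_eq_div, le_div_iff₀ hc4]; linarith
      calc (X : ℝ) * (Q : ℝ) ^ (-(e / 2)) ≤ X * (E + G) :=
            mul_le_mul_of_nonneg_left h4 hX0'.le
        _ = 1 * (X * (E + G)) := by ring
        _ ≤ (1 / c4 * S) * (X * (E + G)) :=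
            mul_le_mul_of_nonneg_right h5 (by positivity)
        _ = _ := by ring
    rw [div_le_iff₀ hL0]
    calc D ≤ C2 * (B + 1) * (S * X) * (E + G) + 1 / c4 * (S * X) * (E + G) := add_le_add h1 h3
      _ = (C2 * (B + 1) + 1 / c4) * K * (E + G) * L := by
          rw [hK]; field_simp
  have hD2 : (1 + S) * X / Q ≤ (1 / c4 + 1) * C5 * K * (E + G) := by
    have h1 : 1 + S ≤ (1 / c4 + 1) * S := by
      have : 1 ≤ 1 / c4 * S := by
        rw [one_div, inv_mul_eq_div, le_div_iff₀ hc4]; linarith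
      linarith
    have h2 : L / Q ≤ C5 * (E + G) := by
      have h3 : L ≤ C5 * (Q : ℝ) ^ (1 / 2 : ℝ) := by
        calc L ≤ (Real.log Q ^ 2) ^ (r + 1) := pow_le_pow_left₀ hlogX0.le hlogXQ _
          _ = Real.log Q ^ (2 * (r + 1)) := by rw [← pow_mul]
          _ ≤ _ := hlp Q hQ1
      have h4 : (Q : ℝ) ^ (1 / 2 : ℝ) / Q = (Q : ℝ) ^ (-(1 / 2 : ℝ)) := by
        have := Real.rpow_sub hQ0 (1 / 2) 1
        rw [Real.rpow_one] at this
        rw [← this]; norm_num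
      have h5 : (Q : ℝ) ^ (-(1 / 2 : ℝ)) ≤ E + G := by
        have : (Q : ℝ) ^ (-(1 / 2 : ℝ)) ≤ (Q : ℝ) ^ (-a) :=
          Real.rpow_le_rpow_of_exponent_le hQ1 (by linarith)
        linarith
      calc L / Q ≤ C5 * (Q : ℝ) ^ (1 / 2 : ℝ) / Q := div_le_div_of_nonneg_right h3 hQ0.le
        _ = C5 * (Q : ℝ) ^ (-(1 / 2 : ℝ)) := by rw [mul_div_assoc, h4]
        _ ≤ C5 * (E + G) := mul_le_mul_of_nonneg_left h5 hC5.le
    calc (1 + S) * X / Q ≤ ((1 / c4 + 1) * S) * X / Q := by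
          refine div_le_div_of_nonneg_right ?_ hQ0.le
          exact mul_le_mul_of_nonneg_right h1 hX0'.le
      _ = (1 / c4 + 1) * K * (L / Q) := by
          rw [hK]; field_simp
      _ ≤ (1 / c4 + 1) * K * (C5 * (E + G)) :=
          mul_le_mul_of_nonneg_left h2 (by positivity)
      _ = _ := by ring
  calc C3 * (D / L + (1 + S) * X / Q)
      ≤ C3 * ((C2 * (B + 1) + 1 / c4) * K * (E + G) + (1 / c4 + 1) * C5 * K * (E + G)) :=
        mul_le_mul_of_nonneg_left (add_le_add hD1 hD2) hC3.le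
    _ = C3 * (C2 * (B + 1) + 1 / c4 + (1 / c4 + 1) * C5) * K * (E + G) := by ring

end Pool.Agent.DSH
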