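import Pool.Agent.Lib.DSH.DefX
import Pool.Agent.Lib.GMV.Logs

/-!
# DSH.LogsX (1 h): removing the weights, general main term

PROOF. The proof of `GMV.logs` with `S ∑_{n ≤ y} A n` instead of `S y`: partial summation of `∏ W (n + t i) - S A n` against `∏ (log (n + t i))⁻¹` (monotone). The parts of the proof where the main term is estimated trivially (small `n`, and `n` with `W ≠ log` on primes) use `|A n| ≤ 2^k`.
-/

set_option autoImplicit false

open Finset Filter

namespace Pool.Agent.DSH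

open Pool.Agent.HLB Pool.Agent.HLT Pool.Agent.HLR Pool.Agent.Lib.GMV Pool.Agent.BLF
open Pool.Agent.Lib.GMV.LogsAux

theorem logsX (k : ℕ) (hk : 1 ≤ k) : ∃ C : ℝ, 0 < C ∧ ∀ (X Q : ℕ) (t : Fin k → ℕ) (S D : ℝ) (A : ℕ → ℝ),
    16 ≤ X → 4 ≤ Q → (Q : ℝ) ^ 2 ≤ X → (∀ i, t i ≤ X) → 0 ≤ S → 0 ≤ D → (∀ n, 1 ≤ n → |A n| ≤ 2 ^ k) →
    (∀ y : ℕ, y ≤ X → |∑ n ∈ Icc 1 y, ∏ i, W (2 * X) Q (n + t i) - S * ∑ n ∈ Icc 1 y, A n| ≤ D) →
    ∀ y : ℕ, y ≤ X →
    |(((Icc 1 y).filter (fun n => ∀ i, (n + t i).Prime)).card : ℝ) -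
      S * ∑ n ∈ Icc 2 y, A n * ∏ i, (Real.log (n + t i))⁻¹| ≤
      C * (D / Real.log X ^ k + (1 + S) * X / Q) := by
  have hl2 : 0 < Real.log 2 := Real.log_pos (by norm_num)
  have hl2' : 1 ≤ (Real.log 2)⁻¹ := by
    rw [one_le_inv₀ hl2]
    have := Real.log_two_lt_d9
    linarith
  have hB : 1 ≤ ((Real.log 2)⁻¹) ^ k := one_le_pow₀ hl2'
  set B : ℝ := ((Real.log 2)⁻¹) ^ k with hBdef
  have h2k : (1 : ℝ) ≤ 2 ^ k := one_le_pow₀ (by norm_num)
  refine ⟨2 * 2 ^ k + 5 * 2 ^ k * B, by positivity, ?_⟩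
  intro X Q t S D A hX hQ hQX ht hS hD hAb hyp y hy
  have hXR : (16 : ℝ) ≤ X := by exact_mod_cast hX
  have hQR : (4 : ℝ) ≤ Q := by exact_mod_cast hQ
  have hX0 : (0 : ℝ) < X := by linarith
  have hQ0 : (0 : ℝ) < Q := by linarith
  have hXQ : (Q : ℝ) ≤ X / Q := by
    rw [le_div_iff₀ hQ0]
    nlinarith
  have hlX : 0 < Real.log X := Real.log_pos (by linarith)
  set z : ℕ := ⌈4 * (X : ℝ) / Q⌉₊ with hz
  have hz1 : 4 * (X : ℝ) / Q ≤ z := Nat.le_ceil _
  have hz2 : (z : ℝ) ≤ 5 * (X / Q) := by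
    have h1 : (z : ℝ) < 4 * (X : ℝ) / Q + 1 := Nat.ceil_lt_add_one (by positivity)
    have h2 : 4 * (X : ℝ) / Q = 4 * (X / Q) := by ring
    rw [h2] at h1
    linarith
  have hzQ : 4 * (Q : ℝ) ≤ z := by
    have h2 : 4 * (X : ℝ) / Q = 4 * (X / Q) := by ring
    rw [h2] at hz1
    linarith
  have hz16 : 2 ≤ z := by
    have : (2 : ℝ) ≤ z := by linarith
    exact_mod_cast this
  -- `log z ≥ (log X) / 2`
  have hlz : Real.log X / 2 ≤ Real.log z := by
    have hz0 : (0 : ℝ) < z := by linarith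
    have h1 : (X : ℝ) ≤ (z : ℝ) ^ 2 := by
      have h3 : (X : ℝ) / Q ≤ z := by
        have h2 : 4 * (X : ℝ) / Q = 4 * (X / Q) := by ring
        rw [h2] at hz1
        linarith
      have h4 : (X : ℝ) = X / Q * Q := by field_simp
      have h5 : (Q : ℝ) ≤ z := by linarith
      rw [h4, sq]
      exact mul_le_mul h3 h5 hQ0.le hz0.le
    have h2 := Real.log_le_log hX0 h1
    rw [Real.log_pow] at h2
    push_cast at h2
    linarith
  have hgz : g t z ≤ 2 ^ k / Real.log X ^ k := by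
    have h := g_le t hz16 (L := Real.log X / 2) (by positivity) hlz
    have e : (Real.log X / 2)⁻¹ ^ k = 2 ^ k / Real.log X ^ k := by
      rw [inv_div, div_pow]
    rw [e] at h
    exact h
  -- the sum of `g` over small `n`
  have hgs : ∀ m : ℕ, ∑ n ∈ Icc 2 m, g t n ≤ m * B := by
    intro m
    calc ∑ n ∈ Icc 2 m, g t n ≤ ∑ _n ∈ Icc 2 m, B := by
          apply sum_le_sum
          intro n hn
          rw [mem_Icc] at hn
          apply g_le t hn.1 hl2
          apply Real.log_le_log (by norm_num)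
          exact_mod_cast hn.1
      _ = ((Icc 2 m).card : ℝ) * B := by rw [sum_const, nsmul_eq_mul]
      _ ≤ m * B := by
          apply mul_le_mul_of_nonneg_right _ (by positivity)
          rw [Nat.card_Icc]
          exact_mod_cast (by omega : m + 1 - 2 ≤ m)
  have hgA : ∀ m : ℕ, |∑ n ∈ Icc 2 m, A n * g t n| ≤ 2 ^ k * (m * B) := by
    intro m
    calc |∑ n ∈ Icc 2 m, A n * g t n| ≤ ∑ n ∈ Icc 2 m, |A n * g t n| := abs_sum_le_sum_abs _ _
      _ ≤ ∑ n ∈ Icc 2 m, 2 ^ k * g t n := by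
          apply sum_le_sum
          intro n hn
          rw [mem_Icc] at hn
          rw [abs_mul, abs_of_nonneg (g_nonneg t hn.1)]
          exact mul_le_mul_of_nonneg_right (hAb n (by omega)) (g_nonneg t hn.1)
      _ = 2 ^ k * ∑ n ∈ Icc 2 m, g t n := by rw [mul_sum]
      _ ≤ 2 ^ k * (m * B) := mul_le_mul_of_nonneg_left (hgs m) (by positivity)
  have hfold : ∑ n ∈ Icc 2 y, A n * ∏ i, (Real.log (n + t i))⁻¹ = ∑ n ∈ Icc 2 y, A n * g t n := rfl
  rw [hfold]
  have hT : 0 ≤ D / Real.log X ^ k := by positivity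
  have hU : 0 ≤ (X : ℝ) / Q := by positivity
  -- the small part
  have small : ∀ m : ℕ, m ≤ z →
      |(((Icc 1 m).filter (fun n => ∀ i, (n + t i).Prime)).card : ℝ) -
        S * ∑ n ∈ Icc 2 m, A n * g t n| ≤ 5 * 2 ^ k * B * ((1 + S) * X / Q) := by
    intro m hm
    have hmR : (m : ℝ) ≤ z := by exact_mod_cast hm
    have h1 : (((Icc 1 m).filter (fun n => ∀ i, (n + t i).Prime)).card : ℝ) ≤ z := by
      refine le_trans ?_ hmR
      have := Finset.card_filter_le (Icc 1 m) (fun n => ∀ i, (n + t i).Prime)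
      rw [Nat.card_Icc] at this
      exact_mod_cast (by omega : ((Icc 1 m).filter (fun n => ∀ i, (n + t i).Prime)).card ≤ m)
    have h2 : |S * ∑ n ∈ Icc 2 m, A n * g t n| ≤ S * (2 ^ k * (z * B)) := by
      rw [abs_mul, abs_of_nonneg hS]
      apply mul_le_mul_of_nonneg_left _ hS
      refine (hgA m).trans ?_
      apply mul_le_mul_of_nonneg_left _ (by positivity)
      exact mul_le_mul_of_nonneg_right hmR (by positivity)
    have h4 : (0 : ℝ) ≤ (((Icc 1 m).filter (fun n => ∀ i, (n + t i).Prime)).card : ℝ) :=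
      Nat.cast_nonneg _
    have h5 : 5 * 2 ^ k * B * ((1 + S) * X / Q) =
        5 * (X / Q) * (2 ^ k * B) + S * (2 ^ k * (5 * (X / Q) * B)) := by ring
    rw [h5]
    have h6 : (z : ℝ) ≤ 5 * (X / Q) * (2 ^ k * B) := by
      refine hz2.trans ?_
      have h8 : (1 : ℝ) ≤ 2 ^ k * B := one_le_mul_of_one_le_of_one_le h2k hB
      nlinarith
    have h7 : S * (2 ^ k * (z * B)) ≤ S * (2 ^ k * (5 * (X / Q) * B)) := by
      apply mul_le_mul_of_nonneg_left _ hS
      apply mul_le_mul_of_nonneg_left _ (by positivity)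
      exact mul_le_mul_of_nonneg_right hz2 (by positivity)
    calc _ ≤ |(((Icc 1 m).filter (fun n => ∀ i, (n + t i).Prime)).card : ℝ)| +
          |S * ∑ n ∈ Icc 2 m, A n * g t n| := abs_sub _ _
      _ ≤ _ := by
          rw [abs_of_nonneg h4]
          linarith
  have hfin : 5 * 2 ^ k * B * ((1 + S) * X / Q) ≤
      (2 * 2 ^ k + 5 * 2 ^ k * B) * (D / Real.log X ^ k + (1 + S) * X / Q) := by
    have h1 : 0 ≤ (1 + S) * X / Q := by positivity
    have h2 : (0 : ℝ) ≤ 2 * 2 ^ k := by positivity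
    have h3 : (0 : ℝ) ≤ 5 * 2 ^ k * B := by positivity
    nlinarith [mul_nonneg h2 hT, mul_nonneg h2 h1, mul_nonneg h3 hT]
  rcases le_or_gt y z with hyz | hyz
  · exact (small y hyz).trans hfin
  -- the large part
  set a : ℕ → ℝ := fun n => ∏ i, W (2 * X) Q (n + t i) with ha
  set d : ℕ → ℝ := fun n => ∑ m ∈ Icc 1 n, a m - S * ∑ m ∈ Icc 1 n, A m with hd
  have hab := abel (g t) (fun n => a n - S * A n) d D z X
    (by
      intro n
      simp only [hd]
      rw [← Finset.insert_Icc_right_eq_Icc_add_one (by omega), sum_insert (by simp),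
        sum_insert (by simp)]
      ring)
    (fun n hn => hyp n hn)
    (fun m n hm hmn => g_anti t (hz16.trans hm) hmn)
    (fun n hn => g_nonneg t (hz16.trans hn)) y hyz.le hy
  have hind : ∀ n ∈ Ioc z y, g t n * a n = if (∀ i, (n + t i).Prime) then 1 else 0 := by
    intro n hn
    rw [mem_Ioc] at hn
    have hn2 : 2 ≤ n := hz16.trans hn.1.le
    have hv : ∀ i, vw (2 * X) Q ((n + t i : ℕ) : ℝ) = 1 := by
      intro i
      have h1 : (z : ℝ) ≤ ((n + t i : ℕ) : ℝ) := by
        exact_mod_cast hn.1.le.trans (Nat.le_add_right _ _)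
      have h2 : ((n + t i : ℕ) : ℝ) ≤ 2 * X := by
        have : n + t i ≤ 2 * X := by
          have := ht i
          omega
        exact_mod_cast this
      unfold vw
      push_cast at h1 h2 ⊢
      have h3 : 2 ≤ ((n : ℝ) + t i) * Q / (2 * X) := by
        rw [le_div_iff₀ (by positivity)]
        have h4 : 4 * (X : ℝ) / Q ≤ (n : ℝ) + t i := hz1.trans h1
        rw [div_le_iff₀ hQ0] at h4
        linarith
      have h5 : ((n : ℝ) + t i) * Q / (2 * X) ≤ Q := by
        rw [div_le_iff₀ (by positivity)]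
        nlinarith
      rw [min_eq_left, max_eq_right (by norm_num)]
      rw [le_min_iff]
      constructor <;> linarith
    have ha' : a n = ∏ i, HLT.lp (n + t i) := by
      simp only [ha]
      apply prod_congr rfl
      intro i _
      unfold W
      rw [hv i, one_mul]
    rw [ha']
    unfold g
    rw [← prod_mul_distrib]
    split_ifs with hp
    · apply prod_eq_one
      intro i _
      unfold HLT.lp
      rw [if_pos (hp i)]
      push_cast
      exact inv_mul_cancel₀ (log_pos' hn2).ne'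
    · push Not at hp
      obtain ⟨i, hi⟩ := hp
      apply prod_eq_zero (mem_univ i)
      unfold HLT.lp
      rw [if_neg hi, mul_zero]
  have hsum : ∑ n ∈ Ioc z y, g t n * (a n - S * A n) =
      (((Ioc z y).filter (fun n => ∀ i, (n + t i).Prime)).card : ℝ) -
        S * ∑ n ∈ Ioc z y, A n * g t n := by
    rw [card_filter]
    push_cast
    rw [mul_sum, ← sum_sub_distrib]
    apply sum_congr rfl
    intro n hn
    rw [mul_sub, hind n hn]
    ring
  have hsplit1 : (((Icc 1 y).filter (fun n => ∀ i, (n + t i).Prime)).card : ℝ) =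
      (((Icc 1 z).filter (fun n => ∀ i, (n + t i).Prime)).card : ℝ) +
      (((Ioc z y).filter (fun n => ∀ i, (n + t i).Prime)).card : ℝ) := by
    have e : Icc 1 y = Icc 1 z ∪ Ioc z y := by
      ext n
      simp only [mem_Icc, mem_union, mem_Ioc]
      omega
    rw [e, filter_union, card_union_of_disjoint]
    · push_cast; ring
    · apply Finset.disjoint_filter_filter
      rw [Finset.disjoint_left]
      intro n h1 h2
      rw [mem_Icc] at h1
      rw [mem_Ioc] at h2
      omega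
  have hsplit2 : ∑ n ∈ Icc 2 y, A n * g t n =
      ∑ n ∈ Icc 2 z, A n * g t n + ∑ n ∈ Ioc z y, A n * g t n := by
    have e : Icc 2 y = Icc 2 z ∪ Ioc z y := by
      ext n
      simp only [mem_Icc, mem_union, mem_Ioc]
      omega
    rw [e, sum_union]
    rw [Finset.disjoint_left]
    intro n h1 h2
    rw [mem_Icc] at h1
    rw [mem_Ioc] at h2
    omega
  have hsm := small z le_rfl
  rw [hsplit1, hsplit2]
  rw [hsum] at hab
  have h2D : 2 * D * g t z ≤ 2 * 2 ^ k * (D / Real.log X ^ k) := by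
    calc 2 * D * g t z ≤ 2 * D * (2 ^ k / Real.log X ^ k) :=
          mul_le_mul_of_nonneg_left hgz (by positivity)
      _ = 2 * 2 ^ k * (D / Real.log X ^ k) := by ring
  have hfin2 : 2 * 2 ^ k * (D / Real.log X ^ k) + 5 * 2 ^ k * B * ((1 + S) * X / Q) ≤
      (2 * 2 ^ k + 5 * 2 ^ k * B) * (D / Real.log X ^ k + (1 + S) * X / Q) := by
    have h1 : 0 ≤ (1 + S) * X / Q := by positivity
    have h2 : (0 : ℝ) ≤ 2 * 2 ^ k := by positivity
    have h3 : (0 : ℝ) ≤ 5 * 2 ^ k * B := by positivity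
    nlinarith [mul_nonneg h2 hT, mul_nonneg h2 h1, mul_nonneg h3 hT]
  have hab' := hab.trans h2D
  rw [abs_le] at hsm hab' ⊢
  constructor <;> linarith [hsm.1, hsm.2, hab'.1, hab'.2]


end Pool.Agent.DSH
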