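import Pool.Agent.Lib.DSH.TPX
import Pool.Agent.Lib.GMV.FreeY

/-!
# DSH.NormX (1.7 h): a single tuple, weighted primes, with the exceptional character

PROOF. As `DSH.NormD` / the inner part of `GMV.freeY`, at the scale `2X`, `k = r + 1`, `h i = 1 + c0 a i ∈ Icc 1 (2X)`, `Y = Q^(8k)`, `M = {one, xe}`: `Dv`, `mainT` (error `≤ C1 SZ · 2X · E + 2X/Q`), the main term is `∑_{n ≤ y} ∑_{x ∈ M^k} TP Y x h ∏_i Mc (x i) (n + h i)
= SZ Y h ∑_{n ≤ y} ax xe h (Mc one (n + h ·)) (Mc xe (n + h ·))` (`tpx` for each `n`). For the `n` with `3(2X) ≤ (n + h i) Q`, `(n+h i) Q + 2X ≤ 2(2X)Q` for all `i` (all but `O(X/Q)`, `FreeYAux.card_bad`) the arguments are within `E` of `1` and `-(n + h i)^(β-1)`, so `ax` differs from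
`Ax xe β h n` (`Ax_eq`) by at most `k (2β')^k · 2E`, `β' = max 1 B + 1` (every factor is bounded by `2 β'`; telescoping); for the other `n` both are bounded (`ax_bd`, `Ax_bd`; `‖Mc‖ ≤ B`). `SZ` versus `SI`: `sps`, `SI` small: `sz_le`; `SI_shift`, `Ax_shift`: `∑_{n ∈ Icc 1 y} Ax (1 + c0 a) n = ∑_{n ∈ Icc 2 (y+1)} Ax (c0 a) n`;
the term `n = 1` of `∑ ∏ W (n + c0 a i)` is `0` (`W (2X) Q 1 = 0`), and `Ax (c0 a) 1` is bounded.
-/

set_option autoImplicit false

open Finset Filter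

namespace Pool.Agent.DSH

open Pool.Agent.HLB Pool.Agent.HLT Pool.Agent.HLR Pool.Agent.Lib.GMV Pool.Agent.BLF

namespace NormXAux

/-- Products of near numbers. -/
lemma prod_diff {ι : Type} (s : Finset ι) (u v : ι → ℂ) {K δ : ℝ} (hK : 1 ≤ K) (hδ : 0 ≤ δ)
    (h1 : ∀ i ∈ s, ‖u i‖ ≤ K) (h2 : ∀ i ∈ s, ‖v i‖ ≤ K) (h3 : ∀ i ∈ s, ‖u i - v i‖ ≤ δ) :
    ‖∏ i ∈ s, u i - ∏ i ∈ s, v i‖ ≤ s.card * K ^ s.card * δ := by
  classical
  induction s using Finset.induction_on with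
  | empty => simp
  | insert a s ha ih =>
    have ih' := ih (fun i hi => h1 i (Finset.mem_insert_of_mem hi))
      (fun i hi => h2 i (Finset.mem_insert_of_mem hi))
      (fun i hi => h3 i (Finset.mem_insert_of_mem hi))
    rw [Finset.prod_insert ha, Finset.prod_insert ha, Finset.card_insert_of_notMem ha]
    have e : u a * ∏ i ∈ s, u i - v a * ∏ i ∈ s, v i =
        u a * (∏ i ∈ s, u i - ∏ i ∈ s, v i) + (u a - v a) * ∏ i ∈ s, v i := by ring
    rw [e]
    refine (norm_add_le _ _).trans ?_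
    rw [norm_mul, norm_mul]
    have h4 := h1 a (Finset.mem_insert_self _ _)
    have h5 := h3 a (Finset.mem_insert_self _ _)
    have h6 : ‖∏ i ∈ s, v i‖ ≤ K ^ s.card := FreeYAux.prod_bdd s v
      (fun i hi => h2 i (Finset.mem_insert_of_mem hi))
    have h7 : ‖u a‖ * ‖∏ i ∈ s, u i - ∏ i ∈ s, v i‖ ≤ K * (s.card * K ^ s.card * δ) :=
      mul_le_mul h4 ih' (norm_nonneg _) (by linarith)
    have h8 : ‖u a - v a‖ * ‖∏ i ∈ s, v i‖ ≤ δ * K ^ s.card :=
      mul_le_mul h5 h6 (norm_nonneg _) hδ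
    have h9 : δ * K ^ s.card ≤ δ * K ^ (s.card + 1) := by
      refine mul_le_mul_of_nonneg_left ?_ hδ
      rw [pow_succ]
      exact le_mul_of_one_le_right (pow_nonneg (by linarith) _) hK
    have e2 : ((s.card + 1 : ℕ) : ℝ) * K ^ (s.card + 1) * δ =
        K * (s.card * K ^ s.card * δ) + δ * K ^ (s.card + 1) := by
      push_cast
      ring
    rw [e2]
    linarith

/-- The means over the classes for near values. -/
lemma ax_diff {k : ℕ} (x : CI) (h : Fin k → ℕ) (z1 z2 w1 w2 : Fin k → ℂ) {K δ : ℝ} (hK : 1 ≤ K)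
    (hδ : 0 ≤ δ) (h1 : ∀ i, ‖z1 i‖ + ‖z2 i‖ ≤ K) (h2 : ∀ i, ‖w1 i‖ + ‖w2 i‖ ≤ K)
    (h3 : ∀ i, ‖z1 i - w1 i‖ + ‖z2 i - w2 i‖ ≤ δ) :
    ‖ax x h z1 z2 - ax x h w1 w2‖ ≤ k * K ^ k * δ := by
  unfold ax
  have hcv : ∀ n, ‖cv x n‖ ≤ 1 := fun n => DirichletCharacter.norm_le_one _ _
  have hb : 0 ≤ (k : ℝ) * K ^ k * δ := by positivity
  rcases Nat.eq_zero_or_pos (cx x h).card with h0 | h0
  · rw [h0]
    simpa using hb
  · have h0' : (0 : ℝ) < (cx x h).card := by exact_mod_cast h0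
    rw [← sub_div, norm_div, Complex.norm_natCast, div_le_iff₀ h0', ← Finset.sum_sub_distrib]
    refine (norm_sum_le _ _).trans ?_
    refine (Finset.sum_le_sum (g := fun _ => (k : ℝ) * K ^ k * δ) fun c _ => ?_).trans ?_
    · have := prod_diff (Finset.univ : Finset (Fin k)) (fun i => z1 i + cv x (c + h i) * z2 i)
        (fun i => w1 i + cv x (c + h i) * w2 i) hK hδ ?_ ?_ ?_
      · rwa [Finset.card_univ, Fintype.card_fin] at this
      · intro i _
        refine (norm_add_le _ _).trans (le_trans ?_ (h1 i))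
        rw [norm_mul]
        have := mul_le_mul_of_nonneg_right (hcv (c + h i)) (norm_nonneg (z2 i))
        linarith
      · intro i _
        refine (norm_add_le _ _).trans (le_trans ?_ (h2 i))
        rw [norm_mul]
        have := mul_le_mul_of_nonneg_right (hcv (c + h i)) (norm_nonneg (w2 i))
        linarith
      · intro i _
        have e : z1 i + cv x (c + h i) * z2 i - (w1 i + cv x (c + h i) * w2 i) =
            (z1 i - w1 i) + cv x (c + h i) * (z2 i - w2 i) := by ring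
        rw [e]
        refine (norm_add_le _ _).trans (le_trans ?_ (h3 i))
        rw [norm_mul]
        have := mul_le_mul_of_nonneg_right (hcv (c + h i)) (norm_nonneg (z2 i - w2 i))
        linarith
    · rw [Finset.sum_const, nsmul_eq_mul, mul_comm]

/-- Growth in `Q`. -/
lemma growthE (D e : ℝ) (he : 0 < e) (he2 : e ≤ 1 / 2) (k : ℕ) : ∀ᶠ q : ℝ in atTop,
    q ^ (-e) + 2 / q + D * Real.log q ^ k / q ≤ q ^ (-(e / 2)) := by
  have h1 : ∀ᶠ q : ℝ in atTop, (3 : ℝ) ≤ q ^ (e / 2) :=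
    (tendsto_rpow_atTop (by linarith)).eventually_ge_atTop 3
  have h2 : ∀ᶠ q : ℝ in atTop, (6 : ℝ) ≤ q ^ (1 - e / 2) :=
    (tendsto_rpow_atTop (by linarith)).eventually_ge_atTop 6
  have h3 : ∀ᶠ q : ℝ in atTop, 3 * |D| ≤ q ^ (1 / 2 - e / 2) :=
    (tendsto_rpow_atTop (by linarith)).eventually_ge_atTop (3 * |D|)
  have h4 := (isLittleO_log_rpow_rpow_atTop (k : ℝ) (show (0 : ℝ) < 1 / 2 by norm_num)).bound
    (c := 1) one_pos
  filter_upwards [h1, h2, h3, h4, eventually_ge_atTop 1] with q g1 g2 g3 g4 hq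
  have hq0 : 0 < q := by linarith
  have hlog : 0 ≤ Real.log q := Real.log_nonneg hq
  have a1 : q ^ (-e) * 3 ≤ q ^ (-(e / 2)) := by
    have e1 : q ^ (-(e / 2)) = q ^ (-e) * q ^ (e / 2) := by
      rw [← Real.rpow_add hq0]
      congr 1
      ring
    rw [e1]
    exact mul_le_mul_of_nonneg_left g1 (Real.rpow_nonneg hq0.le _)
  have e2 : q ^ (-(e / 2)) = 1 / q * q ^ (1 - e / 2) := by
    have e' : 1 / q = q ^ (-1 : ℝ) := by rw [Real.rpow_neg_one, one_div]
    rw [e', ← Real.rpow_add hq0]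
    congr 1
    ring
  have a2 : 2 / q * 3 ≤ q ^ (-(e / 2)) := by
    rw [e2]
    have : 2 / q * 3 = 1 / q * 6 := by ring
    rw [this]
    exact mul_le_mul_of_nonneg_left g2 (by positivity)
  have a3 : D * Real.log q ^ k / q * 3 ≤ q ^ (-(e / 2)) := by
    rw [Real.rpow_natCast, Real.norm_of_nonneg (pow_nonneg hlog k),
      Real.norm_of_nonneg (Real.rpow_nonneg hq0.le _), one_mul] at g4
    have b1 : D * Real.log q ^ k ≤ |D| * q ^ (1 / 2 : ℝ) :=
      (mul_le_mul_of_nonneg_right (le_abs_self D) (pow_nonneg hlog k)).trans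
        (mul_le_mul_of_nonneg_left g4 (abs_nonneg D))
    have b2 : D * Real.log q ^ k / q ≤ |D| * q ^ (1 / 2 : ℝ) / q :=
      div_le_div_of_nonneg_right b1 hq0.le
    have e3 : q ^ (1 - e / 2) = q ^ (1 / 2 : ℝ) * q ^ (1 / 2 - e / 2) := by
      rw [← Real.rpow_add hq0]
      congr 1
      ring
    rw [e2, e3]
    calc D * Real.log q ^ k / q * 3 ≤ |D| * q ^ (1 / 2 : ℝ) / q * 3 :=
          mul_le_mul_of_nonneg_right b2 (by norm_num)
      _ = 1 / q * (q ^ (1 / 2 : ℝ) * (3 * |D|)) := by ring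
      _ ≤ _ := mul_le_mul_of_nonneg_left
          (mul_le_mul_of_nonneg_left g3 (Real.rpow_nonneg hq0.le _)) (by positivity)
  linarith

/-- A sum over `Icc 1 y` starts with the term `1`. -/
lemma sum_shift {α : Type} [AddCommMonoid α] (f : ℕ → α) (y : ℕ) :
    ∑ n ∈ Icc 1 (y + 1), f n = f 1 + ∑ n ∈ Icc 1 y, f (n + 1) := by
  induction y with
  | zero => simp
  | succ y ih =>
    rw [Finset.sum_Icc_succ_top (by omega), ih, Finset.sum_Icc_succ_top (by omega), add_assoc]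

end NormXAux

open NormXAux

theorem normX (r : ℕ) (hr : 1 ≤ r) (B e : ℝ) (he : 0 < e) (he2 : e ≤ 1 / 2) : ∃ c C : ℝ, 0 < c ∧ 0 < C ∧ ∃ X0 : ℕ,
    ∀ X Q : ℕ, X0 ≤ X → Rg c (2 * X) Q → ∀ b : CI → ℝ,
    (∀ x ∈ Ch Q, ∀ n, ‖Mc (2 * X) Q x n‖ ≤ b x) → ∑ x ∈ Ch Q, b x ≤ B →
    ∀ (xe : CI) (β E : ℝ), xe ∈ Ch Q → xe.2 ≠ 1 → xe.2 ^ 2 = 1 → 9 / 10 ≤ β → β < 1 →
    ∑ x ∈ Ch Q \ {one, xe}, b x ≤ E →
    (∀ n : ℕ, 3 * (2 * X) ≤ n * Q → n * Q + 2 * X ≤ 2 * (2 * X) * Q → ‖Mc (2 * X) Q one n - 1‖ ≤ E) →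
    (∀ n : ℕ, 3 * (2 * X) ≤ n * Q → n * Q + 2 * X ≤ 2 * (2 * X) * Q →
      ‖Mc (2 * X) Q xe n + (((n : ℝ) ^ (β - 1) : ℝ) : ℂ)‖ ≤ E) →
    ∀ a ∈ Tup r (range (X + 1)), Dv e r X Q a → Function.Injective (c0 a) → ∀ y : ℕ, y ≤ X →
      |∑ n ∈ Icc 1 y, ∏ i, W (2 * X) Q (n + c0 a i) - SI (c0 a) * ∑ n ∈ Icc 1 y, Ax xe β (c0 a) n| ≤
        C * SI (c0 a) * X * E + X * (Q : ℝ) ^ (-(e / 2)) := by
  classical
  obtain ⟨k, hk⟩ : ∃ k, k = r + 1 := ⟨_, rfl⟩
  obtain ⟨c1, C1, hc1, hC1, X1, hmain⟩ := mainT (r + 1) (by omega) B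
  obtain ⟨X3, hsps⟩ := sps (r + 1) (by omega)
  obtain ⟨C3, hC3, hsz⟩ := sz_le (r + 1)
  obtain ⟨K, hK⟩ : ∃ K : ℝ, K = 2 * max 1 B := ⟨_, rfl⟩
  have hβ1 : (1 : ℝ) ≤ max 1 B := le_max_left _ _
  have hK2 : 2 ≤ K := by rw [hK]; linarith
  obtain ⟨KK, hKK⟩ : ∃ KK : ℝ, KK = K ^ (r + 1) := ⟨_, rfl⟩
  have hKK2 : (2 : ℝ) ^ (r + 1) ≤ KK := by
    rw [hKK]
    exact pow_le_pow_left₀ (by norm_num) hK2 _
  have hKK1 : 1 ≤ KK := le_trans (one_le_pow₀ (by norm_num)) hKK2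
  obtain ⟨D, hD⟩ : ∃ D : ℝ, D = 44 * KK * (2 * C3 * (8 * (r + 1 : ℕ)) ^ (r + 1)) := ⟨_, rfl⟩
  obtain ⟨X4, hX4⟩ := FreeYAux.largeQ (fun q => q ^ (-e) + 2 / q + D * Real.log q ^ (r + 1) / q ≤
    q ^ (-(e / 2)) ∧ 2 ≤ q) ((growthE D e he he2 (r + 1)).and (eventually_ge_atTop 2))
  refine ⟨min c1 (1 / 2), 4 * C1 + 4 * (r + 1 : ℕ) * KK, lt_min hc1 (by norm_num), by positivity,
    max (max X1 X3) (max X4 2), ?_⟩
  intro X Q hX hR b hb hbB xe β E hxe hxe1 hxe2 hβ9 hβ' hE hone hexc a ha hDv hinj y hy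
  have hX1 : X1 ≤ 2 * X := by
    have := (le_max_left X1 X3).trans ((le_max_left _ _).trans hX)
    omega
  have hX3 : X3 ≤ 2 * X := by
    have := (le_max_right X1 X3).trans ((le_max_left _ _).trans hX)
    omega
  have hX4' : X4 ≤ 2 * X := by
    have := (le_max_left X4 2).trans ((le_max_right _ _).trans hX)
    omega
  have hX5 : 2 ≤ X := (le_max_right X4 2).trans ((le_max_right _ _).trans hX)
  obtain ⟨hgr, hQ2⟩ := hX4 (2 * X) Q hX4' hR.1
  have hQn : 2 ≤ Q := by exact_mod_cast hQ2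
  have hQ0 : (0 : ℝ) < Q := by linarith
  have hR1 : Rg c1 (2 * X) Q := FreeYAux.Rg_mono (min_le_left _ _) (by omega) hR
  have hR3 : Rg 1 (2 * X) Q :=
    FreeYAux.Rg_mono ((min_le_right _ _).trans (by norm_num)) (by omega) hR
  have hR4 : Rg (1 / 2) (2 * X) Q := FreeYAux.Rg_mono (min_le_right _ _) (by omega) hR
  have hXr : (2 : ℝ) ≤ X := by exact_mod_cast hX5
  have hQX : (Q : ℝ) ≤ X := by
    refine hR4.2.trans ?_
    rw [← Real.sqrt_eq_rpow]
    push_cast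
    rw [Real.sqrt_le_left (by linarith)]
    nlinarith
  have hQXn : Q ≤ X := by exact_mod_cast hQX
  have hb0 : ∀ x ∈ Ch Q, 0 ≤ b x := fun x hx => (norm_nonneg _).trans (hb x hx 0)
  have h1C : one ∈ Ch Q := one_mem_Ch (by omega)
  have hMC : ({one, xe} : Finset CI) ⊆ Ch Q := by
    intro x hx
    rcases Finset.mem_insert.1 hx with h3 | h3
    · rw [h3]; exact h1C
    · rw [Finset.mem_singleton.1 h3]; exact hxe
  have hE0 : 0 ≤ E := le_trans (Finset.sum_nonneg fun x hx =>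
    hb0 x (Finset.mem_sdiff.1 hx).1) hE
  have hMcb : ∀ x ∈ Ch Q, ∀ n, ‖Mc (2 * X) Q x n‖ ≤ max 1 B := by
    intro x hx n
    refine (hb x hx n).trans ?_
    refine le_trans ?_ (hbB.trans (le_max_right _ _))
    exact Finset.single_le_sum hb0 hx
  have hxne : xe ≠ one := by
    rintro rfl
    exact hxe1 rfl
  -- the tuple
  obtain ⟨h, hh⟩ : ∃ h : Fin (r + 1) → ℕ, h = fun i => 1 + c0 a i := ⟨_, rfl⟩
  have hc0 : ∀ i, c0 a i ≤ X := by
    intro i
    refine Fin.cases ?_ (fun j => ?_) i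
    · show (Fin.cons 0 a : Fin (r + 1) → ℕ) 0 ≤ X
      rw [Fin.cons_zero]
      omega
    · show (Fin.cons 0 a : Fin (r + 1) → ℕ) j.succ ≤ X
      rw [Fin.cons_succ]
      have := Finset.mem_range.1 (mem_Tup.1 ha j)
      omega
  have hh1 : ∀ i, 1 ≤ h i ∧ h i ≤ 2 * X := by
    intro i
    rw [hh]
    have := hc0 i
    constructor
    · show 1 ≤ 1 + c0 a i
      omega
    · show 1 + c0 a i ≤ 2 * X
      omega
  have hhT : h ∈ Tup (r + 1) (Icc 1 (2 * X)) :=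
    mem_Tup.2 fun i => Finset.mem_Icc.2 (hh1 i)
  have hhinj : Function.Injective h := by
    intro i j hij
    apply hinj
    rw [hh] at hij
    exact Nat.add_left_cancel hij
  obtain ⟨Y, hY⟩ : ∃ Y, Y = Q ^ (8 * (r + 1)) := ⟨_, rfl⟩
  have hQY : Q ≤ Y := by
    rw [hY]
    calc Q = Q ^ 1 := (pow_one Q).symm
      _ ≤ Q ^ (8 * (r + 1)) := Nat.pow_le_pow_right (by omega) (by omega)
  have hY2 : 2 ≤ Y := hQn.trans hQY
  obtain ⟨S, hS⟩ : ∃ S, S = SZ Y h := ⟨_, rfl⟩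
  obtain ⟨s, hs⟩ : ∃ s, s = SI (c0 a) := ⟨_, rfl⟩
  have hsh : SI h = s := by
    rw [hs, hh]
    exact SI_shift _ _
  have hS0 : 0 ≤ S := by rw [hS]; exact SZ_nonneg _ _
  have hSs : |S - s| ≤ s / Q := by
    rw [hS, ← hsh, hY]
    refine hsps (2 * X) Q hX3 hR3 h ?_ hhinj
    rw [mem_Tup]
    intro i
    rw [Finset.mem_range]
    have := (hh1 i).2
    omega
  have hs0 : 0 ≤ s := by
    have h1 := (abs_nonneg _).trans hSs
    rwa [le_div_iff₀ hQ0, zero_mul] at h1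
  have hsQ : s / Q ≤ s / 2 := div_le_div_of_nonneg_left hs0 (by norm_num) hQ2
  have hS2s : S ≤ 2 * s := by
    have h1 := le_abs_self (S - s)
    linarith
  have hs2S : s ≤ 2 * S := by
    have h1 := neg_abs_le (S - s)
    linarith
  have hSlog : S ≤ C3 * (8 * (r + 1 : ℕ)) ^ (r + 1) * Real.log Q ^ (r + 1) := by
    have h1 := hsz Y h hY2
    rw [← hS] at h1
    refine h1.trans (le_of_eq ?_)
    rw [hY, Nat.cast_pow, Real.log_pow]
    push_cast
    rw [mul_pow]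
    ring
  -- the estimate for the shifted sums
  have key : ∀ z : ℕ, z ≤ X → |∑ n ∈ Icc 1 z, ∏ i, W (2 * X) Q (n + h i) -
      s * ∑ n ∈ Icc 1 z, Ax xe β h n| ≤
      X * (Q : ℝ) ^ (-e) + (C1 * S * (2 * X) * E + 2 * X / Q) +
        S * (X * ((r + 1 : ℕ) * KK * (2 * E)) + 5 * (2 * X) / Q * (2 * KK)) + s / Q * (X * KK) := by
    intro z hz
    have hzr : (z : ℝ) ≤ X := by exact_mod_cast hz
    obtain ⟨T, hTe⟩ : ∃ T : ℂ, T = ∑ n ∈ Icc 1 z, ∏ i, (W (2 * X) Q (n + h i) : ℂ) := ⟨_, rfl⟩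
    obtain ⟨L, hL⟩ : ∃ L : ℂ, L = ∑ n ∈ Icc 1 z, ∏ i, LL (2 * X) Q (Q ^ (8 * (r + 1))) (n + h i) :=
      ⟨_, rfl⟩
    obtain ⟨A, hA⟩ : ∃ A : ℕ → ℂ, A = fun n => ax xe h (fun i => Mc (2 * X) Q one (n + h i))
      (fun i => Mc (2 * X) Q xe (n + h i)) := ⟨_, rfl⟩
    obtain ⟨G, hG⟩ : ∃ G : ℕ → ℝ, G = fun n => Ax xe β h n := ⟨_, rfl⟩
    have hTL : ‖T - L‖ ≤ X * (Q : ℝ) ^ (-e) := by
      have h1 := hDv z hz
      unfold dev at h1
      rw [Finset.sum_sub_distrib] at h1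
      rw [hTe, hL, hh]
      exact h1
    have hLA := hmain (2 * X) Q hX1 hR1 b hb hbB {one, xe} E hMC hE h hhT hhinj z (by omega)
    rw [← hL, ← hY, ← hS] at hLA
    have hsum : ∑ x ∈ Fintype.piFinset (fun _ : Fin (r + 1) => ({one, xe} : Finset CI)),
        TP Y x h * ∑ n ∈ Icc 1 z, ∏ i, Mc (2 * X) Q (x i) (n + h i) =
        (S : ℂ) * ∑ n ∈ Icc 1 z, A n := by
      rw [Finset.mul_sum]
      simp only [Finset.mul_sum]
      rw [Finset.sum_comm]
      refine Finset.sum_congr rfl fun n _ => ?_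
      rw [hA, hS]
      have h1 := tpx Y xe hxne hxe2 ((mem_Ch.1 hxe).1.trans hQY) h
        (fun i => Mc (2 * X) Q one (n + h i)) (fun i => Mc (2 * X) Q xe (n + h i))
      rw [← h1]
      refine Finset.sum_congr rfl fun x hx => ?_
      congr 1
      refine Finset.prod_congr rfl fun i _ => ?_
      rcases Finset.mem_insert.1 (Fintype.mem_piFinset.1 hx i) with h3 | h3
      · rw [if_pos h3, h3]
      · have h4 := Finset.mem_singleton.1 h3
        rw [if_neg (by rw [h4]; exact hxne), h4]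
    rw [hsum] at hLA
    have hLA' : ‖L - (S : ℂ) * ∑ n ∈ Icc 1 z, A n‖ ≤ C1 * S * (2 * X) * E + 2 * X / Q := by
      refine hLA.trans (le_of_eq ?_)
      push_cast
      ring
    have hGb : ∀ n ∈ Icc 1 z, |G n| ≤ KK := by
      intro n hn
      rw [hG]
      exact (Ax_bd xe β hβ'.le h n (Finset.mem_Icc.1 hn).1).trans hKK2
    have hAb : ∀ n, ‖A n‖ ≤ KK := by
      intro n
      rw [hA, hKK]
      refine ax_bd xe h _ _ K fun i => ?_
      have h1 := hMcb one h1C (n + h i)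
      have h2 := hMcb xe hxe (n + h i)
      rw [hK]
      linarith
    have hAG : ‖∑ n ∈ Icc 1 z, A n - ∑ n ∈ Icc 1 z, (G n : ℂ)‖ ≤
        X * ((r + 1 : ℕ) * KK * (2 * E)) + 5 * (2 * X) / Q * (2 * KK) := by
      rw [← Finset.sum_sub_distrib]
      refine (norm_sum_le _ _).trans ?_
      have h2 : ∀ n ∈ Icc 1 z, ‖A n - (G n : ℂ)‖ ≤ (r + 1 : ℕ) * KK * (2 * E) +
          (if n * Q < 3 * (2 * X) ∨ (2 * X) * Q < n * Q + 2 * X then 2 * KK else 0) := by
        intro n hn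
        split_ifs with hbad
        · have h3 := norm_sub_le (A n) (G n : ℂ)
          have h4 := hAb n
          have h5 := hGb n hn
          rw [Complex.norm_real, Real.norm_eq_abs] at h3
          have h6 : 0 ≤ ((r + 1 : ℕ) : ℝ) * KK * (2 * E) := by positivity
          linarith
        · rw [add_zero]
          push Not at hbad
          obtain ⟨hb1, hb2⟩ := hbad
          have hn1 := (Finset.mem_Icc.1 hn).1
          rw [hA, hG]
          show ‖ax xe h (fun i => Mc (2 * X) Q one (n + h i)) (fun i => Mc (2 * X) Q xe (n + h i)) -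
            (Ax xe β h n : ℂ)‖ ≤ _
          rw [Ax_eq xe hxe2 β h n, hKK]
          have hpow : ∀ i, ((n + h i : ℕ) : ℝ) ^ (β - 1) ≤ 1 := by
            intro i
            refine Real.rpow_le_one_of_one_le_of_nonpos ?_ (by linarith)
            have : 1 ≤ n + h i := by omega
            exact_mod_cast this
          have hpow0 : ∀ i, 0 ≤ ((n + h i : ℕ) : ℝ) ^ (β - 1) :=
            fun i => Real.rpow_nonneg (Nat.cast_nonneg _) _
          have hgood : ∀ i, 3 * (2 * X) ≤ (n + h i) * Q ∧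
              (n + h i) * Q + 2 * X ≤ 2 * (2 * X) * Q := by
            intro i
            constructor
            · exact hb1.trans (Nat.mul_le_mul_right _ (Nat.le_add_right _ _))
            · have h4 : h i * Q ≤ (2 * X) * Q := Nat.mul_le_mul_right _ (hh1 i).2
              have h5 : (n + h i) * Q = n * Q + h i * Q := by ring
              have h6 : 2 * (2 * X) * Q = (2 * X) * Q + (2 * X) * Q := by ring
              omega
          refine ax_diff xe h _ _ _ _ (by linarith) (by linarith) (fun i => ?_) (fun i => ?_)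
            (fun i => ?_)
          · have h1 := hMcb one h1C (n + h i)
            have h2 := hMcb xe hxe (n + h i)
            rw [hK]
            linarith
          · rw [norm_one, norm_neg, Complex.norm_real, Real.norm_of_nonneg (hpow0 i)]
            have := hpow i
            linarith
          · have h1 := hone (n + h i) (hgood i).1 (hgood i).2
            have h2 := hexc (n + h i) (hgood i).1 (hgood i).2
            rw [sub_neg_eq_add]
            linarith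
      refine (Finset.sum_le_sum h2).trans ?_
      rw [Finset.sum_add_distrib, Finset.sum_const, Nat.card_Icc, Nat.add_sub_cancel,
        nsmul_eq_mul, ← Finset.sum_filter, Finset.sum_const, nsmul_eq_mul]
      refine add_le_add ?_ ?_
      · exact mul_le_mul_of_nonneg_right hzr (by positivity)
      · refine mul_le_mul_of_nonneg_right ?_ (by linarith)
        have h3 := FreeYAux.card_bad (X := 2 * X) (Q := Q) (y := z) (by omega) (by omega) (by omega)
        refine h3.trans (le_of_eq ?_)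
        push_cast
        ring
    have hGs : ‖∑ n ∈ Icc 1 z, (G n : ℂ)‖ ≤ X * KK := by
      refine (norm_sum_le _ _).trans ?_
      refine (Finset.sum_le_sum (g := fun _ => KK) fun n hn => ?_).trans ?_
      · rw [Complex.norm_real, Real.norm_eq_abs]
        exact hGb n hn
      · rw [Finset.sum_const, Nat.card_Icc, Nat.add_sub_cancel, nsmul_eq_mul]
        exact mul_le_mul_of_nonneg_right hzr (by linarith)
    have hreal : |∑ n ∈ Icc 1 z, ∏ i, W (2 * X) Q (n + h i) - s * ∑ n ∈ Icc 1 z, Ax xe β h n| =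
        ‖T - (s : ℂ) * ∑ n ∈ Icc 1 z, (G n : ℂ)‖ := by
      rw [← Real.norm_eq_abs, ← Complex.norm_real, hTe, hG]
      push_cast
      rfl
    rw [hreal]
    have e1 : T - (s : ℂ) * ∑ n ∈ Icc 1 z, (G n : ℂ) = (T - L) +
        (L - (S : ℂ) * ∑ n ∈ Icc 1 z, A n) +
        (S : ℂ) * (∑ n ∈ Icc 1 z, A n - ∑ n ∈ Icc 1 z, (G n : ℂ)) +
        ((S : ℂ) - s) * ∑ n ∈ Icc 1 z, (G n : ℂ) := by ring
    rw [e1]
    have n1 : ‖(S : ℂ) * (∑ n ∈ Icc 1 z, A n - ∑ n ∈ Icc 1 z, (G n : ℂ))‖ ≤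
        S * (X * ((r + 1 : ℕ) * KK * (2 * E)) + 5 * (2 * X) / Q * (2 * KK)) := by
      rw [norm_mul, Complex.norm_real, Real.norm_of_nonneg hS0]
      exact mul_le_mul_of_nonneg_left hAG hS0
    have n2 : ‖((S : ℂ) - s) * ∑ n ∈ Icc 1 z, (G n : ℂ)‖ ≤ s / Q * (X * KK) := by
      rw [norm_mul, ← Complex.ofReal_sub, Complex.norm_real, Real.norm_eq_abs]
      exact mul_le_mul hSs hGs (norm_nonneg _) ((abs_nonneg _).trans hSs)
    refine (norm_add_le _ _).trans (add_le_add ?_ n2)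
    refine (norm_add_le _ _).trans (add_le_add ?_ n1)
    exact (norm_add_le _ _).trans (add_le_add hTL hLA')
  -- the shift by one
  have hX0 : (0 : ℝ) ≤ X := by linarith
  have hCs : 0 ≤ (4 * C1 + 4 * (r + 1 : ℕ) * KK) * s * X * E := by positivity
  rw [← hs]
  rcases Nat.eq_zero_or_pos y with hy0 | hy0
  · rw [hy0]
    simp only [show Icc 1 0 = (∅ : Finset ℕ) from rfl, Finset.sum_empty, mul_zero, sub_zero,
      abs_zero]
    positivity
  obtain ⟨z, rfl⟩ : ∃ z, y = z + 1 := ⟨y - 1, by omega⟩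
  have hz : z ≤ X := by omega
  have hkey := key z hz
  have hW1 : ∑ n ∈ Icc 1 (z + 1), ∏ i, W (2 * X) Q (n + c0 a i) =
      ∑ n ∈ Icc 1 z, ∏ i, W (2 * X) Q (n + h i) := by
    rw [sum_shift]
    have h0 : ∏ i, W (2 * X) Q (1 + c0 a i) = 0 := by
      refine Finset.prod_eq_zero (Finset.mem_univ (0 : Fin (r + 1))) ?_
      have h1 : c0 a 0 = 0 := by
        unfold c0
        exact Fin.cons_zero _ _
      rw [h1]
      unfold W HLT.lp
      rw [if_neg (by norm_num), mul_zero]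
    rw [h0, zero_add]
    refine Finset.sum_congr rfl fun n _ => Finset.prod_congr rfl fun i _ => ?_
    rw [hh]
    show W (2 * X) Q (n + 1 + c0 a i) = W (2 * X) Q (n + (1 + c0 a i))
    rw [Nat.add_assoc]
  have hA1 : ∑ n ∈ Icc 1 (z + 1), Ax xe β (c0 a) n =
      Ax xe β (c0 a) 1 + ∑ n ∈ Icc 1 z, Ax xe β h n := by
    rw [sum_shift]
    congr 1
    refine Finset.sum_congr rfl fun n _ => ?_
    rw [hh, Ax_shift]
  have hAx1 : |Ax xe β (c0 a) 1| ≤ KK := (Ax_bd xe β hβ'.le (c0 a) 1 le_rfl).trans hKK2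
  rw [hW1, hA1]
  have e1 : ∑ n ∈ Icc 1 z, ∏ i, W (2 * X) Q (n + h i) -
      s * (Ax xe β (c0 a) 1 + ∑ n ∈ Icc 1 z, Ax xe β h n) =
      (∑ n ∈ Icc 1 z, ∏ i, W (2 * X) Q (n + h i) - s * ∑ n ∈ Icc 1 z, Ax xe β h n) -
      s * Ax xe β (c0 a) 1 := by ring
  rw [e1]
  refine (abs_sub _ _).trans ?_
  rw [abs_mul, abs_of_nonneg hs0]
  have m0 : s * |Ax xe β (c0 a) 1| ≤ s * KK := mul_le_mul_of_nonneg_left hAx1 hs0
  have hXQ : 1 ≤ (X : ℝ) / Q := (one_le_div hQ0).2 hQX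
  have m1 : s * KK ≤ KK * (s * X / Q) := by
    have h1 : s * KK * 1 ≤ s * KK * (X / Q) :=
      mul_le_mul_of_nonneg_left hXQ (by positivity)
    calc s * KK = s * KK * 1 := by ring
      _ ≤ s * KK * (X / Q) := h1
      _ = KK * (s * X / Q) := by ring
  have m2 : C1 * S * (2 * X) * E ≤ 4 * C1 * s * X * E := by
    have h1 : C1 * S ≤ C1 * (2 * s) := mul_le_mul_of_nonneg_left hS2s hC1.le
    calc C1 * S * (2 * X) * E = C1 * S * (2 * X * E) := by ring
      _ ≤ C1 * (2 * s) * (2 * X * E) := mul_le_mul_of_nonneg_right h1 (by positivity)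
      _ = 4 * C1 * s * X * E := by ring
  have m3 : S * (X * ((r + 1 : ℕ) * KK * (2 * E)) + 5 * (2 * X) / Q * (2 * KK)) ≤
      4 * (r + 1 : ℕ) * KK * s * X * E + 40 * KK * (s * X / Q) := by
    calc S * (X * ((r + 1 : ℕ) * KK * (2 * E)) + 5 * (2 * X) / Q * (2 * KK)) ≤
        2 * s * (X * ((r + 1 : ℕ) * KK * (2 * E)) + 5 * (2 * X) / Q * (2 * KK)) :=
          mul_le_mul_of_nonneg_right hS2s (by positivity)
      _ = 4 * (r + 1 : ℕ) * KK * s * X * E + 40 * KK * (s * X / Q) := by ring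
  have m4 : X * (Q : ℝ) ^ (-e) + 2 * X / Q + 44 * KK * (s * X / Q) ≤
      X * (Q : ℝ) ^ (-(e / 2)) := by
    have h1 : 44 * KK * s ≤ D * Real.log Q ^ (r + 1) := by
      have h2 : s ≤ 2 * (C3 * (8 * (r + 1 : ℕ)) ^ (r + 1) * Real.log Q ^ (r + 1)) := by linarith
      calc 44 * KK * s ≤ 44 * KK * (2 * (C3 * (8 * (r + 1 : ℕ)) ^ (r + 1) *
            Real.log Q ^ (r + 1))) := mul_le_mul_of_nonneg_left h2 (by linarith)
        _ = D * Real.log Q ^ (r + 1) := by rw [hD]; ring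
    have h3 : 44 * KK * (s * X / Q) ≤ X * (D * Real.log Q ^ (r + 1) / Q) := by
      calc 44 * KK * (s * X / Q) = (44 * KK * s) * (X / Q) := by ring
        _ ≤ D * Real.log Q ^ (r + 1) * (X / Q) := mul_le_mul_of_nonneg_right h1 (by positivity)
        _ = X * (D * Real.log Q ^ (r + 1) / Q) := by ring
    have h4 := mul_le_mul_of_nonneg_left hgr hX0
    have h5 : X * ((Q : ℝ) ^ (-e) + 2 / (Q : ℝ) + D * Real.log Q ^ (r + 1) / Q) =
        X * (Q : ℝ) ^ (-e) + 2 * X / Q + X * (D * Real.log Q ^ (r + 1) / Q) := by ring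
    rw [h5] at h4
    linarith
  have m5 : s / Q * (X * KK) = KK * (s * X / Q) := by ring
  have m6 : 0 ≤ KK * (s * X / Q) := by positivity
  have e9 : (4 * C1 + 4 * (r + 1 : ℕ) * KK) * s * X * E =
      4 * C1 * s * X * E + 4 * (r + 1 : ℕ) * KK * s * X * E := by ring
  rw [e9]
  linarith

end Pool.Agent.DSH
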