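import Pool.Agent.Lib.DSH.Defs
import Pool.Agent.Lib.BLF.Corr
import Pool.Agent.Lib.HLT.TauPow

/-!
# DSH.CorrP (1 h): correlations at products

PROOF. Adapt `BLF/Corr.lean` (its lemmas `CorrAux.sum_prod_le`, `CorrAux.cs_two` can be cited). `N = H₁ H₂ ≤ x`, `A(u,u') = ∑_{n ≤ x} F (n+u) conj F (n+u')`, `‖A‖ ≤ x`. For fixed
`u' ≤ N`, `MSq` with `g n = conj F (n+u')` gives `∑_{u ≤ N} ‖A(u,u')‖² ≤ ρ N x²`, so `∑_{u,u'} ‖A‖⁴ ≤ x² N ρ N x²`. Group by the products (`sum_prod_le` twice):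
the left side is `≤ ∑_{u,u'} τ(u) τ(u') ‖A(u,u')‖²`, whose square is `≤ (∑ τ²)² ∑ ‖A‖⁴ ≤ (N (1+log N)^4)² ρ N² x⁴` (`sum_tau_pow 2 N`, `log N ≤ log x`).
-/

set_option autoImplicit false

open Finset Filter

namespace Pool.Agent.DSH

open Pool.Agent.HLB Pool.Agent.HLT Pool.Agent.HLR Pool.Agent.Lib.GMV Pool.Agent.BLF

open CorrAux in
theorem corrP (x H₁ H₂ : ℕ) (ρ : ℝ) (F : ℕ → ℂ) (hx : 1 ≤ x) (h1 : 1 ≤ H₁) (h2 : 1 ≤ H₂) (hN : H₁ * H₂ ≤ x)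
    (hρ : 0 ≤ ρ) (hF : ∀ n ∈ Icc 1 (2 * x), ‖F n‖ ≤ 1) (hM : MSq x ρ F (Icc 1 (H₁ * H₂))) :
    ∑ s ∈ Icc 1 H₁, ∑ s' ∈ Icc 1 H₁, ∑ t ∈ Icc 1 H₂, ∑ t' ∈ Icc 1 H₂,
      ‖∑ n ∈ Icc 1 x, F (n + s * t) * (starRingEnd ℂ) (F (n + s' * t'))‖ ^ 2 ≤
    ((H₁ : ℝ) * H₂) ^ 2 * ((x : ℝ) ^ 2 * (Real.sqrt ρ * (1 + Real.log x) ^ 4)) := by
  have hNN : (H₁ : ℝ) * H₂ = ((H₁ * H₂ : ℕ) : ℝ) := by push_cast; ring
  rw [hNN]
  have hN1' : 1 ≤ H₁ * H₂ := Nat.mul_pos h1 h2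
  -- grouping
  set N : ℕ := H₁ * H₂ with hNdef
  have hN0 : (0 : ℝ) < N := by exact_mod_cast hN1'
  have hx0 : (0 : ℝ) < x := by exact_mod_cast hx
  have hlx : 0 ≤ Real.log x := Real.log_natCast_nonneg x
  set Co : ℕ → ℕ → ℝ := fun u u' => ‖∑ n ∈ Icc 1 x, F (n + u) * (starRingEnd ℂ) (F (n + u'))‖ with hCo
  have hCo0 : ∀ u u', 0 ≤ Co u u' := fun u u' => norm_nonneg _
  have hCob : ∀ u ∈ Icc 1 N, ∀ u' ∈ Icc 1 N, Co u u' ≤ x := by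
    intro u hu u' hu'
    rw [mem_Icc] at hu hu'
    refine (norm_sum_le _ _).trans ?_
    have : ∀ n ∈ Icc 1 x, ‖F (n + u) * (starRingEnd ℂ) (F (n + u'))‖ ≤ 1 := by
      intro n hn
      rw [mem_Icc] at hn
      rw [norm_mul, RCLike.norm_conj]
      have e1 := hF (n + u) (mem_Icc.2 (by omega))
      have e2 := hF (n + u') (mem_Icc.2 (by omega))
      calc ‖F (n + u)‖ * ‖F (n + u')‖ ≤ 1 * 1 := mul_le_mul e1 e2 (norm_nonneg _) zero_le_one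
        _ = 1 := one_mul 1
    refine (sum_le_sum this).trans ?_
    rw [sum_const, Nat.card_Icc, Nat.add_sub_cancel, nsmul_eq_mul, mul_one]
  have hcol : ∀ u' ∈ Icc 1 N, ∑ u ∈ Icc 1 N, Co u u' ^ 2 ≤ ρ * ((N : ℝ) * (x : ℝ) ^ 2) := by
    intro u' hu'
    rw [mem_Icc] at hu'
    have h3 := hM.2 (fun n => (starRingEnd ℂ) (F (n + u'))) (by
      intro n hn
      rw [mem_Icc] at hn
      rw [RCLike.norm_conj]
      exact hF _ (mem_Icc.2 (by omega)))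
    have h4 : (Icc 1 N).card = N := by
      rw [Nat.card_Icc]
      omega
    rw [h4] at h3
    refine le_trans (le_of_eq ?_) h3
    refine sum_congr rfl fun u _ => ?_
    rw [hCo]
    simp only
    congr 2
    exact sum_congr rfl fun n _ => mul_comm _ _
  have hfour : ∑ u ∈ Icc 1 N, ∑ u' ∈ Icc 1 N, Co u u' ^ 4 ≤
      (x : ℝ) ^ 2 * (N * (ρ * ((N : ℝ) * (x : ℝ) ^ 2))) := by
    rw [Finset.sum_comm]
    have h3 : ∀ u' ∈ Icc 1 N, ∑ u ∈ Icc 1 N, Co u u' ^ 4 ≤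
        (x : ℝ) ^ 2 * (ρ * ((N : ℝ) * (x : ℝ) ^ 2)) := by
      intro u' hu'
      have h4 : ∀ u ∈ Icc 1 N, Co u u' ^ 4 ≤ (x : ℝ) ^ 2 * Co u u' ^ 2 := by
        intro u hu
        have h5 := hCob u hu u' hu'
        have h6 : Co u u' ^ 2 ≤ (x : ℝ) ^ 2 := pow_le_pow_left₀ (hCo0 _ _) h5 2
        calc Co u u' ^ 4 = Co u u' ^ 2 * Co u u' ^ 2 := by ring
          _ ≤ (x : ℝ) ^ 2 * Co u u' ^ 2 := mul_le_mul_of_nonneg_right h6 (sq_nonneg _)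
      refine (sum_le_sum h4).trans ?_
      rw [← mul_sum]
      exact mul_le_mul_of_nonneg_left (hcol u' hu') (by positivity)
    refine (sum_le_sum h3).trans (le_of_eq ?_)
    rw [sum_const, Nat.card_Icc, Nat.add_sub_cancel, nsmul_eq_mul]
    ring
  -- the divisor sum
  have htau : ∑ u ∈ Icc 1 N, (u.divisors.card : ℝ) ^ 2 ≤ N * (1 + Real.log x) ^ 4 := by
    refine (sum_tau_pow 2 N).trans ?_
    refine mul_le_mul_of_nonneg_left ?_ hN0.le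
    have h3 : Real.log N ≤ Real.log x := by
      refine Real.log_le_log hN0 ?_
      exact_mod_cast hN
    have h0 : 0 ≤ Real.log N := Real.log_natCast_nonneg N
    calc (1 + Real.log N) ^ (2 ^ 2) ≤ (1 + Real.log x) ^ (2 ^ 2) :=
          pow_le_pow_left₀ (by linarith) (by linarith) _
      _ = (1 + Real.log x) ^ 4 := by norm_num
  have htau0 : 0 ≤ ∑ u ∈ Icc 1 N, (u.divisors.card : ℝ) ^ 2 := sum_nonneg fun _ _ => by positivity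
  have hgroup : ∑ s ∈ Icc 1 H₁, ∑ s' ∈ Icc 1 H₁, ∑ t ∈ Icc 1 H₂, ∑ t' ∈ Icc 1 H₂,
      ‖∑ n ∈ Icc 1 x, F (n + s * t) * (starRingEnd ℂ) (F (n + s' * t'))‖ ^ 2 ≤
      ∑ u ∈ Icc 1 N, (u.divisors.card : ℝ) * ∑ u' ∈ Icc 1 N, (u'.divisors.card : ℝ) * Co u u' ^ 2 := by
    have h3 : ∀ s ∈ Icc 1 H₁, ∑ s' ∈ Icc 1 H₁, ∑ t ∈ Icc 1 H₂, ∑ t' ∈ Icc 1 H₂,
        ‖∑ n ∈ Icc 1 x, F (n + s * t) * (starRingEnd ℂ) (F (n + s' * t'))‖ ^ 2 ≤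
        ∑ t ∈ Icc 1 H₂, ∑ u' ∈ Icc 1 N, (u'.divisors.card : ℝ) * Co (s * t) u' ^ 2 := by
      intro s _
      rw [Finset.sum_comm]
      refine sum_le_sum fun t _ => ?_
      exact sum_prod_le H₁ H₂ (fun u' => Co (s * t) u' ^ 2) fun _ => sq_nonneg _
    refine (sum_le_sum h3).trans ?_
    exact sum_prod_le H₁ H₂ (fun u => ∑ u' ∈ Icc 1 N, (u'.divisors.card : ℝ) * Co u u' ^ 2)
      fun _ => sum_nonneg fun _ _ => by positivity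
  refine hgroup.trans ?_
  refine le_of_sq_le_sq ?_ (by positivity)
  have hcs := cs_two (Icc 1 N) (fun u => (u.divisors.card : ℝ)) Co
  refine hcs.trans ?_
  calc (∑ u ∈ Icc 1 N, (u.divisors.card : ℝ) ^ 2) ^ 2 * ∑ u ∈ Icc 1 N, ∑ u' ∈ Icc 1 N, Co u u' ^ 4
      ≤ (N * (1 + Real.log x) ^ 4) ^ 2 * ((x : ℝ) ^ 2 * (N * (ρ * ((N : ℝ) * (x : ℝ) ^ 2)))) := by
        refine mul_le_mul (pow_le_pow_left₀ htau0 htau 2) hfour ?_ (by positivity)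
        exact sum_nonneg fun _ _ => sum_nonneg fun _ _ => pow_nonneg (hCo0 _ _) _
    _ = (N ^ 2 * ((x : ℝ) ^ 2 * (Real.sqrt ρ * (1 + Real.log x) ^ 4))) ^ 2 := by
        have e1 : (Real.sqrt ρ) ^ 2 = ρ := Real.sq_sqrt hρ
        calc (N * (1 + Real.log x) ^ 4) ^ 2 * ((x : ℝ) ^ 2 * (N * (ρ * ((N : ℝ) * (x : ℝ) ^ 2))))
            = (N ^ 2 * ((x : ℝ) ^ 2 * (1 + Real.log x) ^ 4)) ^ 2 * ρ := by ring
          _ = (N ^ 2 * ((x : ℝ) ^ 2 * (1 + Real.log x) ^ 4)) ^ 2 * (Real.sqrt ρ) ^ 2 := by rw [e1]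
          _ = _ := by ring

end Pool.Agent.DSH
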