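import Pool.Agent.Lib.DSH.Defs
import Pool.Agent.Lib.HLT.Geom

/-!
# DSH.Cut (1 h): sharp cut-offs of Fourier transforms

PROOF. `N = 4 Z`. For `n < N` the indicator of `n < y` is `N⁻¹ ∑_{j < N} D_j ex (n j/N)`, `D_j = ∑_{m < y} ex (- m j/N)`. So the sum is `N⁻¹ ∑_j D_j ft N f (θ + j/N)`, `≤ A N⁻¹ ∑_j ‖D_j‖`, `‖D_0‖ ≤ N`, `‖D_j‖ ≤ 1/(2 ‖j/N‖)`
(geometric sum: look in HLT/HLR/GMV (`Kern.lean`, `Ram.lean`) for a bound `‖∑_{j<U} ex (j t)‖ ≤ 1/(2 nrm t)`), so `N⁻¹ ∑ ‖D_j‖ ≤ 1 + ∑_{1 ≤ j ≤ N/2} 1/j ≤ 2 + log N`.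
-/

set_option autoImplicit false

open Finset Filter

namespace Pool.Agent.DSH

open Pool.Agent.HLB Pool.Agent.HLT Pool.Agent.HLR Pool.Agent.Lib.GMV Pool.Agent.BLF

namespace CutAux

lemma ex_eq_one_iff {N : ℕ} (hN : 0 < N) (k : ℤ) :
    Pool.Agent.HLT.ex ((k : ℝ) / N) = 1 ↔ (N : ℤ) ∣ k := by
  unfold Pool.Agent.HLT.ex
  rw [Complex.exp_eq_one_iff]
  have hN' : (N : ℂ) ≠ 0 := by exact_mod_cast hN.ne'
  have hpi : (2 * Real.pi * Complex.I : ℂ) ≠ 0 := Complex.two_pi_I_ne_zero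
  constructor
  · rintro ⟨m, hm⟩
    refine ⟨m, ?_⟩
    have h1 : (2 * Real.pi * Complex.I : ℂ) * ((k : ℂ) / N) = (2 * Real.pi * Complex.I) * m := by
      push_cast at hm
      linear_combination hm
    have h2 := mul_left_cancel₀ hpi h1
    rw [div_eq_iff hN'] at h2
    have h3 : ((k : ℤ) : ℂ) = ((N * m : ℤ) : ℂ) := by
      rw [h2]
      push_cast
      ring
    exact_mod_cast h3
  · rintro ⟨m, rfl⟩
    refine ⟨m, ?_⟩
    push_cast
    field_simp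

lemma sum_ex {N : ℕ} (hN : 0 < N) (k : ℤ) :
    ∑ ξ ∈ range N, Pool.Agent.HLT.ex (k * ((ξ : ℝ) / N)) = if (N : ℤ) ∣ k then (N : ℂ) else 0 := by
  have h1 : ∀ ξ : ℕ, Pool.Agent.HLT.ex (k * ((ξ : ℝ) / N)) = Pool.Agent.HLT.ex (k / N) ^ ξ := by
    intro ξ
    rw [← ex_nat_mul]
    congr 1
    ring
  simp_rw [h1]
  split_ifs with h
  · rw [(ex_eq_one_iff hN k).2 h]
    simp
  · have hne : Pool.Agent.HLT.ex (k / N) ≠ 1 := fun h' => h ((ex_eq_one_iff hN k).1 h')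
    rw [geom_sum_eq hne]
    have h2 : Pool.Agent.HLT.ex (k / N) ^ N = 1 := by
      rw [← ex_nat_mul]
      have h3 : ((N : ℝ) * ((k : ℝ) / N)) = ((k : ℤ) : ℝ) := by
        have : (N : ℝ) ≠ 0 := by exact_mod_cast hN.ne'
        field_simp
      rw [h3]
      exact ex_int k
    rw [h2, sub_self, zero_div]

/-- the geometric sum over `range y`, at `j / N` -/
lemma norm_D_le (N : ℕ) (hN : 0 < N) (y j : ℕ) (hj : j < N) :
    ‖∑ m ∈ range y, Pool.Agent.HLT.ex (-((m : ℝ) * ((j : ℝ) / N)))‖ ≤ cw y N j := by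
  have hN' : (0 : ℝ) < N := by exact_mod_cast hN
  have h1 : ∑ m ∈ range y, Pool.Agent.HLT.ex (-((m : ℝ) * ((j : ℝ) / N))) =
      (starRingEnd ℂ) (Pool.Agent.HLT.ex (-((j : ℝ) / N)) * ∑ m ∈ Icc 1 y, Pool.Agent.HLT.ex (m * ((j : ℝ) / N))) := by
    rw [mul_sum, map_sum]
    rw [Finset.range_eq_Ico, Finset.sum_Ico_eq_sum_range]
    have h2 : Icc 1 y = Ico 1 (y + 1) := by
      ext a
      simp only [mem_Icc, mem_Ico]
      omega
    rw [h2, Finset.sum_Ico_eq_sum_range]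
    simp only [Nat.sub_zero, Nat.add_sub_cancel]
    refine sum_congr rfl fun m _ => ?_
    rw [← ex_add, ← ex_neg]
    congr 1
    push_cast
    ring
  rw [h1, RCLike.norm_conj, norm_mul, norm_ex, one_mul]
  refine (geom y _).trans ?_
  have h3 := mn_le_cw (X := (y : ℝ)) (Nat.cast_nonneg y) (q := N) hN ((j : ℝ) / N)
  have h4 : cell N ((j : ℝ) / N) = j := by
    unfold cell
    have h5 : Int.fract ((j : ℝ) / N) = (j : ℝ) / N := by
      rw [Int.fract_eq_self]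
      constructor
      · positivity
      · rw [div_lt_one hN']
        exact_mod_cast hj
    rw [h5, mul_div_cancel₀ _ hN'.ne', Nat.floor_natCast]
  rwa [h4] at h3

lemma ident (N : ℕ) (hN : 0 < N) (f : ℕ → ℂ) (y : ℕ) (hy : y ≤ N) (θ : ℝ) :
    ∑ n ∈ range y, f n * Pool.Agent.HLT.ex (n * θ) =
      (N : ℂ)⁻¹ * ∑ j ∈ range N, (∑ m ∈ range y, Pool.Agent.HLT.ex (-((m : ℝ) * ((j : ℝ) / N)))) *
        ft N f (θ + (j : ℝ) / N) := by
  have hN' : (N : ℂ) ≠ 0 := by exact_mod_cast hN.ne'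
  have h1 : ∑ j ∈ range N, (∑ m ∈ range y, Pool.Agent.HLT.ex (-((m : ℝ) * ((j : ℝ) / N)))) *
        ft N f (θ + (j : ℝ) / N) =
      ∑ m ∈ range y, ∑ n ∈ range N, f n * Pool.Agent.HLT.ex (n * θ) *
        ∑ j ∈ range N, Pool.Agent.HLT.ex ((((n : ℤ) - (m : ℤ) : ℤ) : ℝ) * ((j : ℝ) / N)) := by
    have e1 : ∀ j ∈ range N, (∑ m ∈ range y, Pool.Agent.HLT.ex (-((m : ℝ) * ((j : ℝ) / N)))) *
        ft N f (θ + (j : ℝ) / N) = ∑ m ∈ range y, ∑ n ∈ range N, f n * Pool.Agent.HLT.ex (n * θ) *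
          Pool.Agent.HLT.ex ((((n : ℤ) - (m : ℤ) : ℤ) : ℝ) * ((j : ℝ) / N)) := by
      intro j _
      unfold ft
      rw [sum_mul_sum]
      refine sum_congr rfl fun m _ => sum_congr rfl fun n _ => ?_
      have e2 : Pool.Agent.HLT.ex (n * (θ + (j : ℝ) / N)) =
          Pool.Agent.HLT.ex (n * θ) * Pool.Agent.HLT.ex (n * ((j : ℝ) / N)) := by
        rw [← ex_add]
        congr 1
        ring
      have e3 : Pool.Agent.HLT.ex ((((n : ℤ) - (m : ℤ) : ℤ) : ℝ) * ((j : ℝ) / N)) =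
          Pool.Agent.HLT.ex (-((m : ℝ) * ((j : ℝ) / N))) * Pool.Agent.HLT.ex (n * ((j : ℝ) / N)) := by
        rw [← ex_add]
        congr 1
        push_cast
        ring
      rw [e2, e3]
      ring
    rw [sum_congr rfl e1, sum_comm]
    refine sum_congr rfl fun m _ => ?_
    rw [sum_comm]
    refine sum_congr rfl fun n _ => ?_
    rw [mul_sum]
  rw [h1]
  have h2 : ∀ m ∈ range y, ∑ n ∈ range N, f n * Pool.Agent.HLT.ex (n * θ) *
        ∑ j ∈ range N, Pool.Agent.HLT.ex ((((n : ℤ) - (m : ℤ) : ℤ) : ℝ) * ((j : ℝ) / N)) =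
      (N : ℂ) * (f m * Pool.Agent.HLT.ex (m * θ)) := by
    intro m hm
    have hm' : m < N := lt_of_lt_of_le (mem_range.1 hm) hy
    rw [sum_eq_single_of_mem m (mem_range.2 hm')]
    · rw [sum_ex hN, if_pos (by simp)]
      ring
    · intro n hn hne
      rw [sum_ex hN, if_neg, mul_zero]
      intro hd
      have hn' : n < N := mem_range.1 hn
      obtain ⟨k, hk⟩ := hd
      have hk1 : (N : ℤ) * k < N * 1 := by omega
      have hk2 : (N : ℤ) * (-1) < N * k := by omega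
      have hNz : (0 : ℤ) < N := by exact_mod_cast hN
      have h3 := lt_of_mul_lt_mul_left hk1 hNz.le
      have h4 := lt_of_mul_lt_mul_left hk2 hNz.le
      have h5 : k = 0 := by omega
      rw [h5, mul_zero] at hk
      omega
  rw [sum_congr rfl h2, ← mul_sum, ← mul_assoc, inv_mul_cancel₀ hN', one_mul]

end CutAux

theorem cut (Z : ℕ) (hZ : 1 ≤ Z) (f : ℕ → ℂ) (A : ℝ) (hA : ∀ t, ‖ft (4 * Z) f t‖ ≤ A) (y : ℕ) (hy : y ≤ 4 * Z) (θ : ℝ) :
    ‖∑ n ∈ range y, f n * ex (n * θ)‖ ≤ A * (3 + Real.log (4 * Z)) := by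
  have hN : 0 < 4 * Z := by omega
  have hN' : (0 : ℝ) < ((4 * Z : ℕ) : ℝ) := by exact_mod_cast hN
  have hA0 : 0 ≤ A := (norm_nonneg _).trans (hA 0)
  rw [CutAux.ident (4 * Z) hN f y hy θ, norm_mul, norm_inv, Complex.norm_natCast]
  have h1 : ‖∑ j ∈ range (4 * Z), (∑ m ∈ range y, Pool.Agent.HLT.ex (-((m : ℝ) * ((j : ℝ) / (4 * Z : ℕ))))) *
        ft (4 * Z) f (θ + (j : ℝ) / (4 * Z : ℕ))‖ ≤ (∑ j ∈ range (4 * Z), cw y (4 * Z) j) * A := by
    rw [sum_mul]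
    refine (norm_sum_le _ _).trans (sum_le_sum fun j hj => ?_)
    rw [norm_mul]
    exact mul_le_mul (CutAux.norm_D_le _ hN y j (mem_range.1 hj)) (hA _) (norm_nonneg _)
      (cw_nonneg (Nat.cast_nonneg y) _ _)
  have h2 := sum_cw_le (X := (y : ℝ)) (q := 4 * Z) (Nat.cast_nonneg y) hN
  have h3 : (y : ℝ) ≤ ((4 * Z : ℕ) : ℝ) := by exact_mod_cast hy
  have h4 : ∑ j ∈ range (4 * Z), cw y (4 * Z) j ≤ ((4 * Z : ℕ) : ℝ) * (3 + Real.log (4 * Z : ℕ)) := by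
    linarith
  have h5 : Real.log ((4 * Z : ℕ) : ℝ) = Real.log (4 * Z) := by
    push_cast
    rfl
  calc ((4 * Z : ℕ) : ℝ)⁻¹ * _ ≤ ((4 * Z : ℕ) : ℝ)⁻¹ * ((((4 * Z : ℕ) : ℝ) * (3 + Real.log (4 * Z : ℕ))) * A) := by
        apply mul_le_mul_of_nonneg_left _ (by positivity)
        exact h1.trans (mul_le_mul_of_nonneg_right h4 hA0)
    _ = A * (3 + Real.log (4 * Z)) := by
        rw [h5]
        field_simp

end Pool.Agent.DSH
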