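import Pool.Agent.Lib.DSH.Defs
import Pool.Agent.Lib.GMV.PSum
import Pool.Agent.Lib.GMV.Fin2

/-!
# DSH.DefX: the correction of the Hardy-Littlewood value by an exceptional character

`x` is a real character of modulus `q = md x` and `β` a real zero. `cx x h`: the residue classes `c` modulo `q` such that all `c + h i` are prime to `q`. `Ax x β h n`: the mean over these classes of
`∏ i, (1 - χ(c + h i) (n + h i) ^ (β - 1))`.
-/

set_option autoImplicit false

open Finset Filter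

namespace Pool.Agent.DSH

open Pool.Agent.HLB Pool.Agent.HLT Pool.Agent.HLR Pool.Agent.Lib.GMV Pool.Agent.BLF

/-- The residue classes modulo `md x` with all `c + h i` prime to `md x`. -/
def cx {k : ℕ} (x : CI) (h : Fin k → ℕ) : Finset ℕ :=
  (range (md x)).filter (fun c => ∀ i, (c + h i).Coprime (md x))

/-- The mean over these classes of `∏ i, (z1 i + χ(c + h i) z2 i)`. -/
noncomputable def ax {k : ℕ} (x : CI) (h : Fin k → ℕ) (z1 z2 : Fin k → ℂ) : ℂ :=
  (∑ c ∈ cx x h, ∏ i, (z1 i + cv x (c + h i) * z2 i)) / (cx x h).card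

/-- The mean over these classes of `∏ i, (1 - χ(c + h i) (n + h i) ^ (β - 1))`. -/
noncomputable def Ax {k : ℕ} (x : CI) (β : ℝ) (h : Fin k → ℕ) (n : ℕ) : ℝ :=
  (∑ c ∈ cx x h, ∏ i, (1 - (cv x (c + h i)).re * ((n + h i : ℕ) : ℝ) ^ (β - 1))) / (cx x h).card

/-- The corrected Hardy-Littlewood inequality with relative error `e`. -/
def GoodX (r X : ℕ) (e : ℝ) (x : CI) (β : ℝ) (a : Fin r → ℕ) : Prop :=
  ∀ y : ℕ, y ≤ X →
    |(((Icc 1 y).filter (fun n => ∀ i, (n + c0 a i).Prime)).card : ℝ) -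
        SI (c0 a) * ∑ n ∈ Icc 2 y, Ax x β (c0 a) n * ∏ i, (Real.log (n + c0 a i))⁻¹| ≤
        e * (SI (c0 a) * X / Real.log X ^ (r + 1))

/-- `x` is a real primitive character with the real zero `β < 1`. -/
def RZ (x : CI) (β : ℝ) : Prop :=
  x.2.IsPrimitive ∧ x.2 ≠ 1 ∧ x.2 ^ 2 = 1 ∧ Lf x.2 (β : ℂ) = 0 ∧ β < 1

end Pool.Agent.DSH
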