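import Pool.Agent.Lib.BLF.Slots
import Pool.Agent.Lib.GMV.SumB
import Pool.Agent.Lib.GMV.Norm

/-!
# DSH: dependent shifts with a power saving exceptional set (definitions)

Paper: /team-store/e87c7d_DSH.md.
-/

set_option autoImplicit false

open Finset Filter

namespace Pool.Agent.DSH

open Pool.Agent.HLB Pool.Agent.HLT Pool.Agent.HLR Pool.Agent.Lib.GMV Pool.Agent.BLF

/-- The mean square property of the function `F` for the set `T` of shifts. -/
def MSq (x : ℕ) (ρ : ℝ) (F : ℕ → ℂ) (T : Finset ℕ) : Prop :=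
  T ⊆ range (x + 1) ∧ ∀ g : ℕ → ℂ, (∀ n ∈ Icc 1 x, ‖g n‖ ≤ 1) →
    ∑ u ∈ T, ‖∑ n ∈ Icc 1 x, g n * F (n + u)‖ ^ 2 ≤ ρ * ((T.card : ℝ) * (x : ℝ) ^ 2)

/-- A system of slots, without the conditions on the functions. -/
structure Sys (x : ℕ) {m r : ℕ} (i j : Fin r → Fin m) (H : Fin m → ℕ) (τ : Fin r → ℕ → ℕ) : Prop where
  ord : ∀ e, i e ≤ j e
  inj : Function.Injective (fun e => (i e, j e))
  edge : ∀ e, i e ≠ j e → H (i e) * H (j e) ≤ x
  single : ∀ e, i e = j e → Set.InjOn (τ e) (Icc 1 (H (i e)) : Finset ℕ) ∧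
    ∀ t ∈ Icc 1 (H (i e)), τ e t ≤ x

/-- The mean square property of `F` for all the slots. -/
def SysM (x : ℕ) {m r : ℕ} (i j : Fin r → Fin m) (H : Fin m → ℕ) (τ : Fin r → ℕ → ℕ) (ρ : ℝ) (F : ℕ → ℂ) :
    Prop :=
  (∀ e, i e ≠ j e → MSq x ρ F (Icc 1 (H (i e) * H (j e)))) ∧
    ∀ e, i e = j e → MSq x ρ F ((Icc 1 (H (i e))).image (τ e))

/-- The shift number `e`: `τ e (t (i e))` if `i e = j e` and `t (i e) * t (j e)` otherwise. -/
def sf {m r : ℕ} (i j : Fin r → Fin m) (τ : Fin r → ℕ → ℕ) (t : Fin m → ℕ) (e : Fin r) : ℕ :=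
  if i e = j e then τ e (t (i e)) else t (i e) * t (j e)

/-- All shifts are at most `x`. -/
lemma Sys.sf_le {x m r : ℕ} {i j : Fin r → Fin m} {H : Fin m → ℕ} {τ : Fin r → ℕ → ℕ}
    (h : Sys x i j H τ) (t : Fin m → ℕ) (ht : t ∈ Fintype.piFinset (fun k => Icc 1 (H k))) (e : Fin r) :
    sf i j τ t e ≤ x := by
  have ht' : ∀ k, t k ∈ Icc 1 (H k) := fun k => Fintype.mem_piFinset.mp ht k
  unfold sf
  split_ifs with he
  · exact (h.single e he).2 _ (ht' (i e))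
  · have h1 := h.edge e he
    have h2 : t (i e) * t (j e) ≤ H (i e) * H (j e) :=
      Nat.mul_le_mul (Finset.mem_Icc.mp (ht' _)).2 (Finset.mem_Icc.mp (ht' _)).2
    omega

/-- Truncation: `f` where `‖f‖ ≤ V`, and `0` elsewhere. -/
noncomputable def tr (V : ℝ) (f : ℕ → ℂ) (m : ℕ) : ℂ := if ‖f m‖ ≤ V then f m else 0

lemma norm_tr_le {V : ℝ} (hV : 0 ≤ V) (f : ℕ → ℂ) (m : ℕ) : ‖tr V f m‖ ≤ V := by
  unfold tr
  split_ifs with h
  · exact h
  · rw [norm_zero]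
    exact hV

lemma norm_tr_le_norm (V : ℝ) (f : ℕ → ℂ) (m : ℕ) : ‖tr V f m‖ ≤ ‖f m‖ := by
  unfold tr
  split_ifs with h
  · exact le_rfl
  · rw [norm_zero]
    exact norm_nonneg _

/-- The primes with their weight, as a complex valued function (scale `2 X`). -/
noncomputable def Wf (X Q : ℕ) (n : ℕ) : ℂ := (W (2 * X) Q n : ℂ)

/-- The model (scale `2 X`, `k = r + 1` factors). -/
noncomputable def Lm (r X Q : ℕ) (n : ℕ) : ℂ := LL (2 * X) Q (Q ^ (8 * (r + 1))) n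

/-- The sums of the bounds of the coefficients of the model are bounded. -/
def BS (B c : ℝ) : Prop := ∃ X0 : ℕ, ∀ X Q : ℕ, X0 ≤ X → Rg c X Q → ∃ b : CI → ℝ,
  (∀ x ∈ Ch Q, ∀ n, ‖Mc X Q x n‖ ≤ b x) ∧ ∑ x ∈ Ch Q, b x ≤ B

/-- The deviation of the primes from the model for the tuple `(0, a)`, `n ≤ y`. -/
noncomputable def dev (r X Q : ℕ) (a : Fin r → ℕ) (y : ℕ) : ℂ :=
  ∑ n ∈ Icc 1 y, (∏ i, Wf X Q (n + (1 + c0 a i)) - ∏ i, Lm r X Q (n + (1 + c0 a i)))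

/-- The deviation is small for all `y ≤ X`. -/
def Dv (e : ℝ) (r X Q : ℕ) (a : Fin r → ℕ) : Prop :=
  ∀ y ≤ X, ‖dev r X Q a y‖ ≤ X * (Q : ℝ) ^ (-e)

/-- The sizes of the variables: `X` for the long ones and `√X` for the short ones. -/
def HH {m : ℕ} (lg : Fin m → Bool) (X : ℕ) (k : Fin m) : ℕ := if lg k then X else Nat.sqrt X

/-- Single slots: `t` for a long variable and `t ^ 2` for a short one. -/
def tau {m r : ℕ} (lg : Fin m → Bool) (i : Fin r → Fin m) (e : Fin r) (t : ℕ) : ℕ :=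
  if lg (i e) then t else t ^ 2

/-- The exponent of the number of points of the box. -/
noncomputable def dm {m : ℕ} (lg : Fin m → Bool) : ℝ := ∑ k, if lg k then (1 : ℝ) else 1 / 2

/-- The conditions on the slots: ordered, different, and a product slot has two short variables. -/
structure Slt {m r : ℕ} (i j : Fin r → Fin m) (lg : Fin m → Bool) : Prop where
  ord : ∀ e, i e ≤ j e
  inj : Function.Injective (fun e => (i e, j e))
  short : ∀ e, i e ≠ j e → lg (i e) = false ∧ lg (j e) = false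

/-- The box of the parameters. -/
def Bx {m : ℕ} (lg : Fin m → Bool) (X : ℕ) : Finset (Fin m → ℕ) :=
  Fintype.piFinset (fun k => Icc 1 (HH lg X k))

/-- The tuple of shifts. -/
def sft {m r : ℕ} (i j : Fin r → Fin m) (lg : Fin m → Bool) (t : Fin m → ℕ) : Fin r → ℕ :=
  fun e => sf i j (tau lg i) t e

/-- A family of tuples: for all but a proportion `Q ^ (-e')` of the parameters the deviation is small. -/
structure Fam (r : ℕ) {σ : Type} (P : ℕ → Finset σ) (a : σ → Fin r → ℕ) (N e e' c K : ℝ) : Prop where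
  mem : ∀ X, ∀ t ∈ P X, a t ∈ Tup r (range (X + 1))
  e0 : 0 < e
  e1 : e ≤ 1 / 2
  e'0 : 0 < e'
  c0' : 0 < c
  K0 : 0 < K
  exc : ∃ X0 : ℕ, ∀ X Q : ℕ, X0 ≤ X → Real.exp (K * Real.sqrt (Real.log X)) ≤ Q → (Q : ℝ) ≤ (X : ℝ) ^ c →
    ∃ G : Finset σ, (G.card : ℝ) ≤ (X : ℝ) ^ N * (Q : ℝ) ^ (-e') ∧ ∀ t ∈ P X, t ∉ G → Dv e r X Q (a t)

/-- All but at most `E` of the parameters with admissible tuple satisfy `Pr`. -/
def ABF (r : ℕ) {σ : Type} (P : ℕ → Finset σ) (a : σ → Fin r → ℕ) (X : ℕ) (E : ℝ) (Pr : (Fin r → ℕ) → Prop) :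
    Prop :=
  ∃ G : Finset σ, (G.card : ℝ) ≤ E ∧ ∀ t ∈ P X, t ∉ G → Function.Injective (c0 (a t)) →
    (∀ p : ℕ, p.Prime → nuI (c0 (a t)) p < p) → Pr (a t)

end Pool.Agent.DSH
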