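import Pool.Agent.Lib.DSH.CorrP
import Pool.Agent.Lib.BLF.Lift
import Pool.Agent.Lib.BLF.ThmB

/-!
# DSH.EdgeP (1 h): mean square over a product slot

PROOF. Adapt `BLF/EdgeMs.lean` (lift to `ZMod X` by `pow_two`, `sum_lift`, `val_lift`; there is no factor `log^K` here and no `v`). `C₁` from `thmB`; `C = 14 C₁ + 8`. Suppose
the left side is `> δ H₁ H₂ x²`. `4 x ≤ X ≤ 8 x`; `δ₁ = δ ^ 7`: `δ₁ X² H₁ H₂ ≤ 64 δ^7 x² H₁ H₂ ≤ δ x² H₁ H₂` (`δ ≤ 1/2`), `Adm δ₁ C₁ X H₁ H₂ W` (`δ₁⁻¹ ≥ δ⁻¹`, `W ≤ 2 H₁ H₂ ≤ 2 x`, `7 C₁ ≤ C`).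
`thmB` with `c` = indicator of `[1,x]`, `E z = F z.val` if `1 ≤ z.val ≤ 2 x`, `α' z s = α z.val s` if `1 ≤ z.val ≤ x`, `s ∈ Icc 1 H₁`, else `0`, and `corrP` with `ρ = δ ^ C`:
`δ^(7 C₁) X² N² ≤ N² x² √ρ (1 + log x)^4`, `√ρ = δ^(7 C₁ + 4)`, `(1 + log x)^4 ≤ δ^(-4)`, `X² ≥ 16 x²`: a contradiction.
-/

set_option autoImplicit false

open Finset Filter

namespace Pool.Agent.DSH

open Pool.Agent.HLB Pool.Agent.HLT Pool.Agent.HLR Pool.Agent.Lib.GMV Pool.Agent.BLF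

namespace EdgePAux

/-- The indicator of `[1, x]`. -/
noncomputable def cX {X : ℕ} (x : ℕ) (z : ZMod X) : ℂ := if 1 ≤ z.val ∧ z.val ≤ x then 1 else 0

/-- The function `F` on `ZMod X`. -/
noncomputable def eX {X : ℕ} (x : ℕ) (F : ℕ → ℂ) (z : ZMod X) : ℂ :=
  if 1 ≤ z.val ∧ z.val ≤ 2 * x then F z.val else 0

/-- The weights on `ZMod X`. -/
noncomputable def wX {X : ℕ} (H x : ℕ) (α : ℕ → ℕ → ℂ) (z : ZMod X) (s : ℕ) : ℂ :=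
  if (1 ≤ z.val ∧ z.val ≤ x) ∧ s ∈ Icc 1 H then α z.val s else 0

lemma norm_cX {X : ℕ} (x : ℕ) (z : ZMod X) : ‖cX x z‖ ≤ 1 := by
  unfold cX
  split_ifs
  · rw [norm_one]
  · rw [norm_zero]
    exact zero_le_one

lemma norm_eX {X : ℕ} {x : ℕ} {F : ℕ → ℂ} (hF : ∀ n ∈ Icc 1 (2 * x), ‖F n‖ ≤ 1) (z : ZMod X) :
    ‖eX x F z‖ ≤ 1 := by
  unfold eX
  split_ifs with h
  · exact hF _ (mem_Icc.2 h)
  · rw [norm_zero]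
    exact zero_le_one

lemma norm_wX {X : ℕ} {H x : ℕ} (α : ℕ → ℕ → ℂ) (hα : ∀ n ∈ Icc 1 x, ∀ s ∈ Icc 1 H, ‖α n s‖ ≤ 1)
    (z : ZMod X) (s : ℕ) : ‖wX H x α z s‖ ≤ 1 := by
  unfold wX
  split_ifs with h
  · exact hα _ (mem_Icc.2 h.1) _ h.2
  · rw [norm_zero]
    exact zero_le_one

lemma eX_lift {X : ℕ} [NeZero X] {x n a : ℕ} (F : ℕ → ℂ) (hX : 4 * x ≤ X) (hx : 1 ≤ x) (hn : n ∈ Icc 1 x)
    (ha : a ≤ x) : eX x F ((n : ZMod X) + (a : ZMod X)) = F (n + a) := by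
  rw [mem_Icc] at hn
  unfold eX
  rw [val_lift n a (by omega), if_pos (by omega)]

lemma wX_lift {X : ℕ} [NeZero X] {H x n s : ℕ} (hX : 4 * x ≤ X) (hx : 1 ≤ x) (α : ℕ → ℕ → ℂ)
    (hn : n ∈ Icc 1 x) (hs : s ∈ Icc 1 H) : wX H x α (n : ZMod X) s = α n s := by
  have hn' := mem_Icc.1 hn
  have h : (n : ZMod X).val = n := ZMod.val_cast_of_lt (by omega)
  unfold wX
  rw [h, if_pos ⟨hn', hs⟩]

lemma sum_cX {X : ℕ} [NeZero X] {x : ℕ} (hX : 4 * x ≤ X) (hx : 1 ≤ x) (Φ : ZMod X → ℂ) :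
    ∑ z : ZMod X, cX x z * Φ z = ∑ n ∈ Icc 1 x, Φ (n : ZMod X) := by
  rw [← sum_lift x (by omega) Φ]
  refine sum_congr rfl fun z _ => ?_
  unfold cX
  split_ifs
  · rw [one_mul]
  · rw [zero_mul]

end EdgePAux

open EdgePAux

theorem edgeP : ∃ C : ℕ, ∀ (δ : ℝ) (x H₁ H₂ : ℕ), 0 < δ → δ ≤ 1 / 2 → 1 ≤ x → 1 + Real.log (2 * x) ≤ δ⁻¹ →
    (δ⁻¹) ^ C ≤ H₁ → (δ⁻¹) ^ C ≤ H₂ → H₁ * H₂ ≤ x → ∀ F : ℕ → ℂ, (∀ n ∈ Icc 1 (2 * x), ‖F n‖ ≤ 1) →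
    MSq x (δ ^ C) F (Icc 1 (H₁ * H₂)) → ∀ α β : ℕ → ℕ → ℂ,
    (∀ n ∈ Icc 1 x, ∀ s ∈ Icc 1 H₁, ‖α n s‖ ≤ 1) → (∀ n ∈ Icc 1 x, ∀ t ∈ Icc 1 H₂, ‖β n t‖ ≤ 1) →
    ∑ s ∈ Icc 1 H₁, ∑ t ∈ Icc 1 H₂, ‖∑ n ∈ Icc 1 x, F (n + s * t) * α n s * β n t‖ ^ 2 ≤
      δ * ((H₁ : ℝ) * H₂ * (x : ℝ) ^ 2) := by
  obtain ⟨C₁, hB⟩ := thmB
  refine ⟨14 * C₁ + 8, ?_⟩
  intro δ x H₁ H₂ hδ hδ2 hx1 hlog h1 h2 hN F hF hM α β hα hβ
  have hδ1 : δ ≤ 1 := by linarith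
  have hδi : 1 ≤ δ⁻¹ := (one_le_inv₀ hδ).2 hδ1
  have hx0 : (0 : ℝ) < x := by exact_mod_cast hx1
  have hx1r : (1 : ℝ) ≤ x := by exact_mod_cast hx1
  have hH1 : 1 ≤ H₁ := by
    have h : (1 : ℝ) ≤ H₁ := (one_le_pow₀ hδi).trans h1
    exact_mod_cast h
  have hH2 : 1 ≤ H₂ := by
    have h : (1 : ℝ) ≤ H₂ := (one_le_pow₀ hδi).trans h2
    exact_mod_cast h
  have hH1r : (0 : ℝ) < H₁ := by exact_mod_cast hH1
  have hH2r : (0 : ℝ) < H₂ := by exact_mod_cast hH2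
  by_contra hcon
  rw [not_le] at hcon
  obtain ⟨X, hX0, hX4, hX8, hW⟩ := pow_two x hx1
  haveI : NeZero X := ⟨hX0⟩
  have hN1 : 1 ≤ H₁ * H₂ := Nat.mul_le_mul hH1 hH2
  obtain ⟨W, hWX, hW1, hW2⟩ := hW (H₁ * H₂) hN1 hN
  have hX4r : 4 * (x : ℝ) ≤ X := by exact_mod_cast hX4
  have hX8r : (X : ℝ) ≤ 8 * x := by exact_mod_cast hX8
  have hδ7 : 0 < δ ^ 7 := pow_pos hδ 7
  have hδ7le : δ ^ 7 ≤ δ := by
    calc δ ^ 7 ≤ δ ^ 1 := pow_le_pow_of_le_one hδ.le hδ1 (by norm_num)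
      _ = δ := pow_one δ
  have hadm : Adm (δ ^ 7) C₁ X H₁ H₂ W := by
    refine ⟨hδ7, hδ7le.trans hδ2, hWX, hW1, hW2, ?_, ?_, ?_⟩
    · have hWx : W ≤ 2 * x := by omega
      have hWr : (W : ℝ) ≤ 2 * x := by exact_mod_cast hWx
      have hW0 : (0 : ℝ) < W := by exact_mod_cast (lt_of_lt_of_le Nat.one_pos (hN1.trans hW1))
      have h5 : Real.log W ≤ Real.log (2 * x) := Real.log_le_log hW0 hWr
      have h6 : δ⁻¹ ≤ (δ ^ 7)⁻¹ := inv_anti₀ hδ7 hδ7le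
      linarith
    · rw [← inv_pow, ← pow_mul]
      exact (pow_le_pow_right₀ hδi (by omega)).trans h1
    · rw [← inv_pow, ← pow_mul]
      exact (pow_le_pow_right₀ hδi (by omega)).trans h2
  have hst : ∀ s ∈ Icc 1 H₁, ∀ t ∈ Icc 1 H₂, s * t ≤ x := by
    intro s hs t ht
    have := Nat.mul_le_mul (mem_Icc.1 hs).2 (mem_Icc.1 ht).2
    omega
  -- the sums over `ZMod X`
  have hT : ∀ s ∈ Icc 1 H₁, ∀ t ∈ Icc 1 H₂,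
      ∑ z : ZMod X, cX x z * eX x F (z + ((s * t : ℕ) : ZMod X)) * wX H₁ x α z s * wX H₂ x β z t =
      ∑ n ∈ Icc 1 x, F (n + s * t) * α n s * β n t := by
    intro s hs t ht
    have e2 : ∀ z : ZMod X, cX x z * eX x F (z + ((s * t : ℕ) : ZMod X)) * wX H₁ x α z s * wX H₂ x β z t =
        cX x z * (eX x F (z + ((s * t : ℕ) : ZMod X)) * wX H₁ x α z s * wX H₂ x β z t) := by
      intro z
      ring
    rw [sum_congr rfl fun z _ => e2 z, sum_cX hX4 hx1]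
    refine sum_congr rfl fun n hn => ?_
    rw [eX_lift F hX4 hx1 hn (hst s hs t ht), wX_lift hX4 hx1 α hn hs, wX_lift hX4 hx1 β hn ht]
  have hsum : ∑ s ∈ Icc 1 H₁, ∑ t ∈ Icc 1 H₂,
      ‖∑ z : ZMod X, cX x z * eX x F (z + ((s * t : ℕ) : ZMod X)) * wX H₁ x α z s * wX H₂ x β z t‖ ^ 2 =
      ∑ s ∈ Icc 1 H₁, ∑ t ∈ Icc 1 H₂, ‖∑ n ∈ Icc 1 x, F (n + s * t) * α n s * β n t‖ ^ 2 :=
    sum_congr rfl fun s hs => sum_congr rfl fun t ht => by rw [hT s hs t ht]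
  have hmain := hB (δ ^ 7) X H₁ H₂ W hadm (cX x) (eX x F) (wX H₁ x α) (wX H₂ x β) (norm_cX x)
    (norm_eX hF) (norm_wX α hα) (norm_wX β hβ) (by
      rw [hsum]
      refine le_trans ?_ hcon.le
      have hXsq : (X : ℝ) ^ 2 ≤ 64 * x ^ 2 := by nlinarith
      have h6 : δ ^ 6 ≤ 1 / 64 := by
        calc δ ^ 6 ≤ (1 / 2) ^ 6 := pow_le_pow_left₀ hδ.le hδ2 6
          _ = 1 / 64 := by norm_num
      have h7 : δ ^ 7 * (X : ℝ) ^ 2 ≤ δ * (x : ℝ) ^ 2 := by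
        calc δ ^ 7 * (X : ℝ) ^ 2 ≤ δ ^ 7 * (64 * x ^ 2) := mul_le_mul_of_nonneg_left hXsq hδ7.le
          _ = δ * (64 * δ ^ 6) * (x : ℝ) ^ 2 := by ring
          _ ≤ δ * 1 * (x : ℝ) ^ 2 := by
            refine mul_le_mul_of_nonneg_right (mul_le_mul_of_nonneg_left ?_ hδ.le) (by positivity)
            linarith
          _ = δ * (x : ℝ) ^ 2 := by ring
      have hHH : (0 : ℝ) ≤ (H₁ : ℝ) * H₂ := by positivity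
      calc δ ^ 7 * ((X : ℝ) ^ 2 * H₁ * H₂) = (H₁ : ℝ) * H₂ * (δ ^ 7 * (X : ℝ) ^ 2) := by ring
        _ ≤ (H₁ : ℝ) * H₂ * (δ * (x : ℝ) ^ 2) := mul_le_mul_of_nonneg_left h7 hHH
        _ = δ * ((H₁ : ℝ) * H₂ * (x : ℝ) ^ 2) := by ring)
  -- the correlations
  have hR : ∀ s ∈ Icc 1 H₁, ∀ s' ∈ Icc 1 H₁, ∀ t ∈ Icc 1 H₂, ∀ t' ∈ Icc 1 H₂,
      ∑ z : ZMod X, (cX x z * eX x F (z + ((s * t : ℕ) : ZMod X))) *
          (starRingEnd ℂ) (cX x z * eX x F (z + ((s' * t' : ℕ) : ZMod X))) =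
      ∑ n ∈ Icc 1 x, F (n + s * t) * (starRingEnd ℂ) (F (n + s' * t')) := by
    intro s hs s' hs' t ht t' ht'
    have e2 : ∀ z : ZMod X, (cX x z * eX x F (z + ((s * t : ℕ) : ZMod X))) *
        (starRingEnd ℂ) (cX x z * eX x F (z + ((s' * t' : ℕ) : ZMod X))) =
        cX x z * (eX x F (z + ((s * t : ℕ) : ZMod X)) *
          (starRingEnd ℂ) (eX x F (z + ((s' * t' : ℕ) : ZMod X)))) := by
      intro z
      rw [map_mul]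
      unfold cX
      split_ifs
      · rw [map_one]
        ring
      · rw [map_zero]
        ring
    rw [sum_congr rfl fun z _ => e2 z, sum_cX hX4 hx1]
    refine sum_congr rfl fun n hn => ?_
    rw [eX_lift F hX4 hx1 hn (hst s hs t ht), eX_lift F hX4 hx1 hn (hst s' hs' t' ht')]
  have hfin := corrP x H₁ H₂ (δ ^ (14 * C₁ + 8)) F hx1 hH1 hH2 hN (pow_pos hδ _).le hF hM
  have hle : (δ ^ 7) ^ C₁ * ((X : ℝ) ^ 2 * (H₁ : ℝ) ^ 2 * (H₂ : ℝ) ^ 2) ≤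
      ((H₁ : ℝ) * H₂) ^ 2 * ((x : ℝ) ^ 2 * (Real.sqrt (δ ^ (14 * C₁ + 8)) * (1 + Real.log x) ^ 4)) := by
    refine hmain.trans (le_trans ?_ hfin)
    exact sum_le_sum fun s hs => sum_le_sum fun s' hs' => sum_le_sum fun t ht => sum_le_sum fun t' ht' => by
      rw [hR s hs s' hs' t ht t' ht']
  have hsq : Real.sqrt (δ ^ (14 * C₁ + 8)) = δ ^ (7 * C₁ + 4) := by
    rw [show 14 * C₁ + 8 = (7 * C₁ + 4) * 2 by ring, pow_mul]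
    exact Real.sqrt_sq (pow_pos hδ _).le
  have hl0 : 0 ≤ Real.log x := Real.log_nonneg hx1r
  have hl4 : δ ^ 4 * (1 + Real.log x) ^ 4 ≤ 1 := by
    rw [← mul_pow]
    refine pow_le_one₀ (by positivity) ?_
    have h5 : Real.log x ≤ Real.log (2 * x) := Real.log_le_log hx0 (by linarith)
    have h6 : 1 + Real.log x ≤ δ⁻¹ := by linarith
    calc δ * (1 + Real.log x) ≤ δ * δ⁻¹ := mul_le_mul_of_nonneg_left h6 hδ.le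
      _ = 1 := mul_inv_cancel₀ hδ.ne'
  have hδ7C : 0 < δ ^ (7 * C₁) := pow_pos hδ _
  have hHH : 0 < ((H₁ : ℝ) * H₂) ^ 2 := by positivity
  have hup : Real.sqrt (δ ^ (14 * C₁ + 8)) * (1 + Real.log x) ^ 4 ≤ δ ^ (7 * C₁) := by
    rw [hsq, pow_add, mul_assoc]
    calc δ ^ (7 * C₁) * (δ ^ 4 * (1 + Real.log x) ^ 4) ≤ δ ^ (7 * C₁) * 1 :=
          mul_le_mul_of_nonneg_left hl4 hδ7C.le
      _ = δ ^ (7 * C₁) := mul_one _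
  have hle2 : δ ^ (7 * C₁) * ((H₁ : ℝ) * H₂) ^ 2 * (X : ℝ) ^ 2 ≤ δ ^ (7 * C₁) * ((H₁ : ℝ) * H₂) ^ 2 * (x : ℝ) ^ 2 := by
    calc δ ^ (7 * C₁) * ((H₁ : ℝ) * H₂) ^ 2 * (X : ℝ) ^ 2 =
        (δ ^ 7) ^ C₁ * ((X : ℝ) ^ 2 * (H₁ : ℝ) ^ 2 * (H₂ : ℝ) ^ 2) := by
          rw [pow_mul]
          ring
      _ ≤ ((H₁ : ℝ) * H₂) ^ 2 * ((x : ℝ) ^ 2 * (Real.sqrt (δ ^ (14 * C₁ + 8)) * (1 + Real.log x) ^ 4)) := hle
      _ ≤ ((H₁ : ℝ) * H₂) ^ 2 * ((x : ℝ) ^ 2 * δ ^ (7 * C₁)) :=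
          mul_le_mul_of_nonneg_left (mul_le_mul_of_nonneg_left hup (by positivity)) hHH.le
      _ = δ ^ (7 * C₁) * ((H₁ : ℝ) * H₂) ^ 2 * (x : ℝ) ^ 2 := by ring
  have hle3 : (X : ℝ) ^ 2 ≤ (x : ℝ) ^ 2 := le_of_mul_le_mul_left hle2 (mul_pos hδ7C hHH)
  have hXsq : (x : ℝ) ^ 2 < (X : ℝ) ^ 2 := by
    have : (x : ℝ) < X := by linarith
    exact pow_lt_pow_left₀ this hx0.le two_ne_zero
  linarith

end Pool.Agent.DSH
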