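import Pool.Agent.Lib.DSH.CoreD
import Pool.Agent.Lib.GMV.Fin2
import Pool.Agent.Lib.GMV.Fin3

/-!
# DSH.FinD (1.5 h): consequences for a family

PROOF. The proofs of `GMV.fin_all`, `fin_inf`, `fin_div` (`Fin2.lean`) and `fin_log` (`Fin3.lean`) with `coreD` instead of `core` and the set `G` of `Fam.exc` instead of `F` (`Fin2Aux`, `Fin3Aux`, `noExc`, `exBig`, `siegZ` can be cited; one needs `exp (K √(log X)) ≤ Q`
instead of `exp (√(log X)) ≤ Q`: prove it for `X` large from the same estimates, for both parameters; `Q^(-e') ≤ X^(-κ e'/2)`, resp. `exp(-(κ e'/2) log X/loglog X)`). `κ ≤ c` (the `c` of the family) is needed too.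
-/

set_option autoImplicit false

open Finset Filter

namespace Pool.Agent.DSH

open Pool.Agent.HLB Pool.Agent.HLT Pool.Agent.HLR Pool.Agent.Lib.GMV Pool.Agent.BLF

namespace FinDAux

/-- The floor of a power, with the constants of a family. -/
lemma floor_pow_K (κ K e' : ℝ) (hκ : 0 < κ) (hK : 0 < K) (he' : 0 < e') : ∃ X0 : ℕ, ∀ X : ℕ, X0 ≤ X →
    Real.exp (K * Real.sqrt (Real.log X)) ≤ (⌊(X : ℝ) ^ κ⌋₊ : ℝ) ∧
    (⌊(X : ℝ) ^ κ⌋₊ : ℝ) ^ (-e') ≤ (X : ℝ) ^ (-(κ * e' / 2)) := by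
  have h1 : Tendsto (fun X : ℕ => (X : ℝ) ^ κ) atTop atTop :=
    (tendsto_rpow_atTop hκ).comp tendsto_natCast_atTop_atTop
  have h2 : Tendsto (fun X : ℕ => Real.log (X : ℝ)) atTop atTop :=
    Real.tendsto_log_atTop.comp tendsto_natCast_atTop_atTop
  have h3 : Tendsto (fun X : ℕ => Real.sqrt (Real.log (X : ℝ))) atTop atTop :=
    Real.tendsto_sqrt_atTop.comp h2
  obtain ⟨N, hN⟩ := eventually_atTop.1 (((h1.eventually_ge_atTop 4).and
    (h3.eventually_ge_atTop (max 1 ((K + 1) / κ)))).and (eventually_ge_atTop 1))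
  refine ⟨N, fun X hX => ?_⟩
  obtain ⟨⟨hA, hB⟩, hX1⟩ := hN X hX
  have hX0 : (0 : ℝ) < X := by exact_mod_cast hX1
  set y : ℝ := (X : ℝ) ^ κ with hy
  have hfl : y - 1 ≤ (⌊y⌋₊ : ℝ) := by
    have := Nat.lt_floor_add_one y
    linarith
  have hy2 : y / 2 ≤ (⌊y⌋₊ : ℝ) := by linarith
  refine ⟨?_, ?_⟩
  · refine le_trans ?_ hy2
    have hL0 : 0 ≤ Real.log X := Real.log_natCast_nonneg X
    have hsq : Real.sqrt (Real.log X) * Real.sqrt (Real.log X) = Real.log X :=
      Real.mul_self_sqrt hL0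
    have hs1 : 1 ≤ Real.sqrt (Real.log X) := (le_max_left _ _).trans hB
    have hs2 : (K + 1) / κ ≤ Real.sqrt (Real.log X) := (le_max_right _ _).trans hB
    rw [div_le_iff₀ hκ] at hs2
    have h5 : (K + 1) * Real.sqrt (Real.log X) ≤ κ * Real.log X := by
      calc (K + 1) * Real.sqrt (Real.log X)
          ≤ (Real.sqrt (Real.log X) * κ) * Real.sqrt (Real.log X) :=
            mul_le_mul_of_nonneg_right hs2 (by linarith)
        _ = κ * (Real.sqrt (Real.log X) * Real.sqrt (Real.log X)) := by ring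
        _ = κ * Real.log X := by rw [hsq]
    have hlog2 : Real.log 2 ≤ 1 := by
      have := Real.log_two_lt_d9
      linarith
    rw [le_div_iff₀ (by norm_num : (0 : ℝ) < 2)]
    have e2 : y = Real.exp (κ * Real.log X) := by
      rw [hy, Real.rpow_def_of_pos hX0, mul_comm]
    rw [e2]
    calc Real.exp (K * Real.sqrt (Real.log X)) * 2
        = Real.exp (K * Real.sqrt (Real.log X) + Real.log 2) := by
          rw [Real.exp_add, Real.exp_log (by norm_num)]
      _ ≤ Real.exp (κ * Real.log X) := Real.exp_le_exp.mpr (by linarith)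
  · have h6 : (⌊y⌋₊ : ℝ) ^ (-e') ≤ (y / 2) ^ (-e') :=
      Real.rpow_le_rpow_of_nonpos (by linarith) hy2 (by linarith)
    refine h6.trans ?_
    have e3 : (X : ℝ) ^ (-(κ * e' / 2)) = y ^ (-(e' / 2)) := by
      rw [hy, ← Real.rpow_mul hX0.le]
      congr 1
      ring
    rw [e3]
    have hy0 : 0 < y := by linarith
    have h7 : (y / 2) ^ (-e') ≤ (y ^ (1 / 2 : ℝ)) ^ (-e') := by
      apply Real.rpow_le_rpow_of_nonpos (by positivity) _ (by linarith)
      have h8 : y ^ (1 / 2 : ℝ) * y ^ (1 / 2 : ℝ) = y := by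
        rw [← Real.rpow_add hy0]
        norm_num
      have h9 : 2 ≤ y ^ (1 / 2 : ℝ) := by
        have h10 : (4 : ℝ) ^ (1 / 2 : ℝ) ≤ y ^ (1 / 2 : ℝ) :=
          Real.rpow_le_rpow (by norm_num) hA (by norm_num)
        have h11 : (4 : ℝ) ^ (1 / 2 : ℝ) = 2 := by
          rw [show (4 : ℝ) = 2 ^ (2 : ℝ) by norm_num, ← Real.rpow_mul (by norm_num)]
          norm_num
        linarith
      have h12 : 0 ≤ y ^ (1 / 2 : ℝ) := by positivity
      nlinarith
    refine h7.trans (le_of_eq ?_)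
    rw [← Real.rpow_mul hy0.le]
    congr 1
    ring

/-- The parameter of the logarithmic form, with the constants of a family. -/
lemma ql_K (κ K e' : ℝ) (hκ : 0 < κ) (hK : 0 < K) (he' : 0 < e') : ∃ X0 : ℕ, ∀ X : ℕ, X0 ≤ X →
    Real.exp (K * Real.sqrt (Real.log X)) ≤ (Fin3Aux.QL κ X : ℝ) ∧
    (Fin3Aux.QL κ X : ℝ) ^ (-e') ≤
      Real.exp (-(κ * e' / 2 * Real.log X / Real.log (Real.log X))) := by
  have h2 : Tendsto (fun X : ℕ => Real.log (X : ℝ)) atTop atTop :=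
    Real.tendsto_log_atTop.comp tendsto_natCast_atTop_atTop
  have h3 : Tendsto (fun X : ℕ => Real.log (Real.log (X : ℝ))) atTop atTop :=
    Real.tendsto_log_atTop.comp h2
  have hm : 0 < κ / (4 * (K + 1)) := by positivity
  have h4 : ∀ᶠ L : ℝ in atTop, Real.log L ≤ (κ / (4 * (K + 1))) * L ^ (1 / 2 : ℝ) :=
    ((isLittleO_log_rpow_atTop (by norm_num : (0 : ℝ) < 1 / 2)).bound hm).mp
      ((eventually_ge_atTop 1).mono fun L hL h => by
      have h5 : 0 ≤ Real.log L := Real.log_nonneg hL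
      have h6 : 0 ≤ L ^ (1 / 2 : ℝ) := by positivity
      rw [Real.norm_of_nonneg h5, Real.norm_of_nonneg h6] at h
      exact h)
  obtain ⟨N, hN⟩ := eventually_atTop.1 (((h2.eventually h4).and
    (h3.eventually_ge_atTop 1)).and (h2.eventually_ge_atTop 4))
  refine ⟨N, fun X hX => ?_⟩
  obtain ⟨⟨hA, hB⟩, hL4⟩ := hN X hX
  set L : ℝ := Real.log X with hL
  set l : ℝ := Real.log L with hl
  have hl0 : 0 < l := by linarith
  have hL0 : 0 < L := by linarith
  have hsq : L ^ (1 / 2 : ℝ) = Real.sqrt L := by rw [Real.sqrt_eq_rpow]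
  rw [hsq] at hA
  have hs2 : 2 ≤ Real.sqrt L := by
    rw [show (2 : ℝ) = Real.sqrt 4 by rw [show (4 : ℝ) = 2 ^ 2 by norm_num]; simp]
    exact Real.sqrt_le_sqrt hL4
  have hss : Real.sqrt L * Real.sqrt L = L := Real.mul_self_sqrt hL0.le
  have hmain : 4 * (K + 1) * Real.sqrt L ≤ κ * L / l := by
    rw [le_div_iff₀ hl0]
    calc 4 * (K + 1) * Real.sqrt L * l
        ≤ 4 * (K + 1) * Real.sqrt L * (κ / (4 * (K + 1)) * Real.sqrt L) :=
          mul_le_mul_of_nonneg_left hA (by positivity)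
      _ = κ * (Real.sqrt L * Real.sqrt L) := by field_simp
      _ = κ * L := by rw [hss]
  set E : ℝ := κ * L / l with hE
  have hKs : 0 < K * Real.sqrt L := by positivity
  have hE8 : 8 ≤ E := by nlinarith
  set y : ℝ := Real.exp E with hy
  have hy8 : 8 ≤ y := by
    have : E + 1 ≤ y := Real.add_one_le_exp E
    linarith
  have hfl : y - 1 ≤ (⌊y⌋₊ : ℝ) := by
    have := Nat.lt_floor_add_one y
    linarith
  have hy2 : y / 2 ≤ (⌊y⌋₊ : ℝ) := by linarith
  have hhalf : Real.exp (E / 2) ≤ y / 2 := by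
    have h7 : Real.exp (E / 2) * Real.exp (E / 2) = y := by
      rw [← Real.exp_add]
      congr 1
      ring
    have h8 : 2 ≤ Real.exp (E / 2) := by
      have : E / 2 + 1 ≤ Real.exp (E / 2) := Real.add_one_le_exp _
      linarith
    have h9 : 0 < Real.exp (E / 2) := Real.exp_pos _
    nlinarith
  have hQL : Fin3Aux.QL κ X = ⌊y⌋₊ := rfl
  rw [hQL]
  refine ⟨?_, ?_⟩
  · refine le_trans (Real.exp_le_exp.mpr ?_) (hhalf.trans hy2)
    nlinarith
  · have h6 : (⌊y⌋₊ : ℝ) ^ (-e') ≤ (Real.exp (E / 2)) ^ (-e') :=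
      Real.rpow_le_rpow_of_nonpos (Real.exp_pos _) (hhalf.trans hy2) (by linarith)
    refine h6.trans (le_of_eq ?_)
    rw [← Real.exp_mul]
    congr 1
    rw [hE]
    ring

end FinDAux

open FinDAux Fin2Aux Fin3Aux

theorem finD_all (r : ℕ) (hr : 1 ≤ r) {σ : Type} (P : ℕ → Finset σ) (a : σ → Fin r → ℕ) (N e e' cF K : ℝ)
    (hF : Fam r P a N e e' cF K) (c1 c : ℝ) (hZ : ZFree c1) (hc : 0 < c) (hcc : c < c1) :
    ∃ C : ℝ, 0 < C ∧ ∀ ε : ℝ, 0 < ε → ∀ κ0 : ℝ, 0 < κ0 → ∃ κ : ℝ, 0 < κ ∧ κ ≤ κ0 ∧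
      ∀ Q0 : ℝ, ∃ X0 : ℕ, ∀ X : ℕ, X0 ≤ X →
      ∃ q : ℕ, ExMod c ⌊(X : ℝ) ^ κ⌋₊ q ∧ (⌊(X : ℝ) ^ κ⌋₊ : ℝ) ≤ (X : ℝ) ^ κ ∧
        Q0 ≤ (⌊(X : ℝ) ^ κ⌋₊ : ℝ) ∧
        ABF r P a X ((X : ℝ) ^ (N - κ * e' / 2)) fun a => Good r X (ε + C * Gq q (c0 a)) a := by
  obtain ⟨aa, C, c2, ha, hC, hc2, X1, hcore⟩ := coreD r hr c1 c hZ hc hcc e hF.e0 hF.e1
  obtain ⟨X5, hexc⟩ := hF.exc
  refine ⟨C, hC, fun ε hε κ0 hκ0 => ?_⟩
  obtain ⟨κ, hκ, hκ2, hκe⟩ := small_exp aa C ε ha hε (min (min c2 cF) κ0)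
    (lt_min (lt_min hc2 hF.c0') hκ0)
  refine ⟨κ, hκ, hκ2.trans (min_le_right _ _), fun Q0 => ?_⟩
  obtain ⟨X2, hX2⟩ := floor_pow_facts κ hκ Q0
  obtain ⟨X3, hX3⟩ := floor_pow_K κ K e' hκ hF.K0 hF.e'0
  refine ⟨max (max X1 X2) (max X3 X5), fun X hX => ?_⟩
  obtain ⟨f1, f2, f3, f4, -, f6, f7⟩ :=
    hX2 X ((le_max_right _ _).trans ((le_max_left _ _).trans hX))
  obtain ⟨g1, g2⟩ := hX3 X ((le_max_left _ _).trans ((le_max_right _ _).trans hX))
  have hX1 : (1 : ℝ) ≤ X := by exact_mod_cast f4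
  have hle : (⌊(X : ℝ) ^ κ⌋₊ : ℝ) ≤ (X : ℝ) ^ c2 :=
    f2.trans (Real.rpow_le_rpow_of_exponent_le hX1
      (hκ2.trans ((min_le_left _ _).trans (min_le_left _ _))))
  have hleF : (⌊(X : ℝ) ^ κ⌋₊ : ℝ) ≤ (X : ℝ) ^ cF :=
    f2.trans (Real.rpow_le_rpow_of_exponent_le hX1
      (hκ2.trans ((min_le_left _ _).trans (min_le_right _ _))))
  obtain ⟨q, hq, hgood⟩ := hcore X _ ((le_max_left _ _).trans ((le_max_left _ _).trans hX)) f1 hle
  obtain ⟨G, hG, hDv⟩ := hexc X _ ((le_max_right _ _).trans ((le_max_right _ _).trans hX)) g1 hleF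
  refine ⟨q, hq, f2, f3, G, hG.trans ?_, fun t ht htG h3 h4 y hy => ?_⟩
  · have hX0 : (0 : ℝ) < X := by linarith
    calc (X : ℝ) ^ N * (⌊(X : ℝ) ^ κ⌋₊ : ℝ) ^ (-e')
        ≤ (X : ℝ) ^ N * (X : ℝ) ^ (-(κ * e' / 2)) := mul_le_mul_of_nonneg_left g2 (by positivity)
      _ = (X : ℝ) ^ (N - κ * e' / 2) := by
          rw [← Real.rpow_add hX0]
          rfl
  · refine (hgood (a t) (hF.mem X t ht) (hDv t ht htG) h3 h4 y hy).trans ?_
    have hlog : 0 ≤ Real.log X ^ (r + 1) := pow_nonneg (Real.log_nonneg hX1) _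
    have hM : 0 ≤ SI (c0 (a t)) * X / Real.log X ^ (r + 1) :=
      div_nonneg (mul_nonneg (SI_nonneg _ h3) (by linarith)) hlog
    have hEr := er_le ha hκ f6 f7
    have : C * (Er aa X ⌊(X : ℝ) ^ κ⌋₊ + Gq q (c0 (a t))) ≤ ε + C * Gq q (c0 (a t)) := by
      rw [mul_add]
      have := mul_le_mul_of_nonneg_left hEr hC.le
      linarith
    calc C * (SI (c0 (a t)) * X / Real.log X ^ (r + 1)) *
          (Er aa X ⌊(X : ℝ) ^ κ⌋₊ + Gq q (c0 (a t)))
        = C * (Er aa X ⌊(X : ℝ) ^ κ⌋₊ + Gq q (c0 (a t))) *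
          (SI (c0 (a t)) * X / Real.log X ^ (r + 1)) := by ring
      _ ≤ _ := mul_le_mul_of_nonneg_right this hM

theorem finD_inf (r : ℕ) (hr : 1 ≤ r) {σ : Type} (P : ℕ → Finset σ) (a : σ → Fin r → ℕ) (N e e' cF K : ℝ)
    (hF : Fam r P a N e e' cF K) (c1 : ℝ) (hZ : ZFree c1) (hc1 : 0 < c1) :
    ∀ ε : ℝ, 0 < ε → ∃ δ : ℝ, 0 < δ ∧ ∀ M : ℕ, ∃ X : ℕ, M ≤ X ∧
      ABF r P a X ((X : ℝ) ^ (N - δ)) fun a => Good r X ε a := by
  intro ε hε
  obtain ⟨C, hC, h⟩ := finD_all r hr P a N e e' cF K hF c1 (c1 / 2) hZ (by linarith) (by linarith)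
  obtain ⟨κ, hκ, -, h2⟩ := h ε hε 1 one_pos
  obtain ⟨X0, h3⟩ := h2 0
  have he' := hF.e'0
  refine ⟨κ * e' / 2, by positivity, fun M => ?_⟩
  obtain ⟨X, hX, hno⟩ := noExc c1 (c1 / 2) κ hZ (by linarith) (by linarith) hκ (max M X0)
  obtain ⟨q, hq, -, -, hAB⟩ := h3 X ((le_max_right _ _).trans hX)
  have hq0 : q = 0 := by
    rcases hq with ⟨h0, -⟩ | ⟨xe, β, he, -⟩
    · exact h0
    · exact absurd he (hno xe β)
  refine ⟨X, (le_max_left _ _).trans hX, ?_⟩
  obtain ⟨G, hG, hgood⟩ := hAB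
  refine ⟨G, hG, fun t h4 h5 h6 h7 => ?_⟩
  have h8 : Good r X (ε + C * Gq q (c0 (a t))) (a t) := hgood t h4 h5 h6 h7
  have e : Gq q (c0 (a t)) = 0 := by
    unfold Gq
    rw [if_pos hq0]
  rwa [e, mul_zero, add_zero] at h8

theorem finD_div (r : ℕ) (hr : 1 ≤ r) {σ : Type} (P : ℕ → Finset σ) (a : σ → Fin r → ℕ) (N e e' cF K : ℝ)
    (hF : Fam r P a N e e' cF K) (c1 : ℝ) (hZ : ZFree c1) (hc1 : 0 < c1) :
    ∀ ε : ℝ, 0 < ε → ∀ κ0 : ℝ, 0 < κ0 → ∀ w : ℕ, ∃ δ : ℝ, 0 < δ ∧ ∃ X0 : ℕ, ∀ X : ℕ, X0 ≤ X →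
      ABF r P a X ((X : ℝ) ^ (N - δ)) fun a =>
        (∃ d : ℕ, d ∣ Del (c0 a) ∧ w < d ∧ (d : ℝ) ≤ (X : ℝ) ^ κ0) ∨ Good r X ε a := by
  intro ε hε κ0 hκ0 w
  obtain ⟨C, hC, h⟩ := finD_all r hr P a N e e' cF K hF c1 (c1 / 2) hZ (by linarith) (by linarith)
  obtain ⟨κ, hκ, hκκ, h2⟩ := h (ε / 2) (by linarith) κ0 hκ0
  -- the size of the exceptional modulus
  have hlim : Tendsto (fun m : ℕ => C * ((m : ℝ) / (w + 1)) ^ (-(1 / 4 : ℝ))) atTop (nhds (C * 0)) := by
    refine Tendsto.const_mul C ?_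
    refine (tendsto_rpow_neg_atTop (by norm_num : (0 : ℝ) < 1 / 4)).comp ?_
    exact (tendsto_natCast_atTop_atTop).atTop_div_const (by positivity)
  rw [mul_zero] at hlim
  obtain ⟨m, hm1, hm2⟩ := ((hlim.eventually (gt_mem_nhds (half_pos hε))).and
    (eventually_ge_atTop 1)).exists
  obtain ⟨Q0, hQ0⟩ := exBig (c1 / 2) m
  obtain ⟨X0, h3⟩ := h2 Q0
  have he' := hF.e'0
  refine ⟨κ * e' / 2, by positivity, max X0 1, fun X hX => ?_⟩
  obtain ⟨q, hq, hf2, hf3, F, hF', hgood⟩ := h3 X ((le_max_left _ _).trans hX)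
  have hX1 : (1 : ℝ) ≤ X := by exact_mod_cast (le_max_right _ _).trans hX
  refine ⟨F, hF', fun t h4 h5 h6 h7 => ?_⟩
  by_cases hd : ∃ d : ℕ, d ∣ Del (c0 (a t)) ∧ w < d ∧ (d : ℝ) ≤ (X : ℝ) ^ κ0
  · exact Or.inl hd
  · right
    have hg : Good r X (ε / 2 + C * Gq q (c0 (a t))) (a t) := hgood t h4 h5 h6 h7
    -- `C * Gq ≤ ε / 2`
    have hG : C * Gq q (c0 (a t)) ≤ ε / 2 := by
      unfold Gq
      split_ifs with h0
      · rw [mul_zero]; linarith
      · rcases hq with ⟨h0', -⟩ | ⟨xe, β, he, hqe⟩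
        · exact absurd h0' h0
        · have hQ : Q0 ≤ ⌊(X : ℝ) ^ κ⌋₊ := by exact_mod_cast hf3
          have hbig : m < q := by
            rw [hqe]
            exact hQ0 _ hQ xe β he
          have hqQ : q ≤ ⌊(X : ℝ) ^ κ⌋₊ := by
            rw [hqe]
            exact (mem_Ch.1 he.1).1
          set g := Nat.gcd q (Del (c0 (a t))) with hgd
          have hgpos : 0 < g := Nat.gcd_pos_of_pos_left _ (Nat.pos_of_ne_zero h0)
          have hgw : g ≤ w := by
            by_contra hcon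
            refine hd ⟨g, Nat.gcd_dvd_right _ _, not_le.mp hcon, ?_⟩
            have h8' : g ≤ q := Nat.le_of_dvd (Nat.pos_of_ne_zero h0) (Nat.gcd_dvd_left _ _)
            have h8 : (g : ℝ) ≤ q := by exact_mod_cast h8'
            have h9 : (q : ℝ) ≤ (⌊(X : ℝ) ^ κ⌋₊ : ℝ) := by exact_mod_cast hqQ
            exact h8.trans (h9.trans (hf2.trans
              (Real.rpow_le_rpow_of_exponent_le hX1 hκκ)))
          have hm0 : (0 : ℝ) < m := by exact_mod_cast hm2
          have hg0 : (0 : ℝ) < g := by exact_mod_cast hgpos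
          have h10 : (m : ℝ) / (w + 1) ≤ (q : ℝ) / (g : ℝ) := by
            have h11 : (g : ℝ) ≤ w + 1 := by
              have : (g : ℝ) ≤ w := by exact_mod_cast hgw
              linarith
            have h12 : (m : ℝ) ≤ q := by exact_mod_cast hbig.le
            exact div_le_div₀ (by positivity) h12 hg0 h11
          have h13 : ((q : ℝ) / (g : ℝ)) ^ (-(1 / 4 : ℝ)) ≤ ((m : ℝ) / (w + 1)) ^ (-(1 / 4 : ℝ)) :=
            Real.rpow_le_rpow_of_nonpos (by positivity) h10 (by norm_num)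
          calc C * ((q : ℝ) / (g : ℝ)) ^ (-(1 / 4 : ℝ))
              ≤ C * ((m : ℝ) / (w + 1)) ^ (-(1 / 4 : ℝ)) := mul_le_mul_of_nonneg_left h13 hC.le
            _ ≤ ε / 2 := hm1.le
    intro y hy
    refine (hg y hy).trans ?_
    have hlog : 0 ≤ Real.log X ^ (r + 1) := pow_nonneg (Real.log_nonneg hX1) _
    have hM : 0 ≤ SI (c0 (a t)) * X / Real.log X ^ (r + 1) :=
      div_nonneg (mul_nonneg (SI_nonneg _ h6) (by linarith)) hlog
    exact mul_le_mul_of_nonneg_right (by linarith) hM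

theorem finD_log (r : ℕ) (hr : 1 ≤ r) {σ : Type} (P : ℕ → Finset σ) (a : σ → Fin r → ℕ) (N e e' cF K : ℝ)
    (hF : Fam r P a N e e' cF K) (c1 : ℝ) (hZ : ZFree c1) (hc1 : 0 < c1) :
    ∀ (A B : ℕ) (κ0 : ℝ), 0 < κ0 → ∃ δ : ℝ, 0 < δ ∧ ∃ X0 : ℕ, ∀ X : ℕ, X0 ≤ X →
      ABF r P a X ((X : ℝ) ^ N * Real.exp (-(δ * Real.log X / Real.log (Real.log X)))) fun a =>
        (∃ d : ℕ, d ∣ Del (c0 a) ∧ Real.log X ^ B < d ∧ (d : ℝ) ≤ (X : ℝ) ^ κ0) ∨
          Good r X (1 / Real.log X ^ A) a := by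
  intro A B κ0 hκ0
  obtain ⟨aa, C, c2, ha, hC, hc2, X1, hcore⟩ :=
    coreD r hr c1 (c1 / 2) hZ (by linarith) (by linarith) e hF.e0 hF.e1
  obtain ⟨X5, hexc⟩ := hF.exc
  have he' := hF.e'0
  set κ : ℝ := aa / (A + 1) with hκd
  have hκ : 0 < κ := by positivity
  set K' : ℕ := 4 * (A + 1) + B + 2 with hK
  obtain ⟨Cs, hCs, hsieg⟩ := siegZ (1 / (2 * K')) (by positivity)
  obtain ⟨X2, hX2⟩ := ql_facts κ (min (min c2 cF) κ0) hκ (lt_min (lt_min hc2 hF.c0') hκ0)
  obtain ⟨X4, hX4⟩ := ql_K κ K e' hκ hF.K0 he'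
  have h2 : Tendsto (fun X : ℕ => Real.log (X : ℝ)) atTop atTop :=
    Real.tendsto_log_atTop.comp tendsto_natCast_atTop_atTop
  set D : ℝ := (Cs / (c1 / 2)) ^ (2 * K') with hD
  have hD0 : 0 < D := by positivity
  obtain ⟨X3, hX3⟩ := eventually_atTop.1 (h2.eventually_ge_atTop
    (max (max 1 (2 * C)) (max (1 / D) (100 * c1 ^ 2 + 1))))
  refine ⟨κ * e' / 2, by positivity, max (max X4 X5) (max X1 (max X2 X3)), fun X hX' => ?_⟩
  have hX : max X1 (max X2 X3) ≤ X := (le_max_right _ _).trans hX'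
  obtain ⟨f1, f2, f3, f4, -, f6, f7⟩ := hX2 X ((le_max_left _ _).trans ((le_max_right _ _).trans hX))
  obtain ⟨g1, g2⟩ := hX4 X ((le_max_left _ _).trans ((le_max_left _ _).trans hX'))
  have f8 := hX3 X ((le_max_right _ _).trans ((le_max_right _ _).trans hX))
  set L : ℝ := Real.log X with hL
  have hL1 : 1 ≤ L := ((le_max_left _ _).trans (le_max_left _ _)).trans f8
  have hLC : 2 * C ≤ L := ((le_max_right _ _).trans (le_max_left _ _)).trans f8
  have hLD : 1 / D ≤ L := ((le_max_left _ _).trans (le_max_right _ _)).trans f8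
  have hLc : 100 * c1 ^ 2 + 1 ≤ L := ((le_max_right _ _).trans (le_max_right _ _)).trans f8
  have hX16 : (16 : ℝ) ≤ X := by exact_mod_cast f3
  have hX1 : (1 : ℝ) ≤ X := by linarith
  have hL0 : 0 < L := by linarith
  have hs1 : 1 ≤ Real.sqrt L := Real.one_le_sqrt.mpr hL1
  have hQlog : 0 < Real.log (QL κ X : ℝ) := lt_of_lt_of_le (by linarith) f6
  have hQc2 : (QL κ X : ℝ) ≤ (X : ℝ) ^ c2 :=
    f2.trans (Real.rpow_le_rpow_of_exponent_le hX1 ((min_le_left _ _).trans (min_le_left _ _)))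
  have hQcF : (QL κ X : ℝ) ≤ (X : ℝ) ^ cF :=
    f2.trans (Real.rpow_le_rpow_of_exponent_le hX1 ((min_le_left _ _).trans (min_le_right _ _)))
  have hQκ : (QL κ X : ℝ) ≤ (X : ℝ) ^ κ0 :=
    f2.trans (Real.rpow_le_rpow_of_exponent_le hX1 (min_le_right _ _))
  obtain ⟨q, hq, hgood⟩ := hcore X (QL κ X) ((le_max_left _ _).trans hX) f1 hQc2
  obtain ⟨F, hF', hDv⟩ := hexc X (QL κ X) ((le_max_right _ _).trans ((le_max_left _ _).trans hX'))
    g1 hQcF
  refine ⟨F, hF'.trans (mul_le_mul_of_nonneg_left g2 (by positivity)), fun t h4 h5 h6 h7 => ?_⟩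
  by_cases hd : ∃ d : ℕ, d ∣ Del (c0 (a t)) ∧ L ^ B < d ∧ (d : ℝ) ≤ (X : ℝ) ^ κ0
  · exact Or.inl hd
  · right
    have hM : 0 ≤ SI (c0 (a t)) * X / L ^ (r + 1) :=
      div_nonneg (mul_nonneg (SI_nonneg _ h6) (by linarith)) (pow_nonneg hL0.le _)
    have hLA : 0 < L ^ (A + 1) := pow_pos hL0 _
    -- the exponential term
    have hEr : Er aa X (QL κ X) ≤ 1 / L ^ (A + 1) := by
      unfold Er
      have h8 : (A + 1 : ℝ) * Real.log L ≤ aa * L / Real.log (QL κ X : ℝ) := by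
        rw [le_div_iff₀ hQlog]
        have hl0 : 0 < Real.log L := by linarith
        have h9 : Real.log (QL κ X : ℝ) * Real.log L ≤ κ * L := by
          rw [le_div_iff₀ hl0] at f7
          exact f7
        calc (A + 1 : ℝ) * Real.log L * Real.log (QL κ X : ℝ)
            = (A + 1) * (Real.log (QL κ X : ℝ) * Real.log L) := by ring
          _ ≤ (A + 1) * (κ * L) := mul_le_mul_of_nonneg_left h9 (by positivity)
          _ = aa * L := by rw [hκd]; field_simp
      have h10 : Real.exp (-(aa * L / Real.log (QL κ X : ℝ))) ≤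
          Real.exp (-((A + 1 : ℝ) * Real.log L)) := Real.exp_le_exp.mpr (by linarith)
      refine h10.trans (le_of_eq ?_)
      rw [Real.exp_neg, mul_comm, Real.exp_mul, Real.exp_log hL0, one_div]
      congr 1
      rw [← Real.rpow_natCast]
      push_cast
      rfl
    -- the exceptional term
    have hG : Gq q (c0 (a t)) ≤ 1 / L ^ (A + 1) := by
      unfold Gq
      split_ifs with h0
      · positivity
      · rcases hq with ⟨h0', -⟩ | ⟨xe, β, ⟨e1, e2, e3, e4, e5, e6⟩, hqe⟩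
        · exact absurd h0' h0
        · have hsl : Real.sqrt L * Real.sqrt L = L := Real.mul_self_sqrt hL0.le
          have hb9 : 9 / 10 ≤ β := by
            have h11 : c1 / 2 / Real.log (QL κ X : ℝ) ≤ 1 / 10 := by
              rw [div_le_iff₀ hQlog]
              have h12 : 5 * c1 ≤ Real.sqrt L := by
                by_contra hcon
                push Not at hcon
                nlinarith
              nlinarith
            linarith
          have h13 := hsieg xe β (mem_Ch.1 e1).2 e2 e3 e4 hb9 e6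
          have h14 : Cs * (md xe : ℝ) ^ (-(1 / (2 * K') : ℝ)) ≤ c1 / 2 / Real.sqrt L := by
            refine h13.trans ?_
            have h15 : c1 / 2 / Real.log (QL κ X : ℝ) ≤ c1 / 2 / Real.sqrt L :=
              div_le_div_of_nonneg_left (by linarith) (by linarith) f6
            linarith
          have hq0 : (0 : ℝ) < md xe := by exact_mod_cast md_pos xe
          -- `D L^K ≤ q`
          have h16 : D * L ^ K' ≤ (md xe : ℝ) := by
            have h17 : Cs / (c1 / 2) * Real.sqrt L ≤ (md xe : ℝ) ^ ((1 / (2 * K') : ℝ)) := by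
              have hp : 0 < (md xe : ℝ) ^ ((1 / (2 * K') : ℝ)) := Real.rpow_pos_of_pos hq0 _
              rw [Real.rpow_neg hq0.le] at h14
              rw [le_div_iff₀ (by linarith : 0 < Real.sqrt L)] at h14
              rw [div_mul_eq_mul_div, div_le_iff₀ (by linarith : 0 < c1 / 2)]
              have h18 := mul_le_mul_of_nonneg_right h14 hp.le
              have e7 : Cs * ((md xe : ℝ) ^ ((1 / (2 * K') : ℝ)))⁻¹ * Real.sqrt L *
                  (md xe : ℝ) ^ ((1 / (2 * K') : ℝ)) = Cs * Real.sqrt L := by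
                field_simp
              rw [e7] at h18
              linarith
            have h19 : (Cs / (c1 / 2) * Real.sqrt L) ^ (2 * K') ≤
                ((md xe : ℝ) ^ ((1 / (2 * K') : ℝ))) ^ (2 * K') :=
              pow_le_pow_left₀ (by positivity) h17 _
            have e8 : ((md xe : ℝ) ^ ((1 / (2 * K') : ℝ))) ^ (2 * K') = md xe := by
              rw [← Real.rpow_natCast, ← Real.rpow_mul hq0.le]
              have : (1 / (2 * K') : ℝ) * ((2 * K' : ℕ) : ℝ) = 1 := by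
                push_cast
                have : (0 : ℝ) < K' := by
                  rw [hK]
                  positivity
                field_simp
              rw [this, Real.rpow_one]
            have e9 : (Cs / (c1 / 2) * Real.sqrt L) ^ (2 * K') = D * L ^ K' := by
              rw [mul_pow, ← hD, pow_mul (Real.sqrt L), sq, hsl]
            rwa [e8, e9] at h19
          set g := Nat.gcd q (Del (c0 (a t))) with hgd
          have hgpos : 0 < g := Nat.gcd_pos_of_pos_left _ (Nat.pos_of_ne_zero h0)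
          have hg0 : (0 : ℝ) < g := by exact_mod_cast hgpos
          have hgw : (g : ℝ) ≤ L ^ B := by
            by_contra hcon
            refine hd ⟨g, Nat.gcd_dvd_right _ _, not_le.mp hcon, ?_⟩
            have h8' : g ≤ q := Nat.le_of_dvd (Nat.pos_of_ne_zero h0) (Nat.gcd_dvd_left _ _)
            have h8 : (g : ℝ) ≤ q := by exact_mod_cast h8'
            have h9' : q ≤ QL κ X := by
              rw [hqe]
              exact (mem_Ch.1 e1).1
            have h9 : (q : ℝ) ≤ (QL κ X : ℝ) := by exact_mod_cast h9'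
            exact h8.trans (h9.trans hQκ)
          have h20 : L ^ (4 * (A + 1)) ≤ (q : ℝ) / (g : ℝ) := by
            rw [le_div_iff₀ hg0]
            have h21 : L ^ (4 * (A + 1)) * g ≤ L ^ (4 * (A + 1)) * L ^ B :=
              mul_le_mul_of_nonneg_left hgw (by positivity)
            have h22 : L ^ (4 * (A + 1)) * L ^ B ≤ D * L ^ K' := by
              have e10 : D * L ^ K' = (D * L) * L * (L ^ (4 * (A + 1)) * L ^ B) := by
                rw [hK]
                ring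
              rw [e10]
              have h23 : 1 ≤ D * L := by
                rw [div_le_iff₀ hD0] at hLD
                linarith
              have h24 : 1 ≤ (D * L) * L := by nlinarith
              have h25 : 0 ≤ L ^ (4 * (A + 1)) * L ^ B := by positivity
              nlinarith
            have h26 : (md xe : ℝ) = q := by rw [hqe]
            linarith
          have h27 : ((q : ℝ) / (g : ℝ)) ^ (-(1 / 4 : ℝ)) ≤ (L ^ (4 * (A + 1))) ^ (-(1 / 4 : ℝ)) :=
            Real.rpow_le_rpow_of_nonpos (by positivity) h20 (by norm_num)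
          refine h27.trans (le_of_eq ?_)
          rw [Real.rpow_neg (by positivity), one_div, ← Real.rpow_natCast L (4 * (A + 1)),
            ← Real.rpow_mul hL0.le, ← Real.rpow_natCast L (A + 1)]
          push_cast
          ring_nf
    intro y hy
    refine (hgood (a t) (hF.mem X t h4) (hDv t h4 h5) h6 h7 y hy).trans ?_
    have h28 : C * (Er aa X (QL κ X) + Gq q (c0 (a t))) ≤ 1 / L ^ A := by
      have h29 : C * (Er aa X (QL κ X) + Gq q (c0 (a t))) ≤
          C * (1 / L ^ (A + 1) + 1 / L ^ (A + 1)) :=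
        mul_le_mul_of_nonneg_left (add_le_add hEr hG) hC.le
      refine h29.trans ?_
      have e11 : C * (1 / L ^ (A + 1) + 1 / L ^ (A + 1)) = (2 * C) / L * (1 / L ^ A) := by
        rw [pow_succ]
        field_simp
        ring
      rw [e11]
      have h30 : (2 * C) / L ≤ 1 := by
        rw [div_le_one hL0]
        exact hLC
      have h31 : 0 ≤ 1 / L ^ A := by positivity
      nlinarith
    calc C * (SI (c0 (a t)) * X / L ^ (r + 1)) * (Er aa X (QL κ X) + Gq q (c0 (a t)))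
        = C * (Er aa X (QL κ X) + Gq q (c0 (a t))) * (SI (c0 (a t)) * X / L ^ (r + 1)) := by ring
      _ ≤ _ := mul_le_mul_of_nonneg_right h28 hM

end Pool.Agent.DSH
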