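import Pool.Agent.Lib.DSH.FinD
import Pool.Agent.Lib.SPP.FinC

/-!
# DSH.FinM: all large `X`, outside the multiples of one modulus
-/

set_option autoImplicit false

open Finset Filter

namespace Pool.Agent.DSH

open Pool.Agent.HLB Pool.Agent.HLT Pool.Agent.HLR Pool.Agent.Lib.GMV Pool.Agent.BLF

theorem finD_mod (r : ℕ) (hr : 1 ≤ r) {σ : Type} (P : ℕ → Finset σ) (a : σ → Fin r → ℕ) (N e e' cF K1 : ℝ)
    (hF : Fam r P a N e e' cF K1) (c1 : ℝ) (hZ : ZFree c1) (hc1 : 0 < c1) :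
    ∀ ε : ℝ, 0 < ε → ∀ κ0 : ℝ, 0 < κ0 → ∃ δ : ℝ, 0 < δ ∧ ∃ K : ℕ, ∀ A : ℕ, ∃ X0 : ℕ, ∀ X : ℕ, X0 ≤ X →
      ∃ q : ℕ, (q : ℝ) ≤ (X : ℝ) ^ κ0 ∧ (q = 0 ∨ Real.log X ^ A ≤ q) ∧
        ABF r P a X ((X : ℝ) ^ (N - δ)) fun a =>
          (q ≠ 0 ∧ q < K * Nat.gcd q (Del (c0 a))) ∨ Good r X ε a := by
  intro ε hε κ0 hκ0
  obtain ⟨C, hC, h⟩ := finD_all r hr P a N e e' cF K1 hF c1 (c1 / 2) hZ (by linarith) (by linarith)
  obtain ⟨κ, hκ, hκκ, h3⟩ := h (ε / 2) (by linarith) κ0 hκ0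
  have hlim : Tendsto (fun m : ℕ => C * (m : ℝ) ^ (-(1 / 4 : ℝ))) atTop (nhds (C * 0)) := by
    refine Tendsto.const_mul C ?_
    exact (tendsto_rpow_neg_atTop (by norm_num : (0 : ℝ) < 1 / 4)).comp tendsto_natCast_atTop_atTop
  rw [mul_zero] at hlim
  obtain ⟨K, hK1, hK2⟩ := ((hlim.eventually (gt_mem_nhds (half_pos hε))).and
    (eventually_ge_atTop 1)).exists
  have he' := hF.e'0
  refine ⟨κ * e' / 2, by positivity, K, fun A => ?_⟩
  obtain ⟨X2, hX2⟩ := Pool.Agent.Lib.SPP.FinCAux.sieg_mod (c1 / 2) (by linarith) A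
  obtain ⟨X1, h4⟩ := h3 0
  obtain ⟨X3, hX3⟩ := Fin2Aux.floor_pow_facts κ hκ 0
  refine ⟨max X1 (max X2 (max X3 1)), fun X hX => ?_⟩
  have g1 : X1 ≤ X := (le_max_left _ _).trans hX
  have g2 : X2 ≤ X := (le_max_left _ _).trans ((le_max_right _ _).trans hX)
  have g3 : X3 ≤ X := (le_max_left _ _).trans ((le_max_right _ _).trans ((le_max_right _ _).trans hX))
  have g4 : 1 ≤ X := (le_max_right _ _).trans ((le_max_right _ _).trans ((le_max_right _ _).trans hX))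
  obtain ⟨q, hq, hf2, -, G, hG, hAB⟩ := h4 X g1
  obtain ⟨f1, -⟩ := hX3 X g3
  have hX1 : (1 : ℝ) ≤ X := by exact_mod_cast g4
  have hsl : Real.sqrt (Real.log X) ≤ Real.log (⌊(X : ℝ) ^ κ⌋₊ : ℝ) := by
    rw [Real.le_log_iff_exp_le (lt_of_lt_of_le (Real.exp_pos _) f1)]
    exact f1
  have hq1 : (q : ℝ) ≤ (X : ℝ) ^ κ0 ∧ (q = 0 ∨ Real.log X ^ A ≤ q) := by
    rcases hq with ⟨h0, -⟩ | ⟨xe, β, he, hqe⟩
    · rw [h0]
      refine ⟨?_, Or.inl rfl⟩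
      rw [Nat.cast_zero]
      positivity
    · refine ⟨?_, Or.inr ?_⟩
      · have h4 : q ≤ ⌊(X : ℝ) ^ κ⌋₊ := by
          rw [hqe]
          exact (mem_Ch.1 he.1).1
        have h5 : (q : ℝ) ≤ (⌊(X : ℝ) ^ κ⌋₊ : ℝ) := by exact_mod_cast h4
        exact h5.trans (hf2.trans (Real.rpow_le_rpow_of_exponent_le hX1 hκκ))
      · rw [hqe]
        exact hX2 X _ g2 hsl xe β he
  refine ⟨q, hq1.1, hq1.2, G, hG, fun t h5 h6 h7 h8 => ?_⟩
  have hg : Good r X (ε / 2 + C * Gq q (c0 (a t))) (a t) := hAB t h5 h6 h7 h8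
  by_cases hd : q ≠ 0 ∧ q < K * Nat.gcd q (Del (c0 (a t)))
  · exact Or.inl hd
  · right
    have hGq : C * Gq q (c0 (a t)) ≤ ε / 2 := by
      unfold Gq
      split_ifs with h0
      · rw [mul_zero]; linarith
      · have hle : K * Nat.gcd q (Del (c0 (a t))) ≤ q := by
          by_contra hcon
          push Not at hcon
          exact hd ⟨h0, hcon⟩
        have hgpos : 0 < Nat.gcd q (Del (c0 (a t))) := Nat.gcd_pos_of_pos_left _ (Nat.pos_of_ne_zero h0)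
        have hg0 : (0 : ℝ) < (Nat.gcd q (Del (c0 (a t))) : ℝ) := by exact_mod_cast hgpos
        have hK0 : (0 : ℝ) < K := by exact_mod_cast hK2
        have h10 : (K : ℝ) ≤ (q : ℝ) / (Nat.gcd q (Del (c0 (a t))) : ℝ) := by
          rw [le_div_iff₀ hg0]
          exact_mod_cast hle
        have h13 : ((q : ℝ) / (Nat.gcd q (Del (c0 (a t))) : ℝ)) ^ (-(1 / 4 : ℝ)) ≤
            (K : ℝ) ^ (-(1 / 4 : ℝ)) :=
          Real.rpow_le_rpow_of_nonpos hK0 h10 (by norm_num)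
        exact (mul_le_mul_of_nonneg_left h13 hC.le).trans hK1.le
    intro y hy
    refine (hg y hy).trans ?_
    have hlog : 0 ≤ Real.log X ^ (r + 1) := pow_nonneg (Real.log_nonneg hX1) _
    have hM : 0 ≤ SI (c0 (a t)) * X / Real.log X ^ (r + 1) :=
      div_nonneg (mul_nonneg (SI_nonneg _ h7) (by linarith)) hlog
    exact mul_le_mul_of_nonneg_right (by linarith) hM

end Pool.Agent.DSH
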