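import Pool.Agent.Lib.DSH.CoreX
import Pool.Agent.Lib.DSH.FinD
import Pool.Agent.Lib.SPP.FinC

/-!
# DSH.FinX (1.5 h): all large `X`, with the correction by the exceptional character

PROOF. `finX_all`: `Q = ⌊X^κ⌋₊` with `κ` small as in `finD_all` (`C Er ≤ ε`; the constants of `coreD` with `c = min (c1/2) (1/2)` and of `coreX`). If there is no `IsExc c Q x β`: `coreD` (`q = 0`, `Gq = 0`), the first alternative. Otherwise `coreX`, the second one: `md xe ≤ Q ≤ X^κ0`, `(log X)^A ≤ md xe` by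
`SPP.FinCAux.sieg_mod` (`√(log X) ≤ log Q`), `1 - β ≤ c/log Q ≤ C1/log X` with `C1 = 2c/κ`, say. `finX_log`: `Q = QL κ X` as in `finD_log` (`Fin3Aux`), `C Er ≤ (log X)^(-A)`; `1 - β ≤ c/log Q ≤ C1 log log X/log X`.
-/

set_option autoImplicit false

open Finset Filter

namespace Pool.Agent.DSH

open Pool.Agent.HLB Pool.Agent.HLT Pool.Agent.HLR Pool.Agent.Lib.GMV Pool.Agent.BLF

namespace FinXAux

lemma mass_nonneg {r X : ℕ} {a : Fin r → ℕ} (hX : (1 : ℝ) ≤ X) (h : Function.Injective (c0 a)) :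
    0 ≤ SI (c0 a) * X / Real.log X ^ (r + 1) :=
  div_nonneg (mul_nonneg (SI_nonneg _ h) (by linarith)) (pow_nonneg (Real.log_nonneg hX) _)

lemma goodX_mono {r X : ℕ} {e e' : ℝ} {x : CI} {β : ℝ} {a : Fin r → ℕ} (hX : (1 : ℝ) ≤ X)
    (hinj : Function.Injective (c0 a)) (h : GoodX r X e x β a) (he : e ≤ e') :
    GoodX r X e' x β a := fun y hy =>
  (h y hy).trans (mul_le_mul_of_nonneg_right he (mass_nonneg hX hinj))

/-- The common last step: both alternatives for a given `Q`. -/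
lemma step {r : ℕ} {σ : Type} {P : ℕ → Finset σ} {a : σ → Fin r → ℕ} {e c C C' aa aa' a0 C0 ε E : ℝ}
    {X Q : ℕ} (hmem : ∀ t ∈ P X, a t ∈ Tup r (range (X + 1)))
    (G : Finset σ) (hG : (G.card : ℝ) ≤ E) (hDv : ∀ t ∈ P X, t ∉ G → Dv e r X Q (a t))
    (hX1 : (1 : ℝ) ≤ X) (hQ : 0 < Real.log Q)
    (hC : 0 < C) (hC' : 0 < C') (hCC : C ≤ C0) (hCC' : C' ≤ C0) (haa : a0 ≤ aa) (haa' : a0 ≤ aa')
    (hEr : C0 * Er a0 X Q ≤ ε)
    (hD : ∃ q : ℕ, ExMod c Q q ∧ ∀ a' ∈ Tup r (range (X + 1)), Dv e r X Q a' →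
      Function.Injective (c0 a') →
      (∀ p : ℕ, p.Prime → nuI (c0 a') p < p) → ∀ y : ℕ, y ≤ X →
      |(((Icc 1 y).filter (fun n => ∀ i, (n + c0 a' i).Prime)).card : ℝ) -
        SI (c0 a') * ∑ n ∈ Icc 2 y, ∏ i, (Real.log (n + c0 a' i))⁻¹| ≤
        C * (SI (c0 a') * X / Real.log X ^ (r + 1)) * (Er aa X Q + Gq q (c0 a')))
    (hXX : ∀ (xe : CI) (β : ℝ), IsExc c Q xe β →
      ∀ a' ∈ Tup r (range (X + 1)), Dv e r X Q a' → Function.Injective (c0 a') →
      (∀ p : ℕ, p.Prime → nuI (c0 a') p < p) → GoodX r X (C' * Er aa' X Q) xe β a') :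
    ABF r P a X E (Good r X ε) ∨
      ∃ (x : CI) (β : ℝ), IsExc c Q x β ∧ ABF r P a X E (GoodX r X ε x β) := by
  have hlogX : 0 ≤ Real.log X := Real.log_nonneg hX1
  have hpos : 0 < Er a0 X Q := CoreAux.Er_pos _ _ _
  have hE1 : C * Er aa X Q ≤ ε := by
    have h1 := CoreAux.Er_mono haa hlogX hQ (X := X) (Q := Q)
    have h2 : C * Er aa X Q ≤ C * Er a0 X Q := mul_le_mul_of_nonneg_left h1 hC.le
    have h3 : C * Er a0 X Q ≤ C0 * Er a0 X Q := mul_le_mul_of_nonneg_right hCC hpos.le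
    linarith
  have hE2 : C' * Er aa' X Q ≤ ε := by
    have h1 := CoreAux.Er_mono haa' hlogX hQ (X := X) (Q := Q)
    have h2 : C' * Er aa' X Q ≤ C' * Er a0 X Q := mul_le_mul_of_nonneg_left h1 hC'.le
    have h3 : C' * Er a0 X Q ≤ C0 * Er a0 X Q := mul_le_mul_of_nonneg_right hCC' hpos.le
    linarith
  by_cases hex : ∃ (x : CI) (β : ℝ), IsExc c Q x β
  · right
    obtain ⟨x, β, hxb⟩ := hex
    refine ⟨x, β, hxb, G, hG, fun t ht htG h3 h4 => ?_⟩
    exact goodX_mono hX1 h3 (hXX x β hxb (a t) (hmem t ht) (hDv t ht htG) h3 h4) hE2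
  · left
    obtain ⟨q, hq, hgood⟩ := hD
    have hq0 : q = 0 := by
      rcases hq with ⟨h0, -⟩ | ⟨xe, β, he, -⟩
      · exact h0
      · exact absurd ⟨xe, β, he⟩ hex
    refine ⟨G, hG, fun t ht htG h3 h4 y hy => ?_⟩
    refine (hgood (a t) (hmem t ht) (hDv t ht htG) h3 h4 y hy).trans ?_
    have e0 : Gq q (c0 (a t)) = 0 := by
      unfold Gq
      rw [if_pos hq0]
    rw [e0, add_zero]
    have hM := mass_nonneg hX1 h3 (r := r) (X := X)
    calc C * (SI (c0 (a t)) * X / Real.log X ^ (r + 1)) * Er aa X Q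
        = (C * Er aa X Q) * (SI (c0 (a t)) * X / Real.log X ^ (r + 1)) := by ring
      _ ≤ ε * (SI (c0 (a t)) * X / Real.log X ^ (r + 1)) := mul_le_mul_of_nonneg_right hE1 hM

lemma rz_of_exc {c : ℝ} {Q : ℕ} {x : CI} {β : ℝ} (h : IsExc c Q x β) : RZ x β := by
  obtain ⟨h1, h2, h3, h4, -, h6⟩ := h
  exact ⟨(mem_Ch.1 h1).2, h2, h3, h4, h6⟩

end FinXAux

open FinDAux FinXAux Fin2Aux Fin3Aux

theorem finX_all (r : ℕ) (hr : 1 ≤ r) {σ : Type} (P : ℕ → Finset σ) (a : σ → Fin r → ℕ) (N e e' cF K : ℝ)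
    (hF : Fam r P a N e e' cF K) (c1 : ℝ) (hZ : ZFree c1) (hc1 : 0 < c1) :
    ∀ ε : ℝ, 0 < ε → ∀ κ0 : ℝ, 0 < κ0 → ∃ δ : ℝ, 0 < δ ∧ ∃ C1 : ℝ, ∀ A : ℕ, ∃ X0 : ℕ, ∀ X : ℕ, X0 ≤ X →
      ABF r P a X ((X : ℝ) ^ (N - δ)) (Good r X ε) ∨
      ∃ (x : CI) (β : ℝ), RZ x β ∧ Real.log X ^ A ≤ md x ∧ (md x : ℝ) ≤ (X : ℝ) ^ κ0 ∧ 1 - C1 / Real.log X ≤ β ∧
        ABF r P a X ((X : ℝ) ^ (N - δ)) (GoodX r X ε x β) := by
  intro ε hε κ0 hκ0
  obtain ⟨c, hcd⟩ : ∃ c, c = min (c1 / 2) (1 / 2 : ℝ) := ⟨_, rfl⟩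
  have hc : 0 < c := by rw [hcd]; exact lt_min (by linarith) (by norm_num)
  have hcc : c < c1 := by
    have h1 : c ≤ c1 / 2 := by rw [hcd]; exact min_le_left _ _
    linarith
  have hch : c ≤ 1 / 2 := by rw [hcd]; exact min_le_right _ _
  obtain ⟨aa, C, c2, ha, hC, hc2, X1, hcore⟩ := coreD r hr c1 c hZ hc hcc e hF.e0 hF.e1
  obtain ⟨aa', C', c2', ha', hC', hc2', X1', hcore'⟩ := coreX r hr c1 c hZ hc hcc hch e hF.e0 hF.e1
  obtain ⟨X5, hexc⟩ := hF.exc
  have he' := hF.e'0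
  obtain ⟨κ, hκ, hκ2, hκe⟩ := small_exp (min aa aa') (max C C') ε (lt_min ha ha') hε
    (min (min c2 c2') (min cF κ0)) (lt_min (lt_min hc2 hc2') (lt_min hF.c0' hκ0))
  have k1 : κ ≤ c2 := hκ2.trans ((min_le_left _ _).trans (min_le_left _ _))
  have k2 : κ ≤ c2' := hκ2.trans ((min_le_left _ _).trans (min_le_right _ _))
  have k3 : κ ≤ cF := hκ2.trans ((min_le_right _ _).trans (min_le_left _ _))
  have k4 : κ ≤ κ0 := hκ2.trans ((min_le_right _ _).trans (min_le_right _ _))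
  obtain ⟨X2, hX2⟩ := floor_pow_facts κ hκ 1
  obtain ⟨X3, hX3⟩ := floor_pow_K κ K e' hκ hF.K0 he'
  refine ⟨κ * e' / 2, by positivity, 2 * c / κ, fun A => ?_⟩
  obtain ⟨X4, hX4⟩ := Pool.Agent.Lib.SPP.FinCAux.sieg_mod c hc A
  refine ⟨max (max (max X1 X1') (max X2 X3)) (max (max X4 X5) 2), fun X hX => ?_⟩
  have m1 : X1 ≤ X := (le_max_left _ _).trans ((le_max_left _ _).trans ((le_max_left _ _).trans hX))
  have m1' : X1' ≤ X := (le_max_right _ _).trans ((le_max_left _ _).trans ((le_max_left _ _).trans hX))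
  have m2 : X2 ≤ X := (le_max_left _ _).trans ((le_max_right _ _).trans ((le_max_left _ _).trans hX))
  have m3 : X3 ≤ X := (le_max_right _ _).trans ((le_max_right _ _).trans ((le_max_left _ _).trans hX))
  have m4 : X4 ≤ X := (le_max_left _ _).trans ((le_max_left _ _).trans ((le_max_right _ _).trans hX))
  have m5 : X5 ≤ X := (le_max_right _ _).trans ((le_max_left _ _).trans ((le_max_right _ _).trans hX))
  have m6 : 2 ≤ X := (le_max_right _ _).trans ((le_max_right _ _).trans hX)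
  obtain ⟨f1, f2, f3, f4, -, f6, f7⟩ := hX2 X m2
  obtain ⟨g1, g2⟩ := hX3 X m3
  have hX1 : (1 : ℝ) ≤ X := by exact_mod_cast f4
  have hX0 : (0 : ℝ) < X := by linarith
  have hX2' : (2 : ℝ) ≤ X := by exact_mod_cast m6
  have hlogX : 0 < Real.log X := Real.log_pos (by linarith)
  set Q : ℕ := ⌊(X : ℝ) ^ κ⌋₊ with hQ
  have hQ0 : (0 : ℝ) < Q := by linarith
  have hp : ∀ s, κ ≤ s → (Q : ℝ) ≤ (X : ℝ) ^ s := fun s hs =>
    f2.trans (Real.rpow_le_rpow_of_exponent_le hX1 hs)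
  obtain ⟨G, hG, hDv⟩ := hexc X Q m5 g1 (hp _ k3)
  have hG' : (G.card : ℝ) ≤ (X : ℝ) ^ (N - κ * e' / 2) := by
    refine hG.trans ?_
    calc (X : ℝ) ^ N * (Q : ℝ) ^ (-e')
        ≤ (X : ℝ) ^ N * (X : ℝ) ^ (-(κ * e' / 2)) := mul_le_mul_of_nonneg_left g2 (by positivity)
      _ = (X : ℝ) ^ (N - κ * e' / 2) := by
          rw [← Real.rpow_add hX0]
          rfl
  have hEr : max C C' * Er (min aa aa') X Q ≤ ε := by
    have h1 := er_le (lt_min ha ha') hκ f6 f7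
    have h2 : 0 ≤ max C C' := hC.le.trans (le_max_left _ _)
    exact (mul_le_mul_of_nonneg_left h1 h2).trans hκe
  have hsq : Real.sqrt (Real.log X) ≤ Real.log (Q : ℝ) := by
    have := Real.log_le_log (Real.exp_pos _) f1
    rwa [Real.log_exp] at this
  have hlogQ : κ / 2 * Real.log X ≤ Real.log (Q : ℝ) := by
    have h1 := Real.log_le_log (Real.rpow_pos_of_pos hQ0 _) g2
    rw [Real.log_rpow hQ0, Real.log_rpow hX0] at h1
    have h2 : e' * (κ / 2 * Real.log X) ≤ e' * Real.log (Q : ℝ) := by nlinarith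
    exact le_of_mul_le_mul_left h2 he'
  rcases step (hF.mem X) G hG' hDv hX1 f6 hC hC' (le_max_left _ _) (le_max_right _ _)
    (min_le_left _ _) (min_le_right _ _) hEr (hcore X Q m1 f1 (hp _ k1))
    (fun x β hx => hcore' X Q m1' f1 (hp _ k2) x β hx) with h | ⟨x, β, hx, h⟩
  · exact Or.inl h
  · right
    refine ⟨x, β, rz_of_exc hx, hX4 X Q m4 hsq x β hx, ?_, ?_, h⟩
    · have h4 : md x ≤ Q := (mem_Ch.1 hx.1).1
      have h5 : (md x : ℝ) ≤ (Q : ℝ) := by exact_mod_cast h4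
      exact h5.trans (hp _ k4)
    · have h6 : 1 - c / Real.log Q ≤ β := hx.2.2.2.2.1
      have h7 : c / Real.log Q ≤ 2 * c / κ / Real.log X := by
        rw [div_div, div_le_div_iff₀ f6 (by positivity)]
        nlinarith
      linarith

theorem finX_log (r : ℕ) (hr : 1 ≤ r) {σ : Type} (P : ℕ → Finset σ) (a : σ → Fin r → ℕ) (N e e' cF K : ℝ)
    (hF : Fam r P a N e e' cF K) (c1 : ℝ) (hZ : ZFree c1) (hc1 : 0 < c1) :
    ∀ (A : ℕ) (κ0 : ℝ), 0 < κ0 → ∃ δ : ℝ, 0 < δ ∧ ∃ C1 : ℝ, ∀ A1 : ℕ, ∃ X0 : ℕ, ∀ X : ℕ, X0 ≤ X →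
      ABF r P a X ((X : ℝ) ^ N * Real.exp (-(δ * Real.log X / Real.log (Real.log X)))) (Good r X (1 / Real.log X ^ A)) ∨
      ∃ (x : CI) (β : ℝ), RZ x β ∧ Real.log X ^ A1 ≤ md x ∧ (md x : ℝ) ≤ (X : ℝ) ^ κ0 ∧
        1 - C1 * Real.log (Real.log X) / Real.log X ≤ β ∧
        ABF r P a X ((X : ℝ) ^ N * Real.exp (-(δ * Real.log X / Real.log (Real.log X))))
          (GoodX r X (1 / Real.log X ^ A) x β) := by
  intro A κ0 hκ0
  obtain ⟨c, hcd⟩ : ∃ c, c = min (c1 / 2) (1 / 2 : ℝ) := ⟨_, rfl⟩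
  have hc : 0 < c := by rw [hcd]; exact lt_min (by linarith) (by norm_num)
  have hcc : c < c1 := by
    have h1 : c ≤ c1 / 2 := by rw [hcd]; exact min_le_left _ _
    linarith
  have hch : c ≤ 1 / 2 := by rw [hcd]; exact min_le_right _ _
  obtain ⟨aa, C, c2, ha, hC, hc2, X1, hcore⟩ := coreD r hr c1 c hZ hc hcc e hF.e0 hF.e1
  obtain ⟨aa', C', c2', ha', hC', hc2', X1', hcore'⟩ := coreX r hr c1 c hZ hc hcc hch e hF.e0 hF.e1
  obtain ⟨X5, hexc⟩ := hF.exc
  have he' := hF.e'0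
  obtain ⟨a0, ha0d⟩ : ∃ a0, a0 = min aa aa' := ⟨_, rfl⟩
  obtain ⟨C0, hC0d⟩ : ∃ C0, C0 = max C C' := ⟨_, rfl⟩
  have ha0 : 0 < a0 := by rw [ha0d]; exact lt_min ha ha'
  have hC0 : 0 < C0 := by rw [hC0d]; exact lt_of_lt_of_le hC (le_max_left _ _)
  obtain ⟨κ, hκd⟩ : ∃ κ, κ = a0 / (A + 1) := ⟨_, rfl⟩
  have hκ : 0 < κ := by rw [hκd]; positivity
  obtain ⟨X2, hX2⟩ := ql_facts κ (min (min c2 c2') (min cF κ0)) hκ
    (lt_min (lt_min hc2 hc2') (lt_min hF.c0' hκ0))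
  obtain ⟨X3, hX3⟩ := ql_K κ K e' hκ hF.K0 he'
  have h2 : Tendsto (fun X : ℕ => Real.log (X : ℝ)) atTop atTop :=
    Real.tendsto_log_atTop.comp tendsto_natCast_atTop_atTop
  obtain ⟨X6, hX6⟩ := eventually_atTop.1 (h2.eventually_ge_atTop (max 1 C0))
  refine ⟨κ * e' / 2, by positivity, 2 * c / κ, fun A1 => ?_⟩
  obtain ⟨X4, hX4⟩ := Pool.Agent.Lib.SPP.FinCAux.sieg_mod c hc A1
  refine ⟨max (max (max X1 X1') (max X2 X3)) (max (max X4 X5) X6), fun X hX => ?_⟩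
  have m1 : X1 ≤ X := (le_max_left _ _).trans ((le_max_left _ _).trans ((le_max_left _ _).trans hX))
  have m1' : X1' ≤ X := (le_max_right _ _).trans ((le_max_left _ _).trans ((le_max_left _ _).trans hX))
  have m2 : X2 ≤ X := (le_max_left _ _).trans ((le_max_right _ _).trans ((le_max_left _ _).trans hX))
  have m3 : X3 ≤ X := (le_max_right _ _).trans ((le_max_right _ _).trans ((le_max_left _ _).trans hX))
  have m4 : X4 ≤ X := (le_max_left _ _).trans ((le_max_left _ _).trans ((le_max_right _ _).trans hX))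
  have m5 : X5 ≤ X := (le_max_right _ _).trans ((le_max_left _ _).trans ((le_max_right _ _).trans hX))
  have m6 : X6 ≤ X := (le_max_right _ _).trans ((le_max_right _ _).trans hX)
  obtain ⟨f1, f2, f3, f4, -, f6, f7⟩ := hX2 X m2
  obtain ⟨g1, g2⟩ := hX3 X m3
  have f8 := hX6 X m6
  set Q : ℕ := QL κ X with hQ
  have hL1 : 1 ≤ Real.log X := (le_max_left _ _).trans f8
  have hLC : C0 ≤ Real.log X := (le_max_right _ _).trans f8
  have hX16 : (16 : ℝ) ≤ X := by exact_mod_cast f3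
  have hX1 : (1 : ℝ) ≤ X := by linarith
  have hX0 : (0 : ℝ) < X := by linarith
  have hL0 : 0 < Real.log X := by linarith
  have hl0 : 0 < Real.log (Real.log X) := by linarith
  have hs1 : 1 ≤ Real.sqrt (Real.log X) := Real.one_le_sqrt.mpr hL1
  have hQlog : 0 < Real.log (Q : ℝ) := lt_of_lt_of_le (by linarith) f6
  have hQ0 : (0 : ℝ) < Q := lt_of_lt_of_le (Real.exp_pos _) f1
  have k1 : min (min c2 c2') (min cF κ0) ≤ c2 := (min_le_left _ _).trans (min_le_left _ _)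
  have k2 : min (min c2 c2') (min cF κ0) ≤ c2' := (min_le_left _ _).trans (min_le_right _ _)
  have k3 : min (min c2 c2') (min cF κ0) ≤ cF := (min_le_right _ _).trans (min_le_left _ _)
  have k4 : min (min c2 c2') (min cF κ0) ≤ κ0 := (min_le_right _ _).trans (min_le_right _ _)
  have hp : ∀ s, min (min c2 c2') (min cF κ0) ≤ s → (Q : ℝ) ≤ (X : ℝ) ^ s := fun s hs =>
    f2.trans (Real.rpow_le_rpow_of_exponent_le hX1 hs)
  obtain ⟨G, hG, hDv⟩ := hexc X Q m5 g1 (hp _ k3)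
  have hG' : (G.card : ℝ) ≤ (X : ℝ) ^ N *
      Real.exp (-(κ * e' / 2 * Real.log X / Real.log (Real.log X))) :=
    hG.trans (mul_le_mul_of_nonneg_left g2 (by positivity))
  have hEr : C0 * Er a0 X Q ≤ 1 / Real.log X ^ A := by
    have hE1 : Er a0 X Q ≤ 1 / Real.log X ^ (A + 1) := by
      unfold Er
      have h8 : (A + 1 : ℝ) * Real.log (Real.log X) ≤ a0 * Real.log X / Real.log (Q : ℝ) := by
        rw [le_div_iff₀ hQlog]
        have h9 : Real.log (Q : ℝ) * Real.log (Real.log X) ≤ κ * Real.log X := by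
          rw [le_div_iff₀ hl0] at f7
          exact f7
        calc (A + 1 : ℝ) * Real.log (Real.log X) * Real.log (Q : ℝ)
            = (A + 1) * (Real.log (Q : ℝ) * Real.log (Real.log X)) := by ring
          _ ≤ (A + 1) * (κ * Real.log X) := mul_le_mul_of_nonneg_left h9 (by positivity)
          _ = a0 * Real.log X := by rw [hκd]; field_simp
      have h10 : Real.exp (-(a0 * Real.log X / Real.log (Q : ℝ))) ≤
          Real.exp (-((A + 1 : ℝ) * Real.log (Real.log X))) := Real.exp_le_exp.mpr (by linarith)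
      refine h10.trans (le_of_eq ?_)
      rw [Real.exp_neg, mul_comm, Real.exp_mul, Real.exp_log hL0, one_div]
      congr 1
      rw [← Real.rpow_natCast]
      push_cast
      rfl
    calc C0 * Er a0 X Q ≤ Real.log X * (1 / Real.log X ^ (A + 1)) :=
          mul_le_mul hLC hE1 (CoreAux.Er_pos _ _ _).le hL0.le
      _ = 1 / Real.log X ^ A := by
          rw [pow_succ]
          field_simp
  have hlogQ : κ / 2 * Real.log X / Real.log (Real.log X) ≤ Real.log (Q : ℝ) := by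
    have h1 := Real.log_le_log (Real.rpow_pos_of_pos hQ0 _) g2
    rw [Real.log_rpow hQ0, Real.log_exp] at h1
    have e3 : κ * e' / 2 * Real.log X / Real.log (Real.log X) =
        e' * (κ / 2 * Real.log X / Real.log (Real.log X)) := by ring
    rw [e3] at h1
    have h2 : e' * (κ / 2 * Real.log X / Real.log (Real.log X)) ≤ e' * Real.log (Q : ℝ) := by
      linarith
    exact le_of_mul_le_mul_left h2 he'
  rcases step (hF.mem X) G hG' hDv hX1 hQlog hC hC' (by rw [hC0d]; exact le_max_left _ _)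
    (by rw [hC0d]; exact le_max_right _ _) (by rw [ha0d]; exact min_le_left _ _)
    (by rw [ha0d]; exact min_le_right _ _) hEr (hcore X Q m1 f1 (hp _ k1))
    (fun x β hx => hcore' X Q m1' f1 (hp _ k2) x β hx) with h | ⟨x, β, hx, h⟩
  · exact Or.inl h
  · right
    refine ⟨x, β, rz_of_exc hx, hX4 X Q m4 f6 x β hx, ?_, ?_, h⟩
    · have h4 : md x ≤ Q := (mem_Ch.1 hx.1).1
      have h5 : (md x : ℝ) ≤ (Q : ℝ) := by exact_mod_cast h4
      exact h5.trans (hp _ k4)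
    · have h6 : 1 - c / Real.log Q ≤ β := hx.2.2.2.2.1
      have h7 : c / Real.log Q ≤ 2 * c / κ * Real.log (Real.log X) / Real.log X := by
        rw [div_le_div_iff₀ hQlog hL0]
        rw [div_le_iff₀ hl0] at hlogQ
        have h8 : c * Real.log X = 2 * c / κ * (κ / 2 * Real.log X) := by field_simp
        rw [h8, mul_assoc]
        refine mul_le_mul_of_nonneg_left ?_ (by positivity)
        linarith
      linarith

end Pool.Agent.DSH
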