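import Pool.Agent.Lib.DSH.TransY

/-!
# DSH.GridD (1.5 h): all `y`, and the family of the box

PROOF. `e1, e1', c', K` from `transY`. `gap`: for `y1 ≤ y2 ≤ X` and `a ≤ X`: `‖dev y2 - dev y1‖ ≤ ∑_{y1 < n ≤ y2} (∏ ‖Wf‖ + ∏ ‖Lm‖)(n + (1 + c0 a i))`, by Cauchy-Schwarz `≤ (y2 - y1)^(1/2) ((∑_n ∏ ‖Wf‖²)^(1/2) + (∑_n ∏ ‖Lm‖²)^(1/2))` and
`∏_{i} z_i² ≤ ∑_i z_i^(2(r+1))`, so by `lm_wf` (`N = 2(r+1)`) `≤ 2 (y2 - y1)^(1/2) ((r+1) X log^K X)^(1/2)`. Grid `y_l = ⌊l X/G⌋`, `0 ≤ l ≤ G = ⌈Q^f⌉`, `f = min(e1, e1')/2`: every `y ≤ X` has a grid point `y_l ≤ y ≤ y_l + X/G + 1`; the union of the `G + 1 ≤ 3 Q^f`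
exceptional sets has at most `3 |Bx| Q^(f - e1')` elements and outside `‖dev y‖ ≤ X Q^(-e1) + 2 (2X/G)^(1/2) ((r+1) X log^K X)^(1/2) ≤ X Q^(-e)` with `e = f/4`, for `X ≥ X0` (`log X ≤ (log Q)²`). `card_Bx`: `Nat.sqrt X ≤ √X`, so `|Bx lg X| ≤ X^(dm lg)`.
`fam`: `sft i j lg t e ≤ X` and the above (`G` = the union).
-/

set_option autoImplicit false

open Finset Filter

namespace Pool.Agent.DSH

open Pool.Agent.HLB Pool.Agent.HLT Pool.Agent.HLR Pool.Agent.Lib.GMV Pool.Agent.BLF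

theorem card_Bx {m : ℕ} (lg : Fin m → Bool) (X : ℕ) (hX : 1 ≤ X) : ((Bx lg X).card : ℝ) ≤ (X : ℝ) ^ dm lg := by
  have hX0 : (0 : ℝ) < X := by exact_mod_cast hX
  unfold Bx dm
  rw [Fintype.card_piFinset, Real.rpow_sum_of_pos hX0]
  push_cast
  refine Finset.prod_le_prod (fun _ _ => Nat.cast_nonneg _) fun k _ => ?_
  rw [Nat.card_Icc, Nat.add_sub_cancel]
  unfold HH
  split_ifs with h
  · rw [Real.rpow_one]
  · rw [← Real.sqrt_eq_rpow]
    exact Real.nat_sqrt_le_real_sqrt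

namespace GridDAux

lemma sft_le {m r : ℕ} (i j : Fin r → Fin m) (lg : Fin m → Bool) (hS : Slt i j lg) (X : ℕ) (t : Fin m → ℕ)
    (ht1 : t ∈ Bx lg X) (e : Fin r) : sft i j lg t e ≤ X := by
  unfold sft sf
  have ht' : ∀ k, t k ∈ Icc 1 (HH lg X k) := fun k => Fintype.mem_piFinset.mp ht1 k
  split_ifs with he
  · have hk := (mem_Icc.1 (ht' (i e))).2
    unfold tau
    unfold HH at hk
    split_ifs with hl
    · simpa [hl] using hk
    · simp only [Bool.not_eq_true] at hl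
      simp only [hl, Bool.false_eq_true, if_false] at hk
      have h1 := Nat.pow_le_pow_left hk 2
      have h2 := Nat.sqrt_le X
      rw [sq (Nat.sqrt X)] at h1
      omega
  · obtain ⟨s1, s2⟩ := hS.short e he
    have k1 := (mem_Icc.1 (ht' (i e))).2
    have k2 := (mem_Icc.1 (ht' (j e))).2
    unfold HH at k1 k2
    simp only [s1, s2, Bool.false_eq_true, if_false] at k1 k2
    exact (Nat.mul_le_mul k1 k2).trans (Nat.sqrt_le X)

/-- Products against sums of powers. -/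
lemma prod_le_sum {k : ℕ} (hk : 0 < k) (z : Fin k → ℝ) (hz : ∀ i, 0 ≤ z i) :
    (∏ i, z i) ^ 2 ≤ ∑ i, z i ^ (2 * k) := by
  obtain ⟨i0, -, hi0⟩ := Finset.exists_max_image univ z ⟨⟨0, hk⟩, mem_univ _⟩
  have h1 : ∏ i, z i ≤ z i0 ^ k := by
    have h2 : ∏ i : Fin k, z i ≤ ∏ _i : Fin k, z i0 :=
      Finset.prod_le_prod (fun i _ => hz i) (fun i _ => hi0 i (mem_univ i))
    rwa [prod_const, card_univ, Fintype.card_fin] at h2
  have h0 : 0 ≤ ∏ i, z i := prod_nonneg fun i _ => hz i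
  calc (∏ i, z i) ^ 2 ≤ (z i0 ^ k) ^ 2 := pow_le_pow_left₀ h0 h1 2
    _ = z i0 ^ (2 * k) := by rw [← pow_mul, mul_comm]
    _ ≤ _ := single_le_sum (f := fun i => z i ^ (2 * k))
      (fun i _ => pow_nonneg (hz i) _) (mem_univ i0)

/-- One function on a short interval. -/
lemma gap1 {r : ℕ} (X : ℕ) (hX : 1 ≤ X) (F : ℕ → ℂ) (R : ℝ)
    (hR : ∑ m ∈ range (4 * (2 * X)), ‖F m‖ ^ (2 * (r + 1)) ≤ R)
    (h : Fin (r + 1) → ℕ) (hh : ∀ i, h i ≤ X) (y1 y2 : ℕ) (h12 : y1 ≤ y2) (h2 : y2 ≤ X) :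
    (∑ n ∈ Ioc y1 y2, ‖∏ i, F (n + (1 + h i))‖) ^ 2 ≤ ((y2 : ℝ) - y1) * (((r : ℝ) + 1) * R) := by
  have hcs := sq_sum_le_card_mul_sum_sq (s := Ioc y1 y2) (f := fun n => ‖∏ i, F (n + (1 + h i))‖)
  rw [Nat.card_Ioc, Nat.cast_sub h12] at hcs
  refine hcs.trans ?_
  have hd : (0 : ℝ) ≤ (y2 : ℝ) - y1 := by
    have : (y1 : ℝ) ≤ y2 := by exact_mod_cast h12
    linarith
  refine mul_le_mul_of_nonneg_left ?_ hd
  have e1 : ∀ n ∈ Ioc y1 y2, ‖∏ i, F (n + (1 + h i))‖ ^ 2 ≤ ∑ i, ‖F (n + (1 + h i))‖ ^ (2 * (r + 1)) := by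
    intro n _
    rw [norm_prod]
    exact prod_le_sum (Nat.succ_pos r) _ fun i => norm_nonneg _
  refine (sum_le_sum e1).trans ?_
  rw [sum_comm]
  have e2 : ∀ i ∈ (univ : Finset (Fin (r + 1))), ∑ n ∈ Ioc y1 y2, ‖F (n + (1 + h i))‖ ^ (2 * (r + 1)) ≤ R := by
    intro i _
    refine le_trans ?_ hR
    have e3 : ∑ n ∈ Ioc y1 y2, ‖F (n + (1 + h i))‖ ^ (2 * (r + 1)) =
        ∑ m ∈ (Ioc y1 y2).map (addRightEmbedding (1 + h i)), ‖F m‖ ^ (2 * (r + 1)) := by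
      rw [sum_map]
      rfl
    rw [e3]
    refine sum_le_sum_of_subset_of_nonneg ?_ fun _ _ _ => by positivity
    intro m hm
    rw [Finset.mem_map] at hm
    obtain ⟨n, hn, rfl⟩ := hm
    rw [mem_Ioc] at hn
    have := hh i
    rw [addRightEmbedding_apply, mem_range]
    omega
  refine (sum_le_sum e2).trans (le_of_eq ?_)
  rw [sum_const, card_univ, Fintype.card_fin, nsmul_eq_mul]
  push_cast
  ring

lemma sum_split (f : ℕ → ℂ) (y1 y2 : ℕ) (h : y1 ≤ y2) :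
    ∑ n ∈ Icc 1 y2, f n = ∑ n ∈ Icc 1 y1, f n + ∑ n ∈ Ioc y1 y2, f n := by
  induction y2, h using Nat.le_induction with
  | base => simp
  | succ y hy ih =>
    rw [Finset.sum_Icc_succ_top (by omega), ih, Finset.sum_Ioc_succ_top hy]
    ring

/-- The gap estimate. -/
lemma gap {r : ℕ} (X Q : ℕ) (hX : 1 ≤ X) (R : ℝ)
    (hL : ∑ m ∈ range (4 * (2 * X)), ‖Lm r X Q m‖ ^ (2 * (r + 1)) ≤ R)
    (hW : ∑ m ∈ range (4 * (2 * X)), ‖Wf X Q m‖ ^ (2 * (r + 1)) ≤ R)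
    (a : Fin r → ℕ) (ha : ∀ e, a e ≤ X) (y1 y2 : ℕ) (h12 : y1 ≤ y2) (h2 : y2 ≤ X) (E : ℝ) (hE : 0 ≤ E)
    (hER : ((y2 : ℝ) - y1) * (((r : ℝ) + 1) * R) ≤ E ^ 2) :
    ‖dev r X Q a y2‖ ≤ ‖dev r X Q a y1‖ + 2 * E := by
  have hh : ∀ i, c0 a i ≤ X := by
    intro i
    refine Fin.cases ?_ (fun e => ?_) i
    · exact Nat.zero_le _
    · exact ha e
  have g1 := (gap1 X hX (Wf X Q) R hW (c0 a) hh y1 y2 h12 h2).trans hER
  have g2 := (gap1 X hX (Lm r X Q) R hL (c0 a) hh y1 y2 h12 h2).trans hER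
  have g1' := le_of_sq_le_sq g1 hE
  have g2' := le_of_sq_le_sq g2 hE
  have e1 : dev r X Q a y2 = dev r X Q a y1 + ∑ n ∈ Ioc y1 y2,
      (∏ i, Wf X Q (n + (1 + c0 a i)) - ∏ i, Lm r X Q (n + (1 + c0 a i))) := by
    unfold dev
    exact sum_split _ y1 y2 h12
  rw [e1]
  refine (norm_add_le _ _).trans (add_le_add le_rfl ?_)
  refine (norm_sum_le _ _).trans ?_
  refine (sum_le_sum fun n _ => norm_sub_le _ _).trans ?_
  rw [sum_add_distrib]
  linarith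

/-- The grid. -/
lemma grid (X G y : ℕ) (hX : 1 ≤ X) (hG : 1 ≤ G) (hy : y ≤ X) :
    ∃ l, l ≤ G ∧ l * X / G ≤ y ∧ (y : ℝ) - ((l * X / G : ℕ) : ℝ) ≤ X / G + 1 := by
  have hG0 : 0 < G := hG
  have hX0 : 0 < X := hX
  refine ⟨y * G / X, ?_, ?_, ?_⟩
  · refine (Nat.div_le_div_right (Nat.mul_le_mul_right G hy)).trans ?_
    rw [Nat.mul_div_cancel_left _ hX0]
  · refine (Nat.div_le_div_right (Nat.div_mul_le_self (y * G) X)).trans ?_
    rw [Nat.mul_div_cancel _ hG0]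
  · set l := y * G / X with hl
    have h1 : y * G < (l + 1) * X := Nat.lt_mul_of_div_lt (Nat.lt_succ_self _) hX0
    have h2 : l * X < (l * X / G + 1) * G := Nat.lt_mul_of_div_lt (Nat.lt_succ_self _) hG0
    have h1' : (y : ℝ) * G < ((l : ℝ) + 1) * X := by exact_mod_cast h1
    have h2' : (l : ℝ) * X < (((l * X / G : ℕ) : ℝ) + 1) * G := by exact_mod_cast h2
    have hGr : (0 : ℝ) < G := by exact_mod_cast hG0
    have h3 : ((y : ℝ) - ((l * X / G : ℕ) : ℝ) - 1) * G ≤ X := by nlinarith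
    have h4 : (y : ℝ) - ((l * X / G : ℕ) : ℝ) - 1 ≤ X / G := by
      rwa [le_div_iff₀ hGr]
    linarith

end GridDAux

open GridDAux TransYAux

theorem fam {m r : ℕ} (hr : 1 ≤ r) (i j : Fin r → Fin m) (lg : Fin m → Bool) (hS : Slt i j lg) (B c : ℝ) (hc : 0 < c)
    (hB : BS B c) : ∃ e e' c' K : ℝ, Fam r (Bx lg) (sft i j lg) (dm lg) e e' c' K := by
  classical
  obtain ⟨e1, e1', c1, K1, he1, he1h, he1', hc1, hK1, X1, hT⟩ := transY hr i j lg hS B c hc hB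
  obtain ⟨K2, c2, hc2, X2, hM⟩ := lm_wf r (2 * (r + 1)) B c hc hB
  set f : ℝ := min e1 e1' / 2 with hf
  have hf0 : 0 < f := by
    have := lt_min he1 he1'
    linarith
  have hfe : 2 * f ≤ e1 := by
    have := min_le_left e1 e1'
    linarith
  have hfe' : 2 * f ≤ e1' := by
    have := min_le_right e1 e1'
    linarith
  have hf4 : f ≤ 1 / 4 := by linarith
  obtain ⟨Y1, hY1⟩ := ev (32 * ((r : ℝ) + 1)) (f / 2) K2 (by positivity)
  obtain ⟨Y2, hY2⟩ := ev 3 (f / 4) 0 (by positivity)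
  refine ⟨f / 4, f / 4, min (min c1 c2) 1, max K1 1, ?_, by positivity, by linarith, by positivity,
    lt_min (lt_min hc1 hc2) one_pos, lt_of_lt_of_le hK1 (le_max_left _ _),
    X1 + X2 + Y1 + Y2 + 3, fun X Q hX hQ1 hQ2 => ?_⟩
  · intro X t ht
    unfold Tup
    rw [Fintype.mem_piFinset]
    intro e
    rw [mem_range]
    have := sft_le i j lg hS X t ht e
    omega
  have hX1 : 1 ≤ X := by omega
  have hXr : (1 : ℝ) ≤ X := by exact_mod_cast hX1
  have hX0 : (0 : ℝ) < X := by linarith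
  set L : ℝ := Real.sqrt (Real.log X) with hL
  have hL0 : 0 ≤ L := Real.sqrt_nonneg _
  have hQL : Real.exp L ≤ Q := by
    refine le_trans (Real.exp_le_exp.2 ?_) hQ1
    nlinarith [le_max_right K1 1]
  have hQK : Real.exp (K1 * L) ≤ Q := by
    refine le_trans (Real.exp_le_exp.2 ?_) hQ1
    exact mul_le_mul_of_nonneg_right (le_max_left _ _) hL0
  have hQr : (1 : ℝ) ≤ Q := (Real.one_le_exp hL0).trans hQL
  have hQ0 : (0 : ℝ) < Q := by linarith
  have hQc1 : (Q : ℝ) ≤ (X : ℝ) ^ c1 := hQ2.trans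
    (Real.rpow_le_rpow_of_exponent_le hXr ((min_le_left _ _).trans (min_le_left _ _)))
  have hQc2 : (Q : ℝ) ≤ (X : ℝ) ^ c2 := hQ2.trans
    (Real.rpow_le_rpow_of_exponent_le hXr ((min_le_left _ _).trans (min_le_right _ _)))
  have hQX : (Q : ℝ) ≤ X := by
    have h := hQ2.trans (Real.rpow_le_rpow_of_exponent_le hXr (min_le_right _ _))
    rwa [Real.rpow_one] at h
  obtain ⟨mL, mW⟩ := hM X Q (by omega) hQL hQc2
  -- growth
  have hbQ : ∀ s : ℝ, 0 ≤ s → Real.exp (s * L) ≤ (Q : ℝ) ^ s := by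
    intro s hs
    have h := Real.rpow_le_rpow (Real.exp_pos _).le hQL hs
    rwa [← Real.exp_mul, mul_comm] at h
  have g1 : 32 * ((r : ℝ) + 1) * Real.log X ^ K2 ≤ (Q : ℝ) ^ (f / 2) :=
    (hY1 X (by omega)).trans (hbQ _ (by positivity))
  have g2 : 3 ≤ (Q : ℝ) ^ (f / 4) := by
    have h := hY2 X (by omega)
    rw [pow_zero, mul_one] at h
    exact h.trans (hbQ _ (by positivity))
  set w : ℝ := (Q : ℝ) ^ (-(f / 4)) with hw
  have hw0 : 0 < w := by positivity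
  have hw1 : w * (Q : ℝ) ^ (f / 4) = 1 := by
    rw [hw, ← Real.rpow_add hQ0]
    norm_num
  have hw3 : 3 * w ≤ 1 := by nlinarith
  have hpow : ∀ n : ℕ, (Q : ℝ) ^ (-((n : ℝ) * (f / 4))) = w ^ n := by
    intro n
    rw [hw, ← Real.rpow_natCast, ← Real.rpow_mul hQ0.le]
    congr 1
    ring
  -- the grid
  set G : ℕ := ⌈(Q : ℝ) ^ f⌉₊ with hG
  have hQf : (1 : ℝ) ≤ (Q : ℝ) ^ f := Real.one_le_rpow hQr hf0.le
  have hG1 : 1 ≤ G := Nat.one_le_iff_ne_zero.2 (Nat.pos_iff_ne_zero.1 (Nat.ceil_pos.2 (by linarith)))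
  have hGl : (Q : ℝ) ^ f ≤ G := Nat.le_ceil _
  have hGu : (G : ℝ) ≤ (Q : ℝ) ^ f + 1 := (Nat.ceil_lt_add_one (by linarith)).le
  have hfw : (Q : ℝ) ^ f * w ^ 4 = 1 := by
    rw [← hpow 4, ← Real.rpow_add hQ0]
    push_cast
    rw [show f + -(4 * (f / 4)) = 0 by ring, Real.rpow_zero]
  have hQfX : (Q : ℝ) ^ f ≤ X := by
    have h : (Q : ℝ) ^ f ≤ (Q : ℝ) ^ (1 : ℝ) := Real.rpow_le_rpow_of_exponent_le hQr (by linarith)
    rw [Real.rpow_one] at h
    exact h.trans hQX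
  refine ⟨(range (G + 1)).biUnion (fun l => (Bx lg X).filter (fun t => X * (Q : ℝ) ^ (-e1) <
    ‖dev r X Q (sft i j lg t) (l * X / G)‖)), ?_, ?_⟩
  · have h1 : ∀ l ∈ range (G + 1), (((Bx lg X).filter (fun t => X * (Q : ℝ) ^ (-e1) <
        ‖dev r X Q (sft i j lg t) (l * X / G)‖)).card : ℝ) ≤ (X : ℝ) ^ dm lg * w ^ 8 := by
      intro l hl
      have hlG : l ≤ G := by
        rw [mem_range] at hl
        omega
      have hy : l * X / G ≤ X := by
        refine (Nat.div_le_div_right (Nat.mul_le_mul_right X hlG)).trans ?_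
        rw [Nat.mul_div_cancel_left _ hG1]
      refine (hT X Q (by omega) hQK hQc1 _ hy).trans ?_
      refine mul_le_mul (card_Bx lg X hX1) ?_ (by positivity) (by positivity)
      rw [← hpow 8]
      refine Real.rpow_le_rpow_of_exponent_le hQr ?_
      push_cast
      linarith
    have h2 : (((range (G + 1)).biUnion (fun l => (Bx lg X).filter (fun t => X * (Q : ℝ) ^ (-e1) <
        ‖dev r X Q (sft i j lg t) (l * X / G)‖))).card : ℝ) ≤ ∑ l ∈ range (G + 1),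
        (((Bx lg X).filter (fun t => X * (Q : ℝ) ^ (-e1) <
        ‖dev r X Q (sft i j lg t) (l * X / G)‖)).card : ℝ) := by
      exact_mod_cast card_biUnion_le
    refine h2.trans ((sum_le_sum h1).trans ?_)
    rw [sum_const, card_range, nsmul_eq_mul]
    push_cast
    have h3 : ((G : ℝ) + 1) ≤ 3 * (Q : ℝ) ^ f := by linarith
    have h4 : 0 ≤ (X : ℝ) ^ dm lg := by positivity
    calc ((G : ℝ) + 1) * ((X : ℝ) ^ dm lg * w ^ 8) ≤ (3 * (Q : ℝ) ^ f) * ((X : ℝ) ^ dm lg * w ^ 8) :=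
          mul_le_mul_of_nonneg_right h3 (by positivity)
      _ = (X : ℝ) ^ dm lg * (3 * w ^ 4) * ((Q : ℝ) ^ f * w ^ 4) := by ring
      _ = (X : ℝ) ^ dm lg * (3 * w ^ 4) := by rw [hfw, mul_one]
      _ ≤ (X : ℝ) ^ dm lg * w := by
          refine mul_le_mul_of_nonneg_left ?_ h4
          have h5 : w ≤ 1 := by linarith
          have h6 : w ^ 3 ≤ w := by
            calc w ^ 3 ≤ w ^ 1 := pow_le_pow_of_le_one hw0.le h5 (by norm_num)
              _ = w := pow_one w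
          have h7 : 3 * w ^ 4 = w * (3 * w ^ 3) := by ring
          rw [h7]
          nlinarith
  · intro t ht hnt y hy
    rw [mem_biUnion] at hnt
    push Not at hnt
    obtain ⟨l, hlG, hl1, hl2⟩ := grid X G y hX1 hG1 hy
    have h1 := hnt l (by
      rw [mem_range]
      omega)
    rw [mem_filter, not_and, not_lt] at h1
    have h2 := h1 ht
    have h3 : (X : ℝ) * (Q : ℝ) ^ (-e1) ≤ X * (1 / 3 * w) := by
      refine mul_le_mul_of_nonneg_left ?_ hX0.le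
      calc (Q : ℝ) ^ (-e1) ≤ (Q : ℝ) ^ (-(((2 : ℕ) : ℝ) * (f / 4))) := by
            refine Real.rpow_le_rpow_of_exponent_le hQr ?_
            push_cast
            linarith
        _ = w ^ 2 := hpow 2
        _ ≤ 1 / 3 * w := by nlinarith
    have h4 : (y : ℝ) - ((l * X / G : ℕ) : ℝ) ≤ 2 * (X * w ^ 4) := by
      refine hl2.trans ?_
      have e1 : (X : ℝ) / G ≤ X * w ^ 4 := by
        rw [div_le_iff₀ (lt_of_lt_of_le (by linarith) hGl)]
        have e2 : X * w ^ 4 * (Q : ℝ) ^ f ≤ X * w ^ 4 * G :=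
          mul_le_mul_of_nonneg_left hGl (by positivity)
        have e3 : (X : ℝ) * w ^ 4 * (Q : ℝ) ^ f = X := by
          have e5 : (X : ℝ) * w ^ 4 * (Q : ℝ) ^ f = (X : ℝ) * ((Q : ℝ) ^ f * w ^ 4) := by ring
          rw [e5, hfw, mul_one]
        linarith
      have e4 : (1 : ℝ) ≤ X * w ^ 4 := by
        rw [← hfw]
        exact mul_le_mul_of_nonneg_right hQfX (by positivity)
      linarith
    have h5 := gap X Q hX1 _ mL mW (sft i j lg t) (sft_le i j lg hS X t ht) (l * X / G) y hl1 hy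
      (X * (1 / 4 * w)) (by positivity) (by
        have hR : (0 : ℝ) ≤ ((r : ℝ) + 1) * (X * Real.log X ^ K2) := by
          have := Real.log_nonneg hXr
          positivity
        refine (mul_le_mul_of_nonneg_right h4 hR).trans ?_
        have e5 : (Q : ℝ) ^ (f / 2) * w ^ 2 = 1 := by
          rw [← hpow 2, ← Real.rpow_add hQ0]
          push_cast
          rw [show f / 2 + -(2 * (f / 4)) = 0 by ring, Real.rpow_zero]
        calc 2 * (X * w ^ 4) * (((r : ℝ) + 1) * (X * Real.log X ^ K2)) =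
              (X ^ 2 * w ^ 4 / 16) * (32 * ((r : ℝ) + 1) * Real.log X ^ K2) := by ring
          _ ≤ (X ^ 2 * w ^ 4 / 16) * (Q : ℝ) ^ (f / 2) := mul_le_mul_of_nonneg_left g1 (by positivity)
          _ = (X ^ 2 * w ^ 2 / 16) * ((Q : ℝ) ^ (f / 2) * w ^ 2) := by ring
          _ = (X * (1 / 4 * w)) ^ 2 := by
              rw [e5]
              ring)
    refine h5.trans ?_
    have h6 : 0 < X * w := by positivity
    linarith

end Pool.Agent.DSH
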