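import Pool.Agent.Lib.DSH.Defs
import Pool.Agent.Lib.GMV.L2bd

/-!
# DSH.LLm (1.5 h): moments of the model and of the weighted primes

PROOF. `llm`: adapt `l2L` in `GMV/L2bd.lean` (exponent `N` instead of `2`): `‖LL X Q (Q^B0) n‖ ≤ C (log X)^K₁ τ(n)` for `1 ≤ n < 4 X` and `‖LL‖ = 0` at `n = 0`, or as there; `∑_{n ≤ 4X} τ(n)^N ≤ 4X (1 + log 4X)^(2^N)` (`sum_tau_pow N`).
`wm`: `0 ≤ W X Q n ≤ log(4X) ≤ 2 log X` for `n < 4X` (see `l2W`).
`bs_lm`: `llm` at `2 X` (`Lm r X Q = LL (2X) Q (Q^(8(r+1)))`), the sum over `Icc 1 (2 (X+1)) ⊆ range (4 · (2 X))`; `log (2X) ≤ 2 log X`.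
-/

set_option autoImplicit false

open Finset Filter

namespace Pool.Agent.DSH

open Pool.Agent.HLB Pool.Agent.HLT Pool.Agent.HLR Pool.Agent.Lib.GMV Pool.Agent.BLF

namespace LLmAux

open L2bdAux

theorem llm_pos (B0 N : ℕ) (hN : N ≠ 0) (B : ℝ) : ∃ K X0 : ℕ, ∀ X Q : ℕ, X0 ≤ X → 2 ≤ Q →
    Q ^ 5 ≤ X → ∀ b : CI → ℝ, (∀ x ∈ Ch Q, ∀ n, ‖Mc X Q x n‖ ≤ b x) → ∑ x ∈ Ch Q, b x ≤ B →
    ∑ n ∈ range (4 * X), ‖LL X Q (Q ^ B0) n‖ ^ N ≤ X * Real.log X ^ K := by
  obtain ⟨C, hC⟩ : ∃ C : ℝ, C = (Real.exp 10 * 2 ^ 9 * (Real.exp 10 * (1 + B0) ^ 9) * B) ^ N *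
    (4 * 4 ^ (2 ^ N)) := ⟨_, rfl⟩
  obtain ⟨X0, hX0⟩ := log_ev (max 1 C)
  refine ⟨18 * N + 2 ^ N + 1, X0, fun X Q hX hQ hQX b hb hB => ?_⟩
  obtain ⟨hl', hX1⟩ := hX0 X hX
  have hl : 1 ≤ Real.log X := (le_max_left _ _).trans hl'
  have hlC : C ≤ Real.log X := (le_max_right _ _).trans hl'
  have hXr : (1 : ℝ) ≤ X := by exact_mod_cast hX1
  have hb0 : ∀ x ∈ Ch Q, 0 ≤ b x := fun x hx => (norm_nonneg _).trans (hb x hx 0)
  have hB0 : 0 ≤ B := (Finset.sum_nonneg hb0).trans hB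
  have hQX' : Q ≤ X := (Nat.le_self_pow (by norm_num) Q).trans hQX
  have hQl : Real.log Q ≤ Real.log X :=
    Real.log_le_log (by exact_mod_cast (by omega : 0 < Q)) (by exact_mod_cast hQX')
  obtain ⟨R, hR⟩ : ∃ R : ℝ, R = Real.exp 10 * (2 * Real.log X) ^ 9 := ⟨_, rfl⟩
  obtain ⟨D, hD⟩ : ∃ D : ℝ, D = Real.exp 10 * ((1 + B0) * Real.log X) ^ 9 := ⟨_, rfl⟩
  have hR0 : 0 ≤ R := by rw [hR]; positivity
  have hD0 : 0 ≤ D := by rw [hD]; positivity
  have hrho : ∀ x ∈ Ch Q, rho x ≤ R := by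
    intro x hx
    refine (rho_le x).trans ((inv_DZ _).trans ?_)
    rw [hR]
    have h1 : md x ≤ X := (mem_Ch.1 hx).1.trans hQX'
    have h2 : Real.log (md x) ≤ Real.log X :=
      Real.log_le_log (by exact_mod_cast md_pos x) (by exact_mod_cast h1)
    have h3 : 0 ≤ Real.log (md x : ℝ) := Real.log_natCast_nonneg _
    gcongr
    linarith
  have hDZ : (DZ (Q ^ B0))⁻¹ ≤ D := by
    refine (inv_DZ _).trans ?_
    rw [hD]
    have h2 : Real.log ((Q ^ B0 : ℕ) : ℝ) ≤ B0 * Real.log X := by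
      push_cast
      rw [Real.log_pow]
      exact mul_le_mul_of_nonneg_left hQl (Nat.cast_nonneg _)
    have h3 : 0 ≤ Real.log ((Q ^ B0 : ℕ) : ℝ) := Real.log_natCast_nonneg _
    gcongr
    nlinarith
  have hpt : ∀ n ∈ range (4 * X), ‖LL X Q (Q ^ B0) n‖ ^ N ≤
      (R * D * B) ^ N * (if n = 0 then 0 else (n.divisors.card : ℝ) ^ N) := by
    intro n _
    rcases Nat.eq_zero_or_pos n with rfl | hn0
    · have h0 : LL X Q (Q ^ B0) 0 = 0 := by
        unfold LL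
        refine Finset.sum_eq_zero fun x _ => ?_
        have : Mc X Q x 0 = 0 := by
          unfold Mc
          exact cn_eq_zero X Q hQ hQX _ 0 (Or.inl rfl)
        rw [this]
        ring
      rw [h0, norm_zero, if_pos rfl, zero_pow hN, mul_zero]
    · rw [if_neg hn0.ne', ← mul_pow]
      refine pow_le_pow_left₀ (norm_nonneg _) ?_ N
      unfold LL
      refine (norm_sum_le _ _).trans ?_
      have h1 : ∀ x ∈ Ch Q, ‖(rho x : ℂ) * (starRingEnd ℂ) (cv x n) * Mc X Q x n *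
          (DD (Q ^ B0) (md x) n : ℂ)‖ ≤ R * D * (n.divisors.card : ℝ) * b x := by
        intro x hx
        rw [norm_mul, norm_mul, norm_mul, RCLike.norm_conj, Complex.norm_real, Complex.norm_real,
          Real.norm_of_nonneg (rho_nonneg x), Real.norm_eq_abs]
        have e1 := norm_cv_le x n
        have e2 := hb x hx n
        have e3 : |DD (Q ^ B0) (md x) n| ≤ (n.divisors.card : ℝ) * D :=
          (DD_le _ _ n hn0.ne').trans (mul_le_mul_of_nonneg_left hDZ (Nat.cast_nonneg _))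
        have e4 := hrho x hx
        calc rho x * ‖cv x n‖ * ‖Mc X Q x n‖ * |DD (Q ^ B0) (md x) n|
            ≤ R * 1 * b x * ((n.divisors.card : ℝ) * D) := by
              have := rho_nonneg x
              have := hb0 x hx
              gcongr
          _ = _ := by ring
      refine (Finset.sum_le_sum h1).trans ?_
      rw [← Finset.mul_sum]
      calc R * D * (n.divisors.card : ℝ) * ∑ x ∈ Ch Q, b x
          ≤ R * D * (n.divisors.card : ℝ) * B := by gcongr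
        _ = _ := by ring
  refine (Finset.sum_le_sum hpt).trans ?_
  rw [← Finset.mul_sum]
  have hsum : ∑ n ∈ range (4 * X), (if n = 0 then (0 : ℝ) else (n.divisors.card : ℝ) ^ N) ≤
      4 * X * (4 * Real.log X) ^ (2 ^ N) := by
    have h1 : ∑ n ∈ range (4 * X), (if n = 0 then (0 : ℝ) else (n.divisors.card : ℝ) ^ N) ≤
        ∑ n ∈ Icc 1 (4 * X), (n.divisors.card : ℝ) ^ N := by
      have e : ∀ n : ℕ, (if n = 0 then (0 : ℝ) else (n.divisors.card : ℝ) ^ N) =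
          if n ≠ 0 then (n.divisors.card : ℝ) ^ N else 0 := by
        intro n
        by_cases h : n = 0
        · rw [if_pos h, if_neg (not_not.2 h)]
        · rw [if_neg h, if_pos h]
      rw [Finset.sum_congr rfl fun n _ => e n, ← Finset.sum_filter]
      refine Finset.sum_le_sum_of_subset_of_nonneg ?_ fun n _ _ => by positivity
      intro n hn
      rw [Finset.mem_filter, Finset.mem_range] at hn
      rw [Finset.mem_Icc]
      omega
    refine h1.trans ((sum_tau_pow N (4 * X)).trans ?_)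
    push_cast
    have h4 := log_four
    have h5 : Real.log (4 * X) = Real.log 4 + Real.log X :=
      Real.log_mul (by norm_num) (by linarith)
    have h6 : 0 ≤ Real.log (4 * (X : ℝ)) := Real.log_nonneg (by linarith)
    gcongr
    linarith
  have hnn : 0 ≤ (R * D * B) ^ N := by positivity
  have hlog : 0 ≤ Real.log X := by linarith
  calc (R * D * B) ^ N * ∑ n ∈ range (4 * X), (if n = 0 then (0 : ℝ) else
        (n.divisors.card : ℝ) ^ N)
      ≤ (R * D * B) ^ N * (4 * X * (4 * Real.log X) ^ (2 ^ N)) :=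
        mul_le_mul_of_nonneg_left hsum hnn
    _ = C * (X * Real.log X ^ (18 * N + 2 ^ N)) := by
        have e : R * D * B = (Real.exp 10 * 2 ^ 9 * (Real.exp 10 * (1 + B0) ^ 9) * B) *
            Real.log X ^ 18 := by
          rw [hR, hD]
          ring
        rw [e, hC, mul_pow _ (Real.log X ^ 18) N, mul_pow 4 (Real.log X) (2 ^ N), ← pow_mul,
          pow_add]
        ring
    _ ≤ Real.log X * (X * Real.log X ^ (18 * N + 2 ^ N)) := by gcongr
    _ = X * Real.log X ^ (18 * N + 2 ^ N + 1) := by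
        rw [pow_succ]
        ring

end LLmAux

theorem llm (B0 N : ℕ) (B : ℝ) : ∃ K X0 : ℕ, ∀ X Q : ℕ, X0 ≤ X → 2 ≤ Q → Q ^ 5 ≤ X →
    ∀ b : CI → ℝ, (∀ x ∈ Ch Q, ∀ n, ‖Mc X Q x n‖ ≤ b x) → ∑ x ∈ Ch Q, b x ≤ B →
    ∑ n ∈ range (4 * X), ‖LL X Q (Q ^ B0) n‖ ^ N ≤ X * Real.log X ^ K := by
  rcases Nat.eq_zero_or_pos N with rfl | hN
  · obtain ⟨X0, hX0⟩ := L2bdAux.log_ev 4
    refine ⟨1, X0, fun X Q hX _ _ b _ _ => ?_⟩
    obtain ⟨hl, hX1⟩ := hX0 X hX
    have hXr : (1 : ℝ) ≤ X := by exact_mod_cast hX1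
    simp only [pow_zero, pow_one]
    rw [Finset.sum_const, Finset.card_range, nsmul_eq_mul]
    push_cast
    nlinarith
  · exact LLmAux.llm_pos B0 N hN.ne' B

theorem wm (N : ℕ) : ∃ K X0 : ℕ, ∀ X Q : ℕ, X0 ≤ X → ∑ n ∈ range (4 * X), |W X Q n| ^ N ≤ X * Real.log X ^ K := by
  obtain ⟨X0, hX0⟩ := L2bdAux.log_ev (4 * 2 ^ N + 2)
  refine ⟨N + 1, X0, fun X Q hX => ?_⟩
  obtain ⟨hl, hX1⟩ := hX0 X hX
  have hXr : (1 : ℝ) ≤ X := by exact_mod_cast hX1
  have hp : (0 : ℝ) < 2 ^ N := by positivity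
  have h4 := L2bdAux.log_four
  have h5 : Real.log (4 * X) = Real.log 4 + Real.log X :=
    Real.log_mul (by norm_num) (by linarith)
  have h1 : ∀ n ∈ range (4 * X), |W X Q n| ^ N ≤ (2 * Real.log X) ^ N := by
    intro n hn
    rw [Finset.mem_range] at hn
    rw [abs_of_nonneg (W_nonneg X Q n)]
    refine pow_le_pow_left₀ (W_nonneg X Q n) ?_ N
    refine (W_le X Q n).trans ((lp_le n).trans ?_)
    rcases Nat.eq_zero_or_pos n with rfl | hn0
    · rw [Nat.cast_zero, Real.log_zero]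
      linarith
    · have : Real.log (n : ℝ) ≤ Real.log (4 * X) := by
        refine Real.log_le_log (by exact_mod_cast hn0) ?_
        have : (n : ℝ) < 4 * X := by exact_mod_cast hn
        exact this.le
      linarith
  refine (Finset.sum_le_sum h1).trans ?_
  rw [Finset.sum_const, Finset.card_range, nsmul_eq_mul]
  push_cast
  have h6 : 0 ≤ (X : ℝ) * Real.log X ^ N :=
    mul_nonneg (by linarith) (pow_nonneg (by linarith) N)
  calc 4 * (X : ℝ) * (2 * Real.log X) ^ N = (4 * 2 ^ N) * (X * Real.log X ^ N) := by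
        rw [mul_pow]
        ring
    _ ≤ Real.log X * (X * Real.log X ^ N) := mul_le_mul_of_nonneg_right (by linarith) h6
    _ = X * Real.log X ^ (N + 1) := by
        rw [pow_succ]
        ring

namespace LLmAux

/-- from the scale `2 X` to the scale `X` -/
theorem scale (K K' : ℕ) (hK : K + 1 ≤ K') {X : ℕ} (hX : 1 ≤ X)
    (hl : (2 : ℝ) ^ (K + 1) + 1 ≤ Real.log X) :
    ((2 * X : ℕ) : ℝ) * Real.log ((2 * X : ℕ) : ℝ) ^ K ≤ X * Real.log X ^ K' := by
  have hXr : (1 : ℝ) ≤ X := by exact_mod_cast hX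
  have hp : (0 : ℝ) < 2 ^ (K + 1) := by positivity
  have hl1 : 1 ≤ Real.log X := by linarith
  have h1 : Real.log ((2 * X : ℕ) : ℝ) ≤ 2 * Real.log X := by
    push_cast
    rw [Real.log_mul (by norm_num) (by linarith)]
    have := Real.log_two_lt_d9
    linarith
  have h0 : 0 ≤ Real.log ((2 * X : ℕ) : ℝ) := Real.log_natCast_nonneg _
  have h2 : Real.log ((2 * X : ℕ) : ℝ) ^ K ≤ (2 * Real.log X) ^ K := pow_le_pow_left₀ h0 h1 K
  calc ((2 * X : ℕ) : ℝ) * Real.log ((2 * X : ℕ) : ℝ) ^ K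
      ≤ ((2 * X : ℕ) : ℝ) * (2 * Real.log X) ^ K :=
        mul_le_mul_of_nonneg_left h2 (Nat.cast_nonneg _)
    _ = 2 ^ (K + 1) * (X * Real.log X ^ K) := by
        push_cast
        rw [mul_pow, pow_succ]
        ring
    _ ≤ Real.log X * (X * Real.log X ^ K) :=
        mul_le_mul_of_nonneg_right (by linarith)
          (mul_nonneg (by linarith) (pow_nonneg (by linarith) K))
    _ = X * Real.log X ^ (K + 1) := by
        rw [pow_succ]
        ring
    _ ≤ X * Real.log X ^ K' :=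
        mul_le_mul_of_nonneg_left (pow_le_pow_right₀ hl1 hK) (by linarith)

end LLmAux

/-- The moments at the scale `2 X`, as used in the sequel. -/
theorem lm_wf (r N : ℕ) (B c : ℝ) (hc : 0 < c) (hB : BS B c) : ∃ (K : ℕ) (c' : ℝ), 0 < c' ∧ ∃ X0 : ℕ, ∀ X Q : ℕ,
    X0 ≤ X → Real.exp (Real.sqrt (Real.log X)) ≤ Q → (Q : ℝ) ≤ (X : ℝ) ^ c' →
    ∑ m ∈ range (4 * (2 * X)), ‖Lm r X Q m‖ ^ N ≤ X * Real.log X ^ K ∧
    ∑ m ∈ range (4 * (2 * X)), ‖Wf X Q m‖ ^ N ≤ X * Real.log X ^ K := by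
  obtain ⟨K1, X1, h1⟩ := llm (8 * (r + 1)) N B
  obtain ⟨K2, X2, h2⟩ := wm N
  obtain ⟨X3, h3⟩ := hB
  obtain ⟨X4, h4⟩ := L2bdAux.log_ev ((2 : ℝ) ^ (K1 + 1) + 2 ^ (K2 + 1) + 1)
  refine ⟨K1 + K2 + 1, min c (1 / 5), lt_min hc (by norm_num), max (max X1 X2) (max X3 X4),
    fun X Q hX hQ1 hQ2 => ?_⟩
  have hX1 : X1 ≤ 2 * X := by
    have := (le_max_left X1 X2).trans ((le_max_left _ _).trans hX)
    omega
  have hX2 : X2 ≤ 2 * X := by
    have := (le_max_right X1 X2).trans ((le_max_left _ _).trans hX)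
    omega
  have hX3 : X3 ≤ 2 * X := by
    have := (le_max_left X3 X4).trans ((le_max_right _ _).trans hX)
    omega
  obtain ⟨hl, hXp⟩ := h4 X ((le_max_right X3 X4).trans ((le_max_right _ _).trans hX))
  have hXr : (1 : ℝ) ≤ X := by exact_mod_cast hXp
  have hp1 : (0 : ℝ) < 2 ^ (K1 + 1) := by positivity
  have hp2 : (0 : ℝ) < 2 ^ (K2 + 1) := by positivity
  have hl1 : 1 ≤ Real.log X := by linarith
  -- `2 ≤ Q`
  have hQ : 2 ≤ Q := by
    have e1 : (1 : ℝ) ≤ Real.sqrt (Real.log X) := Real.one_le_sqrt.2 hl1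
    have e2 : (1 : ℝ) + 1 ≤ Real.exp 1 := Real.add_one_le_exp 1
    have e3 : Real.exp 1 ≤ Real.exp (Real.sqrt (Real.log X)) := Real.exp_le_exp.2 e1
    have e4 : (2 : ℝ) ≤ Q := by linarith
    exact_mod_cast e4
  have hQ0 : (0 : ℝ) ≤ Q := Nat.cast_nonneg _
  -- `Q ^ 5 ≤ X`
  have hQ5 : Q ^ 5 ≤ X := by
    have e1 : (Q : ℝ) ≤ (X : ℝ) ^ (1 / 5 : ℝ) :=
      hQ2.trans (Real.rpow_le_rpow_of_exponent_le hXr (min_le_right _ _))
    have e2 : (Q : ℝ) ^ 5 ≤ ((X : ℝ) ^ (1 / 5 : ℝ)) ^ 5 := pow_le_pow_left₀ hQ0 e1 5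
    have e3 : ((X : ℝ) ^ (1 / 5 : ℝ)) ^ 5 = X := by
      rw [← Real.rpow_natCast, ← Real.rpow_mul (by linarith)]
      norm_num
    rw [e3] at e2
    exact_mod_cast e2
  -- the range
  have hRg : Rg c (2 * X) Q := by
    constructor
    · refine le_trans (Real.exp_le_exp.2 ?_) hQ1
      have e1 : Real.log ((2 * X : ℕ) : ℝ) ≤ 4 * Real.log X := by
        push_cast
        rw [Real.log_mul (by norm_num) (by linarith)]
        have := Real.log_two_lt_d9
        linarith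
      have e2 : Real.sqrt (Real.log ((2 * X : ℕ) : ℝ)) ≤ 2 * Real.sqrt (Real.log X) := by
        calc Real.sqrt (Real.log ((2 * X : ℕ) : ℝ)) ≤ Real.sqrt (4 * Real.log X) :=
              Real.sqrt_le_sqrt e1
          _ = 2 * Real.sqrt (Real.log X) := by
              rw [Real.sqrt_mul (by norm_num)]
              congr 1
              rw [show (4 : ℝ) = 2 ^ 2 by norm_num]
              exact Real.sqrt_sq (by norm_num)
      linarith
    · refine hQ2.trans ?_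
      calc (X : ℝ) ^ (min c (1 / 5)) ≤ (X : ℝ) ^ c :=
            Real.rpow_le_rpow_of_exponent_le hXr (min_le_left _ _)
        _ ≤ ((2 * X : ℕ) : ℝ) ^ c := by
            refine Real.rpow_le_rpow (by linarith) ?_ hc.le
            push_cast
            linarith
  obtain ⟨b, hb1, hb2⟩ := h3 (2 * X) Q hX3 hRg
  constructor
  · have e1 := h1 (2 * X) Q hX1 hQ (hQ5.trans (by omega)) b hb1 hb2
    exact e1.trans (LLmAux.scale K1 (K1 + K2 + 1) (by omega) hXp (by linarith))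
  · have e1 := h2 (2 * X) Q hX2
    have e2 : ∑ m ∈ range (4 * (2 * X)), ‖Wf X Q m‖ ^ N =
        ∑ m ∈ range (4 * (2 * X)), |W (2 * X) Q m| ^ N := by
      refine Finset.sum_congr rfl fun m _ => ?_
      unfold Wf
      rw [Complex.norm_real, Real.norm_eq_abs]
    rw [e2]
    exact e1.trans (LLmAux.scale K2 (K1 + K2 + 1) (by omega) hXp (by linarith))

end Pool.Agent.DSH
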