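import Pool.Agent.Lib.DSH.Defs
import Pool.Agent.Lib.GMV.TeleSq

/-!
# DSH.Ms1 (0.5 h): mean square property of an interval from the Fourier transform

PROOF. `GMV.TeleSqAux.one_slot` (with its `X := Z`, `y := x`) and `Icc 1 N ⊆ Icc 1 Z`: `∑_{u ≤ N} ‖∑ g n F(n+u)‖² ≤ (α x)² ∑_{n ≤ x} ‖g n‖² ≤ α² x³ ≤ 8 α² N x²`.
-/

set_option autoImplicit false

open Finset Filter

namespace Pool.Agent.DSH

open Pool.Agent.HLB Pool.Agent.HLT Pool.Agent.HLR Pool.Agent.Lib.GMV Pool.Agent.BLF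

namespace Ms1Aux

private lemma ex_eq_one_iff {N : ℕ} (hN : 0 < N) (k : ℤ) : ex (k / N) = 1 ↔ (N : ℤ) ∣ k := by
  unfold ex
  rw [Complex.exp_eq_one_iff]
  have hN' : (N : ℂ) ≠ 0 := by exact_mod_cast hN.ne'
  have hpi : (2 * (Real.pi : ℂ) * Complex.I) ≠ 0 := Complex.two_pi_I_ne_zero
  constructor
  · rintro ⟨m, hm⟩
    refine ⟨m, ?_⟩
    have h1 : ((k : ℂ) / N) * (2 * (Real.pi : ℂ) * Complex.I) = m * (2 * (Real.pi : ℂ) * Complex.I) := by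
      rw [← hm]
      push_cast
      ring
    have h2 := mul_right_cancel₀ hpi h1
    rw [div_eq_iff hN'] at h2
    have h3 : ((k : ℤ) : ℂ) = ((N * m : ℤ) : ℂ) := by
      rw [h2]
      push_cast
      ring
    exact_mod_cast h3
  · rintro ⟨m, rfl⟩
    refine ⟨m, ?_⟩
    push_cast
    field_simp

private lemma sum_ex {N : ℕ} (hN : 0 < N) (k : ℤ) :
    ∑ ξ ∈ range N, ex (k * (ξ / N)) = if (N : ℤ) ∣ k then (N : ℂ) else 0 := by
  have h1 : ∀ ξ : ℕ, ex (k * (ξ / N)) = ex (k / N) ^ ξ := by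
    intro ξ
    rw [← ex_nat_mul]
    congr 1
    ring
  simp_rw [h1]
  split_ifs with h
  · rw [(ex_eq_one_iff hN k).2 h]
    simp
  · have hne : ex (k / N) ≠ 1 := fun h' => h ((ex_eq_one_iff hN k).1 h')
    rw [geom_sum_eq hne]
    have h2 : ex (k / N) ^ N = 1 := by
      rw [← ex_nat_mul]
      have h3 : ((N : ℝ) * ((k : ℝ) / N)) = ((k : ℤ) : ℝ) := by
        have : (N : ℝ) ≠ 0 := by exact_mod_cast hN.ne'
        field_simp
      rw [h3]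
      exact ex_int k
    rw [h2, sub_self, zero_div]

private lemma conj_ex (a : ℝ) : (starRingEnd ℂ) (ex a) = ex (-a) := (ex_neg a).symm

/-- The expansion of a product of two exponential sums. -/
private lemma expand {N : ℕ} (hN : 0 < N) (S T : Finset ℕ) (h g : ℕ → ℂ) (t : ℕ)
    (hST : ∀ n ∈ S, ∀ m ∈ T, ((n : ℤ) + t - m).natAbs < N) :
    ∑ ξ ∈ range N, (∑ n ∈ S, h n * ex (n * (ξ / N))) *
        (starRingEnd ℂ) (∑ m ∈ T, g m * ex (m * (ξ / N))) * ex (t * (ξ / N)) =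
      (N : ℂ) * ∑ n ∈ S, ∑ m ∈ T, if m = n + t then h n * (starRingEnd ℂ) (g m) else 0 := by
  have h1 : ∀ ξ ∈ range N, (∑ n ∈ S, h n * ex (n * (ξ / N))) *
        (starRingEnd ℂ) (∑ m ∈ T, g m * ex (m * (ξ / N))) * ex (t * (ξ / N)) =
      ∑ n ∈ S, ∑ m ∈ T, (h n * (starRingEnd ℂ) (g m)) *
        ex ((((n : ℤ) + t - m : ℤ) : ℝ) * (ξ / N)) := by
    intro ξ _
    rw [map_sum, Finset.sum_mul_sum, Finset.sum_mul]
    refine Finset.sum_congr rfl fun n _ => ?_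
    rw [Finset.sum_mul]
    refine Finset.sum_congr rfl fun m _ => ?_
    rw [map_mul, conj_ex]
    have h2 : ex ((((n : ℤ) + t - m : ℤ) : ℝ) * (ξ / N)) =
        ex (n * (ξ / N)) * ex (-(m * (ξ / N))) * ex (t * (ξ / N)) := by
      rw [← ex_add, ← ex_add]
      congr 1
      push_cast
      ring
    rw [h2]
    ring
  rw [Finset.sum_congr rfl h1, Finset.sum_comm, Finset.mul_sum]
  refine Finset.sum_congr rfl fun n hn => ?_
  rw [Finset.sum_comm, Finset.mul_sum]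
  refine Finset.sum_congr rfl fun m hm => ?_
  rw [← Finset.mul_sum, sum_ex hN]
  have h3 : (N : ℤ) ∣ ((n : ℤ) + t - m) ↔ m = n + t := by
    constructor
    · intro hd
      have h4 := Int.eq_zero_of_dvd_of_natAbs_lt_natAbs hd (by
        simpa using hST n hn m hm)
      omega
    · rintro rfl
      simp
  by_cases hmn : m = n + t
  · rw [if_pos (h3.2 hmn), if_pos hmn]
    ring
  · rw [if_neg (fun h => hmn (h3.1 h)), if_neg hmn]
    ring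

/-- Parseval on `range N`. -/
private lemma pars {N : ℕ} (hN : 0 < N) (b : ℕ → ℂ) :
    ∑ t ∈ range N, ‖∑ ξ ∈ range N, b ξ * ex (ξ * (t / N))‖ ^ 2 =
      N * ∑ ξ ∈ range N, ‖b ξ‖ ^ 2 := by
  have h0 := parseval N N le_rfl hN (fun n => b (n - 1))
  have h1 : ∀ u : ℕ → ℂ, ∑ n ∈ Icc 1 N, u n = ∑ n ∈ range N, u (n + 1) := by
    intro u
    rw [Finset.sum_bij' (fun n _ => n - 1) (fun n _ => n + 1)]
    · intro n hn
      rw [Finset.mem_Icc] at hn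
      rw [Finset.mem_range]
      omega
    · intro n hn
      rw [Finset.mem_range] at hn
      rw [Finset.mem_Icc]
      omega
    · intro n hn
      rw [Finset.mem_Icc] at hn
      omega
    · intro n _
      omega
    · intro n hn
      rw [Finset.mem_Icc] at hn
      have : n - 1 + 1 = n := by omega
      rw [this]
  have h2 : ∀ u : ℕ → ℝ, ∑ n ∈ Icc 1 N, u n = ∑ n ∈ range N, u (n + 1) := by
    intro u
    have := h1 (fun n => (u n : ℂ))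
    exact_mod_cast this
  rw [h2 (fun n => ‖b (n - 1)‖ ^ 2)] at h0
  simp only [Nat.add_sub_cancel] at h0
  rw [← h0]
  refine Finset.sum_congr rfl fun t _ => ?_
  rw [h1 (fun n => b (n - 1) * ex (n * (t / N)))]
  simp only [Nat.add_sub_cancel]
  have h3 : ∑ n ∈ range N, b n * ex (((n + 1 : ℕ) : ℝ) * (t / N)) =
      ex (t / N) * ∑ n ∈ range N, b n * ex (n * (t / N)) := by
    rw [Finset.mul_sum]
    refine Finset.sum_congr rfl fun n _ => ?_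
    have h4 : (((n + 1 : ℕ) : ℝ) * (t / N)) = t / N + n * (t / N) := by
      push_cast
      ring
    rw [h4, ex_add]
    ring
  rw [h3, norm_mul, norm_ex, one_mul]

/-- The key lemma: one slot. -/
private lemma one_slot {X y : ℕ} (hX : 1 ≤ X) (hy : y ≤ X) (f g : ℕ → ℂ) {A : ℝ}
    (hA : ∀ t, ‖ft (4 * X) f t‖ ≤ A) :
    ∑ h ∈ Icc 1 X, ‖∑ n ∈ Icc 1 y, g n * f (n + h)‖ ^ 2 ≤ A ^ 2 * ∑ n ∈ Icc 1 y, ‖g n‖ ^ 2 := by
  set N := 4 * X with hNdef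
  have hN : 0 < N := by omega
  have hN' : (N : ℂ) ≠ 0 := by exact_mod_cast hN.ne'
  have hNr : (N : ℝ) ≠ 0 := by exact_mod_cast hN.ne'
  have hNp : (0 : ℝ) < N := by exact_mod_cast hN
  set G : ℕ → ℂ := fun ξ => ∑ n ∈ Icc 1 y, g n * ex (n * (ξ / N)) with hG
  set F : ℕ → ℂ := fun ξ => ∑ m ∈ range N, (starRingEnd ℂ) (f m) * ex (m * (ξ / N)) with hF
  set b : ℕ → ℂ := fun ξ => G ξ * (starRingEnd ℂ) (F ξ) with hb
  have hFA : ∀ ξ, ‖F ξ‖ ≤ A := by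
    intro ξ
    have h1 : F ξ = (starRingEnd ℂ) (ft N f (-(ξ / N))) := by
      rw [hF]
      unfold ft
      rw [map_sum]
      refine Finset.sum_congr rfl fun m _ => ?_
      rw [map_mul, conj_ex]
      congr 2
      ring
    rw [h1, RCLike.norm_conj]
    exact hA _
  have hA0 : 0 ≤ A := (norm_nonneg _).trans (hA 0)
  have h1 : ∀ t ∈ Icc 1 X, ∑ n ∈ Icc 1 y, g n * f (n + t) =
      (1 / (N : ℂ)) * ∑ ξ ∈ range N, b ξ * ex (ξ * (t / N)) := by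
    intro t ht
    rw [Finset.mem_Icc] at ht
    have h2 := expand hN (Icc 1 y) (range N) g (fun m => (starRingEnd ℂ) (f m)) t (by
      intro n hn m hm
      rw [Finset.mem_Icc] at hn
      rw [Finset.mem_range] at hm
      omega)
    have h3 : ∑ ξ ∈ range N, b ξ * ex (ξ * (t / N)) =
        ∑ ξ ∈ range N, (∑ n ∈ Icc 1 y, g n * ex (n * (ξ / N))) *
        (starRingEnd ℂ) (∑ m ∈ range N, (starRingEnd ℂ) (f m) * ex (m * (ξ / N))) *
          ex (t * (ξ / N)) := by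
      refine Finset.sum_congr rfl fun ξ _ => ?_
      have h4 : ((ξ : ℝ) * (t / N)) = t * (ξ / N) := by ring
      rw [h4]
    rw [h3, h2, ← mul_assoc, one_div, inv_mul_cancel₀ hN', one_mul]
    refine Finset.sum_congr rfl fun n hn => ?_
    rw [Finset.mem_Icc] at hn
    rw [Finset.sum_ite_eq' (range N) (n + t), if_pos (Finset.mem_range.2 (by omega)),
      Complex.conj_conj]
  have h5 : ∑ h ∈ Icc 1 X, ‖∑ n ∈ Icc 1 y, g n * f (n + h)‖ ^ 2 ≤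
      ∑ t ∈ range N, ‖(1 / (N : ℂ)) * ∑ ξ ∈ range N, b ξ * ex (ξ * (t / N))‖ ^ 2 := by
    rw [Finset.sum_congr rfl (fun t ht => by rw [h1 t ht])]
    refine Finset.sum_le_sum_of_subset_of_nonneg ?_ (fun _ _ _ => sq_nonneg _)
    intro t ht
    rw [Finset.mem_Icc] at ht
    rw [Finset.mem_range]
    omega
  have h6 : ∑ t ∈ range N, ‖(1 / (N : ℂ)) * ∑ ξ ∈ range N, b ξ * ex (ξ * (t / N))‖ ^ 2 =
      (1 / (N : ℝ)) * ∑ ξ ∈ range N, ‖b ξ‖ ^ 2 := by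
    have h7 : ∀ t ∈ range N, ‖(1 / (N : ℂ)) * ∑ ξ ∈ range N, b ξ * ex (ξ * (t / N))‖ ^ 2 =
        (1 / (N : ℝ)) ^ 2 * ‖∑ ξ ∈ range N, b ξ * ex (ξ * (t / N))‖ ^ 2 := by
      intro t _
      rw [norm_mul, mul_pow]
      congr 2
      rw [norm_div, norm_one, Complex.norm_natCast]
    rw [Finset.sum_congr rfl h7, ← Finset.mul_sum, pars hN]
    field_simp
  have h8 : ∑ ξ ∈ range N, ‖b ξ‖ ^ 2 ≤ ∑ ξ ∈ range N, A ^ 2 * ‖G ξ‖ ^ 2 := by
    refine Finset.sum_le_sum fun ξ _ => ?_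
    rw [hb]
    simp only
    rw [norm_mul, RCLike.norm_conj, mul_pow, mul_comm]
    exact mul_le_mul_of_nonneg_right (pow_le_pow_left₀ (norm_nonneg _) (hFA ξ) 2) (sq_nonneg _)
  have h9 : ∑ ξ ∈ range N, ‖G ξ‖ ^ 2 = N * ∑ n ∈ Icc 1 y, ‖g n‖ ^ 2 :=
    parseval N y (by omega) hN g
  calc ∑ h ∈ Icc 1 X, ‖∑ n ∈ Icc 1 y, g n * f (n + h)‖ ^ 2
      ≤ (1 / (N : ℝ)) * ∑ ξ ∈ range N, ‖b ξ‖ ^ 2 := h5.trans_eq h6
    _ ≤ (1 / (N : ℝ)) * ∑ ξ ∈ range N, A ^ 2 * ‖G ξ‖ ^ 2 :=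
        mul_le_mul_of_nonneg_left h8 (by positivity)
    _ = A ^ 2 * ∑ n ∈ Icc 1 y, ‖g n‖ ^ 2 := by
        rw [← Finset.mul_sum, h9]
        field_simp

end Ms1Aux

theorem ms1 (Z x N : ℕ) (hx : 1 ≤ x) (hZ : x ≤ Z) (hN : N ≤ x) (hN8 : x ≤ 8 * N) (F : ℕ → ℂ) (α : ℝ)
    (hA : ∀ t, ‖ft (4 * Z) F t‖ ≤ α * x) : MSq x (8 * α ^ 2) F (Icc 1 N) := by
  refine ⟨?_, ?_⟩
  · intro u hu
    rw [Finset.mem_Icc] at hu
    rw [Finset.mem_range]
    omega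
  intro g hg
  have h1 := Ms1Aux.one_slot (X := Z) (y := x) (hx.trans hZ) hZ F g hA
  have h2 : ∑ u ∈ Icc 1 N, ‖∑ n ∈ Icc 1 x, g n * F (n + u)‖ ^ 2 ≤
      ∑ u ∈ Icc 1 Z, ‖∑ n ∈ Icc 1 x, g n * F (n + u)‖ ^ 2 :=
    Finset.sum_le_sum_of_subset_of_nonneg
      (Finset.Icc_subset_Icc_right (hN.trans hZ)) (fun _ _ _ => sq_nonneg _)
  have h3 : ∑ n ∈ Icc 1 x, ‖g n‖ ^ 2 ≤ (x : ℝ) := by
    have h4 : ∑ n ∈ Icc 1 x, ‖g n‖ ^ 2 ≤ ∑ _n ∈ Icc 1 x, (1 : ℝ) :=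
      Finset.sum_le_sum fun n hn => pow_le_one₀ (norm_nonneg _) (hg n hn)
    simpa using h4
  have h5 : (x : ℝ) ≤ 8 * N := by exact_mod_cast hN8
  have h6 : (0 : ℝ) ≤ x := Nat.cast_nonneg x
  refine h2.trans (h1.trans ?_)
  rw [Nat.card_Icc, Nat.add_sub_cancel]
  calc (α * x) ^ 2 * ∑ n ∈ Icc 1 x, ‖g n‖ ^ 2 ≤ (α * x) ^ 2 * x :=
        mul_le_mul_of_nonneg_left h3 (sq_nonneg _)
    _ ≤ (α * x) ^ 2 * (8 * N) := mul_le_mul_of_nonneg_left h5 (sq_nonneg _)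
    _ = 8 * α ^ 2 * ((N : ℝ) * (x : ℝ) ^ 2) := by ring

end Pool.Agent.DSH
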