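import Pool.Agent.Lib.DSH.Defs
import Pool.Agent.Lib.SPP.MSq
import Pool.Agent.Lib.SPP.Sq4

/-!
# DSH.Ms2 (1.5 h): mean square property of the squares from the Fourier transform

PROOF. `J t = ∑_{n ≤ x} g n F (n + t²)`, `t ≤ M`, `‖J t‖² ≤ x ∑_{k < 4Z} ‖F k‖² ≤ β x² =: c²` (Cauchy-Schwarz; `n + t² ≤ 2x < 4Z`). `∑_t ‖J t‖² = ∑_t conj (J t) J t = ∑_n g n ∑_t conj (J t) F (n + t²)`, by Cauchy-Schwarz
`≤ (x ∑_{n ≤ x} ‖∑_t c_t F (n + t²)‖²)^(1/2)`, `c_t = conj (J t)`, `‖c_t‖ ≤ c`. Copy the proof of `SPP.msq` with the coefficients `c_t` and `n + t²` for `n - m²` (Fourier analysis on `ZMod P` with `P = 8 Z`):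
`∑_{n ≤ x} ‖∑_t c_t F (n+t²)‖² ≤ α x (∑ ‖F‖²)^(1/2) (c⁴ E4 M)^(1/2) ≤ α x · √(β x) · c² · √(E4 M)`, `E4 M ≤ C M² (1 + log M)²` (`SPP.sq4`). Together `(∑ ‖J‖²)² ≤ x · α x · √(β x) · β x² · √C M (1 + log M)`,
so with `M² ≤ x ≤ 16 M²`, `β ≥ 1` (`β^(3/2) ≤ β²`): `(∑ ‖J‖²)² ≤ C' α β² (1 + log x) x⁵ ≤ 16 C' α β² (1 + log x)² (M x²)²`.
-/

set_option autoImplicit false

open Finset Filter

namespace Pool.Agent.DSH

open Pool.Agent.HLB Pool.Agent.HLT Pool.Agent.HLR Pool.Agent.Lib.GMV Pool.Agent.BLF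

namespace Ms2Aux

open Pool.Agent.Lib.SPP

private lemma ex_eq_one_iff {N : ℕ} (hN : 0 < N) (k : ℤ) : ex (k / N) = 1 ↔ (N : ℤ) ∣ k := by
  unfold ex
  rw [Complex.exp_eq_one_iff]
  have hN' : (N : ℂ) ≠ 0 := by exact_mod_cast hN.ne'
  have hpi : (2 * (Real.pi : ℂ) * Complex.I) ≠ 0 := Complex.two_pi_I_ne_zero
  constructor
  · rintro ⟨m, hm⟩
    refine ⟨m, ?_⟩
    have h1 : ((k : ℂ) / N) * (2 * (Real.pi : ℂ) * Complex.I) = m * (2 * (Real.pi : ℂ) * Complex.I) := by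
      rw [← hm]
      push_cast
      ring
    have h2 := mul_right_cancel₀ hpi h1
    rw [div_eq_iff hN'] at h2
    have h3 : ((k : ℤ) : ℂ) = ((N * m : ℤ) : ℂ) := by
      rw [h2]
      push_cast
      ring
    exact_mod_cast h3
  · rintro ⟨m, rfl⟩
    refine ⟨m, ?_⟩
    push_cast
    field_simp

private lemma sum_ex {N : ℕ} (hN : 0 < N) (k : ℤ) :
    ∑ ξ ∈ range N, ex (k * (ξ / N)) = if (N : ℤ) ∣ k then (N : ℂ) else 0 := by
  have h1 : ∀ ξ : ℕ, ex (k * (ξ / N)) = ex (k / N) ^ ξ := by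
    intro ξ
    rw [← ex_nat_mul]
    congr 1
    ring
  simp_rw [h1]
  split_ifs with h
  · rw [(ex_eq_one_iff hN k).2 h]
    simp
  · have hne : ex (k / N) ≠ 1 := fun h' => h ((ex_eq_one_iff hN k).1 h')
    rw [geom_sum_eq hne]
    have h2 : ex (k / N) ^ N = 1 := by
      rw [← ex_nat_mul]
      have h3 : ((N : ℝ) * ((k : ℝ) / N)) = ((k : ℤ) : ℝ) := by
        have : (N : ℝ) ≠ 0 := by exact_mod_cast hN.ne'
        field_simp
      rw [h3]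
      exact ex_int k
    rw [h2, sub_self, zero_div]

private lemma conj_ex (a : ℝ) : (starRingEnd ℂ) (ex a) = ex (-a) := (ex_neg a).symm

/-- Parseval on `range N`. -/
private lemma pars {N : ℕ} (hN : 0 < N) (b : ℕ → ℂ) :
    ∑ t ∈ range N, ‖∑ ξ ∈ range N, b ξ * ex (ξ * (t / N))‖ ^ 2 =
      N * ∑ ξ ∈ range N, ‖b ξ‖ ^ 2 := by
  have h0 := parseval N N le_rfl hN (fun n => b (n - 1))
  have h1 : ∀ u : ℕ → ℂ, ∑ n ∈ Icc 1 N, u n = ∑ n ∈ range N, u (n + 1) := by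
    intro u
    rw [Finset.sum_bij' (fun n _ => n - 1) (fun n _ => n + 1)]
    · intro n hn
      rw [Finset.mem_Icc] at hn
      rw [Finset.mem_range]
      omega
    · intro n hn
      rw [Finset.mem_range] at hn
      rw [Finset.mem_Icc]
      omega
    · intro n hn
      rw [Finset.mem_Icc] at hn
      omega
    · intro n _
      omega
    · intro n hn
      rw [Finset.mem_Icc] at hn
      have : n - 1 + 1 = n := by omega
      rw [this]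
  have h2 : ∀ u : ℕ → ℝ, ∑ n ∈ Icc 1 N, u n = ∑ n ∈ range N, u (n + 1) := by
    intro u
    have := h1 (fun n => (u n : ℂ))
    exact_mod_cast this
  rw [h2 (fun n => ‖b (n - 1)‖ ^ 2)] at h0
  simp only [Nat.add_sub_cancel] at h0
  rw [← h0]
  refine Finset.sum_congr rfl fun t _ => ?_
  rw [h1 (fun n => b (n - 1) * ex (n * (t / N)))]
  simp only [Nat.add_sub_cancel]
  have h3 : ∑ n ∈ range N, b n * ex (((n + 1 : ℕ) : ℝ) * (t / N)) =
      ex (t / N) * ∑ n ∈ range N, b n * ex (n * (t / N)) := by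
    rw [Finset.mul_sum]
    refine Finset.sum_congr rfl fun n _ => ?_
    have h4 : (((n + 1 : ℕ) : ℝ) * (t / N)) = t / N + n * (t / N) := by
      push_cast
      ring
    rw [h4, ex_add]
    ring
  rw [h3, norm_mul, norm_ex, one_mul]

/-- Parseval with the other sign. -/
private lemma pars' {N : ℕ} (hN : 0 < N) (b : ℕ → ℂ) :
    ∑ n ∈ range N, ‖(1 / (N : ℂ)) * ∑ ξ ∈ range N, b ξ * ex (-(n * (ξ / N)))‖ ^ 2 =
      (1 / (N : ℝ)) * ∑ ξ ∈ range N, ‖b ξ‖ ^ 2 := by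
  have hNr : (N : ℝ) ≠ 0 := by exact_mod_cast hN.ne'
  have h1 : ∀ n ∈ range N, ‖(1 / (N : ℂ)) * ∑ ξ ∈ range N, b ξ * ex (-(n * (ξ / N)))‖ ^ 2 =
      (1 / (N : ℝ)) ^ 2 * ‖∑ ξ ∈ range N, (starRingEnd ℂ) (b ξ) * ex (ξ * (n / N))‖ ^ 2 := by
    intro n _
    rw [norm_mul, mul_pow, norm_div, norm_one, Complex.norm_natCast]
    congr 2
    rw [← RCLike.norm_conj, map_sum]
    congr 1
    refine Finset.sum_congr rfl fun ξ _ => ?_
    rw [map_mul, conj_ex]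
    congr 2
    ring
  rw [Finset.sum_congr rfl h1, ← Finset.mul_sum, pars hN]
  simp_rw [RCLike.norm_conj]
  field_simp

/-- The fourth moment of a weighted sum over squares. -/
private lemma fourth {N M : ℕ} (hN : 0 < N) (hM : 2 * M ^ 2 < N) (I : Finset ℕ)
    (hI : I ⊆ range (M + 1)) (c : ℕ → ℂ) (K : ℝ) (hK : 0 ≤ K) (hc : ∀ m ∈ I, ‖c m‖ ≤ K) :
    ∑ ξ ∈ range N, ‖∑ m ∈ I, c m * ex (((m ^ 2 : ℕ) : ℝ) * (ξ / N))‖ ^ 4 ≤
      N * (K ^ 4 * (E4 M : ℝ)) := by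
  classical
  let R : ℕ → Finset (ℕ × ℕ) := fun v => (I ×ˢ I).filter fun p => p.1 ^ 2 + p.2 ^ 2 = v
  let Q : ℕ → ℂ := fun v => ∑ p ∈ R v, c p.1 * c p.2
  have hlt : ∀ a ∈ I, a ^ 2 ≤ M ^ 2 := by
    intro a ha
    have := Finset.mem_range.1 (hI ha)
    exact Nat.pow_le_pow_left (by omega) 2
  have hmap : ∀ p ∈ I ×ˢ I, p.1 ^ 2 + p.2 ^ 2 ∈ range N := by
    intro p hp
    rw [Finset.mem_product] at hp
    have h1 := hlt _ hp.1
    have h2 := hlt _ hp.2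
    rw [Finset.mem_range]
    omega
  have h1 : ∀ ξ : ℕ, (∑ m ∈ I, c m * ex (((m ^ 2 : ℕ) : ℝ) * (ξ / N))) ^ 2 =
      ∑ v ∈ range N, Q v * ex (v * (ξ / N)) := by
    intro ξ
    rw [pow_two, Finset.sum_mul_sum, ← Finset.sum_product',
      ← Finset.sum_fiberwise_of_maps_to hmap]
    refine Finset.sum_congr rfl fun v _ => ?_
    change _ = (∑ p ∈ R v, c p.1 * c p.2) * ex (v * (ξ / N))
    rw [Finset.sum_mul]
    refine Finset.sum_congr rfl fun p hp => ?_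
    rw [Finset.mem_filter] at hp
    have h2 : ex (v * (ξ / N)) =
        ex (((p.1 ^ 2 : ℕ) : ℝ) * (ξ / N)) * ex (((p.2 ^ 2 : ℕ) : ℝ) * (ξ / N)) := by
      rw [← ex_add]
      congr 1
      rw [← hp.2]
      push_cast
      ring
    rw [h2]
    ring
  have h2 : ∀ ξ : ℕ, ‖∑ m ∈ I, c m * ex (((m ^ 2 : ℕ) : ℝ) * (ξ / N))‖ ^ 4 =
      ‖∑ v ∈ range N, Q v * ex (v * (ξ / N))‖ ^ 2 := by
    intro ξ
    rw [← h1, norm_pow]
    ring
  rw [Finset.sum_congr rfl (fun ξ _ => h2 ξ), pars hN Q]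
  refine mul_le_mul_of_nonneg_left ?_ (Nat.cast_nonneg _)
  have h6 : ∑ v ∈ range N, (R v).card ^ 2 ≤ E4 M := by
    unfold E4
    rw [Finset.card_eq_sum_card_fiberwise (f := fun t : ℕ × ℕ × ℕ × ℕ => t.1 ^ 2 + t.2.1 ^ 2) (t := range N)]
    · refine Finset.sum_le_sum fun v _ => ?_
      rw [pow_two, ← Finset.card_product]
      refine Finset.card_le_card_of_injOn (fun q => (q.1.1, q.1.2, q.2.1, q.2.2)) ?_ ?_
      · intro q hq
        have hq' := Finset.mem_product.1 (Finset.mem_coe.1 hq)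
        have q1 := Finset.mem_filter.1 hq'.1
        have q2 := Finset.mem_filter.1 hq'.2
        have q3 := Finset.mem_product.1 q1.1
        have q4 := Finset.mem_product.1 q2.1
        simp only [Finset.coe_filter, Set.mem_ofPred_eq, Finset.mem_filter, Finset.mem_product]
        exact ⟨⟨⟨hI q3.1, hI q3.2, hI q4.1, hI q4.2⟩, by rw [q1.2, q2.2]⟩, q1.2⟩
      · rintro ⟨⟨a, b⟩, ⟨c, d⟩⟩ _ ⟨⟨a', b'⟩, ⟨c', d'⟩⟩ _ h
        simp only [Prod.mk.injEq] at h ⊢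
        tauto
    · intro t ht
      have ht' := (Finset.mem_filter.1 (Finset.mem_coe.1 ht)).1
      simp only [Finset.mem_product, Finset.mem_range] at ht'
      have h7 : t.1 ^ 2 ≤ M ^ 2 := Nat.pow_le_pow_left (by omega) 2
      have h8 : t.2.1 ^ 2 ≤ M ^ 2 := Nat.pow_le_pow_left (by omega) 2
      simp only [Finset.coe_range, Set.mem_Iio]
      omega
  have h7 : ∀ v ∈ range N, ‖Q v‖ ^ 2 ≤ K ^ 4 * (((R v).card ^ 2 : ℕ) : ℝ) := by
    intro v _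
    have h8 : ‖Q v‖ ≤ (R v).card * K ^ 2 := by
      change ‖∑ p ∈ R v, c p.1 * c p.2‖ ≤ _
      refine (norm_sum_le _ _).trans ?_
      rw [← nsmul_eq_mul]
      refine Finset.sum_le_card_nsmul _ _ _ fun p hp => ?_
      have hp' := Finset.mem_product.1 (Finset.mem_filter.1 hp).1
      rw [norm_mul, pow_two]
      exact mul_le_mul (hc _ hp'.1) (hc _ hp'.2) (norm_nonneg _) hK
    calc ‖Q v‖ ^ 2 ≤ ((R v).card * K ^ 2) ^ 2 := pow_le_pow_left₀ (norm_nonneg _) h8 2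
      _ = K ^ 4 * (((R v).card ^ 2 : ℕ) : ℝ) := by
          push_cast
          ring
  refine (Finset.sum_le_sum h7).trans ?_
  rw [← Finset.mul_sum]
  refine mul_le_mul_of_nonneg_left ?_ (by positivity)
  exact_mod_cast h6

/-- The formula for the sum. -/
private lemma hform {Z M : ℕ} (hZ : 1 ≤ Z) (hM : M ^ 2 ≤ Z) (I : Finset ℕ)
    (hI : I ⊆ range (M + 1)) (c f : ℕ → ℂ) {n : ℕ} (hn : n ≤ Z) :
    (1 / ((8 * Z : ℕ) : ℂ)) * ∑ ξ ∈ range (8 * Z),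
      ((∑ k ∈ range (4 * Z), f k * ex (k * ((ξ : ℝ) / (8 * Z : ℕ)))) *
        ∑ m ∈ I, c m * ex (-(((m ^ 2 : ℕ) : ℝ) * ((ξ : ℝ) / (8 * Z : ℕ))))) *
          ex (-(n * ((ξ : ℝ) / (8 * Z : ℕ)))) =
      ∑ m ∈ I, c m * f (n + m ^ 2) := by
  classical
  set N := 8 * Z with hNdef
  have hN : 0 < N := by omega
  have hN' : (N : ℂ) ≠ 0 := by exact_mod_cast hN.ne'
  have h1 : ∀ ξ ∈ range N,
      ((∑ k ∈ range (4 * Z), f k * ex (k * ((ξ : ℝ) / N))) *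
        ∑ m ∈ I, c m * ex (-(((m ^ 2 : ℕ) : ℝ) * ((ξ : ℝ) / N)))) * ex (-(n * ((ξ : ℝ) / N))) =
      ∑ m ∈ I, ∑ k ∈ range (4 * Z),
        c m * f k * ex ((((k : ℤ) - (m ^ 2 : ℕ) - n : ℤ) : ℝ) * (ξ / N)) := by
    intro ξ _
    rw [mul_comm (∑ k ∈ range (4 * Z), f k * ex (k * ((ξ : ℝ) / N))), Finset.sum_mul_sum, Finset.sum_mul]
    refine Finset.sum_congr rfl fun m _ => ?_
    rw [Finset.sum_mul]
    refine Finset.sum_congr rfl fun k _ => ?_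
    have h2 : ex ((((k : ℤ) - (m ^ 2 : ℕ) - n : ℤ) : ℝ) * (ξ / N)) =
        ex (k * ((ξ : ℝ) / N)) * ex (-(((m ^ 2 : ℕ) : ℝ) * ((ξ : ℝ) / N))) *
          ex (-(n * ((ξ : ℝ) / N))) := by
      rw [← ex_add, ← ex_add]
      congr 1
      push_cast
      ring
    rw [h2]
    ring
  rw [Finset.sum_congr rfl h1, Finset.sum_comm]
  have h3 : ∀ m ∈ I, ∑ ξ ∈ range N, ∑ k ∈ range (4 * Z),
      c m * f k * ex ((((k : ℤ) - (m ^ 2 : ℕ) - n : ℤ) : ℝ) * (ξ / N)) =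
      (N : ℂ) * (c m * f (n + m ^ 2)) := by
    intro m hm
    have hmM : m ^ 2 ≤ M ^ 2 := by
      have := Finset.mem_range.1 (hI hm)
      exact Nat.pow_le_pow_left (by omega) 2
    rw [Finset.sum_comm]
    have h4 : ∀ k ∈ range (4 * Z), ∑ ξ ∈ range N,
        c m * f k * ex ((((k : ℤ) - (m ^ 2 : ℕ) - n : ℤ) : ℝ) * (ξ / N)) =
        if k = n + m ^ 2 then (N : ℂ) * (c m * f k) else 0 := by
      intro k hk
      rw [Finset.mem_range] at hk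
      rw [← Finset.mul_sum, sum_ex hN]
      have h5 : (N : ℤ) ∣ ((k : ℤ) - (m ^ 2 : ℕ) - n) ↔ k = n + m ^ 2 := by
        constructor
        · intro hd
          have h6 := Int.eq_zero_of_dvd_of_natAbs_lt_natAbs hd (by
            rw [Int.natAbs_natCast]
            omega)
          omega
        · intro h
          have : ((k : ℤ) - (m ^ 2 : ℕ) - n) = 0 := by omega
          rw [this]
          exact dvd_zero _
      by_cases hk' : k = n + m ^ 2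
      · rw [if_pos (h5.2 hk'), if_pos hk']
        ring
      · rw [if_neg (fun h => hk' (h5.1 h)), if_neg hk']
        ring
    rw [Finset.sum_congr rfl h4, Finset.sum_eq_single (n + m ^ 2)]
    · rw [if_pos rfl]
    · intro k _ hk
      rw [if_neg hk]
    · intro h
      exact absurd (Finset.mem_range.2 (by omega)) h
  rw [Finset.sum_congr rfl h3, ← Finset.mul_sum, ← mul_assoc, one_div, inv_mul_cancel₀ hN', one_mul]

/-- The mean square over `n` of the weighted sum over the squares. -/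
private lemma msw {Z x M : ℕ} (hZ : 1 ≤ Z) (hM : M ^ 2 ≤ Z) (hx : x ≤ Z) (I : Finset ℕ)
    (hI : I ⊆ range (M + 1)) (c f : ℕ → ℂ) (A B K : ℝ) (hA : ∀ t, ‖ft (4 * Z) f t‖ ≤ A)
    (hB : ∑ k ∈ range (4 * Z), ‖f k‖ ^ 2 ≤ B) (hK : 0 ≤ K) (hc : ∀ m ∈ I, ‖c m‖ ≤ K) :
    ∑ n ∈ Icc 1 x, ‖∑ m ∈ I, c m * f (n + m ^ 2)‖ ^ 2 ≤
      A * Real.sqrt B * (K ^ 2 * Real.sqrt (E4 M)) := by
  classical
  set N := 8 * Z with hNdef
  have hN : 0 < N := by omega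
  have hNr : (N : ℝ) ≠ 0 := by exact_mod_cast hN.ne'
  have hNp : (0 : ℝ) < N := by exact_mod_cast hN
  have hA0 : 0 ≤ A := (norm_nonneg _).trans (hA 0)
  set F : ℕ → ℂ := fun ξ => ∑ k ∈ range (4 * Z), f k * ex (k * ((ξ : ℝ) / N)) with hF
  set S : ℕ → ℂ := fun ξ => ∑ m ∈ I, c m * ex (-(((m ^ 2 : ℕ) : ℝ) * ((ξ : ℝ) / N))) with hS
  have hFA : ∀ ξ, ‖F ξ‖ ≤ A := fun ξ => hA _
  have h1 : ∑ n ∈ Icc 1 x, ‖∑ m ∈ I, c m * f (n + m ^ 2)‖ ^ 2 ≤
      ∑ n ∈ range N, ‖(1 / (N : ℂ)) * ∑ ξ ∈ range N, (F ξ * S ξ) * ex (-(n * (ξ / N)))‖ ^ 2 := by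
    rw [Finset.sum_congr rfl (fun n hn => by
      rw [← hform hZ hM I hI c f (n := n) (by rw [Finset.mem_Icc] at hn; omega)])]
    refine Finset.sum_le_sum_of_subset_of_nonneg ?_ (fun _ _ _ => sq_nonneg _)
    intro t ht
    rw [Finset.mem_Icc] at ht
    rw [Finset.mem_range]
    omega
  rw [pars' hN] at h1
  have h2 : ∑ ξ ∈ range N, ‖F ξ‖ ^ 2 ≤ N * B := by
    have h3 := pars hN (fun k => if k < 4 * Z then f k else 0)
    have h4 : ∀ ξ : ℕ, ∑ k ∈ range N, (if k < 4 * Z then f k else 0) * ex (k * ((ξ : ℝ) / N)) = F ξ := by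
      intro ξ
      rw [hF]
      have h5 : range (4 * Z) ⊆ range N := Finset.range_subset_range.2 (by omega)
      rw [← Finset.sum_subset h5]
      · refine Finset.sum_congr rfl fun k hk => ?_
        rw [if_pos (Finset.mem_range.1 hk)]
      · intro k _ hk
        rw [Finset.mem_range] at hk
        rw [if_neg hk, zero_mul]
    simp_rw [h4] at h3
    rw [h3]
    refine mul_le_mul_of_nonneg_left ?_ hNp.le
    refine le_trans (le_of_eq ?_) hB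
    have h5 : range (4 * Z) ⊆ range N := Finset.range_subset_range.2 (by omega)
    rw [← Finset.sum_subset h5]
    · refine Finset.sum_congr rfl fun k hk => ?_
      rw [if_pos (Finset.mem_range.1 hk)]
    · intro k _ hk
      rw [Finset.mem_range] at hk
      rw [if_neg hk, norm_zero]
      norm_num
  have h6 : ∑ ξ ∈ range N, ‖S ξ‖ ^ 4 ≤ N * (K ^ 4 * (E4 M : ℝ)) := by
    have h61 := fourth hN (M := M) (by omega) I hI (fun m => (starRingEnd ℂ) (c m)) K hK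
      (fun m hm => by
        rw [RCLike.norm_conj]
        exact hc m hm)
    refine le_trans (le_of_eq ?_) h61
    refine Finset.sum_congr rfl fun ξ _ => ?_
    have h62 : ‖S ξ‖ = ‖∑ m ∈ I, (starRingEnd ℂ) (c m) * ex (((m ^ 2 : ℕ) : ℝ) * ((ξ : ℝ) / N))‖ := by
      rw [← RCLike.norm_conj, hS, map_sum]
      congr 1
      refine Finset.sum_congr rfl fun m _ => ?_
      rw [map_mul, conj_ex, neg_neg]
    rw [h62]
  have h7 : ∑ ξ ∈ range N, ‖F ξ * S ξ‖ ^ 2 ≤ A * ∑ ξ ∈ range N, ‖F ξ‖ * ‖S ξ‖ ^ 2 := by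
    rw [Finset.mul_sum]
    refine Finset.sum_le_sum fun ξ _ => ?_
    rw [norm_mul, mul_pow, pow_two ‖F ξ‖, mul_assoc]
    exact mul_le_mul_of_nonneg_right (hFA ξ) (by positivity)
  have h8 : ∑ ξ ∈ range N, ‖F ξ‖ * ‖S ξ‖ ^ 2 ≤
      Real.sqrt (∑ ξ ∈ range N, ‖F ξ‖ ^ 2) * Real.sqrt (∑ ξ ∈ range N, (‖S ξ‖ ^ 2) ^ 2) :=
    Real.sum_mul_le_sqrt_mul_sqrt _ _ _
  have h9 : Real.sqrt (∑ ξ ∈ range N, ‖F ξ‖ ^ 2) ≤ Real.sqrt (N * B) := Real.sqrt_le_sqrt h2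
  have h10 : Real.sqrt (∑ ξ ∈ range N, (‖S ξ‖ ^ 2) ^ 2) ≤ Real.sqrt (N * (K ^ 4 * (E4 M : ℝ))) := by
    refine Real.sqrt_le_sqrt ?_
    refine le_trans (le_of_eq ?_) h6
    refine Finset.sum_congr rfl fun ξ _ => ?_
    ring
  have hKs : Real.sqrt (K ^ 4 * (E4 M : ℝ)) = K ^ 2 * Real.sqrt (E4 M) := by
    rw [Real.sqrt_mul (by positivity)]
    congr 1
    rw [show K ^ 4 = (K ^ 2) ^ 2 by ring]
    exact Real.sqrt_sq (by positivity)
  have h11 : ∑ ξ ∈ range N, ‖F ξ‖ * ‖S ξ‖ ^ 2 ≤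
      N * (Real.sqrt B * (K ^ 2 * Real.sqrt (E4 M))) := by
    refine h8.trans ((mul_le_mul h9 h10 (Real.sqrt_nonneg _) (Real.sqrt_nonneg _)).trans (le_of_eq ?_))
    rw [Real.sqrt_mul hNp.le, Real.sqrt_mul hNp.le, hKs]
    have h12 : Real.sqrt N * Real.sqrt N = N := Real.mul_self_sqrt hNp.le
    calc Real.sqrt N * Real.sqrt B * (Real.sqrt N * (K ^ 2 * Real.sqrt (E4 M)))
        = (Real.sqrt N * Real.sqrt N) * (Real.sqrt B * (K ^ 2 * Real.sqrt (E4 M))) := by ring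
      _ = _ := by rw [h12]
  refine h1.trans ?_
  calc (1 / (N : ℝ)) * ∑ ξ ∈ range N, ‖F ξ * S ξ‖ ^ 2
      ≤ (1 / (N : ℝ)) * (A * (N * (Real.sqrt B * (K ^ 2 * Real.sqrt (E4 M))))) :=
        mul_le_mul_of_nonneg_left (h7.trans (mul_le_mul_of_nonneg_left h11 hA0)) (by positivity)
    _ = A * Real.sqrt B * (K ^ 2 * Real.sqrt (E4 M)) := by
        field_simp

/-- The final numerical inequality. -/
private lemma fin_ineq {C0 α β x M L E : ℝ} (hC0 : 0 < C0) (hα : 0 ≤ α) (hβ : 1 ≤ β) (hx : 1 ≤ x)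
    (hM : 1 ≤ M) (hxM : x ≤ 16 * M ^ 2) (hL : 1 ≤ L) (hE0 : 0 ≤ E) (hE : E ≤ C0 * M ^ 2 * L ^ 2) :
    x * (α * x * Real.sqrt (β * x) * (β * x ^ 2 * Real.sqrt E)) ≤
      (((1 + 4 * Real.sqrt C0) * β * Real.sqrt α * L) * (M * x ^ 2)) ^ 2 := by
  have hβ0 : 0 < β := by linarith
  have hx0 : 0 < x := by linarith
  have hM0 : 0 < M := by linarith
  have hL0 : 0 < L := by linarith
  have h1 : Real.sqrt E ≤ Real.sqrt C0 * M * L := by
    refine (Real.sqrt_le_sqrt hE).trans (le_of_eq ?_)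
    rw [show C0 * M ^ 2 * L ^ 2 = C0 * (M * L) ^ 2 by ring, Real.sqrt_mul hC0.le,
      Real.sqrt_sq (by positivity)]
    ring
  have h2 : Real.sqrt (β * x) ≤ β * (4 * M) := by
    rw [show β * (4 * M) = Real.sqrt ((β * (4 * M)) ^ 2) by
      rw [Real.sqrt_sq (by positivity)]]
    refine Real.sqrt_le_sqrt ?_
    have h3 : β * x ≤ β ^ 2 * x := by
      have : β ≤ β ^ 2 := by nlinarith
      exact mul_le_mul_of_nonneg_right this hx0.le
    have h4 : β ^ 2 * x ≤ β ^ 2 * (16 * M ^ 2) := by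
      exact mul_le_mul_of_nonneg_left hxM (by positivity)
    calc β * x ≤ β ^ 2 * (16 * M ^ 2) := h3.trans h4
      _ = (β * (4 * M)) ^ 2 := by ring
  have hs0 : 0 ≤ Real.sqrt C0 := Real.sqrt_nonneg _
  have h5 : x * (α * x * Real.sqrt (β * x) * (β * x ^ 2 * Real.sqrt E)) ≤
      x * (α * x * (β * (4 * M)) * (β * x ^ 2 * (Real.sqrt C0 * M * L))) := by
    refine mul_le_mul_of_nonneg_left ?_ hx0.le
    refine mul_le_mul ?_ ?_ (by positivity) (by positivity)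
    · exact mul_le_mul_of_nonneg_left h2 (by positivity)
    · exact mul_le_mul_of_nonneg_left h1 (by positivity)
  refine h5.trans ?_
  have h6 : (((1 + 4 * Real.sqrt C0) * β * Real.sqrt α * L) * (M * x ^ 2)) ^ 2 =
      (1 + 4 * Real.sqrt C0) ^ 2 * (β ^ 2 * α * L ^ 2 * M ^ 2 * x ^ 4) := by
    have : Real.sqrt α ^ 2 = α := Real.sq_sqrt hα
    calc _ = (1 + 4 * Real.sqrt C0) ^ 2 * (β ^ 2 * (Real.sqrt α ^ 2) * L ^ 2 * M ^ 2 * x ^ 4) := by ring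
      _ = _ := by rw [this]
  rw [h6]
  have h7 : x * (α * x * (β * (4 * M)) * (β * x ^ 2 * (Real.sqrt C0 * M * L))) =
      (4 * Real.sqrt C0) * (β ^ 2 * α * L * M ^ 2 * x ^ 4) := by ring
  rw [h7]
  have h8 : 4 * Real.sqrt C0 ≤ (1 + 4 * Real.sqrt C0) ^ 2 := by nlinarith
  have h9 : β ^ 2 * α * L * M ^ 2 * x ^ 4 ≤ β ^ 2 * α * L ^ 2 * M ^ 2 * x ^ 4 := by
    have : L ≤ L ^ 2 := by nlinarith
    have h10 : β ^ 2 * α * L ≤ β ^ 2 * α * L ^ 2 := mul_le_mul_of_nonneg_left this (by positivity)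
    exact mul_le_mul_of_nonneg_right (mul_le_mul_of_nonneg_right h10 (by positivity)) (by positivity)
  exact mul_le_mul h8 h9 (by positivity) (by positivity)

end Ms2Aux

open Ms2Aux Pool.Agent.Lib.SPP in
theorem ms2 : ∃ C : ℝ, 0 < C ∧ ∀ (Z x M : ℕ), 1 ≤ M → M ^ 2 ≤ x → x ≤ 16 * M ^ 2 → x ≤ Z → ∀ (F : ℕ → ℂ) (α β : ℝ),
    0 ≤ α → 1 ≤ β → (∀ t, ‖ft (4 * Z) F t‖ ≤ α * x) → ∑ k ∈ range (4 * Z), ‖F k‖ ^ 2 ≤ β * x →
    MSq x (C * β * Real.sqrt α * (1 + Real.log x)) F ((Icc 1 M).image (fun t => t ^ 2)) := by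
  classical
  obtain ⟨C0, hC0, hE4⟩ := sq4
  refine ⟨1 + 4 * Real.sqrt C0, by positivity, ?_⟩
  intro Z x M hM hMx hxM hxZ F α β hα hβ hF hB
  have hx1 : 1 ≤ x := le_trans (by nlinarith) hMx
  have hxr : (1 : ℝ) ≤ x := by exact_mod_cast hx1
  have hMr : (1 : ℝ) ≤ M := by exact_mod_cast hM
  have hinj : Function.Injective (fun t : ℕ => t ^ 2) := fun a b h => by
    exact Nat.pow_left_injective (n := 2) (by norm_num) h
  refine ⟨?_, ?_⟩
  · intro u hu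
    obtain ⟨t, ht, rfl⟩ := Finset.mem_image.1 hu
    rw [Finset.mem_Icc] at ht
    rw [Finset.mem_range]
    have : t ^ 2 ≤ M ^ 2 := Nat.pow_le_pow_left ht.2 2
    omega
  intro g hg
  rw [Finset.sum_image (fun a _ b _ h => hinj h), Finset.card_image_of_injective _ hinj, Nat.card_Icc,
    Nat.add_sub_cancel]
  set J : ℕ → ℂ := fun t => ∑ n ∈ Icc 1 x, g n * F (n + t ^ 2) with hJ
  set K : ℝ := Real.sqrt (β * x ^ 2) with hKdef
  have hK0 : 0 ≤ K := Real.sqrt_nonneg _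
  have hK2 : K ^ 2 = β * x ^ 2 := Real.sq_sqrt (by positivity)
  -- the bound for `J`
  have hJK : ∀ t ∈ Icc 1 M, ‖J t‖ ≤ K := by
    intro t ht
    rw [Finset.mem_Icc] at ht
    have ht2 : t ^ 2 ≤ M ^ 2 := Nat.pow_le_pow_left ht.2 2
    have h1 : ‖J t‖ ≤ ∑ n ∈ Icc 1 x, 1 * ‖F (n + t ^ 2)‖ := by
      refine (norm_sum_le _ _).trans (Finset.sum_le_sum fun n hn => ?_)
      rw [norm_mul]
      exact mul_le_mul_of_nonneg_right (hg n hn) (norm_nonneg _)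
    have h2 : (∑ n ∈ Icc 1 x, 1 * ‖F (n + t ^ 2)‖) ^ 2 ≤
        (∑ n ∈ Icc 1 x, (1 : ℝ) ^ 2) * ∑ n ∈ Icc 1 x, ‖F (n + t ^ 2)‖ ^ 2 :=
      Finset.sum_mul_sq_le_sq_mul_sq _ _ _
    have h3 : ∑ n ∈ Icc 1 x, ‖F (n + t ^ 2)‖ ^ 2 ≤ β * x := by
      refine le_trans ?_ hB
      rw [← Finset.sum_image (s := Icc 1 x) (g := fun n => n + t ^ 2) (f := fun k => ‖F k‖ ^ 2)
        (fun a _ b _ h => by simpa using h)]
      refine Finset.sum_le_sum_of_subset_of_nonneg ?_ (fun _ _ _ => sq_nonneg _)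
      intro k hk
      obtain ⟨n, hn, rfl⟩ := Finset.mem_image.1 hk
      rw [Finset.mem_Icc] at hn
      rw [Finset.mem_range]
      omega
    have h4 : (∑ n ∈ Icc 1 x, (1 : ℝ) ^ 2) = x := by
      simp
    rw [h4] at h2
    refine Real.le_sqrt_of_sq_le ?_
    calc ‖J t‖ ^ 2 ≤ (∑ n ∈ Icc 1 x, 1 * ‖F (n + t ^ 2)‖) ^ 2 :=
          pow_le_pow_left₀ (norm_nonneg _) h1 2
      _ ≤ x * (β * x) := h2.trans (mul_le_mul_of_nonneg_left h3 (by positivity))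
      _ = β * x ^ 2 := by ring
  -- duality
  set c : ℕ → ℂ := fun t => (starRingEnd ℂ) (J t) with hcdef
  have hcK : ∀ t ∈ Icc 1 M, ‖c t‖ ≤ K := by
    intro t ht
    rw [hcdef]
    simp only
    rw [RCLike.norm_conj]
    exact hJK t ht
  set Sg : ℝ := ∑ t ∈ Icc 1 M, ‖J t‖ ^ 2 with hSg
  have hSg0 : 0 ≤ Sg := Finset.sum_nonneg fun _ _ => sq_nonneg _
  have hdual : ((Sg : ℝ) : ℂ) = ∑ n ∈ Icc 1 x, g n * ∑ t ∈ Icc 1 M, c t * F (n + t ^ 2) := by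
    rw [hSg]
    push_cast
    have h1 : ∀ t ∈ Icc 1 M, ((‖J t‖ : ℂ)) ^ 2 = ∑ n ∈ Icc 1 x, c t * (g n * F (n + t ^ 2)) := by
      intro t _
      rw [← Finset.mul_sum]
      change _ = (starRingEnd ℂ) (J t) * J t
      rw [mul_comm, RCLike.mul_conj]
      rfl
    rw [Finset.sum_congr rfl h1, Finset.sum_comm]
    refine Finset.sum_congr rfl fun n _ => ?_
    rw [Finset.mul_sum]
    refine Finset.sum_congr rfl fun t _ => ?_
    ring
  have hI : Icc 1 M ⊆ range (M + 1) := by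
    intro t ht
    rw [Finset.mem_Icc] at ht
    rw [Finset.mem_range]
    omega
  have hms := msw (Z := Z) (x := x) (M := M) (by omega) (by omega) hxZ (Icc 1 M) hI c F
    (α * x) (β * x) K hF hB hK0 hcK
  have hSgle : Sg ≤ ∑ n ∈ Icc 1 x, 1 * ‖∑ t ∈ Icc 1 M, c t * F (n + t ^ 2)‖ := by
    have h1 : Sg = ‖((Sg : ℝ) : ℂ)‖ := by
      rw [Complex.norm_real, Real.norm_of_nonneg hSg0]
    rw [h1, hdual]
    refine (norm_sum_le _ _).trans (Finset.sum_le_sum fun n hn => ?_)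
    rw [norm_mul]
    exact mul_le_mul_of_nonneg_right (hg n hn) (norm_nonneg _)
  have hcs : (∑ n ∈ Icc 1 x, 1 * ‖∑ t ∈ Icc 1 M, c t * F (n + t ^ 2)‖) ^ 2 ≤
      (∑ n ∈ Icc 1 x, (1 : ℝ) ^ 2) * ∑ n ∈ Icc 1 x, ‖∑ t ∈ Icc 1 M, c t * F (n + t ^ 2)‖ ^ 2 :=
    Finset.sum_mul_sq_le_sq_mul_sq _ _ _
  have h4 : (∑ n ∈ Icc 1 x, (1 : ℝ) ^ 2) = x := by
    simp
  rw [h4] at hcs
  have hsq : Sg ^ 2 ≤ x * (α * x * Real.sqrt (β * x) * (β * x ^ 2 * Real.sqrt (E4 M))) := by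
    rw [hK2] at hms
    exact (pow_le_pow_left₀ hSg0 hSgle 2).trans
      (hcs.trans (mul_le_mul_of_nonneg_left hms (by positivity)))
  have hlogM : Real.log M ≤ Real.log x := by
    refine Real.log_le_log (by linarith) ?_
    have : M ≤ x := le_trans (by nlinarith) hMx
    exact_mod_cast this
  have hlM0 : 0 ≤ Real.log M := Real.log_natCast_nonneg M
  have hE : (E4 M : ℝ) ≤ C0 * (M : ℝ) ^ 2 * (1 + Real.log x) ^ 2 := by
    refine (hE4 M hM).trans ?_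
    refine mul_le_mul_of_nonneg_left ?_ (by positivity)
    exact pow_le_pow_left₀ (by positivity) (by linarith) 2
  have hfin := fin_ineq (C0 := C0) (α := α) (β := β) (x := x) (M := M) (L := 1 + Real.log x)
    (E := (E4 M : ℝ)) hC0 hα hβ hxr hMr (by exact_mod_cast hxM)
    (by linarith [hlM0, hlogM]) (Nat.cast_nonneg _) hE
  have hRHS0 : 0 ≤ (1 + 4 * Real.sqrt C0) * β * Real.sqrt α * (1 + Real.log x) * (M * (x : ℝ) ^ 2) := by
    have : 0 ≤ Real.log x := by linarith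
    positivity
  exact (pow_le_pow_iff_left₀ hSg0 hRHS0 (by norm_num)).1 (hsq.trans hfin)

end Pool.Agent.DSH
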