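import Pool.Agent.Lib.DSH.Defs
import Pool.Agent.Lib.GMV.FreeY

/-!
# DSH.NormD (1.5 h): a single tuple, the primes with their weights

PROOF. `NormDAux.core` is the inner part of the proof of `GMV.freeY` (everything outside the exceptional set), with a general bound `R` for
`‖∑_{n ≤ y} ∏ W(n + h i) - ∑ ∏ LL(n + h i)‖`; it is used at the scale `2X`, `k = r + 1`, with `h i = 1 + c0 a i ∈ Icc 1 (2X)`, `R = X Q^(-e)` from `Dv e r X Q a`.
Then `∑_{n ∈ Icc 1 (y+1)} ∏ W(n + c0 a i) = ∑_{n ∈ Icc 1 y} ∏ W(n + 1 + c0 a i)` because for `n = 1` the factor `i = 0` is `W (2X) Q 1 = 0` (`lp 1 = 0`); and `SI ≤ D log^k Q` for the shift by one.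
-/

set_option autoImplicit false

open Finset Filter

namespace Pool.Agent.DSH

open Pool.Agent.HLB Pool.Agent.HLT Pool.Agent.HLR Pool.Agent.Lib.GMV Pool.Agent.BLF

namespace NormDAux

open Pool.Agent.Lib.GMV.FreeYAux

/-- Growth in `Q`. -/
lemma growthE (e : ℝ) (he : 0 < e) (he2 : e ≤ 1 / 2) (D : ℝ) (k : ℕ) : ∀ᶠ q : ℝ in atTop,
    q ^ (-e) + 2 / q + D * Real.log q ^ k / q ≤ q ^ (-(e / 2)) := by
  have h1 : ∀ᶠ q : ℝ in atTop, (3 : ℝ) ≤ q ^ (e / 2) :=
    (tendsto_rpow_atTop (by positivity)).eventually_ge_atTop 3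
  have h2 : ∀ᶠ q : ℝ in atTop, (6 : ℝ) ≤ q ^ (1 - e / 2) :=
    (tendsto_rpow_atTop (by linarith)).eventually_ge_atTop 6
  have h3 : ∀ᶠ q : ℝ in atTop, 3 * |D| ≤ q ^ (1 / 2 - e / 2) :=
    (tendsto_rpow_atTop (by linarith)).eventually_ge_atTop (3 * |D|)
  have h4 := (isLittleO_log_rpow_rpow_atTop (k : ℝ) (show (0 : ℝ) < 1 / 2 by norm_num)).bound
    (c := 1) one_pos
  filter_upwards [h1, h2, h3, h4, eventually_ge_atTop 1] with q g1 g2 g3 g4 hq
  have hq0 : 0 < q := by linarith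
  have hlog : 0 ≤ Real.log q := Real.log_nonneg hq
  have a1 : q ^ (-e) * 3 ≤ q ^ (-(e / 2)) := by
    have e' : q ^ (-(e / 2)) = q ^ (-e) * q ^ (e / 2) := by
      rw [← Real.rpow_add hq0]
      congr 1
      ring
    rw [e']
    exact mul_le_mul_of_nonneg_left g1 (Real.rpow_nonneg hq0.le _)
  have a2 : 2 / q * 3 ≤ q ^ (-(e / 2)) := by
    have e' : q ^ (-(e / 2)) = 1 / q * q ^ (1 - e / 2) := by
      have e2 : 1 / q = q ^ (-1 : ℝ) := by rw [Real.rpow_neg_one, one_div]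
      rw [e2, ← Real.rpow_add hq0]
      congr 1
      ring
    rw [e']
    calc 2 / q * 3 = 1 / q * 6 := by ring
      _ ≤ _ := mul_le_mul_of_nonneg_left g2 (by positivity)
  have a3 : D * Real.log q ^ k / q * 3 ≤ q ^ (-(e / 2)) := by
    rw [Real.rpow_natCast, Real.norm_of_nonneg (pow_nonneg hlog k),
      Real.norm_of_nonneg (Real.rpow_nonneg hq0.le _), one_mul] at g4
    have b1 : D * Real.log q ^ k ≤ |D| * q ^ (1 / 2 : ℝ) :=
      (mul_le_mul_of_nonneg_right (le_abs_self D) (pow_nonneg hlog k)).trans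
        (mul_le_mul_of_nonneg_left g4 (abs_nonneg D))
    have b2 : D * Real.log q ^ k / q ≤ |D| * q ^ (1 / 2 : ℝ) / q :=
      div_le_div_of_nonneg_right b1 hq0.le
    have e' : q ^ (-(e / 2)) = q ^ (1 / 2 : ℝ) / q * q ^ (1 / 2 - e / 2) := by
      have e2 : q ^ (1 / 2 : ℝ) / q = q ^ (1 / 2 - 1 : ℝ) := by
        rw [Real.rpow_sub hq0, Real.rpow_one]
      rw [e2, ← Real.rpow_add hq0]
      congr 1
      ring
    rw [e']
    have b3 : q ^ (1 / 2 : ℝ) / q * (3 * |D|) ≤ q ^ (1 / 2 : ℝ) / q * q ^ (1 / 2 - e / 2) :=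
      mul_le_mul_of_nonneg_left g3 (by positivity)
    calc D * Real.log q ^ k / q * 3 ≤ |D| * q ^ (1 / 2 : ℝ) / q * 3 :=
          mul_le_mul_of_nonneg_right b2 (by norm_num)
      _ = q ^ (1 / 2 : ℝ) / q * (3 * |D|) := by ring
      _ ≤ _ := b3
  linarith

/-- Shift by one. -/
lemma sum_shift (f : ℕ → ℝ) (z : ℕ) :
    ∑ n ∈ Icc 1 (z + 1), f n = f 1 + ∑ n ∈ Icc 1 z, f (n + 1) := by
  induction z with
  | zero => simp
  | succ z ih => rw [Finset.sum_Icc_succ_top (by omega), ih, Finset.sum_Icc_succ_top (by omega), add_assoc]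

open scoped Classical in
/-- One tuple `h ∈ [1, X]^k`, with a bound `R` for the difference between the primes and the model. -/
theorem core (k : ℕ) (hk : 1 ≤ k) (B : ℝ) : ∃ c C D : ℝ, 0 < c ∧ 0 < C ∧ 0 ≤ D ∧ ∃ X0 : ℕ,
    ∀ X Q : ℕ, X0 ≤ X → Rg c X Q → ∀ b : CI → ℝ, (∀ x ∈ Ch Q, ∀ n, ‖Mc X Q x n‖ ≤ b x) →
    ∑ x ∈ Ch Q, b x ≤ B → ∀ (M : Finset CI) (q : ℕ) (E : ℝ), Kept Q M q →
    ∑ x ∈ Ch Q \ M, b x ≤ E →
    (∀ n : ℕ, 3 * X ≤ n * Q → n * Q + X ≤ 2 * X * Q → ‖Mc X Q one n - 1‖ ≤ E) →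
    ∀ y : ℕ, y ≤ X → ∀ h : Fin k → ℕ, h ∈ Tup k (Icc 1 X) → Function.Injective h → ∀ R : ℝ,
    ‖∑ n ∈ Icc 1 y, ∏ i, (W X Q (n + h i) : ℂ) - ∑ n ∈ Icc 1 y, ∏ i, LL X Q (Q ^ (8 * k)) (n + h i)‖ ≤ R →
    2 ≤ Q ∧ Q ≤ X ∧ 0 ≤ SI h ∧ SI h ≤ D * Real.log Q ^ k ∧
    |∑ n ∈ Icc 1 y, ∏ i, W X Q (n + h i) - SI h * y| ≤
      C * SI h * X * (E + Gq q h) + R + X / Q + X * (D * Real.log Q ^ k / Q) := by
  obtain ⟨c1, C1, hc1, hC1, X1, hmain⟩ := mainT k hk B
  obtain ⟨C2, hC2, hxe⟩ := excB k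
  obtain ⟨X3, hsps⟩ := sps k hk
  obtain ⟨C3, hC3, hsz⟩ := sz_le k
  obtain ⟨K, hK⟩ : ∃ K : ℝ, K = (max 1 B) ^ k := ⟨_, rfl⟩
  have hβ1 : (1 : ℝ) ≤ max 1 B := le_max_left _ _
  have hK1 : 1 ≤ K := by rw [hK]; exact one_le_pow₀ hβ1
  obtain ⟨D, hD⟩ : ∃ D : ℝ, D = (10 * (1 + K) + 1) * (2 * C3 * (8 * k) ^ k) := ⟨_, rfl⟩
  obtain ⟨X4, hX4⟩ := largeQ (fun q => 2 ≤ q) (eventually_ge_atTop 2)
  refine ⟨min c1 1, 2 * C1 + 2 * k * K + 2 ^ (k + 1) * K * C2 + 1, D,
    lt_min hc1 one_pos, by positivity, by rw [hD]; positivity, max (max X1 X3) (max X4 1), ?_⟩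
  intro X Q hX hR b hb hbB M q E hM hE hone y hy h hT hinj R hcon
  have hX1 : X1 ≤ X := le_trans (le_max_left _ _) (le_trans (le_max_left _ _) hX)
  have hX3 : X3 ≤ X := le_trans (le_max_right _ _) (le_trans (le_max_left _ _) hX)
  have hX4' : X4 ≤ X := le_trans (le_max_left _ _) (le_trans (le_max_right _ _) hX)
  have hX5 : 1 ≤ X := le_trans (le_max_right _ _) (le_trans (le_max_right _ _) hX)
  have hQ2 := hX4 X Q hX4' hR.1
  have hQn : 2 ≤ Q := by exact_mod_cast hQ2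
  have hQ0 : (0 : ℝ) < Q := by linarith
  have hR1 : Rg c1 X Q := Rg_mono (min_le_left _ _) hX5 hR
  have hR3 : Rg 1 X Q := Rg_mono (min_le_right _ _) hX5 hR
  have hQX : Q ≤ X := by
    have h1 := hR3.2
    rw [Real.rpow_one] at h1
    exact_mod_cast h1
  have hXr : (1 : ℝ) ≤ X := by exact_mod_cast hX5
  have hb0 : ∀ x ∈ Ch Q, 0 ≤ b x := fun x hx => (norm_nonneg _).trans (hb x hx 0)
  have hMC : M ⊆ Ch Q := by
    rcases hM with ⟨h1, -⟩ | ⟨xe, h1, -, -, h2, -⟩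
    · rw [h1]
      intro x hx
      rw [Finset.mem_singleton.1 hx]
      exact one_mem_Ch (by omega)
    · rw [h2]
      intro x hx
      rcases Finset.mem_insert.1 hx with h3 | h3
      · rw [h3]; exact one_mem_Ch (by omega)
      · rw [Finset.mem_singleton.1 h3]; exact h1
  have honeM : one ∈ M := by
    rcases hM with ⟨h1, -⟩ | ⟨xe, h1, -, -, h2, -⟩
    · rw [h1]; exact Finset.mem_singleton_self _
    · rw [h2]; exact Finset.mem_insert_self _ _
  have hMcard : M.card ≤ 2 := by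
    rcases hM with ⟨h1, -⟩ | ⟨xe, h1, -, -, h2, -⟩
    · rw [h1, Finset.card_singleton]; norm_num
    · rw [h2]; exact Finset.card_le_two
  have hE0 : 0 ≤ E := le_trans (Finset.sum_nonneg fun x hx =>
    hb0 x (Finset.mem_sdiff.1 hx).1) hE
  have hMcb : ∀ x ∈ M, ∀ n, ‖Mc X Q x n‖ ≤ max 1 B := by
    intro x hx n
    refine (hb x (hMC hx) n).trans ?_
    refine le_trans ?_ (hbB.trans (le_max_right _ _))
    exact Finset.single_le_sum hb0 (hMC hx)
  have hh1 : ∀ i, 1 ≤ h i ∧ h i ≤ X := fun i => Finset.mem_Icc.1 (mem_Tup.1 hT i)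
  -- notation
  obtain ⟨Y, hY⟩ : ∃ Y, Y = Q ^ (8 * k) := ⟨_, rfl⟩
  have hY2 : 2 ≤ Y := by
    rw [hY]
    calc 2 ≤ Q := hQn
      _ = Q ^ 1 := (pow_one Q).symm
      _ ≤ Q ^ (8 * k) := Nat.pow_le_pow_right (by omega) (by omega)
  obtain ⟨S, hS⟩ : ∃ S, S = SZ Y h := ⟨_, rfl⟩
  obtain ⟨s, hs⟩ : ∃ s, s = SI h := ⟨_, rfl⟩
  obtain ⟨g, hg⟩ : ∃ g, g = Gq q h := ⟨_, rfl⟩
  have hg0 : 0 ≤ g := by rw [hg]; exact (Gq_le_one q h).1
  have hS0 : 0 ≤ S := by rw [hS]; exact SZ_nonneg _ _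
  have hSs : |S - s| ≤ s / Q := by
    rw [hS, hs, hY]
    refine hsps X Q hX3 hR3 h ?_ hinj
    rw [mem_Tup]
    intro i
    rw [Finset.mem_range]
    have := (hh1 i).2
    omega
  have hs0 : 0 ≤ s := by
    have h1 := (abs_nonneg _).trans hSs
    rwa [le_div_iff₀ hQ0, zero_mul] at h1
  have hsQ : s / Q ≤ s / 2 := div_le_div_of_nonneg_left hs0 (by norm_num) hQ2
  have hS2s : S ≤ 2 * s := by
    have h1 := le_abs_self (S - s)
    linarith
  have hs2S : s ≤ 2 * S := by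
    have h1 := neg_abs_le (S - s)
    linarith
  have hSlog : S ≤ C3 * (8 * k) ^ k * Real.log Q ^ k := by
    have h1 := hsz Y h hY2
    rw [← hS] at h1
    refine h1.trans (le_of_eq ?_)
    rw [hY, Nat.cast_pow, Real.log_pow]
    push_cast
    rw [mul_pow]
    ring
  -- the sums
  obtain ⟨T, hTe⟩ : ∃ T : ℂ, T = ∑ n ∈ Icc 1 y, ∏ i, (W X Q (n + h i) : ℂ) := ⟨_, rfl⟩
  obtain ⟨L, hL⟩ : ∃ L : ℂ, L = ∑ n ∈ Icc 1 y, ∏ i, LL X Q (Q ^ (8 * k)) (n + h i) := ⟨_, rfl⟩
  obtain ⟨A, hA⟩ : ∃ A : (Fin k → CI) → ℂ, A = fun x =>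
      ∑ n ∈ Icc 1 y, ∏ i, Mc X Q (x i) (n + h i) := ⟨_, rfl⟩
  have hTL : ‖T - L‖ ≤ R := by rw [hTe, hL]; exact hcon
  have hLA := hmain X Q hX1 hR1 b hb hbB M E hMC hE h hT hinj y hy
  rw [← hL, ← hY, ← hS] at hLA
  have hLA' : ‖L - ∑ x ∈ Fintype.piFinset (fun _ : Fin k => M), TP Y x h * A x‖ ≤
      C1 * S * X * E + X / Q := by
    rw [hA]
    exact hLA
  have hyX : (y : ℝ) ≤ X := by exact_mod_cast hy
  have hAb : ∀ x ∈ Fintype.piFinset (fun _ : Fin k => M), ‖A x‖ ≤ X * K := by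
    intro x hx
    rw [hA]
    beta_reduce
    refine (norm_sum_le _ _).trans ?_
    have h1 : ∀ n ∈ Icc 1 y, ‖∏ i, Mc X Q (x i) (n + h i)‖ ≤ K := by
      intro n _
      have h2 := prod_bdd (Finset.univ : Finset (Fin k)) (fun i => Mc X Q (x i) (n + h i))
        (β := max 1 B) (fun i _ => hMcb (x i) (Fintype.mem_piFinset.1 hx i) _)
      rw [Finset.card_univ, Fintype.card_fin] at h2
      rw [hK]
      exact h2
    refine (Finset.sum_le_sum h1).trans ?_
    rw [Finset.sum_const, Nat.card_Icc, Nat.add_sub_cancel, nsmul_eq_mul]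
    exact mul_le_mul_of_nonneg_right hyX (by linarith)
  have h1M : (fun _ : Fin k => one) ∈ Fintype.piFinset (fun _ : Fin k => M) :=
    Fintype.mem_piFinset.2 fun _ => honeM
  have hTPx : ∀ x ∈ (Fintype.piFinset (fun _ : Fin k => M)).erase (fun _ => one),
      ‖TP Y x h‖ ≤ C2 * S * g := by
    intro x hx
    rw [Finset.mem_erase] at hx
    obtain ⟨hx1, hx2⟩ := hx
    rw [Fintype.mem_piFinset] at hx2
    rcases hM with ⟨h1, -⟩ | ⟨xe, h1, -, h2, h3, h4⟩
    · exfalso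
      apply hx1
      funext i
      have := hx2 i
      rw [h1] at this
      exact Finset.mem_singleton.1 this
    · rw [hS, hg, h4]
      refine hxe Y xe x h (mem_Ch.1 h1).2 h2 ?_ ?_ ?_
      · refine (mem_Ch.1 h1).1.trans ?_
        rw [hY]
        calc Q = Q ^ 1 := (pow_one Q).symm
          _ ≤ Q ^ (8 * k) := Nat.pow_le_pow_right (by omega) (by omega)
      · intro i
        have := hx2 i
        rw [h3] at this
        rcases Finset.mem_insert.1 this with h5 | h5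
        · exact Or.inl h5
        · exact Or.inr (Finset.mem_singleton.1 h5)
      · by_contra hno
        push Not at hno
        apply hx1
        funext i
        have := hx2 i
        rw [h3] at this
        rcases Finset.mem_insert.1 this with h5 | h5
        · exact h5
        · exact absurd (Finset.mem_singleton.1 h5) (hno i)
  have hrest : ‖∑ x ∈ Fintype.piFinset (fun _ : Fin k => M), TP Y x h * A x -
      (S : ℂ) * A (fun _ => one)‖ ≤ 2 ^ k * (C2 * S * g * (X * K)) := by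
    have h2 := Finset.add_sum_erase _ (fun x => TP Y x h * A x) h1M
    have h3 : TP Y (fun _ : Fin k => one) h = (S : ℂ) := by
      rw [hS]
      exact TP_one Y (by omega) h
    have h4 : ∑ x ∈ Fintype.piFinset (fun _ : Fin k => M), TP Y x h * A x -
        (S : ℂ) * A (fun _ => one) =
        ∑ x ∈ (Fintype.piFinset (fun _ : Fin k => M)).erase (fun _ => one), TP Y x h * A x := by
      rw [← h2]
      beta_reduce
      rw [h3]
      ring
    rw [h4]
    refine (norm_sum_le _ _).trans ?_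
    have h5 : ∀ x ∈ (Fintype.piFinset (fun _ : Fin k => M)).erase (fun _ => one),
        ‖TP Y x h * A x‖ ≤ C2 * S * g * (X * K) := by
      intro x hx
      rw [norm_mul]
      exact mul_le_mul (hTPx x hx) (hAb x (Finset.mem_of_mem_erase hx)) (norm_nonneg _)
        (mul_nonneg (mul_nonneg hC2.le hS0) hg0)
    refine (Finset.sum_le_sum h5).trans ?_
    rw [Finset.sum_const, nsmul_eq_mul]
    refine mul_le_mul_of_nonneg_right ?_
      (mul_nonneg (mul_nonneg (mul_nonneg hC2.le hS0) hg0) (by positivity))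
    have h6 : ((Fintype.piFinset (fun _ : Fin k => M)).erase (fun _ => one)).card ≤ 2 ^ k := by
      refine (Finset.card_erase_le).trans ?_
      rw [Fintype.card_piFinset, Finset.prod_const, Finset.card_univ, Fintype.card_fin]
      exact Nat.pow_le_pow_left hMcard k
    exact_mod_cast h6
  -- the main term
  have hA1 : ‖A (fun _ => one) - y‖ ≤ X * (k * K * E) + 5 * (X : ℝ) / Q * (1 + K) := by
    have e1 : A (fun _ => one) - y =
        ∑ n ∈ Icc 1 y, (∏ i : Fin k, Mc X Q one (n + h i) - 1) := by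
      rw [hA, Finset.sum_sub_distrib, Finset.sum_const, Nat.card_Icc, Nat.add_sub_cancel,
        nsmul_eq_mul, mul_one]
    rw [e1]
    refine (norm_sum_le _ _).trans ?_
    have h2 : ∀ n ∈ Icc 1 y, ‖∏ i : Fin k, Mc X Q one (n + h i) - 1‖ ≤
        k * K * E + (if n * Q < 3 * X ∨ X * Q < n * Q + X then 1 + K else 0) := by
      intro n hn
      split_ifs with hbad
      · have h3 := prod_bdd (Finset.univ : Finset (Fin k)) (fun i => Mc X Q one (n + h i))
          (β := max 1 B) (fun i _ => hMcb one honeM _)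
        rw [Finset.card_univ, Fintype.card_fin, ← hK] at h3
        have h4 := norm_sub_le (∏ i : Fin k, Mc X Q one (n + h i)) 1
        rw [norm_one] at h4
        have h5 : 0 ≤ k * K * E := by positivity
        linarith
      · rw [add_zero]
        push Not at hbad
        obtain ⟨hb1, hb2⟩ := hbad
        have h3 := prod_near (Finset.univ : Finset (Fin k)) (fun i => Mc X Q one (n + h i))
          hβ1 hE0 (fun i _ => hMcb one honeM _) (fun i _ => by
            apply hone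
            · refine hb1.trans (Nat.mul_le_mul_right _ (Nat.le_add_right _ _))
            · have h4 : h i * Q ≤ X * Q := Nat.mul_le_mul_right _ (hh1 i).2
              have h5 : (n + h i) * Q = n * Q + h i * Q := by ring
              have h6 : 2 * X * Q = X * Q + X * Q := by ring
              omega)
        rw [Finset.card_univ, Fintype.card_fin, ← hK] at h3
        exact h3
    refine (Finset.sum_le_sum h2).trans ?_
    rw [Finset.sum_add_distrib, Finset.sum_const, Nat.card_Icc, Nat.add_sub_cancel,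
      nsmul_eq_mul, ← Finset.sum_filter, Finset.sum_const, nsmul_eq_mul]
    refine add_le_add ?_ ?_
    · exact mul_le_mul_of_nonneg_right hyX (by positivity)
    · exact mul_le_mul_of_nonneg_right (card_bad (by omega) hQX hy) (by linarith)
  -- assembly
  have hfin : ‖T - (s : ℂ) * y‖ ≤ R + (C1 * S * X * E + X / Q) +
      2 ^ k * (C2 * S * g * (X * K)) + S * (X * (k * K * E) + 5 * (X : ℝ) / Q * (1 + K)) +
      s / Q * X := by
    have e1 : T - (s : ℂ) * y = (T - L) +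
        (L - ∑ x ∈ Fintype.piFinset (fun _ : Fin k => M), TP Y x h * A x) +
        (∑ x ∈ Fintype.piFinset (fun _ : Fin k => M), TP Y x h * A x -
          (S : ℂ) * A (fun _ => one)) +
        (S : ℂ) * (A (fun _ => one) - y) + ((S : ℂ) - s) * y := by ring
    rw [e1]
    have n1 : ‖(S : ℂ) * (A (fun _ => one) - y)‖ ≤
        S * (X * (k * K * E) + 5 * (X : ℝ) / Q * (1 + K)) := by
      rw [norm_mul, Complex.norm_real, Real.norm_of_nonneg hS0]
      exact mul_le_mul_of_nonneg_left hA1 hS0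
    have n2 : ‖((S : ℂ) - s) * y‖ ≤ s / Q * X := by
      rw [norm_mul, ← Complex.ofReal_sub, Complex.norm_real, Real.norm_eq_abs,
        Complex.norm_natCast]
      exact mul_le_mul hSs hyX (Nat.cast_nonneg _) ((abs_nonneg _).trans hSs)
    refine (norm_add_le _ _).trans (add_le_add ?_ n2)
    refine (norm_add_le _ _).trans (add_le_add ?_ n1)
    refine (norm_add_le _ _).trans (add_le_add ?_ hrest)
    exact (norm_add_le _ _).trans (add_le_add hTL hLA')
  have hreal : |∑ n ∈ Icc 1 y, ∏ i, W X Q (n + h i) - s * y| = ‖T - (s : ℂ) * y‖ := by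
    rw [← Real.norm_eq_abs, ← Complex.norm_real, hTe]
    push_cast
    rfl
  have hDs : (10 * (1 + K) + 1) * s ≤ D * Real.log Q ^ k := by
    have h2 : s ≤ 2 * (C3 * (8 * k) ^ k * Real.log Q ^ k) := by linarith
    calc (10 * (1 + K) + 1) * s ≤
        (10 * (1 + K) + 1) * (2 * (C3 * (8 * k) ^ k * Real.log Q ^ k)) :=
          mul_le_mul_of_nonneg_left h2 (by linarith)
      _ = D * Real.log Q ^ k := by rw [hD]; ring
  refine ⟨hQn, hQX, by rw [← hs]; exact hs0, ?_, ?_⟩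
  · rw [← hs]
    refine le_trans ?_ hDs
    have : 0 ≤ (10 * (1 + K)) * s := by positivity
    linarith
  rw [← hs, ← hg, hreal]
  refine hfin.trans ?_
  have hkK : 0 ≤ (k : ℝ) * K := by positivity
  have m1 : C1 * S * X * E ≤ 2 * C1 * s * X * E := by
    have : C1 * S ≤ C1 * (2 * s) := mul_le_mul_of_nonneg_left hS2s hC1.le
    calc C1 * S * X * E = C1 * S * (X * E) := by ring
      _ ≤ C1 * (2 * s) * (X * E) := mul_le_mul_of_nonneg_right this (by positivity)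
      _ = 2 * C1 * s * X * E := by ring
  have m2 : 2 ^ k * (C2 * S * g * (X * K)) ≤ 2 ^ (k + 1) * K * C2 * s * X * g := by
    calc 2 ^ k * (C2 * S * g * (X * K)) = S * (2 ^ k * C2 * g * (X * K)) := by ring
      _ ≤ 2 * s * (2 ^ k * C2 * g * (X * K)) :=
          mul_le_mul_of_nonneg_right hS2s (by positivity)
      _ = 2 ^ (k + 1) * K * C2 * s * X * g := by ring
  have m3 : S * (X * (k * K * E) + 5 * (X : ℝ) / Q * (1 + K)) ≤
      2 * k * K * s * X * E + 10 * (1 + K) * (s * X / Q) := by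
    calc S * (X * (k * K * E) + 5 * (X : ℝ) / Q * (1 + K)) ≤
        2 * s * (X * (k * K * E) + 5 * (X : ℝ) / Q * (1 + K)) :=
          mul_le_mul_of_nonneg_right hS2s (by positivity)
      _ = 2 * k * K * s * X * E + 10 * (1 + K) * (s * X / Q) := by ring
  have m4 : (10 * (1 + K) + 1) * (s * X / Q) ≤ X * (D * Real.log Q ^ k / Q) := by
    calc (10 * (1 + K) + 1) * (s * X / Q) = ((10 * (1 + K) + 1) * s) * (X / Q) := by ring
      _ ≤ D * Real.log Q ^ k * (X / Q) := mul_le_mul_of_nonneg_right hDs (by positivity)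
      _ = X * (D * Real.log Q ^ k / Q) := by ring
  have m5 : 0 ≤ s * X * (E + g) := by positivity
  have m6 : 0 ≤ (2 * C1 + 2 * k * K) * (s * X * g) := by positivity
  have m7 : 0 ≤ 2 ^ (k + 1) * K * C2 * (s * X * E) := by positivity
  have e9 : (2 * C1 + 2 * k * K + 2 ^ (k + 1) * K * C2 + 1) * s * X * (E + g) =
      2 * C1 * s * X * E + 2 * k * K * s * X * E + 2 ^ (k + 1) * K * C2 * s * X * g +
      (2 * C1 + 2 * k * K) * (s * X * g) + 2 ^ (k + 1) * K * C2 * (s * X * E) +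
      s * X * (E + g) := by ring
  have e10 : s / Q * X = s * X / Q := by ring
  rw [e9, e10]
  linarith

end NormDAux

open NormDAux

theorem normD (r : ℕ) (hr : 1 ≤ r) (B e : ℝ) (he : 0 < e) (he2 : e ≤ 1 / 2) : ∃ c C : ℝ, 0 < c ∧ 0 < C ∧ ∃ X0 : ℕ,
    ∀ X Q : ℕ, X0 ≤ X → Rg c (2 * X) Q → ∀ b : CI → ℝ,
    (∀ x ∈ Ch Q, ∀ n, ‖Mc (2 * X) Q x n‖ ≤ b x) → ∑ x ∈ Ch Q, b x ≤ B →
    ∀ (M : Finset CI) (q : ℕ) (E : ℝ), Kept Q M q → ∑ x ∈ Ch Q \ M, b x ≤ E →
    (∀ n : ℕ, 3 * (2 * X) ≤ n * Q → n * Q + 2 * X ≤ 2 * (2 * X) * Q → ‖Mc (2 * X) Q one n - 1‖ ≤ E) →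
    ∀ a ∈ Tup r (range (X + 1)), Dv e r X Q a → Function.Injective (c0 a) → ∀ y : ℕ, y ≤ X →
      |∑ n ∈ Icc 1 y, ∏ i, W (2 * X) Q (n + c0 a i) - SI (c0 a) * y| ≤
        C * SI (c0 a) * X * (E + Gq q (c0 a)) + X * (Q : ℝ) ^ (-(e / 2)) := by
  obtain ⟨c, C, D, hc, hC, hD, X1, hcore⟩ := core (r + 1) (by omega) B
  obtain ⟨X4, hX4⟩ := FreeYAux.largeQ _ (growthE e he he2 (4 * D) (r + 1))
  refine ⟨c, 2 * C, hc, by positivity, max (max X1 X4) 1, ?_⟩
  intro X Q hX hR b hb hbB M q E hM hE hone a ha hdv hinj y hy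
  have hX1 : X1 ≤ 2 * X := by
    have := le_trans (le_max_left _ _) (le_trans (le_max_left _ _) hX)
    omega
  have hX4' : X4 ≤ 2 * X := by
    have := le_trans (le_max_right _ _) (le_trans (le_max_left _ _) hX)
    omega
  have hX5 : 1 ≤ X := le_trans (le_max_right _ _) hX
  have hgr := hX4 (2 * X) Q hX4' hR.1
  have hXr : (1 : ℝ) ≤ X := by exact_mod_cast hX5
  have hai : ∀ i, a i ≤ X := fun i => by
    have := Finset.mem_range.1 (mem_Tup.1 ha i)
    omega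
  have hci : ∀ i, c0 a i ≤ X := by
    intro i
    refine Fin.cases ?_ (fun j => ?_) i
    · exact Nat.zero_le _
    · exact hai j
  have hT : (fun i => 1 + c0 a i) ∈ Tup (r + 1) (Icc 1 (2 * X)) := by
    rw [mem_Tup]
    intro i
    rw [Finset.mem_Icc]
    have := hci i
    constructor <;> omega
  have hinj' : Function.Injective (fun i => 1 + c0 a i) := fun i j hij => hinj (by
    simpa using hij)
  have hdev : ∀ z ≤ X, ‖∑ n ∈ Icc 1 z, ∏ i, (W (2 * X) Q (n + (1 + c0 a i)) : ℂ) -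
      ∑ n ∈ Icc 1 z, ∏ i, LL (2 * X) Q (Q ^ (8 * (r + 1))) (n + (1 + c0 a i))‖ ≤
      X * (Q : ℝ) ^ (-e) := by
    intro z hz
    have h1 := hdv z hz
    unfold dev at h1
    rw [Finset.sum_sub_distrib] at h1
    exact h1
  obtain ⟨z, hz, hyz⟩ : ∃ z ≤ X, (y = 0 ∧ z = 0) ∨ y = z + 1 := by
    rcases Nat.eq_zero_or_pos y with h | h
    · exact ⟨0, by omega, Or.inl ⟨h, rfl⟩⟩
    · exact ⟨y - 1, by omega, Or.inr (by omega)⟩
  obtain ⟨hQn, hQX, hs0, hsD, hmn⟩ := hcore (2 * X) Q hX1 hR b hb hbB M q E hM hE hone z (by omega)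
    (fun i => 1 + c0 a i) hT hinj' _ (hdev z hz)
  rw [SI_shift] at hs0 hsD hmn
  rw [Gq_shift] at hmn
  have hQ0 : (0 : ℝ) < Q := by
    have : 0 < Q := by omega
    exact_mod_cast this
  -- the sums agree
  have hsum : ∑ n ∈ Icc 1 y, ∏ i, W (2 * X) Q (n + c0 a i) =
      ∑ n ∈ Icc 1 z, ∏ i, W (2 * X) Q (n + (1 + c0 a i)) := by
    rcases hyz with ⟨h1, h2⟩ | h1
    · rw [h1, h2]
      simp
    · have hW1 : ∏ i, W (2 * X) Q (1 + c0 a i) = 0 := by
        refine Finset.prod_eq_zero (Finset.mem_univ 0) ?_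
        have h2 : c0 a 0 = 0 := rfl
        rw [h2, W, HLT.lp, if_neg (by norm_num), mul_zero]
      rw [h1, sum_shift, hW1, zero_add]
      refine Finset.sum_congr rfl fun n _ => Finset.prod_congr rfl fun i _ => ?_
      rw [add_assoc]
  have hyd : |SI (c0 a) * z - SI (c0 a) * y| ≤ SI (c0 a) := by
    rcases hyz with ⟨h1, h2⟩ | h1
    · rw [h1, h2]
      simpa using hs0
    · rw [h1]
      push_cast
      rw [show SI (c0 a) * z - SI (c0 a) * ((z : ℝ) + 1) = -SI (c0 a) by ring, abs_neg,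
        abs_of_nonneg hs0]
  rw [hsum]
  have h10 : |∑ n ∈ Icc 1 z, ∏ i, W (2 * X) Q (n + (1 + c0 a i)) - SI (c0 a) * y| ≤
      |∑ n ∈ Icc 1 z, ∏ i, W (2 * X) Q (n + (1 + c0 a i)) - SI (c0 a) * z| +
      |SI (c0 a) * z - SI (c0 a) * y| := by
    have := abs_add_le (∑ n ∈ Icc 1 z, ∏ i, W (2 * X) Q (n + (1 + c0 a i)) - SI (c0 a) * z)
      (SI (c0 a) * z - SI (c0 a) * y)
    rwa [sub_add_sub_cancel] at this
  have h11 : SI (c0 a) ≤ X * (2 * D * Real.log Q ^ (r + 1) / Q) := by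
    refine hsD.trans ?_
    have h12 : (Q : ℝ) ≤ 2 * X := by exact_mod_cast hQX
    have h13 : 0 ≤ D * Real.log Q ^ (r + 1) := hs0.trans hsD
    have h14 : X * (2 * D * Real.log Q ^ (r + 1) / Q) = D * Real.log Q ^ (r + 1) * (2 * X / Q) := by
      ring
    rw [h14]
    refine le_mul_of_one_le_right h13 ?_
    rwa [one_le_div hQ0]
  have h15 := mul_le_mul_of_nonneg_left hgr (by linarith : (0 : ℝ) ≤ X)
  have h16 : (X : ℝ) * ((Q : ℝ) ^ (-e) + 2 / Q + 4 * D * Real.log Q ^ (r + 1) / Q) =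
      X * (Q : ℝ) ^ (-e) + 2 * X / Q + 2 * X * (D * Real.log Q ^ (r + 1) / Q) +
      X * (2 * D * Real.log Q ^ (r + 1) / Q) := by ring
  rw [h16] at h15
  push_cast at hmn
  have h17 : C * SI (c0 a) * (2 * X) * (E + Gq q (c0 a)) = 2 * C * SI (c0 a) * X * (E + Gq q (c0 a)) := by
    ring
  rw [h17] at hmn
  linarith

end Pool.Agent.DSH
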