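import Pool.Agent.Lib.DSH.PNormD
import Pool.Agent.Lib.DSH.CoreD
import Pool.Agent.Lib.GMV.PFin
import Pool.Agent.Lib.GMV.PosFin

/-!
# DSH.PFinD (2 h): all `X`, lower bounds for a family

PROOF. `allXD`: the proof of `GMV.allX` (`PFin.lean`; `PFinAux` can be cited, except that `large` has to be redone) with `coreD`, `normPD` instead of `core`, `normP` and the set of `Fam.exc` for `F`. Replace the exponents: `Q^(-1/5)` by `Q^(-e')`, so `δ = c3 e'/2`; `Q^(-1/30)` by `Q^(-e/2)`: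
choose `ε = min (η/2) (e/4) / k` in Siegel's theorem and in `large` `K ≤ Q^(e/4)`; `c3 ≤ cF` and `exp (K √(log X)) ≤ ⌊X^c3⌋₊`. `posD`: the two lower bounds, as `pos_both` in the result file `Results/MP_e87c7d_nt/PowerSaving.lean` (with `zero_free`, `heilbronn` as in `GMV.pos_sharp`).
-/

set_option autoImplicit false

open Finset Filter

namespace Pool.Agent.DSH

open Pool.Agent.HLB Pool.Agent.HLT Pool.Agent.HLR Pool.Agent.Lib.GMV Pool.Agent.BLF

namespace PFinDAux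

lemma largeD (N c3 M η e e' K : ℝ) (h3 : 0 < c3) (hη : 0 < η) (he : 0 < e) (he' : 0 < e') :
    ∃ X0 : ℕ, ∀ X : ℕ, X0 ≤ X →
    25 ≤ Real.log X ∧ Real.exp (Real.sqrt (Real.log X)) ≤ ((⌊(X : ℝ) ^ c3⌋₊ : ℕ) : ℝ) ∧
    Real.exp (K * Real.sqrt (Real.log X)) ≤ ((⌊(X : ℝ) ^ c3⌋₊ : ℕ) : ℝ) ∧
    (X : ℝ) ^ N * ((⌊(X : ℝ) ^ c3⌋₊ : ℕ) : ℝ) ^ (-e') ≤ (X : ℝ) ^ (N - c3 * e' / 2) ∧
    M ≤ ((⌊(X : ℝ) ^ c3⌋₊ : ℕ) : ℝ) ^ (e / 4) ∧ M ≤ (X : ℝ) ^ (η / 2) := by
  have h1 : Tendsto (fun X : ℕ => Real.sqrt (Real.log X)) atTop atTop :=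
    Real.tendsto_sqrt_atTop.comp (Real.tendsto_log_atTop.comp tendsto_natCast_atTop_atTop)
  obtain ⟨X0, hX0⟩ := Filter.eventually_atTop.mp
    (h1.eventually_ge_atTop (5 + 6 / c3 + 2 * |K| / c3 + 4 * |M| / e + 2 * |M| / η))
  refine ⟨X0, fun X hX => ?_⟩
  have ht := hX0 X hX
  set L : ℝ := Real.log X with hL
  set t : ℝ := Real.sqrt L with htd
  have p1 : 0 ≤ 6 / c3 := by positivity
  have p2 : 0 ≤ 4 * |M| / e := by positivity
  have p3 : 0 ≤ 2 * |M| / η := by positivity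
  have p4 : 0 ≤ 2 * |K| / c3 := by positivity
  have ht5 : 5 ≤ t := by linarith
  have hL0 : 0 < L := by
    by_contra hcon
    have : t = 0 := Real.sqrt_eq_zero_of_nonpos (not_lt.mp hcon)
    linarith
  have hLt : L = t ^ 2 := (Real.sq_sqrt hL0.le).symm
  have htL : t ≤ L := by rw [hLt]; nlinarith
  have hX0' : (0 : ℝ) < X := by
    by_contra hcon
    have : (X : ℝ) = 0 := le_antisymm (not_lt.mp hcon) (Nat.cast_nonneg _)
    rw [hL, this, Real.log_zero] at hL0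
    exact lt_irrefl _ hL0
  have hX1 : (1 : ℝ) ≤ X := by
    by_contra hcon
    have : Real.log X < 0 := Real.log_neg hX0' (not_le.mp hcon)
    linarith
  have hpow : ∀ g : ℝ, (X : ℝ) ^ g = Real.exp (L * g) := fun g =>
    Real.rpow_def_of_pos hX0' g
  have hc3t : 6 ≤ c3 * t := by
    have : 6 / c3 ≤ t := by linarith
    rwa [div_le_iff₀ h3, mul_comm] at this
  have hKt : 2 * |K| ≤ c3 * t := by
    have : 2 * |K| / c3 ≤ t := by linarith
    rwa [div_le_iff₀ h3, mul_comm t] at this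
  have he1 : (2 : ℝ) ≤ Real.exp 1 := by
    have := Real.add_one_le_exp (1 : ℝ)
    linarith
  -- the floor
  set Y : ℝ := (X : ℝ) ^ c3 with hY
  have hhalf : 2 ≤ (X : ℝ) ^ (c3 / 2) := by
    rw [hpow]
    refine he1.trans (Real.exp_le_exp.mpr ?_)
    nlinarith
  have hYh : Y = (X : ℝ) ^ (c3 / 2) * (X : ℝ) ^ (c3 / 2) := by
    rw [hY, ← Real.rpow_add hX0']
    congr 1
    ring
  have hY2 : 2 * (X : ℝ) ^ (c3 / 2) ≤ Y := by
    rw [hYh]
    exact mul_le_mul_of_nonneg_right hhalf (by positivity)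
  have hfl : Y - 1 < ((⌊Y⌋₊ : ℕ) : ℝ) := by
    have := Nat.lt_floor_add_one Y
    linarith
  have hQh : (X : ℝ) ^ (c3 / 2) ≤ ((⌊Y⌋₊ : ℕ) : ℝ) := by linarith
  set Q : ℝ := ((⌊Y⌋₊ : ℕ) : ℝ) with hQd
  have hexpQ : ∀ s : ℝ, s ≤ c3 * t / 2 → Real.exp (s * t) ≤ Q := by
    intro s hs
    refine le_trans ?_ hQh
    rw [hpow]
    refine Real.exp_le_exp.mpr ?_
    rw [hLt]
    have : s * t ≤ c3 * t / 2 * t := mul_le_mul_of_nonneg_right hs (by linarith)
    linarith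
  have hQe : Real.exp t ≤ Q := by
    have := hexpQ 1 (by linarith)
    rwa [one_mul] at this
  have hQ0 : 0 < Q := lt_of_lt_of_le (Real.exp_pos _) hQe
  refine ⟨?_, hQe, ?_, ?_, ?_, ?_⟩
  · rw [hLt]; nlinarith
  · exact hexpQ K (by linarith [le_abs_self K])
  · have h8 : Q ^ (-e') ≤ (X : ℝ) ^ (-(c3 * e' / 2)) := by
      calc Q ^ (-e') ≤ ((X : ℝ) ^ (c3 / 2)) ^ (-e') :=
            Real.rpow_le_rpow_of_nonpos (Real.rpow_pos_of_pos hX0' _) hQh (by linarith)
        _ = (X : ℝ) ^ (-(c3 * e' / 2)) := by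
            rw [← Real.rpow_mul hX0'.le]
            congr 1
            ring
    calc (X : ℝ) ^ N * Q ^ (-e') ≤ (X : ℝ) ^ N * (X : ℝ) ^ (-(c3 * e' / 2)) :=
          mul_le_mul_of_nonneg_left h8 (by positivity)
      _ = (X : ℝ) ^ (N - c3 * e' / 2) := by
          rw [← Real.rpow_add hX0']
          congr 1
  · have h9 : (Real.exp t) ^ (e / 4) ≤ Q ^ (e / 4) :=
      Real.rpow_le_rpow (Real.exp_pos _).le hQe (by positivity)
    refine le_trans ?_ h9
    rw [← Real.exp_mul]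
    have h10 : |M| ≤ t * (e / 4) := by
      have : 4 * |M| / e ≤ t := by linarith
      rw [div_le_iff₀ he] at this
      linarith
    have h11 := Real.add_one_le_exp (t * (e / 4))
    linarith [le_abs_self M]
  · rw [hpow]
    have h12 : 2 * |M| / η ≤ L := by linarith
    rw [div_le_iff₀ hη] at h12
    have h13 := Real.add_one_le_exp (L * (η / 2))
    linarith [le_abs_self M]

end PFinDAux

open Pool.Agent.Lib.GMV.PFinAux PFinDAux

open scoped Classical in
theorem allXD (c1 c0' c4 : ℝ) (h1 : 0 < c1) (hZ : ZFree c1) (h0 : 0 < c0') (h4 : 0 < c4)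
    (hD : DHz c0' c4) (r : ℕ) (hr : 1 ≤ r) {σ : Type} (P : ℕ → Finset σ) (a : σ → Fin r → ℕ) (N e e' cF K : ℝ)
    (hF : Fam r P a N e e' cF K) :
    ∃ δ κ0 : ℝ, 0 < δ ∧ 0 < κ0 ∧ ∀ η : ℝ, 0 < η → ∃ X0 : ℕ, ∀ X : ℕ, X0 ≤ X →
    ∃ m : ℝ, (X : ℝ) ^ (-η) ≤ m ∧ m ≤ 1 ∧ ABF r P a X ((X : ℝ) ^ (N - δ)) fun a =>
      κ0 * m * (SI (c0 a) * X / Real.log X ^ (r + 1)) ≤
        (((Icc 1 X).filter (fun n => ∀ i, (n + c0 a i).Prime)).card : ℝ) := by
  set k : ℕ := r + 1 with hk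
  have hk0 : (0 : ℝ) < k := by
    rw [hk]; positivity
  set c : ℝ := min (min (c1 / 2) c0') (1 / 2) with hcdef
  have hc : 0 < c := lt_min (lt_min (by linarith) h0) (by norm_num)
  have hcc : c < c1 := by
    have : c ≤ c1 / 2 := (min_le_left _ _).trans (min_le_left _ _)
    linarith
  have hcc0 : c ≤ c0' := (min_le_left _ _).trans (min_le_right _ _)
  have hc12 : c ≤ 1 / 2 := min_le_right _ _
  obtain ⟨a1, C1, c21, ha1, hC1, hc21, X1, hcore⟩ := coreD r hr c1 c hZ hc hcc e hF.e0 hF.e1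
  obtain ⟨a2, B, c22, ha2, hB, hc22, X2, hsum⟩ := sumP k c1 c0' c4 c hZ h4 hD hc hcc hcc0 hc12
  obtain ⟨c23, C3, hc23, hC3, X3, hnorm⟩ := normPD r hr B e hF.e0 hF.e1
  obtain ⟨X5, hexcF⟩ := hF.exc
  have he0 := hF.e0
  have he1' := hF.e1
  have he'0 := hF.e'0
  have hcF := hF.c0'
  obtain ⟨cs, hcs, hsi⟩ := si_ge k (by omega)
  obtain ⟨e1, he1, hs1⟩ := exp_small a1 (C1 * 2 ^ (k + 2)) ha1
  obtain ⟨e2, he2, hs2⟩ := exp_small a2 (64 * B) ha2
  obtain ⟨e3, he3, hs3⟩ := exp_small a2 (16 * 8 ^ k * C3 * B) ha2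
  obtain ⟨c3, hc3, i0, i1, i2, i3, i4, i5, i6, i7⟩ : ∃ c3 : ℝ, 0 < c3 ∧ c3 ≤ 1 / 2 ∧ c3 ≤ c21 ∧
      c3 ≤ c22 ∧ c3 ≤ c23 ∧ c3 ≤ e1 ∧ c3 ≤ e2 ∧ c3 ≤ e3 ∧ c3 ≤ cF := by
    refine ⟨min (1 / 2) (min c21 (min c22 (min c23 (min e1 (min e2 (min e3 cF)))))), ?_, ?_⟩
    · simp only [lt_min_iff]
      exact ⟨by norm_num, hc21, hc22, hc23, he1, he2, he3, hcF⟩
    · have := le_refl (min (1 / 2) (min c21 (min c22 (min c23 (min e1 (min e2 (min e3 cF)))))))
      simp only [le_min_iff] at this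
      exact this
  have hE1 := hs1 c3 hc3 i4
  have hE2 := hs2 c3 hc3 i5
  have hE3 := hs3 c3 hc3 i6
  refine ⟨c3 * e' / 2, 1 / 16 ^ (k + 1), by positivity, by positivity, fun η hη => ?_⟩
  set ε : ℝ := min (η / 2) (e / 4) / k with hεdef
  have hε : 0 < ε := div_pos (lt_min (by linarith) (by linarith)) hk0
  have hkε : k * ε = min (η / 2) (e / 4) := by
    rw [hεdef]; field_simp
  have hkε1 : k * ε ≤ η / 2 := by rw [hkε]; exact min_le_left _ _
  have hkε2 : k * ε ≤ e / 4 := by rw [hkε]; exact min_le_right _ _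
  obtain ⟨C5, hC5, hsieg⟩ := siegZ ε hε
  set κ : ℝ := min 1 C5 with hκdef
  have hκ : 0 < κ := lt_min one_pos hC5
  have hκ1 : κ ≤ 1 := min_le_left _ _
  set M : ℝ := 64 * B + 16 * 8 ^ k * C3 * (B + 1) + 16 * 8 ^ k / cs + 1 with hM
  have m1 : 0 < 64 * B := by positivity
  have m2 : 0 < 16 * 8 ^ k * C3 * (B + 1) := by positivity
  have m3 : 0 < 16 * 8 ^ k / cs := by positivity
  have hM1 : 1 ≤ M := by linarith
  obtain ⟨X4, hlarge⟩ := largeD N c3 (M / κ ^ k) η e e' K hc3 hη he0 he'0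
  refine ⟨max X5 (max (max X1 X2) (max X3 X4)), fun X hX' => ?_⟩
  have hX5 : X5 ≤ X := (le_max_left _ _).trans hX'
  have hX : max (max X1 X2) (max X3 X4) ≤ X := (le_max_right _ _).trans hX'
  have hX1 : X1 ≤ X := ((le_max_left _ _).trans (le_max_left _ _)).trans hX
  have hX2 : X2 ≤ X := ((le_max_right _ _).trans (le_max_left _ _)).trans hX
  have hX3 : X3 ≤ X := ((le_max_left _ _).trans (le_max_right _ _)).trans hX
  have hX4 : X4 ≤ X := ((le_max_right _ _).trans (le_max_right _ _)).trans hX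
  obtain ⟨hL25, hQl, hQK, hcard, hK1, hK2⟩ := hlarge X hX4
  set Q : ℕ := ⌊(X : ℝ) ^ c3⌋₊ with hQ
  set L : ℝ := Real.log X with hL
  have hL0 : 0 < L := by linarith
  have hXr : (0 : ℝ) < X := by
    by_contra hcon
    have : (X : ℝ) = 0 := le_antisymm (not_lt.mp hcon) (Nat.cast_nonneg _)
    rw [hL, this, Real.log_zero] at hL0
    exact lt_irrefl _ hL0
  have hX100 : (26 : ℝ) ≤ X := by
    have h5 := Real.add_one_le_exp L
    rw [hL, Real.exp_log hXr] at h5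
    linarith
  have hX1r : (1 : ℝ) ≤ X := by linarith
  have hXn : 26 ≤ X := by exact_mod_cast hX100
  have hQu : (Q : ℝ) ≤ (X : ℝ) ^ c3 := Nat.floor_le (by positivity)
  have hsq : 5 ≤ Real.sqrt L := by
    rw [show (5 : ℝ) = Real.sqrt 25 by rw [show (25 : ℝ) = 5 ^ 2 by norm_num]; simp]
    exact Real.sqrt_le_sqrt hL25
  have hQ6 : (6 : ℝ) ≤ Q := by
    have h5 := Real.add_one_le_exp (Real.sqrt L)
    linarith
  have hQ0 : (0 : ℝ) < Q := by linarith
  have hQ1 : (1 : ℝ) ≤ Q := by linarith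
  have hlogQ5 : 5 ≤ Real.log Q := by
    refine hsq.trans ?_
    rw [Real.le_log_iff_exp_le hQ0]
    exact hQl
  have hlogQ0 : 0 < Real.log Q := by linarith
  have hlogQu : Real.log Q ≤ c3 * L := by
    have := Real.log_le_log hQ0 hQu
    rwa [Real.log_rpow hXr] at this
  have hlogQL : Real.log Q ≤ L := by
    calc Real.log Q ≤ c3 * L := hlogQu
      _ ≤ 1 * L := mul_le_mul_of_nonneg_right (by linarith) hL0.le
      _ = L := one_mul L
  have hQX : (Q : ℝ) ≤ X := by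
    refine hQu.trans ?_
    calc (X : ℝ) ^ c3 ≤ (X : ℝ) ^ (1 : ℝ) := Real.rpow_le_rpow_of_exponent_le hX1r (by linarith)
      _ = X := Real.rpow_one _
  obtain ⟨G0, hG0, hGd⟩ := hexcF X Q hX5 hQK
    (hQu.trans (Real.rpow_le_rpow_of_exponent_le hX1r i7))
  by_cases hex : ∃ x β, IsExc c Q x β
  · -- there is an exceptional zero
    obtain ⟨xe, β, hexc⟩ := hex
    obtain ⟨hxe, hxe1, hxe2, hxe3, hβ1, hβ2⟩ := hexc
    have hexc : IsExc c Q xe β := ⟨hxe, hxe1, hxe2, hxe3, hβ1, hβ2⟩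
    have hδ0 : 0 < 1 - β := by linarith
    have hδc : (1 - β) * Real.log Q ≤ c := by
      have : 1 - β ≤ c / Real.log Q := by linarith
      rwa [le_div_iff₀ hlogQ0] at this
    have hβ9 : 9 / 10 ≤ β := by
      have : (1 - β) * 5 ≤ (1 - β) * Real.log Q := mul_le_mul_of_nonneg_left hlogQ5 hδ0.le
      linarith
    set u : ℝ := (1 - β) * L with hu
    have hu0 : 0 < u := by positivity
    set v : ℝ := min 1 u with hv
    have hv0 : 0 < v := lt_min one_pos hu0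
    have hv1 : v ≤ 1 := min_le_left _ _
    have hvu : v ≤ u := min_le_right _ _
    have hvQ : (1 - β) * Real.log Q ≤ v := by
      refine le_min (by linarith) ?_
      exact mul_le_mul_of_nonneg_left hlogQL hδ0.le
    have hvQ0 : 0 ≤ (1 - β) * Real.log Q := by positivity
    have hvk1 : v ^ k ≤ 1 := pow_le_one₀ hv0.le hv1
    have hvkv : v ^ k ≤ v := by
      calc v ^ k ≤ v ^ 1 := pow_le_pow_of_le_one hv0.le hv1 (by omega)
        _ = v := pow_one v
    have hvk0 : 0 < v ^ k := by positivity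
    -- Siegel
    have hvκ : κ * (Q : ℝ) ^ (-ε) ≤ v := by
      have h5 := hsieg xe β (mem_Ch.mp hxe).2 hxe1 hxe2 hxe3 hβ9 hβ2
      have h6 : (Q : ℝ) ^ (-ε) ≤ (md xe : ℝ) ^ (-ε) := by
        refine Real.rpow_le_rpow_of_nonpos ?_ ?_ (by linarith)
        · exact_mod_cast md_pos xe
        · exact_mod_cast (mem_Ch.mp hxe).1
      have h7 : 0 < (Q : ℝ) ^ (-ε) := Real.rpow_pos_of_pos hQ0 _
      have h8 : (Q : ℝ) ^ (-ε) ≤ 1 := Real.rpow_le_one_of_one_le_of_nonpos hQ1 (by linarith)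
      refine le_min ?_ ?_
      · calc κ * (Q : ℝ) ^ (-ε) ≤ 1 * 1 := mul_le_mul hκ1 h8 h7.le zero_le_one
          _ = 1 := one_mul 1
      · calc κ * (Q : ℝ) ^ (-ε) ≤ C5 * (Q : ℝ) ^ (-ε) :=
              mul_le_mul_of_nonneg_right (min_le_right _ _) h7.le
          _ ≤ C5 * (md xe : ℝ) ^ (-ε) := mul_le_mul_of_nonneg_left h6 hC5.le
          _ ≤ 1 - β := h5
          _ ≤ (1 - β) * L := le_mul_of_one_le_right hδ0.le (by linarith)
    have hvκk : κ ^ k * (Q : ℝ) ^ (-(k * ε)) ≤ v ^ k := by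
      have h5 : κ ^ k * (Q : ℝ) ^ (-(k * ε)) = (κ * (Q : ℝ) ^ (-ε)) ^ k := by
        rw [mul_pow, ← Real.rpow_natCast ((Q : ℝ) ^ (-ε)), ← Real.rpow_mul hQ0.le]
        congr 2
        ring
      rw [h5]
      exact pow_le_pow_left₀ (by positivity) hvκ k
    have hκk : 0 < κ ^ k := by positivity
    -- the main smallness
    have hsm : M * (Q : ℝ) ^ (-(e / 2)) ≤ v ^ k := by
      refine le_trans ?_ hvκk
      have h5 : M ≤ κ ^ k * (Q : ℝ) ^ (e / 4) := by
        rw [div_le_iff₀ hκk] at hK1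
        linarith
      calc M * (Q : ℝ) ^ (-(e / 2)) ≤
            κ ^ k * (Q : ℝ) ^ (e / 4) * (Q : ℝ) ^ (-(e / 2)) :=
            mul_le_mul_of_nonneg_right h5 (by positivity)
        _ = κ ^ k * (Q : ℝ) ^ (-(e / 4)) := by
            rw [mul_assoc, ← Real.rpow_add hQ0]
            congr 2
            ring
        _ ≤ κ ^ k * (Q : ℝ) ^ (-(k * ε)) := by
            refine mul_le_mul_of_nonneg_left ?_ hκk.le
            exact Real.rpow_le_rpow_of_exponent_le hQ1 (by linarith)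
    have hq30 : 1 / (Q : ℝ) ≤ (Q : ℝ) ^ (-(e / 2)) := by
      rw [one_div, ← Real.rpow_neg_one]
      exact Real.rpow_le_rpow_of_exponent_le hQ1 (by linarith)
    have hq30' : 0 < (Q : ℝ) ^ (-(e / 2)) := Real.rpow_pos_of_pos hQ0 _
    refine ⟨v ^ k, ?_, hvk1, ?_⟩
    · -- the lower bound of `m`
      refine le_trans ?_ hvκk
      have h5 : 1 ≤ κ ^ k * (X : ℝ) ^ (η / 2) := by
        rw [div_le_iff₀ hκk] at hK2
        linarith
      have h6 : (X : ℝ) ^ (-(η / 2)) ≤ (Q : ℝ) ^ (-(k * ε)) := by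
        calc (X : ℝ) ^ (-(η / 2)) ≤ (X : ℝ) ^ (-(k * ε)) :=
              Real.rpow_le_rpow_of_exponent_le hX1r (by linarith)
          _ ≤ (Q : ℝ) ^ (-(k * ε)) :=
              Real.rpow_le_rpow_of_nonpos hQ0 hQX (by
                have : 0 < k * ε := by positivity
                linarith)
      have h7 : (X : ℝ) ^ (-η) = (X : ℝ) ^ (-(η / 2)) * (X : ℝ) ^ (-(η / 2)) := by
        rw [← Real.rpow_add hXr]
        congr 1
        ring
      have h8 : 0 < (X : ℝ) ^ (-(η / 2)) := Real.rpow_pos_of_pos hXr _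
      have h9 : (X : ℝ) ^ (η / 2) * (X : ℝ) ^ (-(η / 2)) = 1 := by
        rw [← Real.rpow_add hXr]
        simp
      calc (X : ℝ) ^ (-η) = 1 * (X : ℝ) ^ (-(η / 2)) * (X : ℝ) ^ (-(η / 2)) := by
            rw [h7, one_mul]
        _ ≤ (κ ^ k * (X : ℝ) ^ (η / 2)) * (X : ℝ) ^ (-(η / 2)) * (X : ℝ) ^ (-(η / 2)) := by
            refine mul_le_mul_of_nonneg_right (mul_le_mul_of_nonneg_right h5 h8.le) h8.le
        _ = κ ^ k * (X : ℝ) ^ (-(η / 2)) := by
            rw [mul_assoc (κ ^ k), h9, mul_one]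
        _ ≤ κ ^ k * (Q : ℝ) ^ (-(k * ε)) := mul_le_mul_of_nonneg_left h6 hκk.le
    -- ranges at `2X`
    have hlog2X : Real.log ((2 * X : ℕ) : ℝ) ≤ 4 * L := by
      push_cast
      rw [Real.log_mul (by norm_num) hXr.ne']
      have : Real.log 2 ≤ Real.log X := Real.log_le_log (by norm_num) (by linarith)
      linarith
    have hexp2 : Real.exp (Real.sqrt (Real.log ((2 * X : ℕ) : ℝ)) / 2) ≤ Q := by
      refine (Real.exp_le_exp.mpr ?_).trans hQl
      have h1 : Real.sqrt (Real.log ((2 * X : ℕ) : ℝ)) ≤ 2 * Real.sqrt L := by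
        calc Real.sqrt (Real.log ((2 * X : ℕ) : ℝ)) ≤ Real.sqrt (4 * L) :=
              Real.sqrt_le_sqrt hlog2X
          _ = 2 * Real.sqrt L := by
              rw [Real.sqrt_mul (by norm_num), show (4 : ℝ) = 2 ^ 2 by norm_num]; simp
      linarith
    have hXc : ∀ g : ℝ, c3 ≤ g → (Q : ℝ) ≤ ((2 * X : ℕ) : ℝ) ^ g := by
      intro g he
      calc (Q : ℝ) ≤ (X : ℝ) ^ c3 := hQu
        _ ≤ (X : ℝ) ^ g := Real.rpow_le_rpow_of_exponent_le hX1r he
        _ ≤ ((2 * X : ℕ) : ℝ) ^ g := by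
            refine Real.rpow_le_rpow hXr.le ?_ (hc3.le.trans he)
            push_cast; linarith
    set E : ℝ := B * (((1 - β) * Real.log Q) ^ k * Er a2 (2 * X) Q + 1 / Q) with hE
    obtain ⟨b, hb1, hb2, hb3, hb4, hb5⟩ := hsum (2 * X) Q (by omega) ⟨hexp2, hXc c22 i2⟩ xe β
      hexc E rfl
    have hEr0 : 0 < Er a2 (2 * X) Q := Real.exp_pos _
    have hlog2X' : L ≤ Real.log ((2 * X : ℕ) : ℝ) := by
      refine Real.log_le_log hXr ?_
      push_cast; linarith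
    have hEr : Er a2 (2 * X) Q ≤ Real.exp (-(a2 / c3)) := by
      refine Er_le ha2 hc3 hlogQ0 (hlogQu.trans ?_)
      exact mul_le_mul_of_nonneg_left hlog2X' hc3.le
    have hE0 : 0 ≤ E := by positivity
    have hpowk : ((1 - β) * Real.log Q) ^ k ≤ v ^ k := pow_le_pow_left₀ hvQ0 hvQ k
    have hE4 : E ≤ B * Real.exp (-(a2 / c3)) * v ^ k + B * (Q : ℝ) ^ (-(e / 2)) := by
      rw [hE]
      have h5 : ((1 - β) * Real.log Q) ^ k * Er a2 (2 * X) Q ≤ v ^ k * Real.exp (-(a2 / c3)) :=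
        mul_le_mul hpowk hEr hEr0.le hvk0.le
      calc B * (((1 - β) * Real.log Q) ^ k * Er a2 (2 * X) Q + 1 / Q)
          ≤ B * (v ^ k * Real.exp (-(a2 / c3)) + (Q : ℝ) ^ (-(e / 2))) :=
            mul_le_mul_of_nonneg_left (add_le_add h5 hq30) hB.le
        _ = _ := by ring
    have hM64 : 64 * B * (Q : ℝ) ^ (-(e / 2)) ≤ v ^ k := by
      refine le_trans (mul_le_mul_of_nonneg_right ?_ hq30'.le) hsm
      linarith
    have hEv : E ≤ v / 32 := by
      have h5 : 64 * B * Real.exp (-(a2 / c3)) * v ^ k ≤ v ^ k := by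
        calc 64 * B * Real.exp (-(a2 / c3)) * v ^ k ≤ 1 * v ^ k :=
              mul_le_mul_of_nonneg_right hE2 hvk0.le
          _ = _ := one_mul _
      linarith
    have hm1 : v / 8 ≤ 1 := by linarith
    have hmain := hnorm X Q hX3 ⟨hexp2, hXc c23 i3⟩ b hb1 hb2 xe E (v / 8) hxe hxe1
      hxe2 hE0 (by positivity) hm1 hb3 (by
        intro n hn1 hn2
        have h5 := hb4 n hn1 hn2
        have h6 := hb5 n
        have h7 : 1 - E ≤ (Mc (2 * X) Q one n).re := by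
          have h8 := (Complex.abs_re_le_norm (Mc (2 * X) Q one n - 1)).trans h5
          rw [Complex.sub_re, Complex.one_re] at h8
          have := (abs_le.mp h8).1
          linarith
        have h9 : |(Mc (2 * X) Q xe n).re| ≤ (((2 * X : ℕ) : ℝ) / Q) ^ (β - 1) + E :=
          (Complex.abs_re_le_norm _).trans h6
        have h10 : (((2 * X : ℕ) : ℝ) / Q) ^ (β - 1) ≤ 1 - v / 4 := by
          have h11 : 0 < ((2 * X : ℕ) : ℝ) := by
            push_cast; linarith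
          have h12 : Real.log (((2 * X : ℕ) : ℝ) / Q) = Real.log ((2 * X : ℕ) : ℝ) - Real.log Q :=
            Real.log_div h11.ne' hQ0.ne'
          have h13 : L / 2 ≤ Real.log (((2 * X : ℕ) : ℝ) / Q) := by
            rw [h12]
            have : c3 * L ≤ 1 / 2 * L := mul_le_mul_of_nonneg_right i0 hL0.le
            linarith
          rw [Real.rpow_def_of_pos (by positivity)]
          have h14 : Real.log (((2 * X : ℕ) : ℝ) / Q) * (β - 1) ≤ -(v / 2) := by
            have : v / 2 ≤ (1 - β) * (L / 2) := by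
              rw [hu] at hvu
              linarith
            have h15 : (1 - β) * (L / 2) ≤ (1 - β) * Real.log (((2 * X : ℕ) : ℝ) / Q) :=
              mul_le_mul_of_nonneg_left h13 hδ0.le
            linarith
          refine (Real.exp_le_exp.mpr h14).trans ?_
          have := exp_neg_le (t := v / 2) (by positivity) (by linarith)
          linarith
        linarith)
    refine ⟨G0, hG0.trans hcard, ?_⟩
    intro t ht htG hinj hnu
    have h5 := hmain (a t) (hF.mem X t ht) (hGd t ht htG) hinj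
    set S : ℝ := SI (c0 (a t)) with hS
    have hScs : cs ≤ S := hsi (c0 (a t)) hinj hnu
    have hS0 : 0 < S := hcs.trans_le hScs
    set Nn : ℝ := (((Icc 1 X).filter (fun n => ∀ i, (n + c0 (a t) i).Prime)).card : ℝ) with hN
    have hN0 : 0 ≤ Nn := Nat.cast_nonneg _
    have hlog4 : Real.log (4 * X) ≤ 2 * L := by
      rw [Real.log_mul (by norm_num) hXr.ne']
      have : Real.log 4 ≤ Real.log X := Real.log_le_log (by norm_num) (by linarith)
      linarith
    have hlog40 : 0 ≤ Real.log (4 * X) := Real.log_nonneg (by linarith)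
    have h6 : Nn * Real.log (4 * X) ^ (r + 1) ≤ Nn * (2 * L) ^ k :=
      mul_le_mul_of_nonneg_left (pow_le_pow_left₀ hlog40 hlog4 _) hN0
    -- the error terms
    have g1 : C3 * (E + 1 / Q) ≤ v ^ k / (16 * 8 ^ k) + v ^ k / (16 * 8 ^ k) := by
      have g2 : 16 * 8 ^ k * C3 * B * Real.exp (-(a2 / c3)) * v ^ k ≤ v ^ k := by
        calc 16 * 8 ^ k * C3 * B * Real.exp (-(a2 / c3)) * v ^ k ≤ 1 * v ^ k :=
              mul_le_mul_of_nonneg_right hE3 hvk0.le
          _ = _ := one_mul _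
      have g3 : 16 * 8 ^ k * C3 * (B + 1) * (Q : ℝ) ^ (-(e / 2)) ≤ v ^ k := by
        refine le_trans (mul_le_mul_of_nonneg_right ?_ hq30'.le) hsm
        linarith
      have g4 : C3 * (E + 1 / Q) ≤ C3 * (B * Real.exp (-(a2 / c3)) * v ^ k +
          (B + 1) * (Q : ℝ) ^ (-(e / 2))) := by
        refine mul_le_mul_of_nonneg_left ?_ hC3.le
        linarith
      have g5 : (0 : ℝ) < 16 * 8 ^ k := by positivity
      have g6 : C3 * (B * Real.exp (-(a2 / c3)) * v ^ k) ≤ v ^ k / (16 * 8 ^ k) := by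
        rw [le_div_iff₀ g5]
        linarith
      have g7 : C3 * ((B + 1) * (Q : ℝ) ^ (-(e / 2))) ≤ v ^ k / (16 * 8 ^ k) := by
        rw [le_div_iff₀ g5]
        linarith
      calc C3 * (E + 1 / Q) ≤ _ := g4
        _ = C3 * (B * Real.exp (-(a2 / c3)) * v ^ k) +
            C3 * ((B + 1) * (Q : ℝ) ^ (-(e / 2))) := by ring
        _ ≤ _ := add_le_add g6 g7
    have g8 : (X : ℝ) * (Q : ℝ) ^ (-(e / 2)) ≤ S * (X * (v ^ k / (16 * 8 ^ k))) := by
      have g9 : 16 * 8 ^ k / cs * (Q : ℝ) ^ (-(e / 2)) ≤ v ^ k := by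
        refine le_trans (mul_le_mul_of_nonneg_right ?_ hq30'.le) hsm
        linarith
      have g10 : (Q : ℝ) ^ (-(e / 2)) ≤ cs * (v ^ k / (16 * 8 ^ k)) := by
        rw [div_mul_eq_mul_div, div_le_iff₀ hcs] at g9
        rw [mul_div_assoc', le_div_iff₀ (by positivity)]
        linarith
      have g11 : cs * (v ^ k / (16 * 8 ^ k)) ≤ S * (v ^ k / (16 * 8 ^ k)) :=
        mul_le_mul_of_nonneg_right hScs (by positivity)
      calc (X : ℝ) * (Q : ℝ) ^ (-(e / 2)) ≤ X * (S * (v ^ k / (16 * 8 ^ k))) :=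
            mul_le_mul_of_nonneg_left (g10.trans g11) hXr.le
        _ = _ := by ring
    have g12 : S * (X * (v ^ k / (16 * 8 ^ k))) ≤ Nn * (2 * L) ^ k := by
      have g13 : (v / 8) ^ (r + 1) * X / 4 = X * (4 * (v ^ k / (16 * 8 ^ k))) := alg2 v X k
      rw [g13] at h5
      have g14 : S * (C3 * X * (E + 1 / Q)) ≤
          S * (X * (v ^ k / (16 * 8 ^ k) + v ^ k / (16 * 8 ^ k))) := by
        refine mul_le_mul_of_nonneg_left ?_ hS0.le
        calc C3 * X * (E + 1 / Q) = X * (C3 * (E + 1 / Q)) := by ring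
          _ ≤ _ := mul_le_mul_of_nonneg_left g1 hXr.le
      have g15 : S * (X * (4 * (v ^ k / (16 * 8 ^ k))) - C3 * X * (E + 1 / Q)) =
          4 * (S * (X * (v ^ k / (16 * 8 ^ k)))) - S * (C3 * X * (E + 1 / Q)) := by ring
      have g16 : S * (X * (v ^ k / (16 * 8 ^ k) + v ^ k / (16 * 8 ^ k))) =
          2 * (S * (X * (v ^ k / (16 * 8 ^ k)))) := by ring
      rw [g15] at h5
      rw [g16] at g14
      linarith
    have g17 : 1 / 16 ^ (k + 1) * v ^ k * (S * X / L ^ (r + 1)) =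
        S * (X * (v ^ k / (16 * 8 ^ k))) / (2 * L) ^ k := alg3 S X L v k hL0
    rw [g17, div_le_iff₀ (by positivity)]
    exact g12
  · -- no exceptional zero
    obtain ⟨q, hq, hmain⟩ := hcore X Q hX1 hQl
      (hQu.trans (Real.rpow_le_rpow_of_exponent_le hX1r i1))
    have hq0 : q = 0 := by
      rcases hq with ⟨h5, -⟩ | ⟨xe, β, h5, -⟩
      · exact h5
      · exact absurd ⟨xe, β, h5⟩ hex
    refine ⟨1, Real.rpow_le_one_of_one_le_of_nonpos hX1r (by linarith), le_refl 1, G0,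
      hG0.trans hcard, ?_⟩
    intro t ht htG hinj hnu
    have ha := hF.mem X t ht
    have h5 := hmain (a t) ha (hGd t ht htG) hinj hnu X le_rfl
    set S : ℝ := SI (c0 (a t)) with hS
    have hScs : cs ≤ S := hsi (c0 (a t)) hinj hnu
    have hS0 : 0 < S := hcs.trans_le hScs
    set Nn : ℝ := (((Icc 1 X).filter (fun n => ∀ i, (n + c0 (a t) i).Prime)).card : ℝ) with hN
    have hG : Gq q (c0 (a t)) = 0 := by
      rw [hq0]
      unfold Gq
      simp
    rw [hG, add_zero] at h5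
    have hEr : Er a1 X Q ≤ Real.exp (-(a1 / c3)) := Er_le ha1 hc3 hlogQ0 hlogQu
    have hCE : C1 * Er a1 X Q ≤ 1 / 2 ^ (k + 2) := by
      rw [le_div_iff₀ (by positivity)]
      calc C1 * Er a1 X Q * 2 ^ (k + 2) ≤ C1 * Real.exp (-(a1 / c3)) * 2 ^ (k + 2) :=
            mul_le_mul_of_nonneg_right (mul_le_mul_of_nonneg_left hEr hC1.le) (by positivity)
        _ = C1 * 2 ^ (k + 2) * Real.exp (-(a1 / c3)) := by ring
        _ ≤ 1 := hE1
    -- the sum of the inverse logarithms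
    have hsumlow : (X : ℝ) / (2 * (2 * L) ^ k) ≤
        ∑ n ∈ Icc 2 X, ∏ i, (Real.log (n + c0 (a t) i))⁻¹ := by
      have h6 : ∀ n ∈ Icc 2 X, ((2 * L) ^ k)⁻¹ ≤ ∏ i, (Real.log ((n : ℝ) + c0 (a t) i))⁻¹ := by
        intro n hn
        rw [mem_Icc] at hn
        have h7 : ∏ _i : Fin (r + 1), (2 * L)⁻¹ = ((2 * L) ^ k)⁻¹ := by
          rw [prod_const, card_univ, Fintype.card_fin, inv_pow]
        rw [← h7]
        refine Finset.prod_le_prod (fun i _ => by positivity) (fun i _ => ?_)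
        have h8 : (2 : ℝ) ≤ n := by exact_mod_cast hn.1
        have h9 : (n : ℝ) ≤ X := by exact_mod_cast hn.2
        have h10 : (0 : ℝ) ≤ (c0 (a t) i : ℝ) := Nat.cast_nonneg _
        have h11 : (c0 (a t) i : ℝ) ≤ X := by
          have : c0 (a t) i ≤ X := by
            refine Fin.cases ?_ (fun j => ?_) i
            · simp [c0]
            · have := (Fintype.mem_piFinset.mp ha j)
              rw [mem_range] at this
              simp only [c0, Fin.cons_succ]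
              omega
          exact_mod_cast this
        have h12 : 0 < Real.log ((n : ℝ) + c0 (a t) i) := Real.log_pos (by linarith)
        refine inv_anti₀ h12 ?_
        calc Real.log ((n : ℝ) + c0 (a t) i) ≤ Real.log (X * X) := by
              refine Real.log_le_log (by linarith) ?_
              calc (n : ℝ) + c0 (a t) i ≤ 2 * X := by linarith
                _ ≤ X * X := mul_le_mul_of_nonneg_right (by linarith) hXr.le
          _ = 2 * L := by
              rw [Real.log_mul hXr.ne' hXr.ne']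
              ring
      have h13 := Finset.sum_le_sum h6
      rw [sum_const, Nat.card_Icc, nsmul_eq_mul] at h13
      refine le_trans ?_ h13
      have h14 : ((X + 1 - 2 : ℕ) : ℝ) = X - 1 := by
        rw [Nat.cast_sub (by omega)]
        push_cast
        ring
      rw [h14, ← div_eq_mul_inv, div_le_div_iff₀ (by positivity) (by positivity)]
      have h15 : 0 < (2 * L) ^ k := by positivity
      have h24 : 0 ≤ ((X : ℝ) - 2) * (2 * L) ^ k := mul_nonneg (by linarith) h15.le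
      linarith
    have h16 := (abs_le.mp h5).1
    have h17 : S * ((X : ℝ) / (2 * (2 * L) ^ k)) ≤
        S * ∑ n ∈ Icc 2 X, ∏ i, (Real.log (n + c0 (a t) i))⁻¹ :=
      mul_le_mul_of_nonneg_left hsumlow hS0.le
    have h18 : S * ((X : ℝ) / (2 * (2 * L) ^ k)) = 2 / 2 ^ (k + 2) * (S * X / L ^ (r + 1)) :=
      alg1 S X L k hL0
    have h19 : 0 < S * X / L ^ (r + 1) := by positivity
    have h20 : C1 * (S * X / L ^ (r + 1)) * Er a1 X Q ≤
        1 / 2 ^ (k + 2) * (S * X / L ^ (r + 1)) := by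
      calc C1 * (S * X / L ^ (r + 1)) * Er a1 X Q = C1 * Er a1 X Q * (S * X / L ^ (r + 1)) := by
            ring
        _ ≤ _ := mul_le_mul_of_nonneg_right hCE h19.le
    have h21 : (1 : ℝ) / 16 ^ (k + 1) ≤ 1 / 2 ^ (k + 2) := by
      refine one_div_le_one_div_of_le (by positivity) ?_
      calc (2 : ℝ) ^ (k + 2) ≤ 2 ^ (4 * (k + 1)) :=
            pow_le_pow_right₀ (by norm_num) (by omega)
        _ = 16 ^ (k + 1) := by
            rw [pow_mul]; norm_num
    have h22 : 1 / 16 ^ (k + 1) * (S * X / L ^ (r + 1)) ≤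
        1 / 2 ^ (k + 2) * (S * X / L ^ (r + 1)) := mul_le_mul_of_nonneg_right h21 h19.le
    have h23 : 2 / 2 ^ (k + 2) * (S * X / L ^ (r + 1)) =
        1 / 2 ^ (k + 2) * (S * X / L ^ (r + 1)) + 1 / 2 ^ (k + 2) * (S * X / L ^ (r + 1)) := by
      ring
    rw [mul_one]
    linarith


open scoped Classical in
theorem posD (r : ℕ) (hr : 1 ≤ r) {σ : Type} (P : ℕ → Finset σ) (a : σ → Fin r → ℕ) (N e e' cF K : ℝ)
    (hF : Fam r P a N e e' cF K) :
    ∃ δ κ0 : ℝ, 0 < δ ∧ 0 < κ0 ∧ ∀ η : ℝ, 0 < η → ∃ X0 : ℕ, ∀ X : ℕ, X0 ≤ X →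
    ∃ m : ℝ, (X : ℝ) ^ (-η) ≤ m ∧ m ≤ 1 ∧ ABF r P a X ((X : ℝ) ^ (N - δ)) fun a =>
      (X : ℝ) ^ (1 - η) ≤ (((Icc 1 X).filter (fun n => ∀ i, (n + c0 a i).Prime)).card : ℝ) ∧
      κ0 * m * (SI (c0 a) * X / Real.log X ^ (r + 1)) ≤
        (((Icc 1 X).filter (fun n => ∀ i, (n + c0 a i).Prime)).card : ℝ) := by
  obtain ⟨c1, hc1, hZ⟩ := zero_free
  obtain ⟨c0', c4, h0, h4, hD⟩ := heilbronn
  obtain ⟨δ, κ0, hδ, hκ, H⟩ := allXD c1 c0' c4 hc1 hZ h0 h4 hD r hr P a N e e' cF K hF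
  obtain ⟨c, hc, hsi⟩ := si_ge (r + 1) (by omega)
  refine ⟨δ, κ0, hδ, hκ, fun η hη => ?_⟩
  obtain ⟨X0, hX0⟩ := H (η / 2) (by positivity)
  obtain ⟨X1, hX1, hg⟩ := PosFinAux.growth (r + 1) (η := η / 2) (A := κ0 * c) (by positivity)
    (by positivity)
  refine ⟨max X0 X1, fun X hX => ?_⟩
  obtain ⟨m, hm1, hm2, G, hG, hGa⟩ := hX0 X ((le_max_left _ _).trans hX)
  have hgX := hg X ((le_max_right _ _).trans hX)
  have hX3 : (3 : ℝ) ≤ X := by
    have : 3 ≤ X := hX1.trans ((le_max_right _ _).trans hX)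
    exact_mod_cast this
  have hXp : (0 : ℝ) < X := by linarith
  have hX1' : (1 : ℝ) ≤ X := by linarith
  refine ⟨m, (Real.rpow_le_rpow_of_exponent_le hX1' (by linarith)).trans hm1, hm2, G, hG,
    fun t ht htG hinj hadm => ⟨?_, hGa t ht htG hinj hadm⟩⟩
  refine le_trans ?_ (hGa t ht htG hinj hadm)
  have hlog : 0 < Real.log X := Real.log_pos (by linarith)
  have hs := hsi (c0 (a t)) hinj hadm
  have hlp : 0 < Real.log X ^ (r + 1) := pow_pos hlog _
  have h1 : (X : ℝ) ^ (1 - η) = (X : ℝ) ^ (-(η / 2)) * ((X : ℝ) / (X : ℝ) ^ (η / 2)) := by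
    rw [show (1 : ℝ) - η = -(η / 2) + (1 - η / 2) by ring, Real.rpow_add hXp,
      Real.rpow_sub hXp, Real.rpow_one]
  have h2 : (X : ℝ) / (X : ℝ) ^ (η / 2) ≤ κ0 * c * (X / Real.log X ^ (r + 1)) := by
    have hxe : 0 < (X : ℝ) ^ (η / 2) := Real.rpow_pos_of_pos hXp _
    rw [← mul_div_assoc, div_le_div_iff₀ hxe hlp]
    calc (X : ℝ) * Real.log X ^ (r + 1) ≤ X * (κ0 * c * (X : ℝ) ^ (η / 2)) :=
          mul_le_mul_of_nonneg_left hgX hXp.le
      _ = κ0 * c * X * (X : ℝ) ^ (η / 2) := by ring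
  rw [h1]
  have h3 : 0 ≤ (X : ℝ) ^ (-(η / 2)) := Real.rpow_nonneg hXp.le _
  have h4 : 0 < (X : ℝ) / Real.log X ^ (r + 1) := div_pos hXp hlp
  calc (X : ℝ) ^ (-(η / 2)) * ((X : ℝ) / (X : ℝ) ^ (η / 2))
      ≤ (X : ℝ) ^ (-(η / 2)) * (κ0 * c * (X / Real.log X ^ (r + 1))) :=
        mul_le_mul_of_nonneg_left h2 h3
    _ ≤ m * (κ0 * c * (X / Real.log X ^ (r + 1))) :=
        mul_le_mul_of_nonneg_right hm1 (by positivity)
    _ ≤ m * (κ0 * SI (c0 (a t)) * (X / Real.log X ^ (r + 1))) := by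
        have hm : 0 ≤ m := h3.trans hm1
        gcongr
    _ = κ0 * m * (SI (c0 (a t)) * X / Real.log X ^ (r + 1)) := by ring

end Pool.Agent.DSH
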