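import Pool.Agent.Lib.DSH.Defs
import Pool.Agent.Lib.DSH.NormD
import Pool.Agent.Lib.GMV.PNorm

/-!
# DSH.PNormD (1.5 h): lower bound for a single tuple

PROOF. `PNormDAux.core` is the inner part of the proof of `GMV.freeP` (everything outside the exceptional set), with a general bound `R` for the difference
between the primes and the model; it is used at the scale `2X`, `k = r + 1`, `h i = 1 + c0 a i`, `y = X - 1`, `R = X Q^(-e)` (from `Dv e r X Q a`), and then `PNormAux.up` with `t = 1`, `H = 1`: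
`∑_{n ≤ X-1} ∏ W (2X) Q (n + (1 + c0 a i)) ≤ count · log(4X)^(r+1)` (`W ≤ lp`); `SI_shift`.
-/

set_option autoImplicit false

open Finset Filter

namespace Pool.Agent.DSH

open Pool.Agent.HLB Pool.Agent.HLT Pool.Agent.HLR Pool.Agent.Lib.GMV Pool.Agent.BLF

namespace PNormDAux

open scoped Classical in
/-- One tuple `h ∈ [1, X]^k`, with a bound `R` for the difference between the primes and the model. -/
theorem core (k : ℕ) (hk : 1 ≤ k) (B : ℝ) : ∃ c C : ℝ, 0 < c ∧ 0 < C ∧ ∃ X0 : ℕ,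
    ∀ X Q : ℕ, X0 ≤ X → Rg c X Q → ∀ b : CI → ℝ, (∀ x ∈ Ch Q, ∀ n, ‖Mc X Q x n‖ ≤ b x) →
    ∑ x ∈ Ch Q, b x ≤ B → ∀ (xe : CI) (E m : ℝ), xe ∈ Ch Q → xe.2 ≠ 1 → xe.2 ^ 2 = 1 →
    0 ≤ E → 0 ≤ m → m ≤ 1 → ∑ x ∈ Ch Q \ {one, xe}, b x ≤ E →
    (∀ n : ℕ, 3 * X ≤ n * Q → n * Q + X ≤ 2 * X * Q →
      m ≤ (Mc X Q one n).re - |(Mc X Q xe n).re|) →
    ∀ y : ℕ, y ≤ X → ∀ h : Fin k → ℕ, h ∈ Tup k (Icc 1 X) → Function.Injective h → ∀ R : ℝ,
    ‖∑ n ∈ Icc 1 y, ∏ i, (W X Q (n + h i) : ℂ) -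
      ∑ n ∈ Icc 1 y, ∏ i, LL X Q (Q ^ (8 * k)) (n + h i)‖ ≤ R →
    2 ≤ (Q : ℝ) ∧ SI h * (m ^ k * y / 2 - C * X * (E + 1 / Q)) - (X / Q + R) ≤
      ∑ n ∈ Icc 1 y, ∏ i, W X Q (n + h i) := by
  obtain ⟨cm, C1, hcm, hC1, X2, hmain⟩ := mainT k hk B
  obtain ⟨X3, hsps⟩ := sps k hk
  refine ⟨min 1 cm, 10 + 2 * C1, lt_min one_pos hcm, by positivity,
    max X2 (max X3 ⌈Real.exp 19600⌉₊), ?_⟩
  intro X Q hX hRg b hb hB xe E m hxe hne h2 hE hm hm1 hbE hlow y hy h hT hinj R hcon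
  have hX2 : X2 ≤ X := le_trans (le_max_left _ _) hX
  have hX3 : X3 ≤ X := le_trans (le_trans (le_max_left _ _) (le_max_right _ _)) hX
  have hX4 : ⌈Real.exp 19600⌉₊ ≤ X := le_trans (le_trans (le_max_right _ _) (le_max_right _ _)) hX
  have hXpos : 1 ≤ X := by
    refine le_trans ?_ hX4
    rw [Nat.one_le_ceil_iff]
    exact Real.exp_pos _
  have hR2 : Rg cm X Q := PFreeAux.Rg_mono hXpos (min_le_right _ _) hRg
  have hR3 : Rg 1 X Q := PFreeAux.Rg_mono hXpos (min_le_left _ _) hRg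
  have hQ100 := PFreeAux.Q_large hX4 hRg
  have hQ2 : (2 : ℝ) ≤ Q := by
    by_contra hcon
    have h1 : Q ≤ 1 := by
      by_contra h
      push Not at h
      exact hcon (by exact_mod_cast h)
    have h3 : (Q : ℝ) ^ (1 / 100 : ℝ) ≤ 1 :=
      Real.rpow_le_one (Nat.cast_nonneg _) (by exact_mod_cast h1) (by norm_num)
    linarith
  have hQ1 : 1 ≤ Q := by
    have : (1 : ℝ) ≤ Q := by linarith
    exact_mod_cast this
  have hQ0 : (0 : ℝ) < Q := by linarith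
  have hXr : (0 : ℝ) < X := by exact_mod_cast hXpos
  have hQX : (Q : ℝ) ≤ X := by
    have := hR3.2
    rwa [Real.rpow_one] at this
  have hxone : xe ≠ one := by
    rintro rfl
    exact hne rfl
  have hM : ({one, xe} : Finset CI) ⊆ Ch Q := by
    intro x hx
    rw [Finset.mem_insert, Finset.mem_singleton] at hx
    rcases hx with rfl | rfl
    · exact one_mem_Ch hQ1
    · exact hxe
  have hmdY : md xe ≤ Q ^ (8 * k) := by
    refine (mem_Ch.mp hxe).1.trans ?_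
    calc Q = Q ^ 1 := (pow_one Q).symm
      _ ≤ Q ^ (8 * k) := Nat.pow_le_pow_right hQ1 (by omega)
  have hTm : ∀ i, 1 ≤ h i ∧ h i ≤ X := by
    intro i
    have h1 := Fintype.mem_piFinset.mp hT i
    exact Finset.mem_Icc.mp h1
  have hT' : h ∈ Tup k (range (X + 1)) := by
    refine Fintype.mem_piFinset.mpr fun i => ?_
    rw [Finset.mem_range]
    have := (hTm i).2
    omega
  have hs := hsps X Q hX3 hR3 h hT' hinj
  have hSI := SI_nonneg h hinj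
  set SIh := SI h with hSIh
  set SZh := SZ (Q ^ (8 * k)) h with hSZh
  have hSZ0 : 0 ≤ SZh := SZ_nonneg _ _
  have hQi : 1 / (Q : ℝ) ≤ 1 / 2 := one_div_le_one_div_of_le (by norm_num) hQ2
  have hs2 : SIh / Q ≤ SIh / 2 := by
    have : SIh * (1 / Q) ≤ SIh * (1 / 2) := mul_le_mul_of_nonneg_left hQi hSI
    calc SIh / Q = SIh * (1 / Q) := by ring
      _ ≤ SIh * (1 / 2) := this
      _ = SIh / 2 := by ring
  have hs3 := abs_le.mp hs
  have hlo : SIh / 2 ≤ SZh := by linarith [hs3.1]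
  have hup : SZh ≤ 2 * SIh := by linarith [hs3.2]
  -- the main term
  have hmt := hmain X Q hX2 hR2 b hb hB {one, xe} E hM hbE h hT hinj y hy
  have hpos := posM X Q (Q ^ (8 * k)) y xe hxone h2 hmdY h
  rw [← hSZh] at hmt hpos
  set T := ∑ x ∈ Fintype.piFinset (fun _ : Fin k => ({one, xe} : Finset CI)),
      TP (Q ^ (8 * k)) x h * ∑ n ∈ Icc 1 y, ∏ i, Mc X Q (x i) (n + h i) with hTdef
  set NN := ∑ n ∈ Icc 1 y, ∏ i, LL X Q (Q ^ (8 * k)) (n + h i) with hNN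
  set S := ∑ n ∈ Icc 1 y, ∏ i, W X Q (n + h i) with hS
  have hSC : ∑ n ∈ Icc 1 y, ∏ i, (W X Q (n + h i) : ℂ) = (S : ℂ) := by
    rw [hS]
    push_cast
    rfl
  rw [hSC] at hcon
  have e1 : NN.re - S ≤ R := by
    have h3 : |((S : ℂ) - NN).re| ≤ ‖(S : ℂ) - NN‖ := Complex.abs_re_le_norm _
    rw [Complex.sub_re, Complex.ofReal_re] at h3
    have h4 := (abs_le.mp (h3.trans hcon)).1
    linarith
  have e2 : T.re - NN.re ≤ C1 * SZh * X * E + X / Q := by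
    have h3 : |(NN - T).re| ≤ ‖NN - T‖ := Complex.abs_re_le_norm _
    rw [Complex.sub_re] at h3
    have h4 := (abs_le.mp (h3.trans hmt)).1
    linarith
  -- the lower bound of the positive sum
  set P := ∑ n ∈ Icc 1 y, ∏ i, ((Mc X Q one (n + h i)).re - |(Mc X Q xe (n + h i)).re|) with hP
  set G := (Icc 1 y).filter (fun n => ∀ i, 3 * X ≤ (n + h i) * Q ∧
      (n + h i) * Q + X ≤ 2 * X * Q) with hG
  have e3 : m ^ k * G.card ≤ P := by
    have h3 : ∑ n ∈ G, m ^ k ≤ ∑ n ∈ G, ∏ i, ((Mc X Q one (n + h i)).re -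
        |(Mc X Q xe (n + h i)).re|) := by
      refine Finset.sum_le_sum fun n hn => ?_
      rw [hG, Finset.mem_filter] at hn
      calc m ^ k = ∏ _i : Fin k, m := by
            rw [Finset.prod_const, Finset.card_univ, Fintype.card_fin]
        _ ≤ _ := Finset.prod_le_prod (fun i _ => hm) fun i _ =>
            hlow (n + h i) (hn.2 i).1 (hn.2 i).2
    have h4 : ∑ n ∈ G, ∏ i, ((Mc X Q one (n + h i)).re -
        |(Mc X Q xe (n + h i)).re|) ≤ P := by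
      rw [hP]
      refine Finset.sum_le_sum_of_subset_of_nonneg (Finset.filter_subset _ _) fun n _ _ => ?_
      exact Finset.prod_nonneg fun i _ => posM_nonneg X Q xe (n + h i)
    rw [Finset.sum_const, nsmul_eq_mul] at h3
    linarith
  have hmk0 : 0 ≤ m ^ k := pow_nonneg hm k
  have hmk1 : m ^ k ≤ 1 := pow_le_one₀ hm hm1
  have hcount := PFreeAux.count (Q := Q) hQ1 hy h fun i => (hTm i).2
  have e4 : m ^ k * y - 5 * X / Q ≤ P := by
    have h3 : m ^ k * (y - (4 * X / Q + 1)) ≤ m ^ k * G.card := by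
      refine mul_le_mul_of_nonneg_left ?_ hmk0
      convert hcount using 3
    have h4 : m ^ k * (4 * X / Q + 1) ≤ 1 * (4 * X / Q + 1) :=
      mul_le_mul_of_nonneg_right hmk1 (by positivity)
    have h5 : 1 ≤ (X : ℝ) / Q := by
      rw [le_div_iff₀ hQ0]
      linarith
    have h6 : (5 * X / Q : ℝ) = 4 * X / Q + X / Q := by ring
    rw [h6]
    nlinarith
  -- combine
  have e6 : SZh * (m ^ k * y - 5 * X / Q) ≤ T.re :=
    (mul_le_mul_of_nonneg_left e4 hSZ0).trans hpos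
  have e7 : SIh * (m ^ k * y / 2) ≤ SZh * (m ^ k * y) := by
    have h3 : 0 ≤ m ^ k * y := by positivity
    have h4 := mul_le_mul_of_nonneg_right hlo h3
    linarith
  have e8 : SZh * (5 * X / Q) ≤ 2 * SIh * (5 * X / Q) :=
    mul_le_mul_of_nonneg_right hup (by positivity)
  have e9 : C1 * SZh * X * E ≤ 2 * C1 * SIh * X * E := by
    have h3 : 0 ≤ C1 * X * E := by positivity
    have h4 := mul_le_mul_of_nonneg_right hup h3
    linarith
  have e10 : SIh * ((10 + 2 * C1) * X * (E + 1 / Q)) =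
      2 * SIh * (5 * X / Q) + 2 * C1 * SIh * X * E + (10 * SIh * X * E +
        2 * C1 * SIh * X / Q) := by ring
  have e11 : 0 ≤ 10 * SIh * X * E + 2 * C1 * SIh * X / Q := by positivity
  refine ⟨hQ2, ?_⟩
  rw [mul_sub, e10]
  rw [mul_sub] at e6
  linarith

end PNormDAux

open PNormDAux

open scoped Classical in
theorem normPD (r : ℕ) (hr : 1 ≤ r) (B e : ℝ) (he : 0 < e) (he2 : e ≤ 1 / 2) : ∃ c C : ℝ, 0 < c ∧ 0 < C ∧ ∃ X0 : ℕ,
    ∀ X Q : ℕ, X0 ≤ X → Rg c (2 * X) Q → ∀ b : CI → ℝ,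
    (∀ x ∈ Ch Q, ∀ n, ‖Mc (2 * X) Q x n‖ ≤ b x) → ∑ x ∈ Ch Q, b x ≤ B →
    ∀ (xe : CI) (E m : ℝ), xe ∈ Ch Q → xe.2 ≠ 1 → xe.2 ^ 2 = 1 →
    0 ≤ E → 0 ≤ m → m ≤ 1 → ∑ x ∈ Ch Q \ {one, xe}, b x ≤ E →
    (∀ n : ℕ, 3 * (2 * X) ≤ n * Q → n * Q + 2 * X ≤ 2 * (2 * X) * Q →
      m ≤ (Mc (2 * X) Q one n).re - |(Mc (2 * X) Q xe n).re|) →
    ∀ a ∈ Tup r (range (X + 1)), Dv e r X Q a → Function.Injective (c0 a) →
      SI (c0 a) * (m ^ (r + 1) * X / 4 - C * X * (E + 1 / Q)) - X * (Q : ℝ) ^ (-(e / 2)) ≤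
        (((Icc 1 X).filter (fun n => ∀ i, (n + c0 a i).Prime)).card : ℝ) *
          Real.log (4 * X) ^ (r + 1) := by
  obtain ⟨c, C, hc, hC, X1, hcore⟩ := core (r + 1) (by omega) B
  obtain ⟨X4, hX4⟩ := FreeYAux.largeQ _ (NormDAux.growthE e he he2 0 0)
  refine ⟨c, 2 * C, hc, by positivity, max (max X1 X4) 2, ?_⟩
  intro X Q hX hR b hb hbB xe E m hxe hxe1 hxe2 hE0 hm0 hm1 hE hone a ha hdv hinj
  have hX1 : X1 ≤ 2 * X := by
    have := le_trans (le_max_left _ _) (le_trans (le_max_left _ _) hX)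
    omega
  have hX4' : X4 ≤ 2 * X := by
    have := le_trans (le_max_right _ _) (le_trans (le_max_left _ _) hX)
    omega
  have hX5 : 2 ≤ X := le_trans (le_max_right _ _) hX
  have hgr := hX4 (2 * X) Q hX4' hR.1
  have hXr : (2 : ℝ) ≤ X := by exact_mod_cast hX5
  have hai : ∀ i, a i ≤ X := fun i => by
    have := Finset.mem_range.1 (mem_Tup.1 ha i)
    omega
  have hci : ∀ i, c0 a i ≤ X := by
    intro i
    refine Fin.cases ?_ (fun j => ?_) i
    · exact Nat.zero_le _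
    · exact hai j
  have hT : (fun i => 1 + c0 a i) ∈ Tup (r + 1) (Icc 1 (2 * X)) := by
    rw [mem_Tup]
    intro i
    rw [Finset.mem_Icc]
    have := hci i
    constructor <;> omega
  have hinj' : Function.Injective (fun i => 1 + c0 a i) := fun i j hij => hinj (by
    simpa using hij)
  have hdev : ‖∑ n ∈ Icc 1 (X - 1), ∏ i, (W (2 * X) Q (n + (1 + c0 a i)) : ℂ) -
      ∑ n ∈ Icc 1 (X - 1), ∏ i, LL (2 * X) Q (Q ^ (8 * (r + 1))) (n + (1 + c0 a i))‖ ≤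
      X * (Q : ℝ) ^ (-e) := by
    have h1 := hdv (X - 1) (by omega)
    unfold dev at h1
    rw [Finset.sum_sub_distrib] at h1
    exact h1
  obtain ⟨hQ2, hlow⟩ := hcore (2 * X) Q hX1 hR b hb hbB xe E m hxe hxe1 hxe2 hE0 hm0 hm1 hE hone
    (X - 1) (by omega) (fun i => 1 + c0 a i) hT hinj' _ hdev
  rw [SI_shift] at hlow
  have hU := PNormAux.up r X 1 1 (X - 1) le_rfl le_rfl (by omega) a hci (fun n => W (2 * X) Q n)
    (fun n => W_nonneg _ _ _) (fun n => W_le _ _ _)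
  refine le_trans ?_ (hlow.trans hU)
  have hSI0 : 0 ≤ SI (c0 a) := SI_nonneg _ hinj
  have hmk : 0 ≤ m ^ (r + 1) := pow_nonneg hm0 _
  have hXc : ((X - 1 : ℕ) : ℝ) = X - 1 := by
    rw [Nat.cast_sub (by omega)]
    simp
  have h2 : m ^ (r + 1) * X / 4 ≤ m ^ (r + 1) * ((X - 1 : ℕ) : ℝ) / 2 := by
    rw [hXc]
    nlinarith
  have h3 : C * ((2 * X : ℕ) : ℝ) * (E + 1 / Q) = 2 * C * X * (E + 1 / Q) := by
    push_cast
    ring
  have h4 : SI (c0 a) * (m ^ (r + 1) * X / 4 - 2 * C * X * (E + 1 / Q)) ≤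
      SI (c0 a) * (m ^ (r + 1) * ((X - 1 : ℕ) : ℝ) / 2 - C * ((2 * X : ℕ) : ℝ) * (E + 1 / Q)) := by
    rw [h3]
    exact mul_le_mul_of_nonneg_left (by linarith) hSI0
  have h5 := mul_le_mul_of_nonneg_left hgr (by linarith : (0 : ℝ) ≤ X)
  have h6 : (X : ℝ) * ((Q : ℝ) ^ (-e) + 2 / Q + 0 * Real.log Q ^ 0 / Q) =
      ((2 * X : ℕ) : ℝ) / Q + X * (Q : ℝ) ^ (-e) := by
    push_cast
    ring
  rw [h6] at h5
  linarith

end Pool.Agent.DSH
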