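import Pool.Agent.Lib.DSH.SysT

/-!
# DSH.PartA (1.5 h): products of two functions with moments, exceptional set

PROOF. `c0, b, p, q0` from `sysT m r`, `V = q^c0`, `N = p + r + 4`, `η = min (c0/4) (1/4)`. For all `t` in the box, with `a = sf i j τ t`, the sum of the claim differs from the one with `tr V` for `w`, `f` (resp. `w`, `g`) by at most
`(r+1)² R/V` each (`cmp` with `k = r + 1`, the functions `w, f, ..., f` and the shifts `0, a`; exponent `r + 2 ≤ N`: `‖F‖^(r+2) ≤ 1 + ‖F‖^N`, so `R = 2x + q^η x ≤ 3 q^η x`): together `≤ 6 (r+1)² q^(η - c0) x ≤ x q^(-e)/2` for `q ≥ q1`, `e ≤ c0/4`.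
The truncated sum (with `w' = tr V w` for `n ≤ y` and `0` for `n > y`, `‖w'‖ ≤ V ≤ 2V`) by `sysT` (`∑ ‖f‖^(p+2) ≤ 2x + q^η x ≤ q^(1/2) x`) and Chebyshev: the number of `t` with `‖..‖ > x q^(-e)/2` is `≤ 4 q^(2e - b) ∏ H ≤ q^(-e) ∏ H` if `4 e ≤ b`.
-/

set_option autoImplicit false

open Finset Filter

namespace Pool.Agent.DSH

open Pool.Agent.HLB Pool.Agent.HLT Pool.Agent.HLR Pool.Agent.Lib.GMV Pool.Agent.BLF

namespace PartAAux

theorem pow_le_add {a : ℝ} (ha : 0 ≤ a) {k N : ℕ} (h : k ≤ N) : a ^ k ≤ 1 + a ^ N := by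
  rcases le_total a 1 with h1 | h1
  · have h2 := pow_le_one₀ ha h1 (n := k)
    have h3 := pow_nonneg ha N
    linarith
  · have h2 := pow_le_pow_right₀ h1 h
    linarith

theorem sum_pow_le (x : ℕ) (f : ℕ → ℂ) {k N : ℕ} (h : k ≤ N) (M : ℝ)
    (hM : ∑ m ∈ Icc 1 (2 * x), ‖f m‖ ^ N ≤ M) : ∑ m ∈ Icc 1 (2 * x), ‖f m‖ ^ k ≤ 2 * x + M := by
  calc ∑ m ∈ Icc 1 (2 * x), ‖f m‖ ^ k ≤ ∑ m ∈ Icc 1 (2 * x), (1 + ‖f m‖ ^ N) :=
        Finset.sum_le_sum (fun m _ => pow_le_add (norm_nonneg _) h)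
    _ = 2 * x + ∑ m ∈ Icc 1 (2 * x), ‖f m‖ ^ N := by
        rw [Finset.sum_add_distrib]
        simp
    _ ≤ 2 * x + M := by linarith

theorem diff_le (x y r : ℕ) (hy : y ≤ x) (f w : ℕ → ℂ) (a : Fin r → ℕ) (ha : ∀ e, a e ≤ x) (V R : ℝ)
    (hV : 1 ≤ V) (hf : ∑ m ∈ Icc 1 (2 * x), ‖f m‖ ^ (r + 2) ≤ R)
    (hw : ∑ m ∈ Icc 1 (2 * x), ‖w m‖ ^ (r + 2) ≤ R) :
    ‖∑ n ∈ Icc 1 y, w n * ∏ e, f (n + a e) - ∑ n ∈ Icc 1 y, tr V w n * ∏ e, tr V f (n + a e)‖ ≤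
      ((r : ℝ) + 1) ^ 2 * R / V := by
  have h := cmp (k := r + 1) x y hy (Fin.cons w (fun _ => f)) (Fin.cons 0 a) ?_ V R hV ?_
  · rw [← Finset.sum_sub_distrib]
    refine (norm_sum_le _ _).trans ?_
    simp only [Fin.prod_univ_succ, Fin.cons_zero, Fin.cons_succ, add_zero] at h
    push_cast at h
    exact h
  · intro i
    refine Fin.cases ?_ ?_ i
    · simp
    · intro e
      simpa using ha e
  · intro i
    refine Fin.cases ?_ ?_ i
    · simpa using hw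
    · intro e
      simpa using hf

theorem diff2_le (x y r : ℕ) (hy : y ≤ x) (f g w : ℕ → ℂ) (a : Fin r → ℕ) (ha : ∀ e, a e ≤ x) (V R : ℝ)
    (hV : 1 ≤ V) (hf : ∑ m ∈ Icc 1 (2 * x), ‖f m‖ ^ (r + 2) ≤ R)
    (hg : ∑ m ∈ Icc 1 (2 * x), ‖g m‖ ^ (r + 2) ≤ R)
    (hw : ∑ m ∈ Icc 1 (2 * x), ‖w m‖ ^ (r + 2) ≤ R) :
    ‖∑ n ∈ Icc 1 y, w n * (∏ e, f (n + a e) - ∏ e, g (n + a e))‖ ≤
      ‖∑ n ∈ Icc 1 y, tr V w n * (∏ e, tr V f (n + a e) - ∏ e, tr V g (n + a e))‖ +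
      2 * (((r : ℝ) + 1) ^ 2 * R / V) := by
  have h1 := diff_le x y r hy f w a ha V R hV hf hw
  have h2 := diff_le x y r hy g w a ha V R hV hg hw
  have e1 : ∑ n ∈ Icc 1 y, w n * (∏ e, f (n + a e) - ∏ e, g (n + a e)) =
      ∑ n ∈ Icc 1 y, tr V w n * (∏ e, tr V f (n + a e) - ∏ e, tr V g (n + a e)) +
      (∑ n ∈ Icc 1 y, w n * ∏ e, f (n + a e) - ∑ n ∈ Icc 1 y, tr V w n * ∏ e, tr V f (n + a e)) -
      (∑ n ∈ Icc 1 y, w n * ∏ e, g (n + a e) - ∑ n ∈ Icc 1 y, tr V w n * ∏ e, tr V g (n + a e)) := by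
    simp only [mul_sub, Finset.sum_sub_distrib]
    ring
  rw [e1]
  refine (norm_sub_le _ _).trans ?_
  have h3 := norm_add_le (∑ n ∈ Icc 1 y, tr V w n * (∏ e, tr V f (n + a e) - ∏ e, tr V g (n + a e)))
    (∑ n ∈ Icc 1 y, w n * ∏ e, f (n + a e) - ∑ n ∈ Icc 1 y, tr V w n * ∏ e, tr V f (n + a e))
  linarith

/-- The function `w` up to `y`. -/
noncomputable def cutw (y : ℕ) (w : ℕ → ℂ) (n : ℕ) : ℂ := if n ≤ y then w n else 0

theorem sum_cutw (x y : ℕ) (hy : y ≤ x) (w F : ℕ → ℂ) :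
    ∑ n ∈ Icc 1 x, cutw y w n * F n = ∑ n ∈ Icc 1 y, w n * F n := by
  have hsub : Icc 1 y ⊆ Icc 1 x := Finset.Icc_subset_Icc le_rfl hy
  rw [← Finset.sum_subset hsub]
  · refine Finset.sum_congr rfl (fun n hn => ?_)
    unfold cutw
    rw [if_pos (Finset.mem_Icc.mp hn).2]
  · intro n hn hn'
    unfold cutw
    rw [if_neg, zero_mul]
    intro h
    exact hn' (Finset.mem_Icc.mpr ⟨(Finset.mem_Icc.mp hn).1, h⟩)

end PartAAux

open PartAAux

open scoped Classical in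
theorem partA (m r : ℕ) : ∃ (b η e : ℝ) (N : ℕ) (q0 : ℝ), 0 < b ∧ 0 < η ∧ 0 < e ∧ 1 ≤ q0 ∧ ∀ (q : ℝ) (x y : ℕ)
    (i j : Fin r → Fin m) (H : Fin m → ℕ) (τ : Fin r → ℕ → ℕ), q0 ≤ q → 1 ≤ x → y ≤ x →
    1 + Real.log (2 * x) ≤ q ^ b → Sys x i j H τ → (∀ k, q ≤ H k) → ∀ f g w : ℕ → ℂ,
    SysM x i j H τ (q ^ (-(1 / 10 : ℝ))) (fun n => f n - g n) →
    ∑ m ∈ Icc 1 (2 * x), ‖f m‖ ^ N ≤ q ^ η * x → ∑ m ∈ Icc 1 (2 * x), ‖g m‖ ^ N ≤ q ^ η * x →
    ∑ m ∈ Icc 1 (2 * x), ‖w m‖ ^ N ≤ q ^ η * x →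
    (((Fintype.piFinset (fun k => Icc 1 (H k))).filter (fun t => x * q ^ (-e) <
      ‖∑ n ∈ Icc 1 y, w n * (∏ e, f (n + sf i j τ t e) - ∏ e, g (n + sf i j τ t e))‖)).card : ℝ) ≤
      (∏ k, (H k : ℝ)) * q ^ (-e) := by
  obtain ⟨c, b, p, q0, hc, hc1, hb, hq0, hS⟩ := sysT m r
  set η : ℝ := min (c / 4) (1 / 4) with hη
  set e : ℝ := min (c / 4) (b / 4) with he
  have hη0 : 0 < η := lt_min (by linarith) (by norm_num)
  have he0 : 0 < e := lt_min (by linarith) (by linarith)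
  have hη1 : η ≤ c / 4 := min_le_left _ _
  have hη2 : η ≤ 1 / 4 := min_le_right _ _
  have he1 : e ≤ c / 4 := min_le_left _ _
  have he2 : e ≤ b / 4 := min_le_right _ _
  set K : ℝ := 12 * ((r : ℝ) + 1) ^ 2 with hK
  have hK1 : 1 ≤ K := by
    have h0 : (0 : ℝ) ≤ r := Nat.cast_nonneg r
    rw [hK]
    nlinarith
  set q1 : ℝ := max (max q0 81) (max (K ^ (2 / c)) ((4 : ℝ) ^ (4 / b))) with hq1
  refine ⟨b, η, e, p + r + 4, q1, hb, hη0, he0, ?_, ?_⟩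
  · exact hq0.trans ((le_max_left _ _).trans (le_max_left _ _))
  intro q x y i j H τ hq hx hy hlog hsys hH f g w hM hf hg hw
  have hqq0 : q0 ≤ q := ((le_max_left _ _).trans (le_max_left _ _)).trans hq
  have hq81 : 81 ≤ q := ((le_max_right _ _).trans (le_max_left _ _)).trans hq
  have hqK : K ^ (2 / c) ≤ q := ((le_max_left _ _).trans (le_max_right _ _)).trans hq
  have hq4 : (4 : ℝ) ^ (4 / b) ≤ q := ((le_max_right _ _).trans (le_max_right _ _)).trans hq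
  have hq1' : 1 ≤ q := by linarith
  have hqpos : 0 < q := by linarith
  have hxR : (1 : ℝ) ≤ x := by exact_mod_cast hx
  have hx0 : (0 : ℝ) < x := by linarith
  -- consequences of the size of `q`
  have hKq : K ≤ q ^ (c / 2) := by
    have h1 : (K ^ (2 / c)) ^ (c / 2) ≤ q ^ (c / 2) :=
      Real.rpow_le_rpow (by positivity) hqK (by positivity)
    rwa [← Real.rpow_mul (by linarith), show 2 / c * (c / 2) = 1 by field_simp, Real.rpow_one] at h1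
  have h4q : 4 ≤ q ^ (b / 4) := by
    have h1 : ((4 : ℝ) ^ (4 / b)) ^ (b / 4) ≤ q ^ (b / 4) :=
      Real.rpow_le_rpow (by positivity) hq4 (by positivity)
    rwa [← Real.rpow_mul (by norm_num), show 4 / b * (b / 4) = 1 by field_simp, Real.rpow_one] at h1
  have h3q : 3 ≤ q ^ (1 / 4 : ℝ) := by
    have h1 : (81 : ℝ) ^ (1 / 4 : ℝ) ≤ q ^ (1 / 4 : ℝ) :=
      Real.rpow_le_rpow (by norm_num) hq81 (by norm_num)
    have h2 : (81 : ℝ) ^ (1 / 4 : ℝ) = 3 := by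
      rw [show (81 : ℝ) = 3 ^ (4 : ℝ) by norm_num, ← Real.rpow_mul (by norm_num)]
      norm_num
    linarith
  have hqη1 : 1 ≤ q ^ η := Real.one_le_rpow hq1' hη0.le
  set V : ℝ := q ^ c with hV
  have hV1 : 1 ≤ V := Real.one_le_rpow hq1' hc.le
  have hVpos : 0 < V := by linarith
  set R : ℝ := 3 * q ^ η * x with hR
  have hmom : ∀ F : ℕ → ℂ, ∑ m ∈ Icc 1 (2 * x), ‖F m‖ ^ (p + r + 4) ≤ q ^ η * x → ∀ k, k ≤ p + r + 4 →
      ∑ m ∈ Icc 1 (2 * x), ‖F m‖ ^ k ≤ R := by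
    intro F hF k hk
    have h1 := sum_pow_le x F hk _ hF
    have h2 : (2 : ℝ) * x ≤ 2 * q ^ η * x := by nlinarith
    rw [hR]
    linarith
  have hR2 : R ≤ q ^ (1 / 2 : ℝ) * x := by
    have h1 : q ^ η ≤ q ^ (1 / 4 : ℝ) := Real.rpow_le_rpow_of_exponent_le hq1' hη2
    have h2 : q ^ (1 / 2 : ℝ) = q ^ (1 / 4 : ℝ) * q ^ (1 / 4 : ℝ) := by
      rw [← Real.rpow_add hqpos]
      norm_num
    rw [hR, h2]
    have h3 : 3 * q ^ η ≤ q ^ (1 / 4 : ℝ) * q ^ (1 / 4 : ℝ) := by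
      have h4 : 0 ≤ q ^ η := by linarith
      nlinarith
    exact mul_le_mul_of_nonneg_right h3 hx0.le
  -- the truncated sums
  set S : (Fin m → ℕ) → ℝ := fun t => ‖∑ n ∈ Icc 1 y, tr V w n *
    (∏ e, tr V f (n + sf i j τ t e) - ∏ e, tr V g (n + sf i j τ t e))‖ with hSdef
  have hsum : ∑ t ∈ Fintype.piFinset (fun k => Icc 1 (H k)), (S t) ^ 2 ≤
      q ^ (-b) * ((∏ k, (H k : ℝ)) * (x : ℝ) ^ 2) := by
    have h := hS q x i j H τ hqq0 hx hlog hsys hH f g (cutw y (tr V w)) hM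
      ((hmom f hf (p + 2) (by omega)).trans hR2) ((hmom g hg (p + 2) (by omega)).trans hR2) ?_
    · refine le_trans (le_of_eq (Finset.sum_congr rfl (fun t _ => ?_))) h
      rw [sum_cutw x y hy]
    · intro n _
      unfold cutw
      split_ifs with hn
      · have := norm_tr_le hVpos.le w n
        linarith
      · rw [norm_zero]
        positivity
  -- the comparison
  have hcmp : ∀ t ∈ Fintype.piFinset (fun k => Icc 1 (H k)),
      ‖∑ n ∈ Icc 1 y, w n * (∏ e, f (n + sf i j τ t e) - ∏ e, g (n + sf i j τ t e))‖ ≤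
      S t + x * q ^ (-e) / 2 := by
    intro t ht
    have h := diff2_le x y r hy f g w (sf i j τ t) (fun e => hsys.sf_le t ht e) V R hV1
      (hmom f hf (r + 2) (by omega)) (hmom g hg (r + 2) (by omega)) (hmom w hw (r + 2) (by omega))
    refine h.trans ?_
    have h1 : 2 * (((r : ℝ) + 1) ^ 2 * R / V) ≤ x * q ^ (-e) / 2 := by
      have h2 : 2 * (((r : ℝ) + 1) ^ 2 * R / V) = (K * (q ^ η / V)) * x / 2 := by
        rw [hR, hK]
        field_simp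
        ring
      have h3 : q ^ η / V = q ^ (η - c) := by
        rw [hV, ← Real.rpow_sub hqpos]
      have h4 : K * q ^ (η - c) ≤ q ^ (-e) := by
        calc K * q ^ (η - c) ≤ q ^ (c / 2) * q ^ (η - c) :=
              mul_le_mul_of_nonneg_right hKq (by positivity)
          _ = q ^ (c / 2 + (η - c)) := by rw [← Real.rpow_add hqpos]
          _ ≤ q ^ (-e) := Real.rpow_le_rpow_of_exponent_le hq1' (by linarith)
      rw [h2, h3]
      have h5 := mul_le_mul_of_nonneg_right h4 hx0.le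
      linarith
    exact add_le_add le_rfl h1
  -- Chebyshev
  set T := (Fintype.piFinset (fun k => Icc 1 (H k))).filter (fun t => x * q ^ (-e) <
      ‖∑ n ∈ Icc 1 y, w n * (∏ e, f (n + sf i j τ t e) - ∏ e, g (n + sf i j τ t e))‖) with hT
  have hcount : (T.card : ℝ) * (x * q ^ (-e) / 2) ^ 2 ≤ q ^ (-b) * ((∏ k, (H k : ℝ)) * (x : ℝ) ^ 2) := by
    calc (T.card : ℝ) * (x * q ^ (-e) / 2) ^ 2 = ∑ _t ∈ T, (x * q ^ (-e) / 2) ^ 2 := by
          rw [Finset.sum_const, nsmul_eq_mul]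
      _ ≤ ∑ t ∈ T, (S t) ^ 2 := by
          refine Finset.sum_le_sum (fun t ht => ?_)
          rw [hT, Finset.mem_filter] at ht
          have h1 := hcmp t ht.1
          have h2 := ht.2
          have h3 : x * q ^ (-e) / 2 ≤ S t := by linarith
          exact pow_le_pow_left₀ (by positivity) h3 2
      _ ≤ ∑ t ∈ Fintype.piFinset (fun k => Icc 1 (H k)), (S t) ^ 2 :=
          Finset.sum_le_sum_of_subset_of_nonneg (Finset.filter_subset _ _)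
            (fun t _ _ => sq_nonneg _)
      _ ≤ _ := hsum
  have hP : (0 : ℝ) ≤ ∏ k, (H k : ℝ) := Finset.prod_nonneg (fun k _ => Nat.cast_nonneg _)
  have hqe : 0 < q ^ (-e) := by positivity
  have h5 : (T.card : ℝ) * (q ^ (-e)) ^ 2 ≤ 4 * q ^ (-b) * (∏ k, (H k : ℝ)) := by
    have h6 : (T.card : ℝ) * (q ^ (-e)) ^ 2 * (x : ℝ) ^ 2 ≤ 4 * q ^ (-b) * (∏ k, (H k : ℝ)) * (x : ℝ) ^ 2 := by
      nlinarith
    exact le_of_mul_le_mul_right h6 (by positivity)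
  have h7 : 4 * q ^ (-b) ≤ (q ^ (-e)) ^ 2 * q ^ (-e) := by
    have h8 : (q ^ (-e)) ^ 2 * q ^ (-e) = q ^ (-(3 * e)) := by
      rw [← Real.rpow_natCast, ← Real.rpow_mul hqpos.le, ← Real.rpow_add hqpos]
      congr 1
      push_cast
      ring
    rw [h8]
    calc 4 * q ^ (-b) ≤ q ^ (b / 4) * q ^ (-b) := mul_le_mul_of_nonneg_right h4q (by positivity)
      _ = q ^ (b / 4 + -b) := by rw [← Real.rpow_add hqpos]
      _ ≤ q ^ (-(3 * e)) := Real.rpow_le_rpow_of_exponent_le hq1' (by linarith)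
  have h9 : (T.card : ℝ) * (q ^ (-e)) ^ 2 ≤ ((∏ k, (H k : ℝ)) * q ^ (-e)) * (q ^ (-e)) ^ 2 := by
    refine h5.trans ?_
    have h10 := mul_le_mul_of_nonneg_right h7 hP
    linarith
  exact le_of_mul_le_mul_right h9 (by positivity)

end Pool.Agent.DSH
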