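import Pool.Agent.Lib.DSH.Defs

/-!
# DSH.PerBV (1 h): a periodic function times a function of bounded variation

PROOF. `c n = ∑_{j < P} ĉ_j ex (n j/P)` with `ĉ_j = P⁻¹ ∑_{m<P} c m ex (-m j/P)`, `‖ĉ_j‖ ≤ κ`. For each `j`, `∑_{n ≤ y} F n ex (n j/P) G n` by partial summation: with `S_n` the partial sums, `= S_y G y - ∑_{n < y, n ≥ 1} S_n (G (n+1) - G n)`, norm `≤ S (g + v)`.
-/

set_option autoImplicit false

open Finset Filter

namespace Pool.Agent.DSH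

open Pool.Agent.HLB Pool.Agent.HLT Pool.Agent.HLR Pool.Agent.Lib.GMV Pool.Agent.BLF

namespace PerBVAux

private lemma ex_eq_one_iff {N : ℕ} (hN : 0 < N) (k : ℤ) : ex (k / N) = 1 ↔ (N : ℤ) ∣ k := by
  have hN' : (N : ℂ) ≠ 0 := by exact_mod_cast hN.ne'
  have hpi : (2 * (Real.pi : ℂ) * Complex.I) ≠ 0 := by
    simp [Real.pi_ne_zero]
  unfold ex
  rw [Complex.exp_eq_one_iff]
  constructor
  · rintro ⟨m, hm⟩
    refine ⟨m, ?_⟩
    have h1 : ((k : ℂ) / N) * (2 * (Real.pi : ℂ) * Complex.I) = m * (2 * (Real.pi : ℂ) * Complex.I) := by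
      rw [← hm]
      push_cast
      ring
    have h2 := mul_right_cancel₀ hpi h1
    rw [div_eq_iff hN'] at h2
    have h3 : ((k : ℤ) : ℂ) = ((N * m : ℤ) : ℂ) := by
      rw [h2]
      push_cast
      ring
    exact_mod_cast h3
  · rintro ⟨m, rfl⟩
    refine ⟨m, ?_⟩
    push_cast
    field_simp

private lemma sum_ex {N : ℕ} (hN : 0 < N) (k : ℤ) :
    ∑ ξ ∈ range N, ex (k * (ξ / N)) = if (N : ℤ) ∣ k then (N : ℂ) else 0 := by
  have h1 : ∀ ξ : ℕ, ex (k * (ξ / N)) = ex (k / N) ^ ξ := by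
    intro ξ
    rw [← ex_nat_mul]
    congr 1
    ring
  simp_rw [h1]
  split_ifs with h
  · rw [(ex_eq_one_iff hN k).2 h]
    simp
  · have hne : ex (k / N) ≠ 1 := fun h' => h ((ex_eq_one_iff hN k).1 h')
    rw [geom_sum_eq hne]
    have h2 : ex (k / N) ^ N = 1 := by
      rw [← ex_nat_mul]
      have h3 : ((N : ℝ) * ((k : ℝ) / N)) = ((k : ℤ) : ℝ) := by
        have : (N : ℝ) ≠ 0 := by exact_mod_cast hN.ne'
        field_simp
      rw [h3]
      exact ex_int k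
    rw [h2, sub_self, zero_div]

/-- the coefficients -/
noncomputable def ch (P : ℕ) (c : ℕ → ℂ) (j : ℕ) : ℂ :=
  (P : ℂ)⁻¹ * ∑ m ∈ range P, c m * ex (-(m * ((j : ℝ) / P)))

lemma norm_ch (P : ℕ) (hP : 1 ≤ P) (c : ℕ → ℂ) (κ : ℝ) (hc : ∀ n, ‖c n‖ ≤ κ) (j : ℕ) :
    ‖ch P c j‖ ≤ κ := by
  unfold ch
  rw [norm_mul, norm_inv, Complex.norm_natCast]
  have hP0 : (0 : ℝ) < P := by exact_mod_cast hP
  have h : ‖∑ m ∈ range P, c m * ex (-(m * ((j : ℝ) / P)))‖ ≤ P * κ := by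
    refine (norm_sum_le _ _).trans ?_
    calc ∑ m ∈ range P, ‖c m * ex (-(m * ((j : ℝ) / P)))‖ ≤ ∑ m ∈ range P, κ := by
          refine Finset.sum_le_sum fun m _ => ?_
          rw [norm_mul, norm_ex, mul_one]
          exact hc m
      _ = P * κ := by simp
  calc (P : ℝ)⁻¹ * ‖∑ m ∈ range P, c m * ex (-(m * ((j : ℝ) / P)))‖ ≤ (P : ℝ)⁻¹ * (P * κ) :=
        mul_le_mul_of_nonneg_left h (by positivity)
    _ = κ := by field_simp

lemma per_mod (P : ℕ) (c : ℕ → ℂ) (hper : ∀ n, c (n + P) = c n) (n : ℕ) : c n = c (n % P) := by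
  have h : ∀ k m : ℕ, c (m + P * k) = c m := by
    intro k
    induction k with
    | zero => intro m; simp
    | succ k ih =>
      intro m
      have : m + P * (k + 1) = (m + P * k) + P := by ring
      rw [this, hper, ih]
  conv_lhs => rw [← Nat.mod_add_div n P]
  exact h _ _

lemma expand (P : ℕ) (hP : 1 ≤ P) (c : ℕ → ℂ) (hper : ∀ n, c (n + P) = c n) (n : ℕ) :
    c n = ∑ j ∈ range P, ch P c j * ex (n * ((j : ℝ) / P)) := by
  have hP0 : (P : ℂ) ≠ 0 := by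
    have : P ≠ 0 := by omega
    exact_mod_cast this
  have h1 : ∀ j ∈ range P, ch P c j * ex (n * ((j : ℝ) / P)) =
      (P : ℂ)⁻¹ * ∑ m ∈ range P, c m * ex ((((n : ℤ) - m : ℤ) : ℝ) * ((j : ℝ) / P)) := by
    intro j _
    unfold ch
    rw [mul_assoc, Finset.sum_mul]
    congr 1
    refine Finset.sum_congr rfl fun m _ => ?_
    rw [mul_assoc, ← ex_add]
    congr 2
    push_cast
    ring
  rw [Finset.sum_congr rfl h1, ← Finset.mul_sum, Finset.sum_comm]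
  have h2 : ∀ m ∈ range P, ∑ j ∈ range P, c m * ex ((((n : ℤ) - m : ℤ) : ℝ) * ((j : ℝ) / P)) =
      if m = n % P then c m * P else 0 := by
    intro m hm
    rw [← Finset.mul_sum, sum_ex (by omega)]
    have h3 : (P : ℤ) ∣ ((n : ℤ) - m) ↔ m = n % P := by
      rw [← Nat.modEq_iff_dvd, Nat.ModEq, Nat.mod_eq_of_lt (Finset.mem_range.1 hm)]
    by_cases hmn : m = n % P
    · rw [if_pos (h3.2 hmn), if_pos hmn]
    · rw [if_neg (fun h => hmn (h3.1 h)), if_neg hmn, mul_zero]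
  rw [Finset.sum_congr rfl h2, Finset.sum_ite_eq' (range P) (n % P),
    if_pos (Finset.mem_range.2 (Nat.mod_lt _ (by omega))), per_mod P c hper n]
  field_simp

/-- partial summation -/
lemma abel (a G : ℕ → ℂ) (g v B : ℝ) (y : ℕ) (hG : ∀ n, ‖G n‖ ≤ g)
    (hv : ∑ n ∈ range y, ‖G (n + 1) - G n‖ ≤ v)
    (hB : ∀ y' ≤ y, ‖∑ n ∈ Icc 1 y', a n‖ ≤ B) :
    ‖∑ n ∈ Icc 1 y, a n * G n‖ ≤ (g + v) * B := by
  have hB0 : 0 ≤ B := (norm_nonneg _).trans (hB 0 (Nat.zero_le _))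
  have key : ∀ y, ∑ n ∈ Icc 1 y, a n * G n = (∑ n ∈ Icc 1 y, a n) * G y -
      ∑ m ∈ range y, (∑ n ∈ Icc 1 m, a n) * (G (m + 1) - G m) := by
    intro y
    induction y with
    | zero => simp
    | succ y ih =>
      rw [Finset.sum_Icc_succ_top (by omega), Finset.sum_Icc_succ_top (by omega), ih,
        Finset.sum_range_succ]
      ring
  rw [key]
  refine (norm_sub_le _ _).trans ?_
  have h1 : ‖(∑ n ∈ Icc 1 y, a n) * G y‖ ≤ B * g := by
    rw [norm_mul]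
    exact mul_le_mul (hB y le_rfl) (hG y) (norm_nonneg _) hB0
  have h2 : ‖∑ m ∈ range y, (∑ n ∈ Icc 1 m, a n) * (G (m + 1) - G m)‖ ≤ B * v := by
    refine (norm_sum_le _ _).trans ?_
    calc ∑ m ∈ range y, ‖(∑ n ∈ Icc 1 m, a n) * (G (m + 1) - G m)‖
        ≤ ∑ m ∈ range y, B * ‖G (m + 1) - G m‖ := by
          refine Finset.sum_le_sum fun m hm => ?_
          rw [norm_mul]
          exact mul_le_mul_of_nonneg_right (hB m (Finset.mem_range.1 hm).le) (norm_nonneg _)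
      _ = B * ∑ m ∈ range y, ‖G (m + 1) - G m‖ := by rw [Finset.mul_sum]
      _ ≤ B * v := mul_le_mul_of_nonneg_left hv hB0
  nlinarith

end PerBVAux

theorem perBV (P : ℕ) (hP : 1 ≤ P) (c G F : ℕ → ℂ) (κ g v S : ℝ) (y : ℕ) (hκ : 0 ≤ κ) (hg : 0 ≤ g) (hv0 : 0 ≤ v) (hS : 0 ≤ S)
    (hper : ∀ n, c (n + P) = c n) (hc : ∀ n, ‖c n‖ ≤ κ) (hG : ∀ n, ‖G n‖ ≤ g)
    (hv : ∑ n ∈ range y, ‖G (n + 1) - G n‖ ≤ v)
    (hF : ∀ y' ≤ y, ∀ θ : ℝ, ‖∑ n ∈ Icc 1 y', F n * ex (n * θ)‖ ≤ S) :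
    ‖∑ n ∈ Icc 1 y, F n * (c n * G n)‖ ≤ P * κ * (g + v) * S := by
  have hB : ∀ y' ≤ y, ‖∑ n ∈ Icc 1 y', F n * c n‖ ≤ P * κ * S := by
    intro y' hy'
    have h1 : ∑ n ∈ Icc 1 y', F n * c n =
        ∑ j ∈ range P, PerBVAux.ch P c j * ∑ n ∈ Icc 1 y', F n * ex (n * ((j : ℝ) / P)) := by
      simp_rw [Finset.mul_sum]
      rw [Finset.sum_comm]
      refine Finset.sum_congr rfl fun n _ => ?_
      rw [PerBVAux.expand P hP c hper n, Finset.mul_sum]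
      refine Finset.sum_congr rfl fun j _ => ?_
      ring
    rw [h1]
    refine (norm_sum_le _ _).trans ?_
    calc ∑ j ∈ range P, ‖PerBVAux.ch P c j * ∑ n ∈ Icc 1 y', F n * ex (n * ((j : ℝ) / P))‖
        ≤ ∑ j ∈ range P, κ * S := by
          refine Finset.sum_le_sum fun j _ => ?_
          rw [norm_mul]
          exact mul_le_mul (PerBVAux.norm_ch P hP c κ hc j) (hF y' hy' _) (norm_nonneg _) hκ
      _ = P * κ * S := by simp; ring
  have h := PerBVAux.abel (fun n => F n * c n) G g v (P * κ * S) y hG hv hB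
  have e : ∑ n ∈ Icc 1 y, F n * (c n * G n) = ∑ n ∈ Icc 1 y, F n * c n * G n :=
    Finset.sum_congr rfl fun n _ => by ring
  rw [e]
  calc _ ≤ (g + v) * (P * κ * S) := h
    _ = _ := by ring

end Pool.Agent.DSH
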