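import Pool.Agent.Lib.DSH.Defs
import Pool.Agent.Lib.BLF.Lift
import Pool.Agent.Lib.BLF.ThmS

/-!
# DSH.SingleP (1 h): mean square over a single slot

PROOF. Adapt `BLF/SingleMs.lean` (there is no factor `log^K` and no `v` here, and the `G j` are complex valued). `C₁` from `thmS m`, `C = 7 C₁ + 1`, `δ₁ = δ ^ 7`. Suppose the left
side is `> δ H0 ∏ H x²`; then the hypothesis of `thmS` holds with `δ₁` (`X² ≤ 64 x²`, `64 δ^6 ≤ 1`), and its conclusion is `δ^(7 C₁) X² H0² ≤ ∑_{t,t'} ‖∑_{n ≤ x} F(n+τ t) conj F(n+τ t')‖² ≤ H0 · δ^C H0 x²`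
(for fixed `t'` `MSq` with `g n = conj F (n + τ t')`, `τ` injective on `Icc 1 H0`; `τ t ≤ x` since `T ⊆ range (x+1)`): a contradiction to `X ≥ 4 x`, `δ ^ (7 C₁ + 1) < δ^(7 C₁) · 16`.
-/

set_option autoImplicit false

open Finset Filter

namespace Pool.Agent.DSH

open Pool.Agent.HLB Pool.Agent.HLT Pool.Agent.HLR Pool.Agent.Lib.GMV Pool.Agent.BLF

namespace SinglePAux

/-- the lift of the function `F` -/
noncomputable def eF {X : ℕ} (x H0 : ℕ) (τ : ℕ → ℕ) (F : ℕ → ℂ) (z : ZMod X) (t : ℕ) : ℂ :=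
  if (1 ≤ z.val ∧ z.val ≤ x) ∧ t ∈ Icc 1 H0 then F (z.val + τ t) else 0

/-- the lift of the other functions -/
noncomputable def gF {X : ℕ} (x : ℕ) (G : ℕ → ℂ) (z : ZMod X) : ℂ :=
  if 1 ≤ z.val ∧ z.val ≤ 2 * x then G z.val else 0

/-- the lift of the coefficients -/
noncomputable def cF {X : ℕ} {σ : Type} [DecidableEq σ] (x : ℕ) (P : Finset σ) (γ : ℕ → σ → ℂ)
    (z : ZMod X) (u : σ) : ℂ :=
  if (1 ≤ z.val ∧ z.val ≤ x) ∧ u ∈ P then γ z.val u else 0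

theorem norm_eF {X : ℕ} {x H0 : ℕ} {τ : ℕ → ℕ} {F : ℕ → ℂ}
    (hτ : ∀ t ∈ Icc 1 H0, τ t ≤ x) (hF : ∀ n ∈ Icc 1 (2 * x), ‖F n‖ ≤ 1) (z : ZMod X) (t : ℕ) :
    ‖eF x H0 τ F z t‖ ≤ 1 := by
  unfold eF
  split_ifs with h
  · have := hτ t h.2
    exact hF _ (Finset.mem_Icc.2 (by omega))
  · rw [norm_zero]
    exact zero_le_one

theorem norm_gF {X : ℕ} {x : ℕ} {G : ℕ → ℂ}
    (hG : ∀ n ∈ Icc 1 (2 * x), ‖G n‖ ≤ 1) (z : ZMod X) : ‖gF x G z‖ ≤ 1 := by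
  unfold gF
  split_ifs with h
  · exact hG _ (Finset.mem_Icc.2 h)
  · rw [norm_zero]
    exact zero_le_one

theorem norm_cF {X : ℕ} {σ : Type} [DecidableEq σ] {x : ℕ} {P : Finset σ} {γ : ℕ → σ → ℂ}
    (hγ : ∀ n ∈ Icc 1 x, ∀ u ∈ P, ‖γ n u‖ ≤ 1) (z : ZMod X) (u : σ) :
    ‖cF x P γ z u‖ ≤ 1 := by
  unfold cF
  split_ifs with h
  · exact hγ _ (Finset.mem_Icc.2 h.1) u h.2
  · rw [norm_zero]
    exact zero_le_one

theorem val_nat {X : ℕ} [NeZero X] {n : ℕ} (h : n < X) : ((n : ℕ) : ZMod X).val = n :=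
  ZMod.val_cast_of_lt h

theorem sum_one {X : ℕ} [NeZero X] {m x : ℕ} (hX : 4 * x ≤ X) (hx : 1 ≤ x) (J : Finset (Fin m))
    (H0 : ℕ) (H : Fin m → ℕ) (τ : ℕ → ℕ) (hJ : ∀ j ∈ J, H0 * H j ≤ x) (F : ℕ → ℂ)
    (G : Fin m → ℕ → ℂ) (γ : ℕ → (Fin m → ℕ) → ℂ) {t : ℕ} (ht : t ∈ Icc 1 H0)
    {u : Fin m → ℕ} (hu : u ∈ Fintype.piFinset (fun j => Icc 1 (H j))) :
    ∑ z : ZMod X, eF x H0 τ F z t *
        (∏ j ∈ J, gF x (G j) (z + ((t * u j : ℕ) : ZMod X))) *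
        cF x (Fintype.piFinset (fun j => Icc 1 (H j))) γ z u =
      ∑ n ∈ Icc 1 x, F (n + τ t) * (∏ j ∈ J, G j (n + t * u j)) * γ n u := by
  have h1 : ∀ z : ZMod X, eF x H0 τ F z t *
        (∏ j ∈ J, gF x (G j) (z + ((t * u j : ℕ) : ZMod X))) *
        cF x (Fintype.piFinset (fun j => Icc 1 (H j))) γ z u =
      if 1 ≤ z.val ∧ z.val ≤ x then F (z.val + τ t) *
        (∏ j ∈ J, gF x (G j) (z + ((t * u j : ℕ) : ZMod X))) * γ z.val u else 0 := by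
    intro z
    unfold eF cF
    by_cases hz : 1 ≤ z.val ∧ z.val ≤ x
    · rw [if_pos ⟨hz, ht⟩, if_pos ⟨hz, hu⟩, if_pos hz]
    · rw [if_neg hz, if_neg (fun h => hz h.1), zero_mul, zero_mul]
  rw [Finset.sum_congr rfl fun z _ => h1 z,
    sum_lift x (by omega) (fun z : ZMod X => F (z.val + τ t) *
        (∏ j ∈ J, gF x (G j) (z + ((t * u j : ℕ) : ZMod X))) * γ z.val u)]
  refine Finset.sum_congr rfl fun n hn => ?_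
  rw [Finset.mem_Icc] at hn
  have h2 : ∀ j ∈ J, gF x (G j) ((n : ZMod X) + ((t * u j : ℕ) : ZMod X)) =
      G j (n + t * u j) := by
    intro j hj
    have h3 : t * u j ≤ H0 * H j := by
      have h4 := Finset.mem_Icc.1 (Fintype.mem_piFinset.1 hu j)
      exact Nat.mul_le_mul (Finset.mem_Icc.1 ht).2 h4.2
    have h5 := hJ j hj
    unfold gF
    rw [val_lift n (t * u j) (by omega), if_pos (by omega)]
  rw [val_nat (by omega : n < X), Finset.prod_congr rfl h2]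

theorem sum_two {X : ℕ} [NeZero X] {x : ℕ} (hX : 4 * x ≤ X) (hx : 1 ≤ x) (H0 : ℕ) (τ : ℕ → ℕ)
    (F : ℕ → ℂ) {t t' : ℕ} (ht : t ∈ Icc 1 H0) (ht' : t' ∈ Icc 1 H0) :
    ∑ z : ZMod X, eF x H0 τ F z t * (starRingEnd ℂ) (eF x H0 τ F z t') =
      ∑ n ∈ Icc 1 x, (starRingEnd ℂ) (F (n + τ t')) * F (n + τ t) := by
  have h1 : ∀ z : ZMod X, eF x H0 τ F z t * (starRingEnd ℂ) (eF x H0 τ F z t') =
      if 1 ≤ z.val ∧ z.val ≤ x then (starRingEnd ℂ) (F (z.val + τ t')) * F (z.val + τ t) else 0 := by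
    intro z
    unfold eF
    by_cases hz : 1 ≤ z.val ∧ z.val ≤ x
    · rw [if_pos ⟨hz, ht⟩, if_pos ⟨hz, ht'⟩, if_pos hz, mul_comm]
    · rw [if_neg hz, if_neg (fun h => hz h.1), zero_mul]
  rw [Finset.sum_congr rfl fun z _ => h1 z,
    sum_lift x (by omega) (fun z : ZMod X => (starRingEnd ℂ) (F (z.val + τ t')) * F (z.val + τ t))]
  refine Finset.sum_congr rfl fun n hn => ?_
  rw [Finset.mem_Icc] at hn
  rw [val_nat (by omega : n < X)]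

end SinglePAux

open SinglePAux

theorem singleP (m : ℕ) : ∃ C : ℕ, ∀ (δ : ℝ) (x : ℕ) (J : Finset (Fin m)) (H0 : ℕ) (H : Fin m → ℕ) (τ : ℕ → ℕ),
    0 < δ → δ ≤ 1 / 2 → 1 ≤ x → 1 + Real.log (2 * x) ≤ δ⁻¹ → (δ⁻¹) ^ C ≤ H0 →
    (∀ j ∈ J, (δ⁻¹) ^ C ≤ H j ∧ H0 * H j ≤ x) → (∀ j, 1 ≤ H j) → Set.InjOn τ (Icc 1 H0 : Finset ℕ) →
    ∀ F : ℕ → ℂ, (∀ n ∈ Icc 1 (2 * x), ‖F n‖ ≤ 1) → MSq x (δ ^ C) F ((Icc 1 H0).image τ) →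
    ∀ (G : Fin m → ℕ → ℂ) (γ : ℕ → (Fin m → ℕ) → ℂ), (∀ j, ∀ n ∈ Icc 1 (2 * x), ‖G j n‖ ≤ 1) →
    (∀ n ∈ Icc 1 x, ∀ u ∈ Fintype.piFinset (fun j => Icc 1 (H j)), ‖γ n u‖ ≤ 1) →
    ∑ t ∈ Icc 1 H0, ∑ u ∈ Fintype.piFinset (fun j => Icc 1 (H j)),
      ‖∑ n ∈ Icc 1 x, F (n + τ t) * (∏ j ∈ J, G j (n + t * u j)) * γ n u‖ ^ 2 ≤
    δ * ((H0 : ℝ) * (∏ j, (H j : ℝ)) * (x : ℝ) ^ 2) := by
  obtain ⟨c, hc⟩ := thmS m
  refine ⟨7 * c + 1, ?_⟩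
  intro δ x J H0 H τ hδ hδ2 hx1 hlog hH0 hJ hH1 hτ F hF hM G γ hG hγ
  by_contra hcon
  rw [not_le] at hcon
  have hx0 : (0 : ℝ) < x := by exact_mod_cast hx1
  obtain ⟨X, hX0, hX4, hX8, hW⟩ := pow_two x hx1
  haveI : NeZero X := ⟨hX0⟩
  have hδi : 1 ≤ δ⁻¹ := by
    rw [one_le_inv₀ hδ]
    linarith
  have hH0pos : 1 ≤ H0 := by
    have h1 : (1 : ℝ) ≤ H0 := (one_le_pow₀ hδi).trans hH0
    exact_mod_cast h1
  have hWex : ∀ j, ∃ W : ℕ, j ∈ J → W ∣ X ∧ H0 * H j ≤ W ∧ W ≤ 2 * (H0 * H j) := by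
    intro j
    by_cases hj : j ∈ J
    · obtain ⟨W, hW1⟩ := hW (H0 * H j) (Nat.mul_pos hH0pos (hH1 j)) (hJ j hj).2
      exact ⟨W, fun _ => hW1⟩
    · exact ⟨1, fun h => absurd h hj⟩
  choose W hW using hWex
  have hδ1 : 0 < δ ^ 7 := pow_pos hδ 7
  have hδle : δ ≤ 1 := by linarith
  have hδ7 : δ ^ 7 ≤ δ := by
    calc δ ^ 7 ≤ δ ^ 1 := pow_le_pow_of_le_one hδ.le hδle (by norm_num)
      _ = δ := pow_one δ
  have hδh : δ ^ 7 ≤ 1 / 2 := hδ7.trans hδ2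
  have hi7 : δ⁻¹ ≤ (δ ^ 7)⁻¹ := inv_anti₀ hδ1 hδ7
  have hpc : ((δ ^ 7)⁻¹) ^ c ≤ (δ⁻¹) ^ (7 * c + 1) := by
    rw [← inv_pow, ← pow_mul]
    exact pow_le_pow_right₀ hδi (Nat.le_succ _)
  have hadm : ∀ j ∈ J, Adm (δ ^ 7) c X H0 (H j) (W j) := by
    intro j hj
    obtain ⟨w1, w2, w3⟩ := hW j hj
    obtain ⟨j1, j2⟩ := hJ j hj
    have hWpos : 0 < W j := Nat.lt_of_lt_of_le (Nat.mul_pos hH0pos (hH1 j)) w2
    refine ⟨hδ1, hδh, w1, w2, w3, ?_, ?_, ?_⟩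
    · have h1 : W j ≤ 2 * x := by omega
      have h2 : Real.log (W j) ≤ Real.log (2 * x) :=
        Real.log_le_log (by exact_mod_cast hWpos) (by exact_mod_cast h1)
      linarith
    · exact hpc.trans hH0
    · exact hpc.trans j1
  have hτx : ∀ t ∈ Icc 1 H0, τ t ≤ x := by
    intro t ht
    have h1 := Finset.mem_range.1 (hM.1 (Finset.mem_image_of_mem τ ht))
    omega
  have hmain := hc (δ ^ 7) X J H0 H W hδ1 hδh hadm (hpc.trans hH0) hH1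
    (eF x H0 τ F) (fun j => gF x (G j))
    (cF x (Fintype.piFinset (fun j => Icc 1 (H j))) γ)
    (norm_eF hτx hF) (fun j z => norm_gF (hG j) z) (norm_cF hγ)
  have hP0 : 0 ≤ ∏ j, (H j : ℝ) := Finset.prod_nonneg fun _ _ => Nat.cast_nonneg _
  have hx2 : 0 < (x : ℝ) ^ 2 := pow_pos hx0 2
  have hXx : (X : ℝ) ^ 2 ≤ 64 * (x : ℝ) ^ 2 := by
    have h1 : (X : ℝ) ≤ 8 * x := by exact_mod_cast hX8
    have h2 : (0 : ℝ) ≤ X := Nat.cast_nonneg X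
    nlinarith
  have hXx' : 16 * (x : ℝ) ^ 2 ≤ (X : ℝ) ^ 2 := by
    have h1 : 4 * (x : ℝ) ≤ X := by exact_mod_cast hX4
    nlinarith
  have h64 : δ ^ 7 * 64 ≤ δ := by
    have h1 : δ ^ 6 ≤ (1 / 2) ^ 6 := pow_le_pow_left₀ hδ.le hδ2 6
    have h2 : δ ^ 7 = δ ^ 6 * δ := pow_succ δ 6
    rw [h2]
    nlinarith
  -- the hypothesis of `thmS`
  have hhyp : δ ^ 7 * ((X : ℝ) ^ 2 * H0 * ∏ j, (H j : ℝ)) ≤ ∑ t ∈ Icc 1 H0,
      ∑ u ∈ Fintype.piFinset (fun j => Icc 1 (H j)),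
      ‖∑ z : ZMod X, eF x H0 τ F z t *
        (∏ j ∈ J, gF x (G j) (z + ((t * u j : ℕ) : ZMod X))) *
        cF x (Fintype.piFinset (fun j => Icc 1 (H j))) γ z u‖ ^ 2 := by
    have h1 : ∑ t ∈ Icc 1 H0, ∑ u ∈ Fintype.piFinset (fun j => Icc 1 (H j)),
      ‖∑ z : ZMod X, eF x H0 τ F z t *
        (∏ j ∈ J, gF x (G j) (z + ((t * u j : ℕ) : ZMod X))) *
        cF x (Fintype.piFinset (fun j => Icc 1 (H j))) γ z u‖ ^ 2 =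
      ∑ t ∈ Icc 1 H0, ∑ u ∈ Fintype.piFinset (fun j => Icc 1 (H j)),
      ‖∑ n ∈ Icc 1 x, F (n + τ t) * (∏ j ∈ J, G j (n + t * u j)) * γ n u‖ ^ 2 := by
      refine Finset.sum_congr rfl fun t ht => Finset.sum_congr rfl fun u hu => ?_
      rw [sum_one hX4 hx1 J H0 H τ (fun j hj => (hJ j hj).2) F G γ ht hu]
    rw [h1]
    refine le_trans ?_ hcon.le
    have h4 : 0 ≤ (H0 : ℝ) * ∏ j, (H j : ℝ) := mul_nonneg (Nat.cast_nonneg _) hP0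
    calc δ ^ 7 * ((X : ℝ) ^ 2 * H0 * ∏ j, (H j : ℝ))
        = δ ^ 7 * ((H0 : ℝ) * ∏ j, (H j : ℝ)) * (X : ℝ) ^ 2 := by ring
      _ ≤ δ ^ 7 * ((H0 : ℝ) * ∏ j, (H j : ℝ)) * (64 * (x : ℝ) ^ 2) := by
          refine mul_le_mul_of_nonneg_left hXx ?_
          positivity
      _ = (δ ^ 7 * 64) * (((H0 : ℝ) * ∏ j, (H j : ℝ)) * (x : ℝ) ^ 2) := by ring
      _ ≤ δ * (((H0 : ℝ) * ∏ j, (H j : ℝ)) * (x : ℝ) ^ 2) :=
          mul_le_mul_of_nonneg_right h64 (mul_nonneg h4 hx2.le)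
      _ = δ * ((H0 : ℝ) * (∏ j, (H j : ℝ)) * (x : ℝ) ^ 2) := by ring
  have hfin := hmain hhyp
  -- the mean square property
  have hms : ∀ t' ∈ Icc 1 H0, ∑ t ∈ Icc 1 H0,
      ‖∑ n ∈ Icc 1 x, (starRingEnd ℂ) (F (n + τ t')) * F (n + τ t)‖ ^ 2 ≤
      δ ^ (7 * c + 1) * ((H0 : ℝ) * (x : ℝ) ^ 2) := by
    intro t' ht'
    have h1 := hM.2 (fun n => (starRingEnd ℂ) (F (n + τ t'))) (fun n hn => by
      rw [RCLike.norm_conj]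
      have h2 := hτx t' ht'
      have h3 := Finset.mem_Icc.1 hn
      exact hF _ (Finset.mem_Icc.2 (by omega)))
    rw [Finset.sum_image hτ, Finset.card_image_of_injOn hτ, Nat.card_Icc, Nat.add_sub_cancel] at h1
    exact h1
  have hup : ∑ t ∈ Icc 1 H0, ∑ t' ∈ Icc 1 H0,
      ‖∑ z : ZMod X, eF x H0 τ F z t * (starRingEnd ℂ) (eF x H0 τ F z t')‖ ^ 2 ≤
      (H0 : ℝ) * (δ ^ (7 * c + 1) * ((H0 : ℝ) * (x : ℝ) ^ 2)) := by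
    rw [Finset.sum_comm]
    have h1 : ∀ t' ∈ Icc 1 H0, ∑ t ∈ Icc 1 H0,
      ‖∑ z : ZMod X, eF x H0 τ F z t * (starRingEnd ℂ) (eF x H0 τ F z t')‖ ^ 2 ≤
        δ ^ (7 * c + 1) * ((H0 : ℝ) * (x : ℝ) ^ 2) := by
      intro t' ht'
      refine le_trans (Finset.sum_le_sum fun t ht => ?_) (hms t' ht')
      rw [sum_two hX4 hx1 H0 τ F ht ht']
    refine (Finset.sum_le_sum h1).trans ?_
    rw [Finset.sum_const, Nat.card_Icc, Nat.add_sub_cancel, nsmul_eq_mul]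
  have h5 := hfin.trans hup
  have hH0r : (0 : ℝ) < H0 := by exact_mod_cast hH0pos
  have h6 : (δ ^ 7) ^ c = δ ^ (7 * c) := (pow_mul δ 7 c).symm
  rw [h6] at h5
  have hd : 0 < δ ^ (7 * c) := pow_pos hδ _
  have h8 : δ ^ (7 * c) * (16 * (x : ℝ) ^ 2 * (H0 : ℝ) ^ 2) ≤
      (H0 : ℝ) * (δ ^ (7 * c + 1) * ((H0 : ℝ) * (x : ℝ) ^ 2)) := by
    refine le_trans ?_ h5
    gcongr
  have h9 : (H0 : ℝ) * (δ ^ (7 * c + 1) * ((H0 : ℝ) * (x : ℝ) ^ 2)) =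
      δ ^ (7 * c) * ((x : ℝ) ^ 2 * (H0 : ℝ) ^ 2) * δ := by
    rw [pow_succ δ (7 * c)]
    ring
  rw [h9] at h8
  have h10 : 0 < δ ^ (7 * c) * ((x : ℝ) ^ 2 * (H0 : ℝ) ^ 2) := by positivity
  have h11 : δ ^ (7 * c) * (16 * (x : ℝ) ^ 2 * (H0 : ℝ) ^ 2) =
      16 * (δ ^ (7 * c) * ((x : ℝ) ^ 2 * (H0 : ℝ) ^ 2)) := by ring
  rw [h11] at h8
  nlinarith


end Pool.Agent.DSH
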