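import Pool.Agent.Lib.DSH.PerBV
import Pool.Agent.Lib.GMV.MainT

/-!
# DSH.SlotZ (1.5 h): a Fourier small function against the product of the models with a smaller parameter

PROOF. `GMV.MainTAux.expand` (`k := r`): `∏_i LL Z q Y (n + h i) = ∑_{x ∈ (Ch q)^r} ∑_{S} fS x S h n · ∏_i Mc (x i) (n + h i)`, `Y = q^(8(r+1))`. There are at most `q^(2r)` tuples `x` (`card_Ch`) and `Y^r` tuples `S` (`card_Sm`). `fS` is periodic
mod `P ≤ q^r Y^r` (`fS_periodic`, see the proof of `MainTAux.one_term`) and `‖fS‖ ≤ q^r` (`norm_fS_le`); the product of the `Mc` is `≤ β^r`, `β = max 1 B`, and has variation `≤ r β^r 40 q^5` (`var_prod`, see `one_term`). `perBV` for each term: the total is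
`≤ q^(2r) Y^r · (q^r Y^r) q^r (β^r + r β^r 40 q^5) S ≤ C_β q^(16 r (r+1) + 4r + 5) S`, and `C_β ≤ q` for `q ≥ q0`: `D0 = 16 r (r+1) + 4r + 6`.
-/

set_option autoImplicit false

open Finset Filter

namespace Pool.Agent.DSH

open Pool.Agent.HLB Pool.Agent.HLT Pool.Agent.HLR Pool.Agent.Lib.GMV Pool.Agent.BLF

namespace SlotZAux

open Pool.Agent.Lib.GMV.MainTAux

lemma one {k : ℕ} (X Q : ℕ) (hQ : 2 ≤ Q) (hX : Q ^ 5 ≤ X) (Y : ℕ) (x : Fin k → CI)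
    (hx : ∀ i, md (x i) ≤ Q) (S : Fin k → Finset ℕ) (hS : ∀ i, S i ∈ Sm Y (md (x i)))
    (β : ℝ) (hβ : 1 ≤ β) (hb : ∀ i n, ‖Mc X Q (x i) n‖ ≤ β) (h : Fin k → ℕ)
    (hh : ∀ i, h i ≤ X) (y : ℕ) (hy : y ≤ X) (F : ℕ → ℂ) (A : ℝ) (hA : 0 ≤ A)
    (hF : ∀ y' ≤ y, ∀ θ : ℝ, ‖∑ n ∈ Icc 1 y', F n * ex (n * θ)‖ ≤ A) :
    ‖∑ n ∈ Icc 1 y, F n * (fS x S h n * ∏ i, Mc X Q (x i) (n + h i))‖ ≤
      ((Q : ℝ) ^ k * (Y : ℝ) ^ k) * (Q : ℝ) ^ k * (β ^ k + k * β ^ k * (40 * (Q : ℝ) ^ 5)) * A := by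
  have hSp : ∀ i, ∀ p ∈ S i, p.Prime := fun i p hp => ((mem_Sm (hS i)).1 p hp).1
  set P : ℕ := (∏ i, md (x i)) * ∏ i, ∏ p ∈ S i, p with hP
  have hmd : 0 < ∏ i, md (x i) := prod_pos fun i _ => md_pos _
  have hP1 : 1 ≤ P := Nat.mul_pos hmd (prod_pos fun i _ => prod_pos fun p hp => (hSp i p hp).pos)
  have hper : ∀ n, fS x S h (n + P) = fS x S h n := by
    refine fS_periodic x S h (fun i => ?_) (fun i p hp => ?_)
    · exact (dvd_prod_of_mem (fun i => md (x i)) (mem_univ i)).mul_right _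
    · exact ((dvd_prod_of_mem (fun p => p) hp).trans
        (dvd_prod_of_mem (fun i => ∏ p ∈ S i, p) (mem_univ i))).mul_left _
  have hVy : ∑ n ∈ range y,
      ‖∏ i, Mc X Q (x i) (n + 1 + h i) - ∏ i, Mc X Q (x i) (n + h i)‖ ≤
      k * β ^ k * (40 * (Q : ℝ) ^ 5) :=
    (sum_le_sum_of_subset_of_nonneg (range_subset_range.2 hy)
      (fun _ _ _ => norm_nonneg _)).trans (var_prod k X Q hQ hX x β hβ hb h hh)
  have hG : ∀ n, ‖∏ i, Mc X Q (x i) (n + h i)‖ ≤ β ^ k := by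
    intro n
    rw [norm_prod]
    have h1 : ∏ i : Fin k, ‖Mc X Q (x i) (n + h i)‖ ≤ ∏ _i : Fin k, β :=
      prod_le_prod (fun i _ => norm_nonneg _) fun i _ => hb i _
    rw [prod_const, card_univ, Fintype.card_fin] at h1
    exact h1
  have hβ0 : 0 ≤ β := by linarith
  refine (perBV P hP1 (fS x S h) (fun n => ∏ i, Mc X Q (x i) (n + h i)) F ((Q : ℝ) ^ k) (β ^ k)
    (k * β ^ k * (40 * (Q : ℝ) ^ 5)) A y (by positivity) (by positivity) (by positivity) hA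
    hper (norm_fS_le x hx S hSp h) hG hVy hF).trans ?_
  have hPle : (P : ℝ) ≤ (Q : ℝ) ^ k * (Y : ℝ) ^ k := by
    have h1 : ∏ i, md (x i) ≤ Q ^ k := by
      have h2 : ∏ i, md (x i) ≤ ∏ _i : Fin k, Q := prod_le_prod' fun i _ => hx i
      rw [prod_const, card_univ, Fintype.card_fin] at h2
      exact h2
    have h3 : ∏ i, ∏ p ∈ S i, p ≤ Y ^ k := by
      have h2 : ∏ i, ∏ p ∈ S i, p ≤ ∏ _i : Fin k, Y := prod_le_prod' fun i _ => (mem_Sm (hS i)).2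
      rw [prod_const, card_univ, Fintype.card_fin] at h2
      exact h2
    have h4 : P ≤ Q ^ k * Y ^ k := Nat.mul_le_mul h1 h3
    exact_mod_cast h4
  have hr : 0 ≤ β ^ k + k * β ^ k * (40 * (Q : ℝ) ^ 5) := by positivity
  refine mul_le_mul_of_nonneg_right ?_ hA
  refine mul_le_mul_of_nonneg_right ?_ hr
  exact mul_le_mul_of_nonneg_right hPle (by positivity)

lemma all {k : ℕ} (X Q : ℕ) (hQ : 2 ≤ Q) (hX : Q ^ 5 ≤ X) (Y : ℕ)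
    (β : ℝ) (hβ : 1 ≤ β) (hb : ∀ x ∈ Ch Q, ∀ n, ‖Mc X Q x n‖ ≤ β) (h : Fin k → ℕ)
    (hh : ∀ i, h i ≤ X) (y : ℕ) (hy : y ≤ X) (F : ℕ → ℂ) (A : ℝ) (hA : 0 ≤ A)
    (hF : ∀ y' ≤ y, ∀ θ : ℝ, ‖∑ n ∈ Icc 1 y', F n * ex (n * θ)‖ ≤ A) :
    ‖∑ n ∈ Icc 1 y, F n * ∏ i, LL X Q Y (n + h i)‖ ≤
      (Q : ℝ) ^ (2 * k) * ((Y : ℝ) ^ k * (((Q : ℝ) ^ k * (Y : ℝ) ^ k) * (Q : ℝ) ^ k *
        (β ^ k + k * β ^ k * (40 * (Q : ℝ) ^ 5)) * A)) := by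
  set R : ℝ := ((Q : ℝ) ^ k * (Y : ℝ) ^ k) * (Q : ℝ) ^ k *
        (β ^ k + k * β ^ k * (40 * (Q : ℝ) ^ 5)) * A with hR
  have hβ0 : 0 ≤ β := by linarith
  have hR0 : 0 ≤ R := by positivity
  have e1 : ∑ n ∈ Icc 1 y, F n * ∏ i, LL X Q Y (n + h i) =
      ∑ x ∈ Fintype.piFinset (fun _ : Fin k => Ch Q),
        ∑ S ∈ Fintype.piFinset (fun i => Sm Y (md (x i))),
          ∑ n ∈ Icc 1 y, F n * (fS x S h n * ∏ i, Mc X Q (x i) (n + h i)) := by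
    simp_rw [expand, mul_sum]
    rw [sum_comm]
    refine sum_congr rfl fun x _ => ?_
    rw [sum_comm]
  rw [e1]
  refine (norm_sum_le _ _).trans ?_
  have h1 : ∀ x ∈ Fintype.piFinset (fun _ : Fin k => Ch Q),
      ‖∑ S ∈ Fintype.piFinset (fun i => Sm Y (md (x i))),
          ∑ n ∈ Icc 1 y, F n * (fS x S h n * ∏ i, Mc X Q (x i) (n + h i))‖ ≤ (Y : ℝ) ^ k * R := by
    intro x hx
    have hx' : ∀ i, x i ∈ Ch Q := Fintype.mem_piFinset.1 hx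
    refine (norm_sum_le _ _).trans ?_
    have h2 : ∀ S ∈ Fintype.piFinset (fun i => Sm Y (md (x i))),
        ‖∑ n ∈ Icc 1 y, F n * (fS x S h n * ∏ i, Mc X Q (x i) (n + h i))‖ ≤ R := by
      intro S hS
      exact one X Q hQ hX Y x (fun i => (mem_Ch.1 (hx' i)).1) S
        (Fintype.mem_piFinset.1 hS) β hβ (fun i n => hb _ (hx' i) n) h hh y hy F A hA hF
    refine (sum_le_sum h2).trans ?_
    rw [sum_const, nsmul_eq_mul]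
    refine mul_le_mul_of_nonneg_right ?_ hR0
    rw [Fintype.card_piFinset]
    have h3 : ∏ i : Fin k, (Sm Y (md (x i))).card ≤ Y ^ k := by
      have h4 : ∏ i : Fin k, (Sm Y (md (x i))).card ≤ ∏ _i : Fin k, Y :=
        prod_le_prod' fun i _ => card_Sm _ _
      rw [prod_const, card_univ, Fintype.card_fin] at h4
      exact h4
    exact_mod_cast h3
  refine (sum_le_sum h1).trans ?_
  rw [sum_const, nsmul_eq_mul]
  refine mul_le_mul_of_nonneg_right ?_ (by positivity)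
  rw [Fintype.card_piFinset_const, pow_mul]
  have h5 := Nat.pow_le_pow_left (card_Ch Q) k
  exact_mod_cast h5

end SlotZAux

theorem slotZ (r : ℕ) (B : ℝ) : ∃ D0 q0 : ℕ, ∀ Z q : ℕ, q0 ≤ q → q ^ 5 ≤ Z → ∀ b : CI → ℝ,
    (∀ x ∈ Ch q, ∀ n, ‖Mc Z q x n‖ ≤ b x) → ∑ x ∈ Ch q, b x ≤ B → ∀ (F : ℕ → ℂ) (S : ℝ) (y : ℕ), y ≤ Z → 0 ≤ S →
    (∀ y' ≤ y, ∀ θ : ℝ, ‖∑ n ∈ Icc 1 y', F n * ex (n * θ)‖ ≤ S) → ∀ h : Fin r → ℕ, (∀ i, h i ≤ Z) →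
    ‖∑ n ∈ Icc 1 y, F n * ∏ i, LL Z q (q ^ (8 * (r + 1))) (n + h i)‖ ≤ (q : ℝ) ^ D0 * S := by
  set β : ℝ := max 1 B with hβ
  obtain ⟨q0, hq0⟩ := exists_nat_ge ((1 + 40 * (r : ℝ)) * β ^ r)
  refine ⟨16 * r * (r + 1) + 4 * r + 6, max q0 2, fun Z q hq hZ b hb1 hb2 F S y hy hS hF h hh => ?_⟩
  have hq2 : 2 ≤ q := (le_max_right _ _).trans hq
  have hqq : (q0 : ℝ) ≤ q := by exact_mod_cast (le_max_left q0 2).trans hq
  have hq1 : (1 : ℝ) ≤ q := by exact_mod_cast (by omega : 1 ≤ q)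
  have hβ1 : 1 ≤ β := le_max_left _ _
  have hβ0 : 0 ≤ β := by linarith
  have hb0 : ∀ x ∈ Ch q, 0 ≤ b x := fun x hx => (norm_nonneg _).trans (hb1 x hx 0)
  have hbβ : ∀ x ∈ Ch q, ∀ n, ‖Mc Z q x n‖ ≤ β := fun x hx n =>
    (hb1 x hx n).trans ((single_le_sum hb0 hx).trans (hb2.trans (le_max_right _ _)))
  refine (SlotZAux.all Z q hq2 hZ (q ^ (8 * (r + 1))) β hβ1 hbβ h hh y hy F S hS hF).trans ?_
  have h1 : β ^ r + r * β ^ r * (40 * (q : ℝ) ^ 5) ≤ (q : ℝ) ^ 6 := by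
    have e1 : (1 : ℝ) ≤ (q : ℝ) ^ 5 := one_le_pow₀ hq1
    have e2 : 0 ≤ β ^ r := by positivity
    calc β ^ r + r * β ^ r * (40 * (q : ℝ) ^ 5) ≤
        β ^ r * (q : ℝ) ^ 5 + r * β ^ r * (40 * (q : ℝ) ^ 5) := by nlinarith
      _ = ((1 + 40 * (r : ℝ)) * β ^ r) * (q : ℝ) ^ 5 := by ring
      _ ≤ q * (q : ℝ) ^ 5 := by
          refine mul_le_mul_of_nonneg_right (hq0.trans hqq) (by positivity)
      _ = _ := by ring
  have h2 : (((q ^ (8 * (r + 1)) : ℕ) : ℝ)) ^ r = (q : ℝ) ^ (8 * (r + 1) * r) := by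
    push_cast
    rw [← pow_mul]
  rw [h2]
  calc (q : ℝ) ^ (2 * r) * ((q : ℝ) ^ (8 * (r + 1) * r) * (((q : ℝ) ^ r * (q : ℝ) ^ (8 * (r + 1) * r)) * (q : ℝ) ^ r *
        (β ^ r + r * β ^ r * (40 * (q : ℝ) ^ 5)) * S))
      ≤ (q : ℝ) ^ (2 * r) * ((q : ℝ) ^ (8 * (r + 1) * r) * (((q : ℝ) ^ r * (q : ℝ) ^ (8 * (r + 1) * r)) * (q : ℝ) ^ r *
        (q : ℝ) ^ 6 * S)) := by gcongr
    _ = (q : ℝ) ^ (16 * r * (r + 1) + 4 * r + 6) * S := by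
        rw [show 16 * r * (r + 1) + 4 * r + 6 = 2 * r + 8 * (r + 1) * r + (r + 8 * (r + 1) * r + r + 6) by ring]
        simp only [pow_add]
        ring

end Pool.Agent.DSH
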