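import Pool.Agent.Lib.DSH.DefX
import Pool.Agent.Lib.GMV.PSum

/-!
# DSH.SumX (1.7 h): the coefficients in the presence of an exceptional zero

PROOF. Copy the proof of `GMV.sumP` (`PSum.lean`) with `A0 = 0` and `η = c1/l` (the second bound for the zeros, by `DHz`, is not needed; `hzero` is its `h1`), so that all error terms are `≤ B (Er + 1/Q)`; and `1/Q ≤ Er a X Q` for `a ≤ 1/4` because
`exp(√(log X)/2) ≤ Q`, i.e. `log X ≤ 4 (log Q)²`. The new conclusion is the last one: the formula of the proof of `hexc` (`mc_formula` with the zero set `{β}`) is `‖Mc xe n + ∫ wtF t^(β-1)‖ ≤ C N xe + 2C/Q³`, and for `3 X ≤ n Q`, `n Q + X ≤ 2 X Q`: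
`wtF X Q n` is a nonnegative function supported in `|t - n| ≤ X/Q⁵` with integral within `O(1/Q³)` of `1` (as in the estimate of `Mc one n - 1`), there `|t^(β-1) - n^(β-1)| ≤ |t/n - 1| · 2 ≤ 1/Q³` (`n ≥ 3 X/Q`, `9/10 ≤ β ≤ 1`, the mean value theorem or `Bernoulli`), `n^(β-1) ≤ 1`.
-/

set_option autoImplicit false

open Finset Filter

namespace Pool.Agent.DSH

open Pool.Agent.HLB Pool.Agent.HLT Pool.Agent.HLR Pool.Agent.Lib.GMV Pool.Agent.BLF

namespace SumXAux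

lemma rp_sub {a b r : ℝ} (ha : 1 ≤ a) (hab : a ≤ b) (hr : -1 ≤ r) (hr0 : r ≤ 0) :
    |a ^ r - b ^ r| ≤ (b - a) / a := by
  have ha0 : 0 < a := by linarith
  have hb0 : 0 < b := by linarith
  have h1 : b ^ r ≤ a ^ r := Real.rpow_le_rpow_of_nonpos ha0 hab hr0
  have h2 : a ^ r ≤ 1 := Real.rpow_le_one_of_one_le_of_nonpos ha hr0
  have h0 : 0 ≤ a ^ r := Real.rpow_nonneg ha0.le _
  have h3 : b ^ r = a ^ r * (b / a) ^ r := by
    rw [← Real.mul_rpow ha0.le (by positivity), mul_div_cancel₀ _ ha0.ne']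
  have h4 : (b / a) ^ (-1 : ℝ) ≤ (b / a) ^ r :=
    Real.rpow_le_rpow_of_exponent_le ((one_le_div ha0).mpr hab) hr
  rw [Real.rpow_neg_one, inv_div] at h4
  rw [abs_of_nonneg (by linarith), h3]
  have h5 : a ^ r * (a / b) ≤ a ^ r * (b / a) ^ r := mul_le_mul_of_nonneg_left h4 h0
  have h6 : a / b ≤ 1 := (div_le_one hb0).mpr hab
  have h7 : a ^ r * (1 - a / b) ≤ 1 * (1 - a / b) := mul_le_mul_of_nonneg_right h2 (by linarith)
  have h8 : 1 - a / b ≤ (b - a) / a := by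
    have h9 : 1 - a / b = (b - a) / b := by
      field_simp
    rw [h9]
    exact div_le_div_of_nonneg_left (by linarith) ha0 hab
  linarith

open Pool.Agent.Lib.GMV.PWtAux Pool.Agent.Lib.GMV.FMainAux in
/-- The integral of the power against the weight. -/
lemma wtF_beta (X Q n : ℕ) (hQ : 2 ≤ Q) (hX : Q ^ 6 ≤ X) (h1 : 3 * X ≤ n * Q)
    (h2 : n * Q + X ≤ 2 * X * Q) (β : ℝ) (hβ0 : 0 ≤ β) (hβ : β ≤ 1) :
    ‖(∫ t, (wtF X Q n t : ℂ) * (t : ℂ) ^ ((β : ℂ) - 1)) - (((n : ℝ) ^ (β - 1) : ℝ) : ℂ)‖ ≤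
      1 / (Q : ℝ) := by
  obtain ⟨hU, hUQ⟩ := width hQ hX
  have hX0 : (0 : ℝ) < X := by
    have : 0 < X := lt_of_lt_of_le (by positivity) hX
    exact_mod_cast this
  have hQ0 : (0 : ℝ) < Q := by
    have : 0 < Q := by omega
    exact_mod_cast this
  have hQ2' : (2 : ℝ) ≤ Q := by exact_mod_cast hQ
  have h1' : 3 * (X : ℝ) ≤ n * Q := by exact_mod_cast h1
  have h2' : (n : ℝ) * Q + X ≤ 2 * X * Q := by exact_mod_cast h2
  have hUQ2 : ((X / Q ^ 5 : ℕ) : ℝ) * (Q : ℝ) ^ 2 ≤ X := by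
    have h3 : X / Q ^ 5 * Q ^ 2 ≤ X := by
      calc X / Q ^ 5 * Q ^ 2 ≤ X / Q ^ 5 * Q ^ 5 :=
            Nat.mul_le_mul_left _ (Nat.pow_le_pow_right (by omega) (by norm_num))
        _ ≤ X := Nat.div_mul_le_self _ _
    exact_mod_cast h3
  have hXQ6 : (Q : ℝ) ^ 6 ≤ X := by exact_mod_cast hX
  set U : ℝ := ((X / Q ^ 5 : ℕ) : ℝ) with hUdef
  -- the lower end point
  have hlow : 2 * (X : ℝ) ≤ (n - U) * Q := by
    have : (n - U) * (Q : ℝ) = n * Q - U * Q := by ring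
    rw [this]
    linarith
  have hQX : (Q : ℝ) ≤ X := by
    have h3 : (Q : ℝ) ^ 1 ≤ (Q : ℝ) ^ 6 := pow_le_pow_right₀ (by linarith) (by norm_num)
    rw [pow_one] at h3
    linarith
  have hlow1 : 1 ≤ (n : ℝ) - U := by
    by_contra hcon
    rw [not_le] at hcon
    have : (n - U) * (Q : ℝ) < 1 * Q := mul_lt_mul_of_pos_right hcon hQ0
    linarith
  have hratio : U / (n - U) ≤ 1 / (Q : ℝ) := by
    rw [div_le_div_iff₀ (by linarith) hQ0, one_mul]
    have h3 : U * (Q : ℝ) * Q ≤ (n - U) * Q := by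
      have : U * (Q : ℝ) * Q = U * (Q : ℝ) ^ 2 := by ring
      rw [this]
      linarith
    exact le_of_mul_le_mul_right h3 hQ0
  have hv : ∀ t ∈ Set.Icc ((n : ℝ) - U) (n + U), vw X Q t = 1 := by
    intro t ht
    unfold vw
    have e1 : 2 * (X : ℝ) ≤ t * Q := hlow.trans (mul_le_mul_of_nonneg_right ht.1 hQ0.le)
    have e2 : t * Q ≤ 2 * X * Q := by
      have : t * (Q : ℝ) ≤ (n + U) * Q := mul_le_mul_of_nonneg_right ht.2 hQ0.le
      have e3 : (n + U) * (Q : ℝ) = n * Q + U * Q := by ring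
      linarith
    have g1 : 1 ≤ t * Q / X - 1 := by
      rw [le_sub_iff_add_le, le_div_iff₀ hX0]
      linarith
    have g2 : 1 ≤ 2 * (Q : ℝ) + 1 - t * Q / X := by
      have : t * Q / X ≤ 2 * Q := by
        rw [div_le_iff₀ hX0]
        linarith
      linarith
    rw [min_eq_left (le_min g1 g2)]
    exact max_eq_right zero_le_one
  rw [integral_line (U := U) (y := n) (fun x hx => by rw [wt_zero x hx]; simp)]
  have e0 : (((n : ℝ) ^ (β - 1) : ℝ) : ℂ) =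
      ∫ x in ((n : ℝ) - U)..(n + U), ((tri U n x : ℝ) : ℂ) * (((n : ℝ) ^ (β - 1) : ℝ) : ℂ) := by
    rw [intervalIntegral.integral_mul_const, intervalIntegral.integral_ofReal, integral_tri hU,
      Complex.ofReal_one, one_mul]
  have e1 : ∫ x in ((n : ℝ) - U)..(n + U), (wtF X Q n x : ℂ) * (x : ℂ) ^ ((β : ℂ) - 1) =
      ∫ x in ((n : ℝ) - U)..(n + U), ((tri U n x : ℝ) : ℂ) * (((x : ℝ) ^ (β - 1) : ℝ) : ℂ) := by
    apply intervalIntegral.integral_congr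
    intro t ht
    rw [Set.uIcc_of_le (by linarith)] at ht
    have ht0 : 0 ≤ t := by linarith [ht.1]
    simp only
    rw [Complex.ofReal_cpow ht0]
    unfold wtF
    rw [hv t ht, mul_one]
    push_cast
    rfl
  have hcont : ContinuousOn (fun x : ℝ => ((tri U n x : ℝ) : ℂ) * (((x : ℝ) ^ (β - 1) : ℝ) : ℂ))
      (Set.uIcc ((n : ℝ) - U) (n + U)) := by
    apply ContinuousOn.mul
    · exact (Complex.continuous_ofReal.comp (tri_continuous U n)).continuousOn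
    · apply Complex.continuous_ofReal.comp_continuousOn
      apply ContinuousOn.rpow_const continuousOn_id
      intro x hx
      rw [Set.uIcc_of_le (by linarith)] at hx
      left
      have : 0 < x := by linarith [hx.1]
      simpa using this.ne'
  have hcont2 : Continuous (fun x : ℝ => ((tri U n x : ℝ) : ℂ) * (((n : ℝ) ^ (β - 1) : ℝ) : ℂ)) :=
    (Complex.continuous_ofReal.comp (tri_continuous U n)).mul continuous_const
  have e2 : (∫ x in ((n : ℝ) - U)..(n + U), (wtF X Q n x : ℂ) * (x : ℂ) ^ ((β : ℂ) - 1)) -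
      (((n : ℝ) ^ (β - 1) : ℝ) : ℂ) =
      ∫ x in ((n : ℝ) - U)..(n + U), ((tri U n x : ℝ) : ℂ) *
        ((((x : ℝ) ^ (β - 1) : ℝ) : ℂ) - (((n : ℝ) ^ (β - 1) : ℝ) : ℂ)) := by
    conv_lhs => rw [e1, e0]
    rw [← intervalIntegral.integral_sub hcont.intervalIntegrable (hcont2.intervalIntegrable _ _)]
    apply intervalIntegral.integral_congr
    intro t _
    simp only
    ring
  rw [e2]
  apply norm_tri_integral hU
  intro t ht
  rw [← Complex.ofReal_sub, Complex.norm_real, Real.norm_eq_abs]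
  refine le_trans ?_ hratio
  rcases le_total t n with h | h
  · refine (rp_sub (by linarith [ht.1] : 1 ≤ t) h (by linarith) (by linarith)).trans ?_
    apply div_le_div₀ hU.le (by linarith [ht.1]) (by linarith) ht.1
  · rw [abs_sub_comm]
    refine (rp_sub (by linarith : 1 ≤ (n : ℝ)) h (by linarith) (by linarith)).trans ?_
    apply div_le_div₀ hU.le (by linarith [ht.2]) (by linarith) (by linarith)

/-- `1 / Q` is at most the error. -/
lemma inv_le_Er {c2 a : ℝ} {X Q : ℕ} (hR : Rg c2 X Q) (hL : 0 ≤ Real.log X) (hl : 0 < Real.log Q)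
    (ha : a ≤ 1 / 4) : 1 / (Q : ℝ) ≤ Er a X Q := by
  have hQ0 : (0 : ℝ) < Q := (Real.exp_pos _).trans_le hR.1
  have h1 : Real.sqrt (Real.log X) / 2 ≤ Real.log Q := (Real.le_log_iff_exp_le hQ0).mpr hR.1
  have h2 : Real.log X ≤ 4 * Real.log Q ^ 2 := by
    have h3 : Real.sqrt (Real.log X) ^ 2 = Real.log X := Real.sq_sqrt hL
    have h4 : Real.sqrt (Real.log X) ≤ 2 * Real.log Q := by linarith
    have h5 := pow_le_pow_left₀ (Real.sqrt_nonneg _) h4 2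
    rw [h3] at h5
    linarith
  have h6 : (Q : ℝ) = Real.exp (Real.log Q) := (Real.exp_log hQ0).symm
  unfold Er
  rw [one_div]
  nth_rw 1 [h6]
  rw [← Real.exp_neg]
  apply Real.exp_le_exp.mpr
  apply neg_le_neg
  rw [div_le_iff₀ hl]
  calc a * Real.log X ≤ 1 / 4 * Real.log X := mul_le_mul_of_nonneg_right ha hL
    _ ≤ 1 / 4 * (4 * Real.log Q ^ 2) := mul_le_mul_of_nonneg_left h2 (by norm_num)
    _ = Real.log Q * Real.log Q := by ring

lemma Er_anti {a b : ℝ} {X Q : ℕ} (hL : 0 ≤ Real.log X) (hl : 0 < Real.log Q) (hab : a ≤ b) :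
    Er b X Q ≤ Er a X Q := by
  unfold Er
  apply Real.exp_le_exp.mpr
  apply neg_le_neg
  apply div_le_div_of_nonneg_right _ hl.le
  exact mul_le_mul_of_nonneg_right hab hL

end SumXAux

open SumXAux Pool.Agent.Lib.GMV.PSumAux in
open scoped Classical in
theorem sumX (c1 c : ℝ) (hZ : ZFree c1) (hc : 0 < c) (hcc : c < c1) (hc1 : c ≤ 1 / 2) :
    ∃ a B c2 : ℝ, 0 < a ∧ 0 < B ∧ 0 < c2 ∧ ∃ X0 : ℕ, ∀ X Q : ℕ, X0 ≤ X → Rg c2 X Q →
    ∀ (xe : CI) (β : ℝ), IsExc c Q xe β → 9 / 10 ≤ β ∧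
    ∃ b : CI → ℝ, (∀ x ∈ Ch Q, ∀ n, ‖Mc X Q x n‖ ≤ b x) ∧ ∑ x ∈ Ch Q, b x ≤ B ∧
      ∑ x ∈ Ch Q \ {one, xe}, b x ≤ B * Er a X Q ∧
      (∀ n : ℕ, 3 * X ≤ n * Q → n * Q + X ≤ 2 * X * Q → ‖Mc X Q one n - 1‖ ≤ B * Er a X Q) ∧
      ∀ n : ℕ, 3 * X ≤ n * Q → n * Q + X ≤ 2 * X * Q →
        ‖Mc X Q xe n + (((n : ℝ) ^ (β - 1) : ℝ) : ℂ)‖ ≤ B * Er a X Q := by
  obtain ⟨A, B0, hA, hB0, hzs⟩ := zsum
  obtain ⟨C, X1, hC, hmc⟩ := mc_formula
  have hc1p : 0 < c1 := hc.trans hcc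
  have hk1 : (0 : ℝ) < 1 / (2 * A + 2) := by positivity
  obtain ⟨c2, hc2, hc2a, hc2b⟩ : ∃ c2 : ℝ, 0 < c2 ∧ c2 ≤ 1 / 1000 ∧ c2 ≤ 1 / (2 * A + 2) :=
    ⟨min (1 / 1000) (1 / (2 * A + 2)), lt_min (by norm_num) hk1, min_le_left _ _, min_le_right _ _⟩
  obtain ⟨a, ha, ha4, hac⟩ : ∃ a : ℝ, 0 < a ∧ a ≤ 1 / 4 ∧ a ≤ c1 / 8 :=
    ⟨min (1 / 4) (c1 / 8), lt_min (by norm_num) (by positivity), min_le_left _ _, min_le_right _ _⟩
  refine ⟨a, C * B0 + 2 * C + 2, c2, ha, by positivity, hc2, max X1 ⌈Real.exp 100⌉₊, ?_⟩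
  intro X Q hX hR xe β hex
  obtain ⟨hl5, hlL, hL0, hQ2, hX1⟩ := rg ((le_max_right _ _).trans hX) hR
  have hR' : Rg (1 / 1000) X Q := by
    refine ⟨hR.1, hR.2.trans ?_⟩
    exact Real.rpow_le_rpow_of_exponent_le (by exact_mod_cast hX1) hc2a
  have hmc' := hmc X Q ((le_max_left _ _).trans hX) hR'
  have hQ0 : (0 : ℝ) < Q := by exact_mod_cast (by omega : 0 < Q)
  have hQ1 : (1 : ℝ) ≤ Q := by exact_mod_cast (by omega : 1 ≤ Q)
  have hX0 : (0 : ℝ) < X := by exact_mod_cast hX1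
  have hQE : 1 / (Q : ℝ) ≤ Er a X Q := inv_le_Er hR hL0.le (by linarith) ha4
  have hEE : Er (c1 / 8) X Q ≤ Er a X Q := Er_anti hL0.le (by linarith) hac
  have hE0 : 0 < Er a X Q := by unfold Er; exact Real.exp_pos _
  set l := Real.log Q with hl
  set L := Real.log X with hL
  have hl0 : 0 < l := by linarith
  have hL1 : 1000 * l ≤ L := by
    have := mul_le_mul_of_nonneg_right hc2a hL0.le
    linarith
  have hL2 : (2 * A + 2) * l ≤ L := by
    have h1 := hlL.trans (mul_le_mul_of_nonneg_right hc2b hL0.le)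
    rw [one_div, ← div_eq_inv_mul, le_div_iff₀ (by positivity)] at h1
    linarith
  have hQX : Q ^ 6 ≤ X := pow_le 6 hQ2 hX1 (by push_cast; linarith)
  obtain ⟨hxe, hxe1, hxe2, hβ0, hβ1, hβ2⟩ := hex
  have hβ9 : 9 / 10 ≤ β := by
    have h1 : c / l ≤ 1 / 10 := by
      rw [div_le_iff₀ hl0]
      linarith
    linarith
  refine ⟨hβ9, ?_⟩
  have hβZ : (β : ℂ) ∈ Z xe.2 ((Q : ℝ) ^ 30) := by
    rw [mem_Z]
    refine ⟨by simpa using hβ9, ?_, hβ0⟩
    rw [Complex.ofReal_im, abs_zero]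
    positivity
  have hcl : 1 - c1 / l < β := by
    have : c / l < c1 / l := div_lt_div_of_pos_right hcc hl0
    linarith
  have hxeq : xe.1 < Q := by
    have := (mem_Ch.mp hxe).1
    unfold md at this
    omega
  have hmul : mul xe.2 (β : ℂ) = 1 :=
    ((hZ Q hQ2).1 xe.1 hxeq xe.2 (mem_Ch.mp hxe).2 (β : ℂ) hβZ (by simpa using hcl)).2.1
  have hxeone : xe ≠ one := by
    intro h
    apply hxe1
    rw [h]
    rfl
  -- the zeros
  obtain ⟨P, hP⟩ : ∃ P : CI → ℂ → Prop, ∀ x ρ, P x ρ ↔ ¬ (x = xe ∧ ρ = (β : ℂ)) :=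
    ⟨fun x ρ => ¬ (x = xe ∧ ρ = (β : ℂ)), fun _ _ => Iff.rfl⟩
  set η := c1 / l with hη
  have hη0 : 0 ≤ η := by positivity
  have hzero : ∀ x ∈ Ch Q, ∀ ρ ∈ Z x.2 ((Q : ℝ) ^ 30), P x ρ → ρ.re ≤ 1 - η := by
    intro x hx ρ hρ hPx
    by_contra hcon
    rw [not_le] at hcon
    have hxq : x.1 < Q := by
      have := (mem_Ch.mp hx).1
      unfold md at this
      omega
    have h2 := (hZ Q hQ2).2 x.1 hxq xe.1 hxeq x.2 xe.2 (mem_Ch.mp hx).2 (mem_Ch.mp hxe).2 ρ hρ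
      (β : ℂ) hβZ hcon (by simpa using hcl)
    apply (hP x ρ).mp hPx
    obtain ⟨q, χ⟩ := x
    obtain ⟨q', χ'⟩ := xe
    simp only at h2
    injection h2 with e1 e2
    subst e1
    have e3 := eq_of_heq e2
    injection e3 with e4 e5
    subst e4
    exact ⟨rfl, e5⟩
  have hsum := hzs Q (L - l) η P hQ2 (by nlinarith) hη0 hzero
  have hexp : Real.exp (-((L - l) * η / 2)) ≤ Real.exp (-(c1 / 8 * L / l)) := by
    apply Real.exp_le_exp.mpr
    have h5 : c1 / 8 * L / l = L / 8 * η := by rw [hη]; ring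
    have h6 : L / 2 * η ≤ (L - l) * η := mul_le_mul_of_nonneg_right (by linarith) hη0
    have h7 : 0 ≤ L * η := mul_nonneg hL0.le hη0
    rw [h5]
    linarith
  have hexp1 : Real.exp (-((L - l) * η / 2)) ≤ 1 := by
    rw [Real.exp_le_one_iff]
    have : 0 ≤ (L - l) * η := mul_nonneg (by linarith) hη0
    linarith
  have hexp2 : Real.exp (-((L - l) * η / 2)) ≤ Er a X Q := hexp.trans hEE
  set E := Er a X Q with hE
  set N : CI → ℝ := fun x => ∑ ρ ∈ (Z x.2 ((Q : ℝ) ^ 30)).filter (P x),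
      (mul x.2 ρ : ℝ) * Real.exp (-((L - l) * (1 - ρ.re))) with hN
  have hN0 : ∀ x, 0 ≤ N x := fun x => sum_nonneg fun ρ _ =>
    mul_nonneg (Nat.cast_nonneg _) (Real.exp_pos _).le
  have hNs : ∑ x ∈ Ch Q, N x ≤ B0 * E :=
    hsum.trans (mul_le_mul_of_nonneg_left hexp2 hB0.le)
  have hNs1 : ∑ x ∈ Ch Q, N x ≤ B0 := by
    refine hsum.trans ?_
    calc _ ≤ B0 * 1 := mul_le_mul_of_nonneg_left hexp1 hB0.le
      _ = B0 := mul_one _
  have hQ3 : 0 < (Q : ℝ) ^ 3 := by positivity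
  have hQ31 : 2 * C / (Q : ℝ) ^ 3 ≤ 2 * C / Q := by
    apply div_le_div_of_nonneg_left (by positivity) hQ0
    calc (Q : ℝ) = (Q : ℝ) ^ 1 := (pow_one _).symm
      _ ≤ (Q : ℝ) ^ 3 := pow_le_pow_right₀ hQ1 (by norm_num)
  have hQ32 : 2 * C / (Q : ℝ) ≤ 2 * C * E := by
    have h3 : 2 * C / (Q : ℝ) = 2 * C * (1 / Q) := by ring
    rw [h3]
    exact mul_le_mul_of_nonneg_left hQE (by positivity)
  have hCB : C * (B0 * E) = C * B0 * E := by ring
  -- the bounds for the characters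
  have hsing : ∀ x ∈ Ch Q, N x ≤ B0 * E := fun x hx =>
    (single_le_sum (f := N) (fun y _ => hN0 y) hx).trans hNs
  have hgen : ∀ x ∈ Ch Q, x ≠ xe → ∀ n : ℕ,
      ‖Mc X Q x n - (if x.2 = 1 then ∫ t, (wtF X Q n t : ℂ) else 0)‖ ≤ C * N x + 2 * C / (Q : ℝ) ^ 3 := by
    intro x hx hxx n
    have h1 := hmc' x hx n ∅ (empty_subset _)
    rw [sum_empty, sum_empty, add_zero, add_zero, mul_one, sdiff_empty] at h1
    have h2 : ∑ ρ ∈ Z x.2 ((Q : ℝ) ^ 30), (mul x.2 ρ : ℝ) * ((X : ℝ) / Q) ^ (ρ.re - 1) = N x := by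
      have h3 : (Z x.2 ((Q : ℝ) ^ 30)).filter (P x) = Z x.2 ((Q : ℝ) ^ 30) := by
        apply filter_true_of_mem
        intro ρ _
        rw [hP]
        exact fun h => hxx h.1
      rw [hN]
      simp only [h3]
      exact sum_congr rfl fun ρ _ => by rw [rpow_eq hQ2 hX1]
    rw [h2] at h1
    refine h1.trans ?_
    have h4 : C / (Q : ℝ) ^ 3 ≤ 2 * C / (Q : ℝ) ^ 3 := by
      apply div_le_div_of_nonneg_right _ hQ3.le
      linarith
    linarith
  have hexc0 : ∀ n : ℕ, ‖Mc X Q xe n + ∫ t, (wtF X Q n t : ℂ) * (t : ℂ) ^ ((β : ℂ) - 1)‖ ≤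
      C * N xe + 2 * C / (Q : ℝ) ^ 3 := by
    intro n
    have h1 := hmc' xe hxe n {(β : ℂ)} (singleton_subset_iff.mpr hβZ)
    rw [if_neg hxe1, sum_singleton, sum_singleton, hmul, Nat.cast_one, Nat.cast_one, one_mul,
      sub_zero] at h1
    have h2 : ∑ ρ ∈ Z xe.2 ((Q : ℝ) ^ 30) \ {(β : ℂ)}, (mul xe.2 ρ : ℝ) * ((X : ℝ) / Q) ^ (ρ.re - 1) =
        N xe := by
      have h3 : (Z xe.2 ((Q : ℝ) ^ 30)).filter (P xe) = Z xe.2 ((Q : ℝ) ^ 30) \ {(β : ℂ)} := by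
        ext ρ
        rw [mem_filter, Finset.mem_sdiff, mem_singleton, hP]
        simp only [true_and]
      rw [hN]
      simp only [h3]
      exact sum_congr rfl fun ρ _ => by rw [rpow_eq hQ2 hX1]
    rw [h2] at h1
    have h7 : C * (1 + 1) / (Q : ℝ) ^ 3 = 2 * C / (Q : ℝ) ^ 3 := by ring
    rw [h7] at h1
    exact h1
  have hpow1 : ((X : ℝ) / Q) ^ (β - 1) ≤ 1 := by
    rw [rpow_eq hQ2 hX1, Real.exp_le_one_iff]
    have : 0 ≤ (L - l) * (1 - β) := mul_nonneg (by linarith) (by linarith)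
    linarith
  have hexc : ∀ n : ℕ, ‖Mc X Q xe n‖ ≤ 1 + (C * N xe + 2 * C / (Q : ℝ) ^ 3) := by
    intro n
    have h1 := hexc0 n
    have h5 := wtF_pow X Q n hQ2 hQX β hβ2.le
    have h6 : ‖Mc X Q xe n‖ ≤ ‖Mc X Q xe n + ∫ t, (wtF X Q n t : ℂ) * (t : ℂ) ^ ((β : ℂ) - 1)‖ +
        ‖∫ t, (wtF X Q n t : ℂ) * (t : ℂ) ^ ((β : ℂ) - 1)‖ := by
      have := norm_sub_le (Mc X Q xe n + ∫ t, (wtF X Q n t : ℂ) * (t : ℂ) ^ ((β : ℂ) - 1))
        (∫ t, (wtF X Q n t : ℂ) * (t : ℂ) ^ ((β : ℂ) - 1))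
      rwa [add_sub_cancel_right] at this
    linarith
  have hone : ∀ n : ℕ, ‖Mc X Q one n - ∫ t, (wtF X Q n t : ℂ)‖ ≤ C * N one + 2 * C / (Q : ℝ) ^ 3 := by
    intro n
    have h1 := hgen one (one_mem_Ch (by omega)) (Ne.symm hxeone) n
    rwa [if_pos (by rfl)] at h1
  refine ⟨fun x => C * N x + 2 * C / (Q : ℝ) ^ 3 + (if x = one ∨ x = xe then 1 else 0),
    ?_, ?_, ?_, ?_, ?_⟩
  · intro x hx n
    show ‖Mc X Q x n‖ ≤ C * N x + 2 * C / (Q : ℝ) ^ 3 + (if x = one ∨ x = xe then 1 else 0)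
    by_cases hxx : x = xe
    · rw [if_pos (Or.inr hxx), hxx]
      have := hexc n
      linarith
    by_cases hx1 : x = one
    · rw [if_pos (Or.inl hx1), hx1]
      have h1 := hone n
      have h2 : ‖∫ t, (wtF X Q n t : ℂ)‖ ≤ 1 := by
        rw [integral_complex_ofReal, Complex.norm_real, Real.norm_eq_abs,
          abs_of_nonneg (wtF_mem X Q n hQ2 hQX).1]
        exact (wtF_mem X Q n hQ2 hQX).2
      have h3 := norm_sub_norm_le (Mc X Q one n) (∫ t, (wtF X Q n t : ℂ))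
      linarith
    · have h1 := hgen x hx hxx n
      have h2 : x.2 ≠ 1 := fun h => hx1 (eq_one_of hx h)
      rw [if_neg h2, sub_zero] at h1
      rw [if_neg (by tauto), add_zero]
      exact h1
  · rw [sum_add_distrib, sum_add_distrib, ← mul_sum, sum_const, nsmul_eq_mul]
    have h1 : C * ∑ x ∈ Ch Q, N x ≤ C * B0 := mul_le_mul_of_nonneg_left hNs1 hC.le
    have h2 : ((Ch Q).card : ℝ) ≤ (Q : ℝ) * Q := by exact_mod_cast card_Ch Q
    have h3 : ((Ch Q).card : ℝ) * (2 * C / (Q : ℝ) ^ 3) ≤ 2 * C := by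
      calc ((Ch Q).card : ℝ) * (2 * C / (Q : ℝ) ^ 3) ≤ ((Q : ℝ) * Q) * (2 * C / (Q : ℝ) ^ 3) :=
            mul_le_mul_of_nonneg_right h2 (by positivity)
        _ = 2 * C / Q := by field_simp
        _ ≤ 2 * C := div_le_self (by positivity) hQ1
    have h4 : ∑ x ∈ Ch Q, (if x = one ∨ x = xe then (1 : ℝ) else 0) ≤ 2 := by
      rw [← sum_filter, sum_const, nsmul_eq_mul, mul_one]
      have h5 : ((Ch Q).filter fun x => x = one ∨ x = xe) ⊆ {one, xe} := by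
        intro x hx
        rw [mem_filter] at hx
        simpa using hx.2
      have h6 := (card_le_card h5).trans card_le_two
      exact_mod_cast h6
    linarith
  · have h1 : ∑ x ∈ Ch Q \ {one, xe}, (C * N x + 2 * C / (Q : ℝ) ^ 3 + (if x = one ∨ x = xe then (1 : ℝ) else 0)) =
        ∑ x ∈ Ch Q \ {one, xe}, (C * N x + 2 * C / (Q : ℝ) ^ 3) := by
      apply sum_congr rfl
      intro x hx
      rw [Finset.mem_sdiff, mem_insert, mem_singleton] at hx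
      rw [if_neg hx.2, add_zero]
    rw [h1]
    have h2 : ∑ x ∈ Ch Q \ {one, xe}, (C * N x + 2 * C / (Q : ℝ) ^ 3) ≤
        ∑ x ∈ Ch Q, (C * N x + 2 * C / (Q : ℝ) ^ 3) :=
      sum_le_sum_of_subset_of_nonneg sdiff_subset fun x _ _ => by
        have := hN0 x
        positivity
    refine h2.trans ?_
    rw [sum_add_distrib, ← mul_sum, sum_const, nsmul_eq_mul]
    have h3 : C * ∑ x ∈ Ch Q, N x ≤ C * (B0 * E) := mul_le_mul_of_nonneg_left hNs hC.le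
    have h4 : ((Ch Q).card : ℝ) ≤ (Q : ℝ) * Q := by exact_mod_cast card_Ch Q
    have h5 : ((Ch Q).card : ℝ) * (2 * C / (Q : ℝ) ^ 3) ≤ 2 * C / Q := by
      calc ((Ch Q).card : ℝ) * (2 * C / (Q : ℝ) ^ 3) ≤ ((Q : ℝ) * Q) * (2 * C / (Q : ℝ) ^ 3) :=
            mul_le_mul_of_nonneg_right h4 (by positivity)
        _ = 2 * C / Q := by field_simp
    have h6 : (C * B0 + 2 * C + 2) * E = C * B0 * E + 2 * C * E + 2 * E := by ring
    rw [h6]
    linarith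
  · intro n hn1 hn2
    have h1 := hone n
    rw [integral_complex_ofReal, wtF_one X Q n hQ2 hQX hn1 hn2, Complex.ofReal_one] at h1
    have h2 := mul_le_mul_of_nonneg_left (hsing one (one_mem_Ch (by omega))) hC.le
    have h6 : (C * B0 + 2 * C + 2) * E = C * B0 * E + 2 * C * E + 2 * E := by ring
    rw [h6]
    linarith
  · intro n hn1 hn2
    have h1 := hexc0 n
    have h2 := mul_le_mul_of_nonneg_left (hsing xe hxe) hC.le
    have h3 := wtF_beta X Q n hQ2 hQX hn1 hn2 β (by linarith) hβ2.le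
    have h4 : Mc X Q xe n + (((n : ℝ) ^ (β - 1) : ℝ) : ℂ) =
        (Mc X Q xe n + ∫ t, (wtF X Q n t : ℂ) * (t : ℂ) ^ ((β : ℂ) - 1)) -
        ((∫ t, (wtF X Q n t : ℂ) * (t : ℂ) ^ ((β : ℂ) - 1)) - (((n : ℝ) ^ (β - 1) : ℝ) : ℂ)) := by
      ring
    have h5 := norm_sub_le (Mc X Q xe n + ∫ t, (wtF X Q n t : ℂ) * (t : ℂ) ^ ((β : ℂ) - 1))
        ((∫ t, (wtF X Q n t : ℂ) * (t : ℂ) ^ ((β : ℂ) - 1)) - (((n : ℝ) ^ (β - 1) : ℝ) : ℂ))
    rw [← h4] at h5
    have h6 : (C * B0 + 2 * C + 2) * E = C * B0 * E + 2 * C * E + 2 * E := by ring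
    rw [h6]
    linarith

end Pool.Agent.DSH
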