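import Pool.Agent.Lib.DSH.SingleP
import Pool.Agent.Lib.BLF.Avg

/-!
# DSH.TermSP (1 h): one term of the telescoping sum, single slot

PROOF. Adapt `BLF/TermS.lean` (one dummy variable, `sum_update`; the factors are complex valued and `1`-bounded here, `sf` instead of `sh`, `Sys.sf_le`). `C` is the one of `singleP m`.
-/

set_option autoImplicit false

open Finset Filter

namespace Pool.Agent.DSH

open Pool.Agent.HLB Pool.Agent.HLT Pool.Agent.HLR Pool.Agent.Lib.GMV Pool.Agent.BLF

theorem termSP (m : ℕ) : ∃ C : ℕ, ∀ (r : ℕ) (δ : ℝ) (x : ℕ) (i j : Fin r → Fin m) (H : Fin m → ℕ)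
    (τ : Fin r → ℕ → ℕ), 0 < δ → δ ≤ 1 / 2 → 1 ≤ x → 1 + Real.log (2 * x) ≤ δ⁻¹ → Sys x i j H τ →
    (∀ k, (δ⁻¹) ^ C ≤ H k) → ∀ e₀ : Fin r, i e₀ = j e₀ → ∀ (w : ℕ → ℂ) (G : Fin r → ℕ → ℂ),
    (∀ n ∈ Icc 1 x, ‖w n‖ ≤ 1) → (∀ e, ∀ n ∈ Icc 1 (2 * x), ‖G e n‖ ≤ 1) → SysM x i j H τ (δ ^ C) (G e₀) →
    ∑ t ∈ Fintype.piFinset (fun k => Icc 1 (H k)), ‖∑ n ∈ Icc 1 x, w n * ∏ e, G e (n + sf i j τ t e)‖ ^ 2 ≤
      δ * ((∏ k, (H k : ℝ)) * (x : ℝ) ^ 2) := by
  classical
  obtain ⟨C, h⟩ := singleP m
  refine ⟨C, fun r δ x i j H τ hδ hδ2 hx1 hlog hS hbig e₀ heq w G hw hG hM => ?_⟩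
  set p := i e₀ with hp
  have hτinj : Set.InjOn (τ e₀) (Icc 1 (H p) : Finset ℕ) := (hS.single e₀ heq).1
  have hMp : MSq x (δ ^ C) (G e₀) ((Icc 1 (H p)).image (τ e₀)) := hM.2 e₀ heq
  have hδinv : (1 : ℝ) ≤ δ⁻¹ := by
    rw [one_le_inv₀ hδ]
    linarith
  have hHp : (1 : ℝ) ≤ H p := (one_le_pow₀ hδinv).trans (hbig p)
  have hH1 : ∀ k, 1 ≤ H k := by
    intro k
    have h1 : (1 : ℝ) ≤ H k := (one_le_pow₀ hδinv).trans (hbig k)
    exact_mod_cast h1
  set P := Fintype.piFinset (fun k => Icc 1 (H k)) with hP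
  set f : (Fin m → ℕ) → ℝ := fun t =>
    ‖∑ n ∈ Icc 1 x, w n * ∏ e, G e (n + sf i j τ t e)‖ ^ 2 with hf
  have hd := sum_update (fun k => Icc 1 (H k)) p f
  simp only [Nat.card_Icc, Nat.add_sub_cancel, nsmul_eq_mul] at hd
  -- the slots
  set E1 := (univ.erase e₀).filter (fun e => i e = p ∨ j e = p) with hE1
  set E2 := (univ.erase e₀).filter (fun e => ¬ (i e = p ∨ j e = p)) with hE2
  set kk : Fin r → Fin m := fun e => if i e = p then j e else i e with hkk
  have hnotp : ∀ e ∈ E1, ¬ (i e = p ∧ j e = p) := by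
    intro e he hij
    have he1 : e ≠ e₀ := ne_of_mem_erase (mem_filter.1 he).1
    apply he1
    apply hS.inj
    simp only
    rw [hij.1, hij.2, ← heq]
  have hne : ∀ e ∈ E1, i e ≠ j e := by
    intro e he hij
    rcases (mem_filter.1 he).2 with h1 | h1
    · exact hnotp e he ⟨h1, hij ▸ h1⟩
    · exact hnotp e he ⟨hij.trans h1, h1⟩
  have hkinj : Set.InjOn kk (E1 : Finset (Fin r)) := by
    intro e he e' he' hk
    have he := mem_coe.1 he
    have he' := mem_coe.1 he'
    have n1 := hnotp e he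
    have n2 := hnotp e' he'
    have o1 := hS.ord e
    have o2 := hS.ord e'
    rw [hkk] at hk
    simp only at hk
    apply hS.inj
    simp only
    by_cases h1 : i e = p
    · rw [if_pos h1] at hk
      by_cases h2 : i e' = p
      · rw [if_pos h2] at hk
        rw [h1, h2, hk]
      · rw [if_neg h2] at hk
        have h3 : j e' = p := ((mem_filter.1 he').2).resolve_left h2
        rw [h1, hk] at o1
        rw [h3] at o2
        exact absurd (le_antisymm o2 o1) h2
    · rw [if_neg h1] at hk
      have h3 : j e = p := ((mem_filter.1 he).2).resolve_left h1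
      by_cases h2 : i e' = p
      · rw [if_pos h2] at hk
        rw [h3] at o1
        rw [h2, ← hk] at o2
        exact absurd (le_antisymm o1 o2) h1
      · rw [if_neg h2] at hk
        have h4 : j e' = p := ((mem_filter.1 he').2).resolve_left h2
        rw [h3, h4, hk]
  set ek : Fin m → Fin r := fun k => if h : ∃ e, e ∈ E1 ∧ kk e = k then h.choose else e₀ with hek
  have hekk : ∀ e ∈ E1, ek (kk e) = e := by
    intro e he
    have hex : ∃ e', e' ∈ E1 ∧ kk e' = kk e := ⟨e, he, rfl⟩
    have h1 : ek (kk e) = hex.choose := by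
      rw [hek]
      simp only
      rw [dif_pos hex]
    rw [h1]
    exact hkinj (mem_coe.2 hex.choose_spec.1) (mem_coe.2 he) hex.choose_spec.2
  have hkey := h δ x (E1.image kk) (H p) H (τ e₀) hδ hδ2 hx1 hlog (hbig p)
    (by
      intro k hk
      obtain ⟨e, he, rfl⟩ := mem_image.1 hk
      refine ⟨hbig _, ?_⟩
      have h1 := hS.edge e (hne e he)
      rw [hkk]
      simp only
      by_cases h2 : i e = p
      · rw [if_pos h2]
        rw [h2] at h1
        exact h1
      · rw [if_neg h2]
        have h3 : j e = p := ((mem_filter.1 he).2).resolve_left h2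
        rw [h3] at h1
        rw [Nat.mul_comm (H p)]
        exact h1)
    hH1 hτinj (G e₀) (hG e₀) hMp (fun k => G (ek k))
    (fun n u => w n * ∏ e ∈ E2, G e (n + sf i j τ u e))
    (fun k n hn => hG _ n hn)
    (by
      intro n hn u hu
      rw [norm_mul]
      refine mul_le_one₀ (hw n hn) (norm_nonneg _) ?_
      rw [norm_prod]
      have h1 : ∀ e ∈ E2, ‖G e (n + sf i j τ u e)‖ ≤ 1 := by
        intro e _
        apply hG
        have h2 := hS.sf_le u hu e
        rw [mem_Icc] at hn ⊢
        omega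
      exact prod_le_one (fun _ _ => norm_nonneg _) h1)
  rw [sum_comm] at hkey
  have hterm : ∀ u ∈ P, ∀ s ∈ Icc 1 (H p), f (Function.update u p s) =
      ‖∑ n ∈ Icc 1 x, G e₀ (n + τ e₀ s) *
        (∏ k ∈ E1.image kk, G (ek k) (n + s * u k)) *
          (w n * ∏ e ∈ E2, G e (n + sf i j τ u e))‖ ^ 2 := by
    intro u hu s hs
    rw [hf]
    simp only
    congr 2
    refine sum_congr rfl fun n _ => ?_
    have hsplit : ∏ e, G e (n + sf i j τ (Function.update u p s) e)
        = G e₀ (n + τ e₀ s) *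
          ((∏ k ∈ E1.image kk, G (ek k) (n + s * u k)) *
            ∏ e ∈ E2, G e (n + sf i j τ u e)) := by
      rw [← mul_prod_erase univ _ (mem_univ e₀), ← prod_filter_mul_prod_filter_not (univ.erase e₀)
        (fun e => i e = p ∨ j e = p)]
      congr 1
      · congr 2
        unfold sf
        rw [if_pos heq, ← hp, Function.update_self]
      · congr 1
        · rw [prod_image hkinj]
          refine prod_congr rfl fun e he => ?_
          rw [hekk e he]
          congr 2
          unfold sf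
          rw [if_neg (hne e he), hkk]
          simp only
          by_cases h2 : i e = p
          · have h3 : j e ≠ p := fun h => hnotp e he ⟨h2, h⟩
            rw [if_pos h2, h2, Function.update_self, Function.update_of_ne h3]
          · have h3 : j e = p := ((mem_filter.1 he).2).resolve_left h2
            rw [if_neg h2, h3, Function.update_self, Function.update_of_ne h2, Nat.mul_comm]
        · refine prod_congr rfl fun e he => ?_
          have he' := (mem_filter.1 he).2
          rw [not_or] at he'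
          congr 2
          unfold sf
          rw [Function.update_of_ne he'.1, Function.update_of_ne he'.2]
    rw [hsplit]
    ring
  have hfin : (H p : ℝ) * ∑ t ∈ P, f t ≤
      (H p : ℝ) * (δ * ((∏ k, (H k : ℝ)) * (x : ℝ) ^ 2)) := by
    rw [← hd]
    rw [sum_congr rfl fun u hu => sum_congr rfl fun s hs => hterm u hu s hs]
    refine hkey.trans (le_of_eq ?_)
    ring
  exact le_of_mul_le_mul_left hfin (by positivity)

end Pool.Agent.DSH
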