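import Pool.Agent.Lib.DSH.TermEP
import Pool.Agent.Lib.DSH.TermSP
import Pool.Agent.Lib.DSH.MsL

/-!
# DSH.SysP (1 h): products of two functions along a system of slots

PROOF. Telescoping (compare `BLF/GenMs.lean`, `GMV.ExceptAux.tele`): `∏ f - ∏ g = ∑_{e₀} ∏_e G_{e₀,e}` with `G = g` for `e < e₀`, `f - g = 2 · (f - g)/2` for `e = e₀`, `f` for `e > e₀`. With `F = (f - g)/2` in the
slot `e₀` (all functions `1`-bounded) `termEP` or `termSP` gives `≤ δ₁ ∏ H x²` for each `e₀`, `δ₁ = δ ^ a`, so the sum is `≤ r² · 4 · δ ^ a ∏ H x² ≤ δ ∏ H x²` if `4 r² δ^(a-1) ≤ 1`: `a = 2 r + 3` (`r ≤ 2^r`).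
`C = a · max(C_E, C_S) + 1` (the hypotheses for `δ` imply those for `δ₁ = δ ^ a`: `δ₁ ≤ δ`, `(δ₁⁻¹)^C_E = (δ⁻¹)^(a C_E)`, `δ ^ C ≤ δ₁ ^ C_E`, `MSq.mono`). For `r = 0` the left side is `0`.
-/

set_option autoImplicit false

open Finset Filter

namespace Pool.Agent.DSH

open Pool.Agent.HLB Pool.Agent.HLT Pool.Agent.HLR Pool.Agent.Lib.GMV Pool.Agent.BLF

/-- The factors before `e₀` are `g`, the factor `e₀` is `(f - g) / 2` and the others are `f`. -/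
private noncomputable def GS {r : ℕ} (f g : ℕ → ℂ) (e₀ e : Fin r) : ℕ → ℂ :=
  if e < e₀ then g else if e = e₀ then (fun n => (f n - g n) / 2) else f

private lemma prod_GS {r : ℕ} (f g : ℕ → ℂ) (e₀ : Fin r) (a : Fin r → ℕ) :
    2 * ∏ e, GS f g e₀ e (a e) =
      (f (a e₀) - g (a e₀)) * (∏ e ∈ univ with e < e₀, g (a e)) * ∏ e ∈ univ with e₀ < e, f (a e) := by
  have h : ∀ e ∈ (univ : Finset (Fin r)), GS f g e₀ e (a e) =
      (if e = e₀ then (f (a e) - g (a e)) / 2 else 1) *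
      (if e < e₀ then g (a e) else 1) * (if e₀ < e then f (a e) else 1) := by
    intro e _
    unfold GS
    rcases lt_trichotomy e e₀ with h | h | h
    · have h1 : ¬ e = e₀ := h.ne
      have h2 : ¬ e₀ < e := h.asymm
      simp [h, h1, h2]
    · subst h
      simp
    · have h1 : ¬ e = e₀ := h.ne'
      have h2 : ¬ e < e₀ := h.asymm
      simp [h, h1, h2]
  rw [Finset.prod_congr rfl h, Finset.prod_mul_distrib, Finset.prod_mul_distrib,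
    Finset.prod_ite_eq' univ e₀, Finset.prod_filter, Finset.prod_filter]
  simp only [Finset.mem_univ, if_true]
  ring

private lemma teleS {r : ℕ} (f g : ℕ → ℂ) (a : Fin r → ℕ) :
    ∏ e, f (a e) - ∏ e, g (a e) = ∑ e₀, 2 * ∏ e, GS f g e₀ e (a e) := by
  have h := Finset.prod_sub_ordered (univ : Finset (Fin r)) (fun e => f (a e))
    (fun e => f (a e) - g (a e))
  have h1 : ∀ e : Fin r, f (a e) - (f (a e) - g (a e)) = g (a e) := by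
    intro e
    ring
  simp only [h1] at h
  rw [Finset.sum_congr rfl (fun j _ => prod_GS f g j a), h]
  ring

theorem sysP (m r : ℕ) : ∃ C : ℕ, ∀ (δ : ℝ) (x : ℕ) (i j : Fin r → Fin m) (H : Fin m → ℕ) (τ : Fin r → ℕ → ℕ),
    0 < δ → δ ≤ 1 / 2 → 1 ≤ x → 1 + Real.log (2 * x) ≤ δ⁻¹ → Sys x i j H τ → (∀ k, (δ⁻¹) ^ C ≤ H k) →
    ∀ f g w : ℕ → ℂ, (∀ n ∈ Icc 1 (2 * x), ‖f n‖ ≤ 1) → (∀ n ∈ Icc 1 (2 * x), ‖g n‖ ≤ 1) →
    (∀ n ∈ Icc 1 x, ‖w n‖ ≤ 1) → SysM x i j H τ (δ ^ C) (fun n => (f n - g n) / 2) →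
    ∑ t ∈ Fintype.piFinset (fun k => Icc 1 (H k)),
        ‖∑ n ∈ Icc 1 x, w n * (∏ e, f (n + sf i j τ t e) - ∏ e, g (n + sf i j τ t e))‖ ^ 2 ≤
      δ * ((∏ k, (H k : ℝ)) * (x : ℝ) ^ 2) := by
  obtain ⟨CE, hE⟩ := termEP
  obtain ⟨CS, hS⟩ := termSP m
  set a : ℕ := 2 * r + 3 with ha
  refine ⟨a * max CE CS + 1, ?_⟩
  intro δ x i j H τ hδ0 hδ2 hx hlog hsys hH f g w hf hg hw hM
  set C : ℕ := a * max CE CS + 1 with hC
  set δ₁ : ℝ := δ ^ a with hδ₁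
  have hδ1 : δ ≤ 1 := by linarith
  have hδ₁0 : 0 < δ₁ := by positivity
  have hδ₁δ : δ₁ ≤ δ := by
    rw [hδ₁]
    calc δ ^ a ≤ δ ^ 1 := pow_le_pow_of_le_one hδ0.le hδ1 (by omega)
      _ = δ := pow_one δ
  have hinv : 1 ≤ δ⁻¹ := (one_le_inv₀ hδ0).mpr hδ1
  have hlog₁ : 1 + Real.log (2 * x) ≤ δ₁⁻¹ := hlog.trans (inv_anti₀ hδ₁0 hδ₁δ)
  have hH₁ : ∀ D : ℕ, D ≤ max CE CS → ∀ k, (δ₁⁻¹) ^ D ≤ H k := by
    intro D hD k
    refine le_trans ?_ (hH k)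
    rw [hδ₁, ← inv_pow, ← pow_mul]
    refine pow_le_pow_right₀ hinv ?_
    rw [hC]
    have := Nat.mul_le_mul_left a hD
    omega
  have hρ : ∀ D : ℕ, D ≤ max CE CS → δ ^ C ≤ δ₁ ^ D := by
    intro D hD
    rw [hδ₁, ← pow_mul]
    refine pow_le_pow_of_le_one hδ0.le hδ1 ?_
    rw [hC]
    have := Nat.mul_le_mul_left a hD
    omega
  have hM₁ : ∀ D : ℕ, D ≤ max CE CS → SysM x i j H τ (δ₁ ^ D) (fun n => (f n - g n) / 2) :=
    fun D hD => ⟨fun e he => (hM.1 e he).mono (hρ D hD), fun e he => (hM.2 e he).mono (hρ D hD)⟩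
  have hF : ∀ n ∈ Icc 1 (2 * x), ‖(f n - g n) / 2‖ ≤ 1 := by
    intro n hn
    have e1 := hf n hn
    have e2 := hg n hn
    have e3 := norm_sub_le (f n) (g n)
    rw [norm_div]
    have e4 : ‖(2 : ℂ)‖ = 2 := by norm_num
    rw [e4]
    linarith
  have hG : ∀ e₀ e : Fin r, ∀ n ∈ Icc 1 (2 * x), ‖GS f g e₀ e n‖ ≤ 1 := by
    intro e₀ e n hn
    unfold GS
    split_ifs
    · exact hg n hn
    · exact hF n hn
    · exact hf n hn
  have hG0 : ∀ e₀ : Fin r, GS f g e₀ e₀ = fun n => (f n - g n) / 2 := by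
    intro e₀
    unfold GS
    simp
  set P : Finset (Fin m → ℕ) := Fintype.piFinset (fun k => Icc 1 (H k)) with hP
  set Q : ℝ := (∏ k, (H k : ℝ)) * (x : ℝ) ^ 2 with hQ
  have hQ0 : 0 ≤ Q := by
    rw [hQ]
    exact mul_nonneg (Finset.prod_nonneg fun i _ => Nat.cast_nonneg _) (by positivity)
  have keyj : ∀ e₀ : Fin r, ∑ t ∈ P,
      ‖∑ n ∈ Icc 1 x, w n * ∏ e, GS f g e₀ e (n + sf i j τ t e)‖ ^ 2 ≤ δ₁ * Q := by
    intro e₀
    by_cases he : i e₀ = j e₀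
    · refine hS r δ₁ x i j H τ hδ₁0 (hδ₁δ.trans hδ2) hx hlog₁ hsys (hH₁ CS (le_max_right _ _)) e₀ he w
        (GS f g e₀) hw (hG e₀) ?_
      rw [hG0 e₀]
      exact hM₁ CS (le_max_right _ _)
    · refine hE m r δ₁ x i j H τ hδ₁0 (hδ₁δ.trans hδ2) hx hlog₁ hsys (hH₁ CE (le_max_left _ _)) e₀ he w
        (GS f g e₀) hw (hG e₀) ?_
      rw [hG0 e₀]
      exact hM₁ CE (le_max_left _ _)
  have hpt : ∀ t : Fin m → ℕ,
      ‖∑ n ∈ Icc 1 x, w n * (∏ e, f (n + sf i j τ t e) - ∏ e, g (n + sf i j τ t e))‖ ^ 2 ≤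
      r * ∑ e₀, 4 * ‖∑ n ∈ Icc 1 x, w n * ∏ e, GS f g e₀ e (n + sf i j τ t e)‖ ^ 2 := by
    intro t
    have e1 : ∑ n ∈ Icc 1 x, w n * (∏ e, f (n + sf i j τ t e) - ∏ e, g (n + sf i j τ t e)) =
        ∑ e₀, 2 * ∑ n ∈ Icc 1 x, w n * ∏ e, GS f g e₀ e (n + sf i j τ t e) := by
      simp only [Finset.mul_sum]
      rw [Finset.sum_comm]
      refine Finset.sum_congr rfl fun n _ => ?_
      rw [teleS f g (fun e => n + sf i j τ t e), Finset.mul_sum]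
      refine Finset.sum_congr rfl fun e₀ _ => ?_
      ring
    rw [e1]
    have e2 : ‖∑ e₀, 2 * ∑ n ∈ Icc 1 x, w n * ∏ e, GS f g e₀ e (n + sf i j τ t e)‖ ^ 2 ≤
        (∑ e₀, ‖2 * ∑ n ∈ Icc 1 x, w n * ∏ e, GS f g e₀ e (n + sf i j τ t e)‖) ^ 2 :=
      pow_le_pow_left₀ (norm_nonneg _) (norm_sum_le _ _) 2
    refine e2.trans ?_
    have e3 := sq_sum_le_card_mul_sum_sq (s := (univ : Finset (Fin r)))
      (f := fun e₀ => ‖2 * ∑ n ∈ Icc 1 x, w n * ∏ e, GS f g e₀ e (n + sf i j τ t e)‖)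
    rw [Finset.card_univ, Fintype.card_fin] at e3
    refine e3.trans (le_of_eq ?_)
    congr 1
    refine Finset.sum_congr rfl fun e₀ _ => ?_
    rw [norm_mul, mul_pow]
    norm_num
  calc ∑ t ∈ P, ‖∑ n ∈ Icc 1 x, w n * (∏ e, f (n + sf i j τ t e) - ∏ e, g (n + sf i j τ t e))‖ ^ 2
      ≤ ∑ t ∈ P, (r : ℝ) * ∑ e₀, 4 * ‖∑ n ∈ Icc 1 x, w n * ∏ e, GS f g e₀ e (n + sf i j τ t e)‖ ^ 2 :=
        Finset.sum_le_sum fun t _ => hpt t
    _ = (r : ℝ) * ∑ e₀, 4 * ∑ t ∈ P, ‖∑ n ∈ Icc 1 x, w n * ∏ e, GS f g e₀ e (n + sf i j τ t e)‖ ^ 2 := by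
        rw [← Finset.mul_sum, Finset.sum_comm]
        congr 1
        refine Finset.sum_congr rfl fun e₀ _ => ?_
        rw [Finset.mul_sum]
    _ ≤ (r : ℝ) * ∑ _e₀ : Fin r, 4 * (δ₁ * Q) := by
        refine mul_le_mul_of_nonneg_left ?_ (Nat.cast_nonneg _)
        exact Finset.sum_le_sum fun e₀ _ => mul_le_mul_of_nonneg_left (keyj e₀) (by norm_num)
    _ = (4 * (r : ℝ) ^ 2 * δ₁) * Q := by
        rw [Finset.sum_const, Finset.card_univ, Fintype.card_fin, nsmul_eq_mul]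
        ring
    _ ≤ δ * Q := by
        refine mul_le_mul_of_nonneg_right ?_ hQ0
        have h1 : δ₁ = δ ^ (2 * r + 2) * δ := by
          rw [hδ₁, ha, ← pow_succ]
        have h2 : δ ^ (2 * r + 2) ≤ (1 / 2 : ℝ) ^ (2 * r + 2) := pow_le_pow_left₀ hδ0.le hδ2 _
        have h3 : (r : ℝ) ≤ 2 ^ r := by
          exact_mod_cast (Nat.lt_two_pow_self).le
        have h4 : (r : ℝ) ^ 2 ≤ (2 ^ r) ^ 2 := pow_le_pow_left₀ (Nat.cast_nonneg _) h3 2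
        have h5 : (4 : ℝ) * (2 ^ r) ^ 2 * (1 / 2 : ℝ) ^ (2 * r + 2) = 1 := by
          rw [← pow_mul, mul_comm r 2, pow_add, one_div, inv_pow]
          have : (2 : ℝ) ^ (2 * r) ≠ 0 := by positivity
          field_simp
          norm_num
        have h6 : 4 * (r : ℝ) ^ 2 * δ ^ (2 * r + 2) ≤ 1 := by
          calc 4 * (r : ℝ) ^ 2 * δ ^ (2 * r + 2) ≤ 4 * (2 ^ r) ^ 2 * (1 / 2 : ℝ) ^ (2 * r + 2) := by
                apply mul_le_mul _ h2 (by positivity) (by positivity)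
                exact mul_le_mul_of_nonneg_left h4 (by norm_num)
            _ = 1 := h5
        rw [h1]
        calc 4 * (r : ℝ) ^ 2 * (δ ^ (2 * r + 2) * δ) = (4 * (r : ℝ) ^ 2 * δ ^ (2 * r + 2)) * δ := by ring
          _ ≤ 1 * δ := mul_le_mul_of_nonneg_right h6 hδ0.le
          _ = δ := one_mul δ

end Pool.Agent.DSH
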