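import Pool.Agent.Lib.DSH.SysP
import Pool.Agent.Lib.DSH.Cmp

/-!
# DSH.SysT (1.5 h): products of two truncated functions along a system of slots

PROOF. `C` from `sysP m r`. `c1 = 1/(20 (C+1))`, `c0 = c1/(8 (r+1))`, `p` with `p c0 ≥ 1`, `b = c1/8`. `δ = q^(-c1)`, `V = q^c0`. `sysP` for `tr V f / V`, `tr V g / V`, `w / (2V)`: `(δ⁻¹)^C ≤ q^(1/20) ≤ q ≤ H k`; `1 + log(2x) ≤ q^b ≤ q^c1 = δ⁻¹`;
`MSq`: `trunc_ms` with `ρ = q^(-1/10)`, `R = q^(1/2)`: `ρ' = q^(-1/10) + 2 q^(1/2) q^(-c0 p) ≤ 3 q^(-1/10) ≤ q^(-1/20) ≤ δ^C` for `q ≥ q0`. Then multiply by `(2 V · V^r)²`: `∑ ≤ 4 V^(2r+2) δ ∏H x² = 4 q^(c1/4 - c1) ∏ H x² ≤ q^(-b) ∏ H x²`.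
-/

set_option autoImplicit false

open Finset Filter

namespace Pool.Agent.DSH

open Pool.Agent.HLB Pool.Agent.HLT Pool.Agent.HLR Pool.Agent.Lib.GMV Pool.Agent.BLF

theorem sysT (m r : ℕ) : ∃ (c0 b : ℝ) (p : ℕ) (q0 : ℝ), 0 < c0 ∧ c0 ≤ 1 ∧ 0 < b ∧ 1 ≤ q0 ∧ ∀ (q : ℝ) (x : ℕ)
    (i j : Fin r → Fin m) (H : Fin m → ℕ) (τ : Fin r → ℕ → ℕ), q0 ≤ q → 1 ≤ x → 1 + Real.log (2 * x) ≤ q ^ b →
    Sys x i j H τ → (∀ k, q ≤ H k) → ∀ f g w : ℕ → ℂ,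
    SysM x i j H τ (q ^ (-(1 / 10 : ℝ))) (fun n => f n - g n) →
    ∑ m ∈ Icc 1 (2 * x), ‖f m‖ ^ (p + 2) ≤ q ^ (1 / 2 : ℝ) * x →
    ∑ m ∈ Icc 1 (2 * x), ‖g m‖ ^ (p + 2) ≤ q ^ (1 / 2 : ℝ) * x →
    (∀ n ∈ Icc 1 x, ‖w n‖ ≤ 2 * q ^ c0) →
    ∑ t ∈ Fintype.piFinset (fun k => Icc 1 (H k)),
        ‖∑ n ∈ Icc 1 x, w n * (∏ e, tr (q ^ c0) f (n + sf i j τ t e) -
          ∏ e, tr (q ^ c0) g (n + sf i j τ t e))‖ ^ 2 ≤
      q ^ (-b) * ((∏ k, (H k : ℝ)) * (x : ℝ) ^ 2) := by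
  obtain ⟨C, hC⟩ := sysP m r
  have hCn : (0 : ℝ) ≤ C := Nat.cast_nonneg _
  have hrn : (0 : ℝ) ≤ r := Nat.cast_nonneg _
  set c1 : ℝ := 1 / (20 * ((C : ℝ) + 1)) with hc1
  have hc1p : 0 < c1 := by positivity
  have hc1C : c1 * C ≤ 1 / 20 := by
    rw [hc1, div_mul_eq_mul_div, one_mul, div_le_div_iff₀ (by positivity) (by norm_num)]
    nlinarith
  have hc1le : c1 ≤ 1 / 20 := by
    rw [hc1, div_le_div_iff₀ (by positivity) (by norm_num)]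
    nlinarith
  set c0 : ℝ := c1 / (8 * ((r : ℝ) + 1)) with hc0
  have hc0p : 0 < c0 := by positivity
  have hc0le : c0 ≤ c1 := by
    rw [hc0, div_le_iff₀ (by positivity)]
    nlinarith
  have hc0r : c0 * (2 * ((r : ℝ) + 1)) = c1 / 4 := by
    rw [hc0]
    field_simp
    ring
  obtain ⟨p, hp⟩ := exists_nat_ge (1 / c0)
  have hp1 : 1 ≤ c0 * p := by
    rw [div_le_iff₀ hc0p] at hp
    linarith
  refine ⟨c0, c1 / 8, p, max (3 ^ (20 : ℝ)) (4 ^ (2 / c1)), hc0p, by linarith, by linarith, ?_, ?_⟩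
  · refine le_max_of_le_left ?_
    exact Real.one_le_rpow (by norm_num) (by norm_num)
  intro q x i j H τ hq hx hlog hsys hH f g w hM hf hg hw
  have hq3 : (3 : ℝ) ^ (20 : ℝ) ≤ q := (le_max_left _ _).trans hq
  have hq4 : (4 : ℝ) ^ (2 / c1) ≤ q := (le_max_right _ _).trans hq
  have hq1 : 1 ≤ q := (Real.one_le_rpow (by norm_num) (by norm_num)).trans hq3
  have hq0 : 0 < q := by linarith
  have hmono : ∀ {a b : ℝ}, a ≤ b → q ^ a ≤ q ^ b := fun h => Real.rpow_le_rpow_of_exponent_le hq1 h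
  have e4 : 4 ≤ q ^ (c1 / 2) := by
    calc (4 : ℝ) = ((4 : ℝ) ^ (2 / c1)) ^ (c1 / 2) := by
          rw [← Real.rpow_mul (by norm_num)]
          have : 2 / c1 * (c1 / 2) = 1 := by field_simp
          rw [this, Real.rpow_one]
      _ ≤ q ^ (c1 / 2) := Real.rpow_le_rpow (by positivity) hq4 (by positivity)
  have e3 : 3 ≤ q ^ (1 / 20 : ℝ) := by
    calc (3 : ℝ) = ((3 : ℝ) ^ (20 : ℝ)) ^ (1 / 20 : ℝ) := by
          rw [← Real.rpow_mul (by norm_num)]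
          norm_num
      _ ≤ q ^ (1 / 20 : ℝ) := Real.rpow_le_rpow (by positivity) hq3 (by positivity)
  set V : ℝ := q ^ c0 with hV
  have hV1 : 1 ≤ V := Real.one_le_rpow hq1 hc0p.le
  have hV0 : 0 < V := by linarith
  set δ : ℝ := q ^ (-c1) with hδ
  have hδ0 : 0 < δ := Real.rpow_pos_of_pos hq0 _
  have hδinv : δ⁻¹ = q ^ c1 := by rw [hδ, Real.rpow_neg hq0.le, inv_inv]
  have hδ2 : δ ≤ 1 / 2 := by
    rw [le_div_iff₀ (by norm_num), ← le_div_iff₀' hδ0, one_div, hδinv]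
    calc (2 : ℝ) ≤ q ^ (c1 / 2) := by linarith
      _ ≤ q ^ c1 := hmono (by linarith)
  have hlog' : 1 + Real.log (2 * x) ≤ δ⁻¹ := by
    rw [hδinv]
    exact hlog.trans (hmono (by linarith))
  have hH' : ∀ k, (δ⁻¹) ^ C ≤ H k := by
    intro k
    refine le_trans ?_ (hH k)
    rw [hδinv, ← Real.rpow_natCast, ← Real.rpow_mul hq0.le]
    calc q ^ (c1 * C) ≤ q ^ (1 : ℝ) := hmono (by linarith)
      _ = q := Real.rpow_one q
  have hρ : q ^ (-(1 / 10 : ℝ)) + 2 * (q ^ (1 / 2 : ℝ) / V ^ p) ≤ δ ^ C := by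
    have h1 : q ^ (1 / 2 : ℝ) / V ^ p ≤ q ^ (-(1 / 10 : ℝ)) := by
      rw [hV, ← Real.rpow_natCast, ← Real.rpow_mul hq0.le, ← Real.rpow_sub hq0]
      exact hmono (by linarith)
    have h2 : q ^ (-(1 / 20 : ℝ)) ≤ δ ^ C := by
      rw [hδ, ← Real.rpow_natCast, ← Real.rpow_mul hq0.le]
      exact hmono (by linarith)
    have h3 : 3 * q ^ (-(1 / 10 : ℝ)) ≤ q ^ (-(1 / 20 : ℝ)) := by
      have h4 : q ^ (-(1 / 20 : ℝ)) = q ^ (1 / 20 : ℝ) * q ^ (-(1 / 10 : ℝ)) := by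
        rw [← Real.rpow_add hq0]
        norm_num
      rw [h4]
      exact mul_le_mul_of_nonneg_right e3 (Real.rpow_nonneg hq0.le _)
    linarith
  have hρ0 : 0 ≤ q ^ (-(1 / 10 : ℝ)) := Real.rpow_nonneg hq0.le _
  have hM' : SysM x i j H τ (δ ^ C) (fun n => (tr V f n / V - tr V g n / V) / 2) :=
    ⟨fun e he => (trunc_ms x p V _ _ hV1 hρ0 f g _ (hM.1 e he) hf hg).mono hρ,
      fun e he => (trunc_ms x p V _ _ hV1 hρ0 f g _ (hM.2 e he) hf hg).mono hρ⟩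
  have hVn : ‖(V : ℂ)‖ = V := by rw [Complex.norm_real, Real.norm_eq_abs, abs_of_pos hV0]
  have hb : ∀ (f : ℕ → ℂ) (n : ℕ), ‖tr V f n / V‖ ≤ 1 := by
    intro f n
    rw [norm_div, hVn]
    exact div_le_one_of_le₀ (norm_tr_le hV0.le f n) hV0.le
  have hw' : ∀ n ∈ Icc 1 x, ‖w n / (2 * V)‖ ≤ 1 := by
    intro n hn
    rw [norm_div, norm_mul, hVn]
    have : ‖(2 : ℂ)‖ = 2 := by norm_num
    rw [this]
    exact div_le_one_of_le₀ (hw n hn) (by positivity)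
  have key := hC δ x i j H τ hδ0 hδ2 hx hlog' hsys hH' (fun n => tr V f n / V) (fun n => tr V g n / V)
    (fun n => w n / (2 * V)) (fun n _ => hb f n) (fun n _ => hb g n) hw' hM'
  have hVc : (V : ℂ) ≠ 0 := by
    exact_mod_cast hV0.ne'
  have hprod : ∀ (f : ℕ → ℂ) (a : Fin r → ℕ), ∏ e, tr V f (a e) / V = (∏ e, tr V f (a e)) / V ^ r := by
    intro f a
    rw [Finset.prod_div_distrib, Finset.prod_const, Finset.card_univ, Fintype.card_fin]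
  have hterm : ∀ t : Fin m → ℕ,
      ‖∑ n ∈ Icc 1 x, w n * (∏ e, tr V f (n + sf i j τ t e) - ∏ e, tr V g (n + sf i j τ t e))‖ ^ 2 =
      (2 * V ^ (r + 1)) ^ 2 * ‖∑ n ∈ Icc 1 x, w n / (2 * V) * (∏ e, tr V f (n + sf i j τ t e) / V -
        ∏ e, tr V g (n + sf i j τ t e) / V)‖ ^ 2 := by
    intro t
    have h1 : ∑ n ∈ Icc 1 x, w n * (∏ e, tr V f (n + sf i j τ t e) -
        ∏ e, tr V g (n + sf i j τ t e)) = ((2 * V ^ (r + 1) : ℝ) : ℂ) *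
        ∑ n ∈ Icc 1 x, w n / (2 * V) * (∏ e, tr V f (n + sf i j τ t e) / V -
        ∏ e, tr V g (n + sf i j τ t e) / V) := by
      rw [Finset.mul_sum]
      refine Finset.sum_congr rfl fun n _ => ?_
      rw [hprod f (fun e => n + sf i j τ t e), hprod g (fun e => n + sf i j τ t e)]
      push_cast
      field_simp
      try ring
    rw [h1, norm_mul, mul_pow, Complex.norm_real, Real.norm_eq_abs, abs_of_pos (by positivity)]
  rw [Finset.sum_congr rfl fun t _ => hterm t, ← Finset.mul_sum]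
  have hQ0 : 0 ≤ (∏ k, (H k : ℝ)) * (x : ℝ) ^ 2 :=
    mul_nonneg (Finset.prod_nonneg fun i _ => Nat.cast_nonneg _) (by positivity)
  refine (mul_le_mul_of_nonneg_left key (by positivity)).trans ?_
  rw [← mul_assoc]
  refine mul_le_mul_of_nonneg_right ?_ hQ0
  have h5 : (V ^ (r + 1)) ^ 2 = q ^ (c1 / 4) := by
    rw [← pow_mul, hV, ← Real.rpow_natCast, ← Real.rpow_mul hq0.le]
    congr 1
    push_cast
    rw [← hc0r]
    ring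
  rw [mul_pow, h5, hδ]
  have h6 : q ^ (-(c1 / 8)) = q ^ (c1 / 8) * q ^ (c1 / 2) * (q ^ (c1 / 4) * q ^ (-c1)) := by
    rw [← Real.rpow_add hq0, ← Real.rpow_add hq0, ← Real.rpow_add hq0]
    congr 1
    ring
  rw [h6]
  have h7 : 1 ≤ q ^ (c1 / 8) := Real.one_le_rpow hq1 (by linarith)
  have h8 : 0 ≤ q ^ (c1 / 4) * q ^ (-c1) := by positivity
  have h9 : (2 : ℝ) ^ 2 ≤ q ^ (c1 / 8) * q ^ (c1 / 2) := by
    have h10 : 0 ≤ q ^ (c1 / 2) := by positivity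
    nlinarith
  calc (2 : ℝ) ^ 2 * q ^ (c1 / 4) * q ^ (-c1) = (2 : ℝ) ^ 2 * (q ^ (c1 / 4) * q ^ (-c1)) := by ring
    _ ≤ q ^ (c1 / 8) * q ^ (c1 / 2) * (q ^ (c1 / 4) * q ^ (-c1)) := mul_le_mul_of_nonneg_right h9 h8

end Pool.Agent.DSH
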