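import Pool.Agent.Lib.DSH.DefX
import Pool.Agent.Lib.GMV.PosM

/-!
# DSH.TPX (1.7 h): the exact main term for two characters

PROOF. As in the proof of `GMV.posM`: `TP_eq`, `av_RR`: with `R = RR k Y xe` the left side is `av R (n' ↦ ∏_i nuz Y (n'+h i) (z1 i + conj (cv xe (n'+h i)) z2 i))`, `conj cv = cv` (`cv_real`). Let `q = md xe`, `P = ∏ p` over the primes `p ≤ Y`, `p ∤ q`; `nuz Y m = g_q(m) g_P(m)`,
`g_q(m) = ∏_{p ∣ q} (1-1/p)⁻¹ 1[p ∤ m]` (`= q/φ(q)` if `m` is prime to `q`, else `0`: `rho_eq`), `g_P` the product over the `p ∣ P`. The function is `u(n') v(n')` with `u = ∏_i g_q(n'+h i) (z1 i + cv xe (n'+h i) z2 i)` of period `q` and `v = ∏_i g_P(n'+h i)` of period `P`, `q` and `P` coprime: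
its mean is `av q u · av P v` (`av_period`, `av_prod`, used in `Compl.lean` and `ExcB.lean`), and `av q u = (q/φ(q))^k q⁻¹ ∑_{c ∈ cx} ∏ (..)`. The same with `z1 = 1`, `z2 = 0` (the mean is then `SZ Y h`: `TP_one` with `TP_eq`) gives `SZ Y h = (q/φ(q))^k q⁻¹ |cx| · av P v`. If `|cx| = 0` both sides are `0`.
`ax_bd`: every factor has norm `≤ ‖z1 i‖ + ‖z2 i‖`. `ax_shift`: `c ↦ c + 1` permutes the classes (the summand, with the condition as an indicator, has period `md x`).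
-/

set_option autoImplicit false

open Finset Filter

namespace Pool.Agent.DSH

open Pool.Agent.HLB Pool.Agent.HLT Pool.Agent.HLR Pool.Agent.Lib.GMV Pool.Agent.BLF

namespace TPXAux

open Pool.Agent.Lib.GMV.PosMAux Pool.Agent.Lib.GMV.ComplAux

lemma av_dvd (P L : ℕ) (hP : 1 ≤ P) (hL : 1 ≤ L) (hd : P ∣ L) (f : ℕ → ℂ)
    (hf : ∀ n, f (n + P) = f n) : av P f = av L f := by
  obtain ⟨m, rfl⟩ := hd
  have hm : 1 ≤ m := by
    rcases Nat.eq_zero_or_pos m with h0 | h0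
    · rw [h0, mul_zero] at hL
      omega
    · exact h0
  exact (av_period P m hP hm f hf).symm

/-- The primes up to `Y` which do not divide the modulus. -/
noncomputable def Sx (Y : ℕ) (xe : CI) : Finset ℕ :=
  (Nat.primesLE Y).filter (fun p => ¬ p ∣ md xe)

/-- The common period. -/
noncomputable def Lx (k Y : ℕ) (xe : CI) : ℕ := md xe ^ (k + 1) * ∏ p ∈ Nat.primesLE Y, p

lemma Lx_pos (k Y : ℕ) (xe : CI) : 1 ≤ Lx k Y xe :=
  Nat.mul_pos (pow_pos (md_pos xe) _) (primes_pos Y)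

lemma P0_dvd {k : ℕ} (Y : ℕ) (xe : CI) (x : Fin k → CI) (hx : ∀ i, md (x i) ∣ md xe) :
    P0 Y x ∣ Lx k Y xe := by
  unfold P0 Lx
  refine Nat.mul_dvd_mul ?_ (dvd_refl _)
  have h2 := Finset.prod_dvd_prod_of_dvd (s := (univ : Finset (Fin k)))
    (fun i => md (x i)) (fun _ => md xe) (fun i _ => hx i)
  rw [Finset.prod_const, Finset.card_univ, Fintype.card_fin] at h2
  exact h2.trans (pow_dvd_pow _ (Nat.le_succ k))

lemma Mx_dvd (k Y : ℕ) (xe : CI) : md xe * ∏ p ∈ Sx Y xe, p ∣ Lx k Y xe := by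
  unfold Lx Sx
  refine Nat.mul_dvd_mul (dvd_pow_self _ (Nat.succ_ne_zero k)) ?_
  exact Finset.prod_dvd_prod_of_subset _ _ _ (Finset.filter_subset _ _)

lemma Mx_pos (Y : ℕ) (xe : CI) : 1 ≤ md xe * ∏ p ∈ Sx Y xe, p :=
  Nat.mul_pos (md_pos xe)
    (Finset.prod_pos fun _ hp => (Nat.mem_primesLE.1 (Finset.mem_filter.1 hp).1).2.pos)

/-- The function whose mean is the left side. -/
noncomputable def Fx {k : ℕ} (Y : ℕ) (xe : CI) (h : Fin k → ℕ) (z1 z2 : Fin k → ℂ) (n : ℕ) : ℂ :=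
  ∏ i, ((nuz Y (n + h i) : ℂ) * (z1 i + cv xe (n + h i) * z2 i))

/-- The factor of period `md xe`. -/
noncomputable def ux {k : ℕ} (xe : CI) (h : Fin k → ℕ) (z1 z2 : Fin k → ℂ) (n : ℕ) : ℂ :=
  if ∀ i, (n + h i).Coprime (md xe) then (rho xe : ℂ) ^ k * ∏ i, (z1 i + cv xe (n + h i) * z2 i)
  else 0

lemma ux_per {k : ℕ} (xe : CI) (h : Fin k → ℕ) (z1 z2 : Fin k → ℂ) (n : ℕ) :
    ux xe h z1 z2 (n + md xe) = ux xe h z1 z2 n := by
  have h1 : ∀ i, n + md xe + h i = (n + h i) + md xe := fun i => by ring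
  unfold ux
  simp only [h1, cv_add_dvd xe _ _ (dvd_refl (md xe)), Nat.coprime_add_self_left]

lemma lo_part {k : ℕ} (Y : ℕ) (xe : CI) (hY : md xe ≤ Y) (h : Fin k → ℕ) (n : ℕ) :
    ∏ p ∈ (Nat.primesLE Y).filter (fun p => p ∣ md xe), uc p h n =
      if ∀ i, (n + h i).Coprime (md xe) then (rho xe : ℂ) ^ k else 0 := by
  split_ifs with hc
  · have e : (md xe).primeFactors = (Nat.primesLE Y).filter (fun p => p ∣ md xe) := by
      ext p
      rw [Nat.mem_primeFactors, Finset.mem_filter, Nat.mem_primesLE]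
      constructor
      · rintro ⟨h3, h4, h5⟩
        exact ⟨⟨(Nat.le_of_dvd (md_pos xe) h4).trans hY, h3⟩, h4⟩
      · rintro ⟨⟨h3, h4⟩, h5⟩
        exact ⟨h4, h5, (md_pos xe).ne'⟩
    rw [rho_eq, e, Complex.ofReal_prod, ← Finset.prod_pow]
    refine Finset.prod_congr rfl fun p hp => ?_
    have hpm := Finset.mem_filter.1 hp
    have hpp := (Nat.mem_primesLE.1 hpm.1).2
    unfold uc
    rw [Finset.prod_congr rfl (fun i _ => if_neg (fun hd : p ∣ n + h i => ?_)), Finset.prod_const,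
      Finset.card_univ, Fintype.card_fin]
    have h6 := Nat.dvd_gcd hd hpm.2
    rw [hc i] at h6
    exact hpp.one_lt.ne' (Nat.dvd_one.1 h6)
  · push Not at hc
    obtain ⟨i, hi⟩ := hc
    obtain ⟨p, hp, h1, h2⟩ := Nat.Prime.not_coprime_iff_dvd.1 hi
    refine Finset.prod_eq_zero (i := p) ?_ ?_
    · rw [Finset.mem_filter, Nat.mem_primesLE]
      exact ⟨⟨(Nat.le_of_dvd (md_pos xe) h2).trans hY, hp⟩, h2⟩
    · exact Finset.prod_eq_zero (Finset.mem_univ i) (if_pos h1)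

lemma Fx_eq {k : ℕ} (Y : ℕ) (xe : CI) (hY : md xe ≤ Y) (h : Fin k → ℕ) (z1 z2 : Fin k → ℂ)
    (n : ℕ) : Fx Y xe h z1 z2 n = ux xe h z1 z2 n * ∏ p ∈ Sx Y xe, uc p h n := by
  unfold Fx ux Sx
  rw [Finset.prod_mul_distrib, nuz_prod,
    ← Finset.prod_filter_mul_prod_filter_not (Nat.primesLE Y) (fun p => p ∣ md xe),
    lo_part Y xe hY h n]
  split_ifs
  · ring
  · ring

lemma Sx_prime {Y : ℕ} {xe : CI} {p : ℕ} (hp : p ∈ Sx Y xe) : p.Prime :=
  (Nat.mem_primesLE.1 (Finset.mem_filter.1 hp).1).2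

lemma Sx_cop {Y : ℕ} {xe : CI} {p : ℕ} (hp : p ∈ Sx Y xe) : (md xe).Coprime p :=
  ((Nat.Prime.coprime_iff_not_dvd (Sx_prime hp)).2 (Finset.mem_filter.1 hp).2).symm

lemma av_Mx {k : ℕ} (Y : ℕ) (xe : CI) (hY : md xe ≤ Y) (h : Fin k → ℕ) (z1 z2 : Fin k → ℂ) :
    av (md xe * ∏ p ∈ Sx Y xe, p) (Fx Y xe h z1 z2) =
      av (md xe) (ux xe h z1 z2) * ∏ p ∈ Sx Y xe, av p (uc p h) := by
  rw [← av_prod (Sx Y xe) (fun p hp => Sx_prime hp) (md xe) (md_pos xe) (fun p hp => Sx_cop hp)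
    (ux xe h z1 z2) (ux_per xe h z1 z2) (fun p => uc p h) (fun p _ => uc_periodic p h)]
  congr 1
  funext n
  exact Fx_eq Y xe hY h z1 z2 n

lemma Fx_per {k : ℕ} (Y : ℕ) (xe : CI) (hY : md xe ≤ Y) (h : Fin k → ℕ) (z1 z2 : Fin k → ℂ)
    (n : ℕ) : Fx Y xe h z1 z2 (n + md xe * ∏ p ∈ Sx Y xe, p) = Fx Y xe h z1 z2 n := by
  rw [Fx_eq Y xe hY, Fx_eq Y xe hY, PerMeanAux.per_mul (md xe) (ux xe h z1 z2) (ux_per xe h z1 z2)]
  congr 1
  refine Finset.prod_congr rfl fun p hp => ?_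
  obtain ⟨t, ht⟩ : p ∣ md xe * ∏ p ∈ Sx Y xe, p :=
    (Finset.dvd_prod_of_mem (fun q => q) hp).mul_left _
  rw [ht, PerMeanAux.per_mul p (uc p h) (uc_periodic p h)]

lemma av_Lx {k : ℕ} (Y : ℕ) (xe : CI) (hY : md xe ≤ Y) (h : Fin k → ℕ) (z1 z2 : Fin k → ℂ) :
    av (Lx k Y xe) (Fx Y xe h z1 z2) =
      av (md xe) (ux xe h z1 z2) * ∏ p ∈ Sx Y xe, av p (uc p h) := by
  rw [← av_Mx Y xe hY h z1 z2]
  exact (av_dvd _ _ (Mx_pos Y xe) (Lx_pos k Y xe) (Mx_dvd k Y xe) _ (Fx_per Y xe hY h z1 z2)).symm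

lemma av_ux {k : ℕ} (xe : CI) (h : Fin k → ℕ) (z1 z2 : Fin k → ℂ) :
    av (md xe) (ux xe h z1 z2) =
      (rho xe : ℂ) ^ k * (∑ c ∈ cx xe h, ∏ i, (z1 i + cv xe (c + h i) * z2 i)) / md xe := by
  unfold av ux cx
  rw [Finset.mul_sum, Finset.sum_filter]

/-- The left side. -/
lemma lhs_eq {k : ℕ} (Y : ℕ) (xe : CI) (hxe : xe ≠ one) (h2 : xe.2 ^ 2 = 1) (hY : md xe ≤ Y)
    (h : Fin k → ℕ) (z1 z2 : Fin k → ℂ) :
    ∑ x ∈ Fintype.piFinset (fun _ : Fin k => ({one, xe} : Finset CI)),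
      TP Y x h * ∏ i, (if x i = one then z1 i else z2 i) =
        av (Lx k Y xe) (Fx Y xe h z1 z2) := by
  have hY1 : 1 ≤ Y := (md_pos xe).trans_le hY
  have hmem : ∀ x ∈ Fintype.piFinset (fun _ : Fin k => ({one, xe} : Finset CI)), ∀ i,
      x i = one ∨ x i = xe := by
    intro x hx i
    have := Fintype.mem_piFinset.1 hx i
    simpa using this
  have hT : ∀ x ∈ Fintype.piFinset (fun _ : Fin k => ({one, xe} : Finset CI)),
      TP Y x h * ∏ i, (if x i = one then z1 i else z2 i) =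
      (∑ m ∈ range (Lx k Y xe), ∏ i, ((starRingEnd ℂ) (cv (x i) (m + h i)) *
        (nuz Y (m + h i) : ℂ) * (if x i = one then z1 i else z2 i))) / (Lx k Y xe : ℕ) := by
    intro x hx
    have h3 : TP Y x h = av (Lx k Y xe) (fT Y x h) := by
      rw [TP_eq Y x (fun i => ?_) h]
      · exact av_dvd _ _ (P0_pos Y x) (Lx_pos k Y xe) (P0_dvd Y xe x fun i => by
          rcases hmem x hx i with h4 | h4
          · rw [h4, md_one]; exact one_dvd _
          · rw [h4]) _ (ff_per Y x h)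
      · rcases hmem x hx i with h4 | h4
        · rw [h4, md_one]; exact hY1
        · rw [h4]; exact hY
    rw [h3]
    unfold av fT
    rw [div_mul_eq_mul_div, Finset.sum_mul]
    congr 1
    refine Finset.sum_congr rfl fun m _ => ?_
    rw [← Finset.prod_mul_distrib]
  rw [Finset.sum_congr rfl hT, ← Finset.sum_div, Finset.sum_comm]
  unfold av Fx
  congr 1
  refine Finset.sum_congr rfl fun m _ => ?_
  have h5 := Finset.prod_univ_sum (fun _ : Fin k => ({one, xe} : Finset CI))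
    (fun (i : Fin k) (c : CI) => (starRingEnd ℂ) (cv c (m + h i)) *
      (nuz Y (m + h i) : ℂ) * (if c = one then z1 i else z2 i))
  rw [← h5]
  refine Finset.prod_congr rfl fun i _ => ?_
  rw [Finset.sum_pair (Ne.symm hxe), if_pos rfl, if_neg hxe, cv_one', map_one, cv_real xe h2,
    Complex.conj_ofReal]
  ring

lemma SZ_eq {k : ℕ} (Y : ℕ) (xe : CI) (hY : md xe ≤ Y) (h : Fin k → ℕ) :
    (SZ Y h : ℂ) = (rho xe : ℂ) ^ k * (cx xe h).card / md xe *
      ∏ p ∈ Sx Y xe, av p (uc p h) := by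
  have hY1 : 1 ≤ Y := (md_pos xe).trans_le hY
  have h1 := av_Lx Y xe hY h (fun _ => 1) (fun _ => 0)
  rw [av_ux] at h1
  have h2 : ∑ c ∈ cx xe h, ∏ i : Fin k, ((1 : ℂ) + cv xe (c + h i) * 0) = (cx xe h).card := by
    simp
  rw [h2] at h1
  rw [← h1, ← TP_one Y hY1 h, TP_eq Y (fun _ : Fin k => one) (fun _ => by rw [md_one]; exact hY1) h]
  have h3 : av (P0 Y (fun _ : Fin k => one)) (fT Y (fun _ : Fin k => one) h) =
      av (Lx k Y xe) (fT Y (fun _ : Fin k => one) h) :=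
    av_dvd _ _ (P0_pos Y _) (Lx_pos k Y xe)
      (P0_dvd Y xe _ fun i => by rw [md_one]; exact one_dvd _) _ (ff_per Y _ h)
  refine Eq.trans h3 ?_
  congr 1
  funext n
  unfold fT Fx
  refine Finset.prod_congr rfl fun i _ => ?_
  rw [cv_one', map_one]
  ring

end TPXAux

open TPXAux

theorem tpx {k : ℕ} (Y : ℕ) (xe : CI) (hxe : xe ≠ one) (h2 : xe.2 ^ 2 = 1) (hY : md xe ≤ Y) (h : Fin k → ℕ)
    (z1 z2 : Fin k → ℂ) :
    ∑ x ∈ Fintype.piFinset (fun _ : Fin k => ({one, xe} : Finset CI)),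
      TP Y x h * ∏ i, (if x i = one then z1 i else z2 i) = (SZ Y h : ℂ) * ax xe h z1 z2 := by
  rw [lhs_eq Y xe hxe h2 hY h z1 z2, av_Lx Y xe hY h z1 z2, av_ux, SZ_eq Y xe hY h]
  unfold ax
  rcases Nat.eq_zero_or_pos (cx xe h).card with h0 | h0
  · rw [Finset.card_eq_zero.1 h0]
    simp
  · have h1 : ((cx xe h).card : ℂ) ≠ 0 := by exact_mod_cast h0.ne'
    field_simp

theorem ax_bd {k : ℕ} (x : CI) (h : Fin k → ℕ) (z1 z2 : Fin k → ℂ) (K : ℝ) (hz : ∀ i, ‖z1 i‖ + ‖z2 i‖ ≤ K) :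
    ‖ax x h z1 z2‖ ≤ K ^ k := by
  have hK : 0 ≤ K ^ k := by
    rcases Nat.eq_zero_or_pos k with h0 | h0
    · subst h0
      simp
    · exact pow_nonneg ((add_nonneg (norm_nonneg _) (norm_nonneg _)).trans (hz ⟨0, h0⟩)) k
  unfold ax
  rw [norm_div, Complex.norm_natCast]
  refine div_le_of_le_mul₀ (Nat.cast_nonneg _) hK ?_
  refine (norm_sum_le _ _).trans ?_
  have h1 : ∀ c ∈ cx x h, ‖∏ i, (z1 i + cv x (c + h i) * z2 i)‖ ≤ K ^ k := by
    intro c _
    rw [norm_prod]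
    calc ∏ i, ‖z1 i + cv x (c + h i) * z2 i‖ ≤ ∏ _i : Fin k, K := by
          refine Finset.prod_le_prod (fun i _ => norm_nonneg _) fun i _ => ?_
          refine (norm_add_le _ _).trans (le_trans ?_ (hz i))
          rw [norm_mul]
          have := mul_le_of_le_one_left (norm_nonneg (z2 i)) (norm_cv_le x (c + h i))
          linarith
      _ = K ^ k := by simp
  refine (Finset.sum_le_sum h1).trans ?_
  rw [Finset.sum_const, nsmul_eq_mul, mul_comm]

/-- The real form. -/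
theorem Ax_eq {k : ℕ} (x : CI) (h2 : x.2 ^ 2 = 1) (β : ℝ) (h : Fin k → ℕ) (n : ℕ) :
    (Ax x β h n : ℂ) = ax x h (fun _ => 1) (fun i => -((((n + h i : ℕ) : ℝ) ^ (β - 1) : ℝ) : ℂ)) := by
  unfold Ax ax
  rw [Complex.ofReal_div, Complex.ofReal_natCast, Complex.ofReal_sum]
  congr 1
  refine Finset.sum_congr rfl fun c _ => ?_
  rw [Complex.ofReal_prod]
  refine Finset.prod_congr rfl fun i _ => ?_
  rw [PosMAux.cv_real x h2 (c + h i), Complex.ofReal_re, Complex.ofReal_sub, Complex.ofReal_mul,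
    Complex.ofReal_one]
  ring

theorem Ax_bd {k : ℕ} (x : CI) (β : ℝ) (hβ : β ≤ 1) (h : Fin k → ℕ) (n : ℕ) (hn : 1 ≤ n) : |Ax x β h n| ≤ 2 ^ k := by
  unfold Ax
  rw [abs_div, Nat.abs_cast]
  refine div_le_of_le_mul₀ (Nat.cast_nonneg _) (by positivity) ?_
  refine (Finset.abs_sum_le_sum_abs _ _).trans ?_
  have h1 : ∀ c ∈ cx x h, |∏ i, (1 - (cv x (c + h i)).re * ((n + h i : ℕ) : ℝ) ^ (β - 1))| ≤
      2 ^ k := by
    intro c _
    rw [Finset.abs_prod]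
    calc ∏ i, |1 - (cv x (c + h i)).re * ((n + h i : ℕ) : ℝ) ^ (β - 1)| ≤ ∏ _i : Fin k, (2 : ℝ) := by
          refine Finset.prod_le_prod (fun i _ => abs_nonneg _) fun i _ => ?_
          have h3 : (1 : ℝ) ≤ ((n + h i : ℕ) : ℝ) := by exact_mod_cast (by omega : 1 ≤ n + h i)
          have h4 : ((n + h i : ℕ) : ℝ) ^ (β - 1) ≤ 1 :=
            Real.rpow_le_one_of_one_le_of_nonpos h3 (by linarith)
          have h5 : 0 ≤ ((n + h i : ℕ) : ℝ) ^ (β - 1) := Real.rpow_nonneg (by linarith) _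
          have h6 : |(cv x (c + h i)).re| ≤ 1 := (Complex.abs_re_le_norm _).trans (norm_cv_le x _)
          have h7 : |(cv x (c + h i)).re * ((n + h i : ℕ) : ℝ) ^ (β - 1)| ≤ 1 := by
            rw [abs_mul, abs_of_nonneg h5]
            exact mul_le_one₀ h6 h5 h4
          have h8 := abs_sub (1 : ℝ) ((cv x (c + h i)).re * ((n + h i : ℕ) : ℝ) ^ (β - 1))
          rw [abs_one] at h8
          linarith
      _ = 2 ^ k := by simp
  refine (Finset.sum_le_sum h1).trans ?_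
  rw [Finset.sum_const, nsmul_eq_mul, mul_comm]

namespace TPXAux

lemma per_shift (q : ℕ) (G : ℕ → ℝ) (h : G q = G 0) :
    ∑ c ∈ range q, G (c + 1) = ∑ c ∈ range q, G c := by
  have h1 := Finset.sum_range_succ G q
  have h2 := Finset.sum_range_succ' G q
  linarith

/-- The sum over the classes. -/
lemma cx_sum {k : ℕ} (x : CI) (h : Fin k → ℕ) (g : ℕ → ℝ) :
    ∑ c ∈ cx x h, g c =
      ∑ c ∈ range (md x), (if ∀ i, (c + h i).Coprime (md x) then g c else 0) := by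
  unfold cx
  rw [Finset.sum_filter]

lemma cx_shift {k : ℕ} (x : CI) (h : Fin k → ℕ) (g : ℕ → ℝ) (hg : g (md x) = g 0) :
    ∑ c ∈ cx x (fun i => 1 + h i), g (c + 1) = ∑ c ∈ cx x h, g c := by
  rw [cx_sum x h g]
  rw [← per_shift (md x) (fun c => if ∀ i, (c + h i).Coprime (md x) then g c else 0)]
  · rw [cx_sum]
    refine Finset.sum_congr rfl fun c _ => ?_
    have h1 : ∀ i, c + (1 + h i) = c + 1 + h i := fun i => by ring
    simp only [h1]
  · have h1 : (∀ i, (md x + h i).Coprime (md x)) ↔ (∀ i, (0 + h i).Coprime (md x)) := by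
      refine forall_congr' fun i => ?_
      rw [add_comm (md x), Nat.coprime_add_self_left, zero_add]
    simp only [h1, hg]

end TPXAux

/-- Shift by one. -/
theorem Ax_shift {k : ℕ} (x : CI) (β : ℝ) (h : Fin k → ℕ) (n : ℕ) :
    Ax x β (fun i => 1 + h i) n = Ax x β h (n + 1) := by
  unfold Ax
  have hcard : ((cx x (fun i => 1 + h i)).card : ℝ) = (cx x h).card := by
    have h1 := cx_shift x h (fun _ => 1) rfl
    simpa using h1
  rw [hcard]
  congr 1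
  have hg : (fun c : ℕ => ∏ i, (1 - (cv x (c + h i)).re * ((n + 1 + h i : ℕ) : ℝ) ^ (β - 1))) (md x) =
      (fun c : ℕ => ∏ i, (1 - (cv x (c + h i)).re * ((n + 1 + h i : ℕ) : ℝ) ^ (β - 1))) 0 := by
    refine Finset.prod_congr rfl fun i _ => ?_
    rw [add_comm (md x), PosMAux.cv_add_dvd x (h i) (md x) (dvd_refl _), zero_add]
  rw [← cx_shift x h _ hg]
  refine Finset.sum_congr rfl fun c _ => Finset.prod_congr rfl fun i _ => ?_
  have h1 : c + (1 + h i) = c + 1 + h i := by ring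
  have h2 : n + (1 + h i) = n + 1 + h i := by ring
  rw [h1, h2]

end Pool.Agent.DSH
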