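import Pool.Agent.Lib.DSH.EdgeP
import Pool.Agent.Lib.BLF.Avg

/-!
# DSH.TermEP (1 h): one term of the telescoping sum, product slot

PROOF. Adapt `BLF/TermE.lean` (two dummy variables, `sum_update`; the factors are complex valued and `1`-bounded here, `sf` instead of `sh`, `Sys.sf_le`). `C` is the one of `edgeP`.
-/

set_option autoImplicit false

open Finset Filter

namespace Pool.Agent.DSH

open Pool.Agent.HLB Pool.Agent.HLT Pool.Agent.HLR Pool.Agent.Lib.GMV Pool.Agent.BLF

theorem termEP : ∃ C : ℕ, ∀ (m r : ℕ) (δ : ℝ) (x : ℕ) (i j : Fin r → Fin m) (H : Fin m → ℕ) (τ : Fin r → ℕ → ℕ),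
    0 < δ → δ ≤ 1 / 2 → 1 ≤ x → 1 + Real.log (2 * x) ≤ δ⁻¹ → Sys x i j H τ → (∀ k, (δ⁻¹) ^ C ≤ H k) →
    ∀ e₀ : Fin r, i e₀ ≠ j e₀ → ∀ (w : ℕ → ℂ) (G : Fin r → ℕ → ℂ), (∀ n ∈ Icc 1 x, ‖w n‖ ≤ 1) →
    (∀ e, ∀ n ∈ Icc 1 (2 * x), ‖G e n‖ ≤ 1) → SysM x i j H τ (δ ^ C) (G e₀) →
    ∑ t ∈ Fintype.piFinset (fun k => Icc 1 (H k)), ‖∑ n ∈ Icc 1 x, w n * ∏ e, G e (n + sf i j τ t e)‖ ^ 2 ≤
      δ * ((∏ k, (H k : ℝ)) * (x : ℝ) ^ 2) := by
  obtain ⟨C, h⟩ := edgeP
  refine ⟨C, ?_⟩
  intro m r δ x i j H τ hδ hδ2 hx1 hlog hS hH e₀ hne w G hw hG hM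
  set p := i e₀ with hp
  set q := j e₀ with hq
  have hle : H p * H q ≤ x := hS.edge e₀ hne
  have hms := hM.1 e₀ hne
  rw [← hp, ← hq] at hms
  have hδi : (1 : ℝ) ≤ δ⁻¹ := (one_le_inv₀ hδ).2 (by linarith)
  have hHp : (1 : ℝ) ≤ H p := (one_le_pow₀ hδi).trans (hH p)
  have hHq : (1 : ℝ) ≤ H q := (one_le_pow₀ hδi).trans (hH q)
  set P := Fintype.piFinset (fun k => Icc 1 (H k)) with hP
  set f : (Fin m → ℕ) → ℝ := fun t =>
    ‖∑ n ∈ Icc 1 x, w n * ∏ e, G e (n + sf i j τ t e)‖ ^ 2 with hf
  have hd1 := sum_update (fun k => Icc 1 (H k)) q f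
  have hd2 := sum_update (fun k => Icc 1 (H k)) p
    (fun t => ∑ s' ∈ Icc 1 (H q), f (Function.update t q s'))
  rw [hd1] at hd2
  simp only [Nat.card_Icc, Nat.add_sub_cancel, nsmul_eq_mul] at hd2
  have hu : ∀ u ∈ P, ∑ s ∈ Icc 1 (H p), ∑ s' ∈ Icc 1 (H q),
      f (Function.update (Function.update u p s) q s') ≤
      δ * ((H p : ℝ) * H q * (x : ℝ) ^ 2) := by
    intro u huP
    set S1 := (univ.erase e₀).filter (fun e => i e ≠ q ∧ j e ≠ q) with hS1
    set S2 := (univ.erase e₀).filter (fun e => ¬ (i e ≠ q ∧ j e ≠ q)) with hS2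
    have hmem : ∀ k : Fin m, ∀ s ∈ Icc 1 (H k), Function.update u k s ∈ P := by
      intro k s hs
      rw [hP, Fintype.mem_piFinset]
      intro l
      by_cases hl : l = k
      · subst hl
        rw [Function.update_self]
        exact hs
      · rw [Function.update_of_ne hl]
        exact Fintype.mem_piFinset.mp huP l
    have hprod : ∀ (S : Finset (Fin r)) (k : Fin m), ∀ s ∈ Icc 1 (H k), ∀ n ∈ Icc 1 x,
        ‖∏ e ∈ S, G e (n + sf i j τ (Function.update u k s) e)‖ ≤ 1 := by
      intro S k s hs n hn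
      rw [norm_prod]
      refine prod_le_one (fun _ _ => norm_nonneg _) ?_
      intro e _
      apply hG
      have h2 := hS.sf_le _ (hmem k s hs) e
      rw [mem_Icc] at hn ⊢
      omega
    have hkey := h δ x (H p) (H q) hδ hδ2 hx1 hlog (hH p) (hH q) hle (G e₀) (hG e₀) hms
      (fun n s => w n * ∏ e ∈ S1, G e (n + sf i j τ (Function.update u p s) e))
      (fun n s' => ∏ e ∈ S2, G e (n + sf i j τ (Function.update u q s') e))
      (by
        intro n hn s hs
        rw [norm_mul]
        exact mul_le_one₀ (hw n hn) (norm_nonneg _) (hprod S1 p s hs n hn))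
      (by
        intro n hn s hs
        exact hprod S2 q s hs n hn)
    refine le_trans (le_of_eq ?_) hkey
    refine sum_congr rfl fun s hs => sum_congr rfl fun s' hs' => ?_
    rw [hf]
    simp only
    congr 2
    refine sum_congr rfl fun n _ => ?_
    have hpq : p ≠ q := hne
    have hsplit : ∏ e, G e (n + sf i j τ (Function.update (Function.update u p s) q s') e)
        = G e₀ (n + s * s') *
          ((∏ e ∈ S1, G e (n + sf i j τ (Function.update u p s) e)) *
            ∏ e ∈ S2, G e (n + sf i j τ (Function.update u q s') e)) := by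
      rw [← mul_prod_erase univ _ (mem_univ e₀), ← prod_filter_mul_prod_filter_not (univ.erase e₀)
        (fun e => i e ≠ q ∧ j e ≠ q)]
      congr 1
      · congr 2
        unfold sf
        rw [if_neg hne, ← hp, ← hq, Function.update_of_ne hpq, Function.update_self,
          Function.update_self]
      · congr 1
        · refine prod_congr rfl fun e he => ?_
          have he' := (mem_filter.1 he).2
          congr 2
          unfold sf
          rw [Function.update_of_ne he'.1, Function.update_of_ne he'.2]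
        · refine prod_congr rfl fun e he => ?_
          have he' := (mem_filter.1 he).2
          have hee : e ≠ e₀ := ne_of_mem_erase (mem_filter.1 he).1
          have hij : i e ≠ p ∧ j e ≠ p := by
            have ho := hS.ord e
            have ho0 := hS.ord e₀
            rw [← hp, ← hq] at ho0
            have hinj : ¬ (i e = p ∧ j e = q) := by
              rintro ⟨h1, h2⟩
              exact hee (hS.inj (by simp only [h1, h2]; rw [← hp, ← hq]))
            have hlt : p < q := lt_of_le_of_ne ho0 hpq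
            by_cases hiq : i e = q
            · refine ⟨fun h1 => hpq (h1.symm.trans hiq), fun h1 => ?_⟩
              rw [hiq, h1] at ho
              exact absurd (lt_of_lt_of_le hlt ho) (lt_irrefl _)
            · have hjq : j e = q := by
                by_contra h1
                exact he' ⟨hiq, h1⟩
              exact ⟨fun h1 => hinj ⟨h1, hjq⟩, fun h1 => hpq (h1.symm.trans hjq)⟩
          rw [Function.update_comm hpq]
          congr 2
          unfold sf
          rw [Function.update_of_ne hij.1, Function.update_of_ne hij.2]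
    rw [hsplit]
    ring
  have hsum := sum_le_sum hu
  rw [sum_const, nsmul_eq_mul] at hsum
  have hcard : (P.card : ℝ) = ∏ k, (H k : ℝ) := by
    rw [hP, Fintype.card_piFinset]
    push_cast
    refine prod_congr rfl fun k _ => ?_
    rw [Nat.card_Icc, Nat.add_sub_cancel]
  rw [hcard] at hsum
  have hfin : (H p : ℝ) * H q * ∑ t ∈ P, f t ≤
      (H p : ℝ) * H q * (δ * ((∏ k, (H k : ℝ)) * (x : ℝ) ^ 2)) := by
    calc (H p : ℝ) * H q * ∑ t ∈ P, f t = (H p : ℝ) * ((H q : ℝ) * ∑ t ∈ P, f t) := by ring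
      _ = ∑ u ∈ P, ∑ s ∈ Icc 1 (H p), ∑ s' ∈ Icc 1 (H q),
            f (Function.update (Function.update u p s) q s') := hd2.symm
      _ ≤ _ := hsum
      _ = _ := by ring
  exact le_of_mul_le_mul_left hfin (by positivity)

end Pool.Agent.DSH
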