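import Pool.Agent.Lib.DSH.Defs
import Pool.Agent.Lib.GMV.L2bd

/-!
# DSH.WW (0.7 h): the weighted primes for two parameters

PROOF. `vw (2X) Q m = vw (2X) q m = 1` for `4X/q ≤ m ≤ 4X` (`Q ≥ q ≥ 2`), both are `0` for `m ≥ 4X + 2X/q` and in `[0,1]` always. So the difference of the weights is supported on `m ≤ 4X/q` and `4X ≤ m ≤ 4X + 2X/q`:
at most `6X/q + 2` numbers (or cruder), where `‖Wf - Wf‖ ≤ lp m ≤ log (8X) ≤ 4 log X`; `X/q ≥ 1`.
-/

set_option autoImplicit false

open Finset Filter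

namespace Pool.Agent.DSH

open Pool.Agent.HLB Pool.Agent.HLT Pool.Agent.HLR Pool.Agent.Lib.GMV Pool.Agent.BLF

namespace WWAux

lemma vw_one {X q Q : ℕ} {x : ℝ} (hX : 0 < X) (hq : q ≤ Q) (h1 : 2 * (X : ℝ) ≤ x * q)
    (hx0 : 0 ≤ x) (h2 : x ≤ 2 * X) : vw X Q x = 1 := by
  have hX' : (0 : ℝ) < X := by exact_mod_cast hX
  have hq' : (q : ℝ) ≤ Q := by exact_mod_cast hq
  have hQ0 : (0 : ℝ) ≤ Q := Nat.cast_nonneg _
  have e1 : 2 * (X : ℝ) ≤ x * Q := h1.trans (mul_le_mul_of_nonneg_left hq' hx0)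
  have e2 : 2 ≤ x * Q / X := by rwa [le_div_iff₀ hX']
  have e3 : x * Q / X ≤ 2 * Q := by
    rw [div_le_iff₀ hX']
    nlinarith
  unfold vw
  rw [min_eq_left, max_eq_right zero_le_one]
  exact le_min (by linarith) (by linarith)

lemma vw_zero {X q Q : ℕ} {x : ℝ} (hX : 0 < X) (hq : q ≤ Q)
    (h1 : 2 * (X : ℝ) * q + X ≤ x * q) : vw X Q x = 0 := by
  have hX' : (0 : ℝ) < X := by exact_mod_cast hX
  have hq' : (q : ℝ) ≤ Q := by exact_mod_cast hq
  have hq0 : (0 : ℝ) ≤ q := Nat.cast_nonneg _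
  rcases eq_or_lt_of_le hq0 with h0 | h0
  · rw [← h0] at h1
    exfalso
    linarith
  · have hx : 2 * (X : ℝ) ≤ x := by
      by_contra hc
      push Not at hc
      nlinarith
    have e0 : 2 * (Q : ℝ) + 1 ≤ x * Q / X := by
      rw [le_div_iff₀ hX']
      have a1 : (X : ℝ) ≤ (x - 2 * X) * q := by linarith
      have a2 : (x - 2 * X) * q ≤ (x - 2 * X) * Q :=
        mul_le_mul_of_nonneg_left hq' (by linarith)
      linarith
    unfold vw
    exact max_eq_left ((min_le_right _ _).trans ((min_le_right _ _).trans (by linarith)))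

lemma bad {X Q q m : ℕ} (hX : 0 < X) (hqQ : q ≤ Q) (h1 : 4 * X ≤ m * q)
    (h2 : m ≤ 4 * X ∨ 4 * X * q + 2 * X ≤ m * q) : Wf X Q m = Wf X q m := by
  have hX2 : 0 < 2 * X := by omega
  have e : vw (2 * X) Q (m : ℝ) = vw (2 * X) q (m : ℝ) := by
    rcases h2 with h2 | h2
    · have h1' : 2 * ((2 * X : ℕ) : ℝ) ≤ (m : ℝ) * q := by
        push_cast
        have : ((4 * X : ℕ) : ℝ) ≤ ((m * q : ℕ) : ℝ) := by exact_mod_cast h1
        push_cast at this
        linarith
      have h2' : (m : ℝ) ≤ 2 * ((2 * X : ℕ) : ℝ) := by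
        have : ((m : ℕ) : ℝ) ≤ ((4 * X : ℕ) : ℝ) := by exact_mod_cast h2
        push_cast at this ⊢
        linarith
      rw [vw_one hX2 hqQ h1' (Nat.cast_nonneg _) h2', vw_one hX2 le_rfl h1' (Nat.cast_nonneg _) h2']
    · have h2' : 2 * ((2 * X : ℕ) : ℝ) * q + ((2 * X : ℕ) : ℝ) ≤ (m : ℝ) * q := by
        have : ((4 * X * q + 2 * X : ℕ) : ℝ) ≤ ((m * q : ℕ) : ℝ) := by exact_mod_cast h2
        push_cast at this ⊢
        linarith
      rw [vw_zero hX2 hqQ h2', vw_zero hX2 le_rfl h2']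
  unfold Wf W
  rw [e]

lemma term_le {X Q q m : ℕ} (hm : m < 8 * X) :
    ‖Wf X Q m - Wf X q m‖ ^ 2 ≤ Real.log (8 * X) ^ 2 := by
  have hl : 0 ≤ HLT.lp m := by
    unfold HLT.lp
    split_ifs
    · exact Real.log_natCast_nonneg m
    · exact le_rfl
  have hl2 : HLT.lp m ≤ Real.log (8 * X) := by
    unfold HLT.lp
    split_ifs with hp
    · have hp0 : (0 : ℝ) < m := by exact_mod_cast hp.pos
      apply Real.log_le_log hp0
      exact_mod_cast hm.le
    · have : (1 : ℝ) ≤ 8 * X := by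
        have : 1 ≤ 8 * X := by omega
        exact_mod_cast this
      exact Real.log_nonneg this
  have e : Wf X Q m - Wf X q m = (((vw (2 * X) Q m - vw (2 * X) q m) * HLT.lp m : ℝ) : ℂ) := by
    unfold Wf W
    push_cast
    ring
  rw [e, Complex.norm_real, Real.norm_eq_abs, sq_abs]
  have a1 := vw_nonneg (2 * X) Q m
  have a2 := vw_le_one (2 * X) Q m
  have a3 := vw_nonneg (2 * X) q m
  have a4 := vw_le_one (2 * X) q m
  have b : |vw (2 * X) Q m - vw (2 * X) q m| ≤ 1 := by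
    rw [abs_le]
    constructor <;> linarith
  have b2 : (vw (2 * X) Q m - vw (2 * X) q m) ^ 2 ≤ 1 := by
    rw [← sq_abs]
    nlinarith [abs_nonneg (vw (2 * X) Q m - vw (2 * X) q m)]
  rw [mul_pow]
  have c : HLT.lp m ^ 2 ≤ Real.log (8 * X) ^ 2 := by nlinarith
  nlinarith [sq_nonneg (HLT.lp m)]

end WWAux

open WWAux in
theorem ww : ∃ X0 : ℕ, ∀ X Q q : ℕ, X0 ≤ X → 2 ≤ q → q ≤ Q → q ≤ X →
    ∑ m ∈ range (4 * (2 * X)), ‖Wf X Q m - Wf X q m‖ ^ 2 ≤ X * (Real.log X ^ 3 / q) := by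
  refine ⟨⌈Real.exp 32⌉₊, fun X Q q hX hq hqQ hqX => ?_⟩
  have hXe : Real.exp 32 ≤ X := Nat.ceil_le.mp hX
  have hX0 : (0 : ℝ) < X := (Real.exp_pos _).trans_le hXe
  have hX0' : 0 < X := by exact_mod_cast hX0
  have hlog : 32 ≤ Real.log X := by
    rw [Real.le_log_iff_exp_le hX0]
    exact hXe
  have h8 : Real.log (8 * X) ≤ 2 * Real.log X := by
    rw [Real.log_mul (by norm_num) hX0.ne']
    have : Real.log 8 ≤ 8 - 1 := Real.log_le_sub_one_of_pos (by norm_num)
    linarith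
  have h80 : 0 ≤ Real.log (8 * X) := by
    apply Real.log_nonneg
    have : (1 : ℝ) ≤ X := by exact_mod_cast hX0'
    linarith
  set B : Finset ℕ := range (4 * X / q + 1) ∪ Ico (4 * X) (4 * X + (2 * X / q + 1)) with hB
  have hq0 : 0 < q := by omega
  have key : ∀ m ∈ range (4 * (2 * X)), ‖Wf X Q m - Wf X q m‖ ^ 2 ≤
      if m ∈ B then Real.log (8 * X) ^ 2 else 0 := by
    intro m hm
    rw [mem_range] at hm
    split_ifs with hmB
    · exact term_le (by omega)
    · have h1 : ¬ m < 4 * X / q + 1 := fun h => hmB (by rw [hB]; exact mem_union_left _ (mem_range.mpr h))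
      have h2 : ¬ (4 * X ≤ m ∧ m < 4 * X + (2 * X / q + 1)) := fun h => hmB (by
        rw [hB]; exact mem_union_right _ (mem_Ico.mpr h))
      have h1' : 4 * X ≤ m * q := by
        have : 4 * X / q < m := by omega
        exact ((Nat.div_lt_iff_lt_mul hq0).mp this).le
      have h2' : m ≤ 4 * X ∨ 4 * X * q + 2 * X ≤ m * q := by
        by_cases hc : m ≤ 4 * X
        · exact Or.inl hc
        · right
          have : 2 * X / q < m - 4 * X := by omega
          have h3 := (Nat.div_lt_iff_lt_mul hq0).mp this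
          have h4 : m = (m - 4 * X) + 4 * X := by omega
          rw [h4, Nat.add_mul]
          omega
      rw [bad hX0' hqQ h1' h2', sub_self, norm_zero]
      norm_num
  refine (sum_le_sum key).trans ?_
  rw [← sum_filter, sum_const, nsmul_eq_mul]
  have hcard : (((range (4 * (2 * X))).filter (fun m => m ∈ B)).card : ℝ) ≤ 8 * (X / q : ℝ) := by
    have c1 : ((range (4 * (2 * X))).filter (fun m => m ∈ B)).card ≤ B.card :=
      card_le_card (fun m hm => (mem_filter.mp hm).2)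
    have c2 : B.card ≤ (4 * X / q + 1) + (2 * X / q + 1) := by
      rw [hB]
      refine (card_union_le _ _).trans ?_
      rw [card_range, Nat.card_Ico, Nat.add_sub_cancel_left]
    have c3 : (((4 * X / q + 1) + (2 * X / q + 1) : ℕ) : ℝ) ≤ 8 * (X / q : ℝ) := by
      push_cast
      have d1 : ((4 * X / q : ℕ) : ℝ) ≤ 4 * (X / q : ℝ) := by
        have := @Nat.cast_div_le ℝ _ _ _ (4 * X) q
        push_cast at this
        calc ((4 * X / q : ℕ) : ℝ) ≤ 4 * X / q := this
          _ = 4 * (X / q : ℝ) := by ring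
      have d2 : ((2 * X / q : ℕ) : ℝ) ≤ 2 * (X / q : ℝ) := by
        have := @Nat.cast_div_le ℝ _ _ _ (2 * X) q
        push_cast at this
        calc ((2 * X / q : ℕ) : ℝ) ≤ 2 * X / q := this
          _ = 2 * (X / q : ℝ) := by ring
      have d3 : (1 : ℝ) ≤ X / q := by
        rw [one_le_div (by exact_mod_cast hq0)]
        exact_mod_cast hqX
      linarith
    calc (((range (4 * (2 * X))).filter (fun m => m ∈ B)).card : ℝ)
        ≤ (((4 * X / q + 1) + (2 * X / q + 1) : ℕ) : ℝ) := by exact_mod_cast c1.trans c2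
      _ ≤ _ := c3
  have hXq : (0 : ℝ) ≤ X / q := by positivity
  calc (((range (4 * (2 * X))).filter (fun m => m ∈ B)).card : ℝ) * Real.log (8 * X) ^ 2
      ≤ 8 * (X / q : ℝ) * (2 * Real.log X) ^ 2 := by
        apply mul_le_mul hcard _ (sq_nonneg _) (by positivity)
        exact pow_le_pow_left₀ h80 h8 2
    _ = (X / q : ℝ) * (32 * Real.log X ^ 2) := by ring
    _ ≤ (X / q : ℝ) * (Real.log X * Real.log X ^ 2) := by
        apply mul_le_mul_of_nonneg_left _ hXq
        exact mul_le_mul_of_nonneg_right hlog (sq_nonneg _)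
    _ = X * (Real.log X ^ 3 / q) := by ring

end Pool.Agent.DSH
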