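import Pool.Agent.Lib.DSH.Ms1
import Pool.Agent.Lib.DSH.Ms2
import Pool.Agent.Lib.DSH.LLm
import Pool.Agent.Lib.DSH.WW
import Pool.Agent.Lib.DSH.MsL
import Pool.Agent.Lib.GMV.ProjW
import Pool.Agent.Lib.GMV.DiffL

/-!
# DSH.TrMs (1.5 h): the mean square property of the differences

PROOF. `x = X + 1`, `Z = 2 X`. `supW`: `‖ft (4Z) (Wf X Q - Lm r X Q)‖ ≤ 4 Z Q^(-2/5)` (`projW`, `diffL` at `2X`, as `hAb` in the proof of `GMV.except`; `Rg` at `2X` follows from `exp(√(log X)) ≤ Q ≤ X^c'`: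
see the proof of `GMV.core`). So `α = 8 Q^(-2/5) ≤ 8 q^(-2/5)`, and `∑ ‖Wf - Lm‖² ≤ β x` with `β = 4 (log X)^K` (`lm_wf` with `N = 2`). `ms1`: `ρ = 8 · 64 q^(-4/5)`; `ms2` (`M = √X`, `M² ≤ X < x ≤ X + 1 ≤ 16 M²`):
`ρ = C β √8 q^(-1/5) (1 + log x)`. The same at `q`. `Lm Q - Lm q = (Lm Q - Wf Q) + (Wf Q - Wf q) + (Wf q - Lm q)`, the middle one by `ww` and `MSq.of_l2` (`ρ = (log X)^3/q`), `MSq.add` twice, `MSq.smul` with `-1`.
All this is `≤ q^(-1/10)` for `X ≥ X0` (`log X ≤ (log q)²` and powers of `log q` against `q`: `GMV.NormAux.asy`, `GMV.NormAux.thr`).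
-/

set_option autoImplicit false

open Finset Filter

namespace Pool.Agent.DSH

open Pool.Agent.HLB Pool.Agent.HLT Pool.Agent.HLR Pool.Agent.Lib.GMV Pool.Agent.BLF

/-- The sets of shifts of the slots. -/
def TS (X : ℕ) (T : Finset ℕ) : Prop :=
  (∃ N : ℕ, N ≤ X + 1 ∧ X + 1 ≤ 8 * N ∧ T = Icc 1 N) ∨ T = (Icc 1 (Nat.sqrt X)).image (fun t => t ^ 2)

theorem supW (r : ℕ) (B c : ℝ) (hc : 0 < c) (hB : BS B c) : ∃ c' : ℝ, 0 < c' ∧ ∃ X0 : ℕ, ∀ X Q : ℕ, X0 ≤ X →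
    Real.exp (Real.sqrt (Real.log X)) ≤ Q → (Q : ℝ) ≤ (X : ℝ) ^ c' → ∀ t : ℝ,
    ‖ft (4 * (2 * X)) (fun n => Wf X Q n - Lm r X Q n) t‖ ≤ 8 * X * (Q : ℝ) ^ (-(2 / 5 : ℝ)) := by
  obtain ⟨X1, hPW⟩ := projW
  obtain ⟨c4, hc4, X4, hD⟩ := diffL (8 * (r + 1)) (by omega) B
  obtain ⟨X5, hBS⟩ := hB
  refine ⟨min (1 / 20) (min c4 c), lt_min (by norm_num) (lt_min hc4 hc),
    max X1 (max X4 (max X5 2)), fun X Q hX hQl hQu t => ?_⟩
  have hX1 : X1 ≤ X := (le_max_left _ _).trans hX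
  have hX4 : X4 ≤ X := ((le_max_left _ _).trans (le_max_right _ _)).trans hX
  have hX5 : X5 ≤ X :=
    (((le_max_left _ _).trans (le_max_right _ _)).trans (le_max_right _ _)).trans hX
  have hX2 : 2 ≤ X :=
    (((le_max_right _ _).trans (le_max_right _ _)).trans (le_max_right _ _)).trans hX
  have hX2r : (2 : ℝ) ≤ X := by exact_mod_cast hX2
  have hXpos : (0 : ℝ) < X := by linarith
  have hRg : ∀ c'' : ℝ, min (1 / 20) (min c4 c) ≤ c'' → 0 ≤ c'' → Rg c'' (2 * X) Q := by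
    intro c'' hcc hc0
    refine ⟨le_trans (Real.exp_le_exp.mpr ?_) hQl, hQu.trans ?_⟩
    · have h1 : Real.log ((2 * X : ℕ) : ℝ) ≤ 4 * Real.log X := by
        push_cast
        rw [Real.log_mul (by norm_num) hXpos.ne']
        have h2 : Real.log 2 ≤ Real.log X := Real.log_le_log (by norm_num) hX2r
        have h3 : 0 ≤ Real.log X := Real.log_nonneg (by linarith)
        linarith
      have h4 : Real.sqrt (Real.log ((2 * X : ℕ) : ℝ)) ≤ Real.sqrt (4 * Real.log X) :=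
        Real.sqrt_le_sqrt h1
      have h5 : Real.sqrt (4 * Real.log X) = 2 * Real.sqrt (Real.log X) := by
        rw [Real.sqrt_mul (by norm_num), show (4 : ℝ) = 2 ^ 2 by norm_num,
          Real.sqrt_sq (by norm_num)]
      linarith
    · have h1 : (X : ℝ) ^ (min (1 / 20) (min c4 c)) ≤ (X : ℝ) ^ c'' :=
        Real.rpow_le_rpow_of_exponent_le (by linarith) hcc
      refine h1.trans (Real.rpow_le_rpow hXpos.le ?_ hc0)
      push_cast
      linarith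
  obtain ⟨b, hb, hbB⟩ := hBS (2 * X) Q (by omega)
    (hRg c ((min_le_right _ _).trans (min_le_right _ _)) hc.le)
  have h12 := hPW (2 * X) Q (by omega) (hRg (1 / 20) (min_le_left _ _) (by norm_num)) t
  have h13 := hD (2 * X) Q (by omega)
    (hRg c4 ((min_le_right _ _).trans (min_le_left _ _)) hc4.le) b hb hbB t
  have e1 : ft (4 * (2 * X)) (fun n => Wf X Q n - Lm r X Q n) t =
      ft (4 * (2 * X)) (fun n => (W (2 * X) Q n : ℂ) - LQ (2 * X) Q n) t -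
        ft (4 * (2 * X)) (fun n => LL (2 * X) Q (Q ^ (8 * (r + 1))) n - LQ (2 * X) Q n) t := by
    unfold ft Wf Lm
    rw [← Finset.sum_sub_distrib]
    refine Finset.sum_congr rfl fun n _ => ?_
    ring
  rw [e1]
  refine (norm_sub_le _ _).trans ?_
  push_cast at h12 h13
  have h14 : (3 : ℝ) * (2 * X) * (Q : ℝ) ^ (-(2 / 5 : ℝ)) + 2 * X * (Q : ℝ) ^ (-(2 / 5 : ℝ)) =
      8 * X * (Q : ℝ) ^ (-(2 / 5 : ℝ)) := by ring
  linarith

namespace TrMsAux

/-- the final comparison of the powers of the logarithm -/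
theorem fin_cmp (K : ℕ) (C : ℝ) (hC : 0 < C) : ∃ X0 : ℕ, ∀ X q : ℕ, X0 ≤ X →
    Real.exp (Real.sqrt (Real.log X)) ≤ q →
    3 ≤ X ∧ (3 : ℝ) ≤ q ∧
    6 * ((512 + 36 * C) * Real.log q ^ (2 * K + 6) * (q : ℝ) ^ (-(1 / 5 : ℝ))) +
      4 * (Real.log q ^ (2 * K + 6) * (q : ℝ) ^ (-(1 / 5 : ℝ))) ≤ (q : ℝ) ^ (-(1 / 10 : ℝ)) := by
  obtain ⟨Q0, hQ03, hQ0⟩ := NormAux.asy (2 * K + 6) (6 * (512 + 36 * C) + 4)
  obtain ⟨X1, hX1⟩ := NormAux.thr Q0
  refine ⟨max X1 3, fun X q hX hq => ?_⟩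
  have h1 := hX1 X ((le_max_left _ _).trans hX)
  have h3 : Real.exp (Real.sqrt (Real.log X) / 2) ≤ q := by
    refine le_trans (Real.exp_le_exp.mpr ?_) hq
    have := Real.sqrt_nonneg (Real.log X)
    linarith
  have hqQ : Q0 ≤ (q : ℝ) := h1.trans h3
  have hq3 : (3 : ℝ) ≤ q := hQ03.trans hqQ
  refine ⟨(le_max_right _ _).trans hX, hq3, ?_⟩
  have h4 := hQ0 q hqQ
  have hqpos : (0 : ℝ) < q := by linarith
  have hu : 0 ≤ (q : ℝ) ^ (-(1 / 5 : ℝ)) := Real.rpow_nonneg hqpos.le _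
  calc 6 * ((512 + 36 * C) * Real.log q ^ (2 * K + 6) * (q : ℝ) ^ (-(1 / 5 : ℝ))) +
        4 * (Real.log q ^ (2 * K + 6) * (q : ℝ) ^ (-(1 / 5 : ℝ)))
      = (6 * (512 + 36 * C) + 4) * Real.log q ^ (2 * K + 6) * (q : ℝ) ^ (-(1 / 5 : ℝ)) := by ring
    _ ≤ (q : ℝ) ^ (1 / 1000 : ℝ) * (q : ℝ) ^ (-(1 / 5 : ℝ)) := mul_le_mul_of_nonneg_right h4 hu
    _ = (q : ℝ) ^ ((1 / 1000 : ℝ) + (-(1 / 5 : ℝ))) := (Real.rpow_add hqpos _ _).symm
    _ ≤ (q : ℝ) ^ (-(1 / 10 : ℝ)) :=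
        Real.rpow_le_rpow_of_exponent_le (by linarith) (by norm_num)

theorem rt (q : ℝ) (hq : 1 ≤ q) : q ^ (-(2 / 5 : ℝ)) = (q ^ (-(1 / 5 : ℝ))) ^ 2 ∧
    q⁻¹ = (q ^ (-(1 / 5 : ℝ))) ^ 5 ∧ 0 < q ^ (-(1 / 5 : ℝ)) ∧ q ^ (-(1 / 5 : ℝ)) ≤ 1 := by
  have hq0 : 0 < q := by linarith
  refine ⟨?_, ?_, Real.rpow_pos_of_pos hq0 _, Real.rpow_le_one_of_one_le_of_nonpos hq (by norm_num)⟩
  · rw [← Real.rpow_natCast, ← Real.rpow_mul hq0.le]
    norm_num
  · rw [← Real.rpow_natCast, ← Real.rpow_mul hq0.le]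
    norm_num
    rw [Real.rpow_neg_one]

end TrMsAux

open TrMsAux in
theorem trMs (r : ℕ) (B c : ℝ) (hc : 0 < c) (hB : BS B c) : ∃ c' : ℝ, 0 < c' ∧ ∃ X0 : ℕ, ∀ X Q q : ℕ, X0 ≤ X →
    q ≤ Q → Real.exp (Real.sqrt (Real.log X)) ≤ q → (Q : ℝ) ≤ (X : ℝ) ^ c' → ∀ T : Finset ℕ, TS X T →
    MSq (X + 1) ((q : ℝ) ^ (-(1 / 10 : ℝ))) (fun n => Wf X Q n - Lm r X Q n) T ∧
    MSq (X + 1) ((q : ℝ) ^ (-(1 / 10 : ℝ))) (fun n => Lm r X Q n - Lm r X q n) T := by
  obtain ⟨c1, hc1, X1, hsup⟩ := supW r B c hc hB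
  obtain ⟨K, c2, hc2, X2, hlm⟩ := lm_wf r 2 B c hc hB
  obtain ⟨X3, hww⟩ := ww
  obtain ⟨C, hC, hms2⟩ := ms2
  obtain ⟨X4, hfin⟩ := fin_cmp K C hC
  refine ⟨min 1 (min c1 c2), lt_min one_pos (lt_min hc1 hc2), max X1 (max X2 (max X3 X4)), ?_⟩
  intro X Q q hX hqQ hq hQ T hT
  have hX1 : X1 ≤ X := (le_max_left _ _).trans hX
  have hX2 : X2 ≤ X := ((le_max_left _ _).trans (le_max_right _ _)).trans hX
  have hX3 : X3 ≤ X :=
    (((le_max_left _ _).trans (le_max_right _ _)).trans (le_max_right _ _)).trans hX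
  have hX4 : X4 ≤ X :=
    (((le_max_right _ _).trans (le_max_right _ _)).trans (le_max_right _ _)).trans hX
  obtain ⟨hX3', hq3, hcmp⟩ := hfin X q hX4 hq
  have hXr : (3 : ℝ) ≤ X := by exact_mod_cast hX3'
  have hXpos : (0 : ℝ) < X := by linarith
  obtain ⟨hu2, hu5, hu0, hu1⟩ := rt (q : ℝ) (by linarith)
  set u : ℝ := (q : ℝ) ^ (-(1 / 5 : ℝ)) with hu
  have hqpos : (0 : ℝ) < q := by linarith
  -- logarithms
  have hlX1 : 1 ≤ Real.log X := by
    rw [Real.le_log_iff_exp_le hXpos]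
    have := Real.exp_one_lt_d9
    linarith
  have hlq1 : 1 ≤ Real.log q := by
    rw [Real.le_log_iff_exp_le hqpos]
    have := Real.exp_one_lt_d9
    linarith
  have hlXq : Real.log X ≤ Real.log q ^ 2 := by
    have h1 : Real.sqrt (Real.log X) ≤ Real.log q := by
      rw [Real.le_log_iff_exp_le hqpos]; exact hq
    have h2 := Real.sq_sqrt (show 0 ≤ Real.log X by linarith)
    calc Real.log X = Real.sqrt (Real.log X) ^ 2 := h2.symm
      _ ≤ Real.log q ^ 2 := pow_le_pow_left₀ (Real.sqrt_nonneg _) h1 2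
  have hlX1' : 1 + Real.log ((X + 1 : ℕ) : ℝ) ≤ 3 * Real.log q ^ 2 := by
    have h1 : Real.log ((X + 1 : ℕ) : ℝ) ≤ Real.log X + 1 := by
      have h2 : ((X + 1 : ℕ) : ℝ) ≤ X * Real.exp 1 := by
        push_cast
        have h3 := Real.exp_one_gt_d9
        nlinarith
      calc Real.log ((X + 1 : ℕ) : ℝ) ≤ Real.log (X * Real.exp 1) :=
            Real.log_le_log (by positivity) h2
        _ = Real.log X + 1 := by rw [Real.log_mul hXpos.ne' (Real.exp_ne_zero _), Real.log_exp]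
    have h4 : 1 ≤ Real.log q ^ 2 := one_le_pow₀ hlq1
    linarith
  have hLK : Real.log X ^ K ≤ Real.log q ^ (2 * K) := by
    rw [pow_mul]
    exact pow_le_pow_left₀ (by linarith) hlXq K
  have hL0 : 0 ≤ Real.log q := by linarith
  have hLn1 : 1 ≤ Real.log q ^ (2 * K + 6) := one_le_pow₀ hlq1
  -- the bound for one level
  have hlev : ∀ R : ℕ, q ≤ R → (R : ℝ) ≤ (X : ℝ) ^ (min 1 (min c1 c2)) →
      MSq (X + 1) ((512 + 36 * C) * Real.log q ^ (2 * K + 6) * u)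
        (fun n => Wf X R n - Lm r X R n) T := by
    intro R hqR hR
    have hRe : Real.exp (Real.sqrt (Real.log X)) ≤ R :=
      hq.trans (by exact_mod_cast hqR)
    have hX1r : (1 : ℝ) ≤ X := by linarith
    have hR1 : (R : ℝ) ≤ (X : ℝ) ^ c1 := hR.trans
      (Real.rpow_le_rpow_of_exponent_le hX1r ((min_le_right _ _).trans (min_le_left _ _)))
    have hR2 : (R : ℝ) ≤ (X : ℝ) ^ c2 := hR.trans
      (Real.rpow_le_rpow_of_exponent_le hX1r ((min_le_right _ _).trans (min_le_right _ _)))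
    have hA : ∀ t, ‖ft (4 * (2 * X)) (fun n => Wf X R n - Lm r X R n) t‖ ≤
        (8 * u ^ 2) * ((X + 1 : ℕ) : ℝ) := by
      intro t
      refine (hsup X R hX1 hRe hR1 t).trans ?_
      have h1 : (R : ℝ) ^ (-(2 / 5 : ℝ)) ≤ u ^ 2 := by
        rw [← hu2]
        exact Real.rpow_le_rpow_of_nonpos hqpos (by exact_mod_cast hqR) (by norm_num)
      have h2 : 0 ≤ u ^ 2 := by positivity
      push_cast
      calc 8 * (X : ℝ) * (R : ℝ) ^ (-(2 / 5 : ℝ)) ≤ 8 * (X : ℝ) * u ^ 2 :=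
            mul_le_mul_of_nonneg_left h1 (by positivity)
        _ ≤ 8 * u ^ 2 * (X + 1) := by nlinarith
    rcases hT with ⟨N, hN1, hN2, rfl⟩ | rfl
    · refine (ms1 (2 * X) (X + 1) N (by omega) (by omega) hN1 hN2 _ (8 * u ^ 2) hA).mono ?_
      have h1 : 8 * (8 * u ^ 2) ^ 2 = 512 * u ^ 3 * u := by ring
      rw [h1]
      refine mul_le_mul_of_nonneg_right ?_ hu0.le
      have h2 : u ^ 3 ≤ 1 := pow_le_one₀ hu0.le hu1
      have h3 : (512 : ℝ) * 1 ≤ (512 + 36 * C) * Real.log q ^ (2 * K + 6) := by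
        refine mul_le_mul (by linarith) hLn1 zero_le_one (by linarith)
      nlinarith
    · obtain ⟨hl1, hl2⟩ := hlm X R hX2 hRe hR2
      have hM1 : 1 ≤ Nat.sqrt X := Nat.le_sqrt.mpr (by omega)
      have hM2 : Nat.sqrt X ^ 2 ≤ X := by
        rw [sq]; exact Nat.sqrt_le X
      have hM3 : X < (Nat.sqrt X + 1) ^ 2 := by
        rw [sq]; exact Nat.lt_succ_sqrt X
      have hM4 : X + 1 ≤ 16 * Nat.sqrt X ^ 2 := by nlinarith
      have hsum : ∑ k ∈ range (4 * (2 * X)), ‖Wf X R k - Lm r X R k‖ ^ 2 ≤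
          (4 * Real.log X ^ K) * ((X + 1 : ℕ) : ℝ) := by
        have h1 : ∀ k ∈ range (4 * (2 * X)), ‖Wf X R k - Lm r X R k‖ ^ 2 ≤
            2 * ‖Wf X R k‖ ^ 2 + 2 * ‖Lm r X R k‖ ^ 2 := by
          intro k _
          have h2 := norm_sub_le (Wf X R k) (Lm r X R k)
          have h3 := norm_nonneg (Wf X R k - Lm r X R k)
          have h4 : ‖Wf X R k - Lm r X R k‖ ^ 2 ≤ (‖Wf X R k‖ + ‖Lm r X R k‖) ^ 2 :=
            pow_le_pow_left₀ h3 h2 2
          nlinarith [sq_nonneg (‖Wf X R k‖ - ‖Lm r X R k‖)]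
        refine (Finset.sum_le_sum h1).trans ?_
        rw [Finset.sum_add_distrib, ← Finset.mul_sum, ← Finset.mul_sum]
        have h5 : 0 ≤ Real.log X ^ K := by positivity
        push_cast
        nlinarith
      refine (hms2 (2 * X) (X + 1) (Nat.sqrt X) hM1 (by omega) hM4 (by omega) _ (8 * u ^ 2)
        (4 * Real.log X ^ K) (by positivity) ?_ hA hsum).mono ?_
      · have := one_le_pow₀ hlX1 (n := K)
        linarith
      · have hs : Real.sqrt (8 * u ^ 2) ≤ 3 * u := by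
          rw [Real.sqrt_le_left (by positivity)]
          nlinarith [sq_nonneg u]
        have h0 : 0 ≤ Real.log X ^ K := by positivity
        have h1 : 0 ≤ 1 + Real.log ((X + 1 : ℕ) : ℝ) := by
          have : 0 ≤ Real.log ((X + 1 : ℕ) : ℝ) := Real.log_natCast_nonneg _
          linarith
        calc C * (4 * Real.log X ^ K) * Real.sqrt (8 * u ^ 2) * (1 + Real.log ((X + 1 : ℕ) : ℝ))
            ≤ C * (4 * Real.log q ^ (2 * K)) * (3 * u) * (3 * Real.log q ^ 2) := by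
              gcongr
          _ = 36 * C * Real.log q ^ (2 * K + 2) * u := by rw [pow_add]; ring
          _ ≤ (512 + 36 * C) * Real.log q ^ (2 * K + 6) * u := by
              have h6 : Real.log q ^ (2 * K + 2) ≤ Real.log q ^ (2 * K + 6) :=
                pow_le_pow_right₀ hlq1 (by omega)
              have h7 : 0 ≤ Real.log q ^ (2 * K + 2) := by positivity
              refine mul_le_mul_of_nonneg_right ?_ hu0.le
              exact mul_le_mul (by linarith) h6 h7 (by positivity)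
  have hQlev := hlev Q hqQ hQ
  have hqX : (q : ℝ) ≤ (X : ℝ) ^ (min 1 (min c1 c2)) :=
    le_trans (by exact_mod_cast hqQ) hQ
  have hqlev := hlev q le_rfl hqX
  have hr0 : 0 ≤ (512 + 36 * C) * Real.log q ^ (2 * K + 6) * u := by positivity
  have hr1 : 0 ≤ Real.log q ^ (2 * K + 6) * u := by positivity
  refine ⟨hQlev.mono (by linarith), ?_⟩
  -- the middle term
  have hqX' : q ≤ X := by
    have h1 : (q : ℝ) ≤ (X : ℝ) ^ (1 : ℝ) := hqX.trans
      (Real.rpow_le_rpow_of_exponent_le (by linarith) (min_le_left _ _))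
    rw [Real.rpow_one] at h1
    exact_mod_cast h1
  have hq2 : 2 ≤ q := by
    have : (2 : ℝ) ≤ q := by linarith
    exact_mod_cast this
  have hmid : MSq (X + 1) (Real.log q ^ (2 * K + 6) * u) (fun n => Wf X Q n - Wf X q n) T := by
    refine MSq.of_l2 hqlev.1 ?_
    have h1 := hww X Q q hX3 hq2 hqQ hqX'
    have h2 : ∑ m ∈ Icc 1 (2 * (X + 1)), ‖Wf X Q m - Wf X q m‖ ^ 2 ≤
        ∑ m ∈ range (4 * (2 * X)), ‖Wf X Q m - Wf X q m‖ ^ 2 := by
      refine Finset.sum_le_sum_of_subset_of_nonneg ?_ (fun _ _ _ => by positivity)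
      intro m hm
      rw [Finset.mem_Icc] at hm
      rw [Finset.mem_range]
      omega
    refine h2.trans (h1.trans ?_)
    have h3 : Real.log X ^ 3 / q ≤ Real.log q ^ (2 * K + 6) * u := by
      rw [div_eq_mul_inv, hu5]
      have h4 : Real.log X ^ 3 ≤ Real.log q ^ (2 * K + 6) := by
        calc Real.log X ^ 3 ≤ (Real.log q ^ 2) ^ 3 := pow_le_pow_left₀ (by linarith) hlXq 3
          _ = Real.log q ^ 6 := by ring
          _ ≤ Real.log q ^ (2 * K + 6) := pow_le_pow_right₀ hlq1 (by omega)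
      have h5 : u ^ 5 ≤ u := by
        calc u ^ 5 = u ^ 4 * u := by ring
          _ ≤ 1 * u := mul_le_mul_of_nonneg_right (pow_le_one₀ hu0.le hu1) hu0.le
          _ = u := one_mul u
      exact mul_le_mul h4 h5 (by positivity) (by positivity)
    push_cast
    have h6 : 0 ≤ Real.log X ^ 3 / q := by positivity
    nlinarith
  have h1 := (hQlev.smul (-1)).add (hmid.add hqlev)
  refine (h1.mono ?_).congr ?_
  · rw [norm_neg, norm_one]
    linarith
  · intro n _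
    ring

end Pool.Agent.DSH
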