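import Pool.Agent.Lib.DSH.TransY
import Pool.Agent.Lib.DSH.GridD

/-!
# DSH.TransG: primes and model for almost all parameters, general boxes

The variables `t k` run through `1, ..., H X k`, where `H X k ≥ X ^ κ`; the shifts are the `sf i j τ t e` (`τ e (t (i e))` or
`t (i e) * t (j e)`), with sets of values as in `TS`. Same proofs as `transY` (file TransY) and `fam` (file GridD).
-/

set_option autoImplicit false

open Finset Filter

namespace Pool.Agent.DSH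

open Pool.Agent.HLB Pool.Agent.HLT Pool.Agent.HLR Pool.Agent.Lib.GMV Pool.Agent.BLF

/-- The box with the sizes `H`. -/
def Bg {m : ℕ} (H : ℕ → Fin m → ℕ) (X : ℕ) : Finset (Fin m → ℕ) :=
  Fintype.piFinset (fun k => Icc 1 (H X k))

/-- The conditions on a box and on its slots. -/
structure BoxD {m r : ℕ} (i j : Fin r → Fin m) (H : ℕ → Fin m → ℕ) (τ : Fin r → ℕ → ℕ) (N κ : ℝ) (Z : ℕ) : Prop where
  κ0 : 0 < κ
  big : ∀ X ≥ Z, ∀ k, (X : ℝ) ^ κ ≤ H X k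
  sys : ∀ X ≥ Z, Sys (X + 1) i j (H X) τ
  ts1 : ∀ X ≥ Z, ∀ e, i e ≠ j e → TS X (Icc 1 (H X (i e) * H X (j e)))
  ts2 : ∀ X ≥ Z, ∀ e, i e = j e → TS X ((Icc 1 (H X (i e))).image (τ e))
  le : ∀ X, ∀ t ∈ Bg H X, ∀ e, sf i j τ t e ≤ X
  card : ∀ X ≥ 1, ((Bg H X).card : ℝ) ≤ (X : ℝ) ^ N

open TransYAux GridDAux

open scoped Classical in
theorem transG {m r : ℕ} (hr : 1 ≤ r) (i j : Fin r → Fin m) (H : ℕ → Fin m → ℕ) (τ : Fin r → ℕ → ℕ) (N0 κ : ℝ) (Z : ℕ)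
    (hD : BoxD i j H τ N0 κ Z) (B c : ℝ) (hc : 0 < c)
    (hB : BS B c) : ∃ e e' c' K : ℝ, 0 < e ∧ e ≤ 1 / 2 ∧ 0 < e' ∧ 0 < c' ∧ 0 < K ∧ ∃ X0 : ℕ, ∀ X Q : ℕ, X0 ≤ X →
    Real.exp (K * Real.sqrt (Real.log X)) ≤ Q → (Q : ℝ) ≤ (X : ℝ) ^ c' → ∀ y ≤ X,
    (((Bg H X).filter (fun t => X * (Q : ℝ) ^ (-e) < ‖dev r X Q (sf i j τ t) y‖)).card : ℝ) ≤
      (Bg H X).card * (Q : ℝ) ^ (-e') := by
  obtain ⟨D0, q0', hZ⟩ := slotZ r B
  obtain ⟨b, η, e1, N, q0, hb, hη, he1, hq0, hA⟩ := partA m r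
  have hκ := hD.κ0
  obtain ⟨c1, hc1, X1, hsup⟩ := supW r B c hc hB
  obtain ⟨c2, hc2, X2, htr⟩ := trMs r B c hc hB
  obtain ⟨K1, c3, hc3, X3, hmo⟩ := lm_wf r N B c hc hB
  obtain ⟨X4, hBS⟩ := hB
  set D : ℕ := 10 * D0 + 10 with hDdef
  have hD1 : 1 ≤ D := by omega
  have hDr : (0 : ℝ) < D := by exact_mod_cast hD1
  have hE : 0 < e1 / (4 * D) := by positivity
  obtain ⟨Y1, hY1⟩ := ev (q0 + q0' + 10) 1 0 one_pos
  obtain ⟨Y2, hY2⟩ := ev 5 b 1 hb
  obtain ⟨Y3, hY3⟩ := ev (2 ^ (N + 1)) η K1 hη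
  obtain ⟨Y4, hY4⟩ := ev 176 (1 / 10) 1 (by norm_num)
  obtain ⟨Y5, hY5⟩ := ev 8 (e1 / (4 * D)) 0 hE
  refine ⟨min (e1 / (4 * D)) (1 / 10), e1 / (4 * D), min (min c1 (min c2 κ)) (min (min c3 c) (1 / 5)), 4 * D,
    lt_min hE (by norm_num), (min_le_right _ _).trans (by norm_num), hE,
    lt_min (lt_min hc1 (lt_min hc2 hκ)) (lt_min (lt_min hc3 hc) (by norm_num)), by positivity,
    X1 + X2 + X3 + X4 + Y1 + Y2 + Y3 + Y4 + Y5 + Z + 3, fun X Q hX hQ1 hQ2 y hy => ?_⟩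
  have hX3 : 3 ≤ X := by omega
  have hXr : (3 : ℝ) ≤ X := by exact_mod_cast hX3
  have hX1 : (1 : ℝ) ≤ X := by linarith
  set L : ℝ := Real.sqrt (Real.log X) with hLdef
  have hlog : 1 ≤ Real.log X := by
    rw [Real.le_log_iff_exp_le (by linarith)]
    exact (Real.exp_one_lt_d9.le.trans (by norm_num)).trans hXr
  have hL1 : 1 ≤ L := by
    rw [hLdef, Real.le_sqrt' one_pos]
    linarith
  have hLsq : Real.log X = L ^ 2 := (Real.sq_sqrt (by linarith)).symm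
  set q : ℕ := ⌊(Q : ℝ) ^ (1 / (D : ℝ))⌋₊ with hqdef
  obtain ⟨hq1, hq2, hq3⟩ := qfacts D hD1 L Q hL1 hQ1
  rw [← hqdef] at hq1 hq2 hq3
  have hQpos : (0 : ℝ) < Q := lt_of_lt_of_le (Real.exp_pos _) hQ1
  have hexpL : Real.exp L ≤ Real.exp (2 * L) := Real.exp_le_exp.2 (by linarith)
  have hqL : Real.exp L ≤ (q : ℝ) := hexpL.trans hq1
  have hqpos : (0 : ℝ) < q := lt_of_lt_of_le (Real.exp_pos _) hqL
  have hQL : Real.exp L ≤ (Q : ℝ) := by
    refine le_trans (Real.exp_le_exp.2 ?_) hQ1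
    have : (1 : ℝ) ≤ D := by exact_mod_cast hD1
    nlinarith
  have hQ1' : (1 : ℝ) ≤ Q := by
    refine le_trans ?_ hQL
    exact Real.one_le_exp (by linarith)
  have hqQ : q ≤ Q := by
    have h1 : (q : ℝ) ≤ (Q : ℝ) ^ (1 : ℝ) := by
      refine hq2.trans (Real.rpow_le_rpow_of_exponent_le hQ1' ?_)
      rw [div_le_one hDr]
      exact_mod_cast hD1
    rw [Real.rpow_one] at h1
    exact_mod_cast h1
  -- the upper bounds for `Q`
  have hup : ∀ c'' : ℝ, min (min c1 (min c2 κ)) (min (min c3 c) (1 / 5)) ≤ c'' → (Q : ℝ) ≤ (X : ℝ) ^ c'' :=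
    fun c'' h => hQ2.trans (Real.rpow_le_rpow_of_exponent_le hX1 h)
  have u1 := hup c1 ((min_le_left _ _).trans (min_le_left _ _))
  have u2 := hup c2 ((min_le_left _ _).trans ((min_le_right _ _).trans (min_le_left _ _)))
  have u6 := hup κ ((min_le_left _ _).trans ((min_le_right _ _).trans (min_le_right _ _)))
  have u3 := hup c3 ((min_le_right _ _).trans ((min_le_left _ _).trans (min_le_left _ _)))
  have u4 := hup c ((min_le_right _ _).trans ((min_le_left _ _).trans (min_le_right _ _)))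
  have u5 := hup (1 / 5) ((min_le_right _ _).trans (min_le_right _ _))
  have hQ5 : Q ^ 5 ≤ X := by
    have h1 : (Q : ℝ) ^ 5 ≤ ((X : ℝ) ^ (1 / 5 : ℝ)) ^ 5 := pow_le_pow_left₀ hQpos.le u5 5
    rw [← Real.rpow_natCast ((X : ℝ) ^ (1 / 5 : ℝ)) 5, ← Real.rpow_mul (by linarith)] at h1
    norm_num at h1
    exact_mod_cast h1
  have hQ0 : 1 ≤ Q := by exact_mod_cast hQ1'
  have hq5 : q ^ 5 ≤ 2 * X := by
    have := Nat.pow_le_pow_left hqQ 5
    omega
  have hqH : ∀ k, (q : ℝ) ≤ H X k := fun k =>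
    ((show (q : ℝ) ≤ Q by exact_mod_cast hqQ).trans u6).trans (hD.big X (by omega) k)
  -- growth
  have g1 : q0 + q0' + 10 ≤ (q : ℝ) := by
    have h := hY1 X (by omega)
    rw [pow_zero, mul_one, one_mul] at h
    exact h.trans hqL
  have hbq : ∀ s : ℝ, 0 ≤ s → Real.exp (s * L) ≤ (q : ℝ) ^ s := by
    intro s hs
    have h := Real.rpow_le_rpow (Real.exp_pos _).le hqL hs
    rwa [← Real.exp_mul, mul_comm] at h
  have hbQ : ∀ s : ℝ, 0 ≤ s → Real.exp (s * L) ≤ (Q : ℝ) ^ s := by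
    intro s hs
    have h := Real.rpow_le_rpow (Real.exp_pos _).le hQL hs
    rwa [← Real.exp_mul, mul_comm] at h
  have g2 : 5 * Real.log X ≤ (q : ℝ) ^ b := by
    have h := hY2 X (by omega)
    rw [pow_one] at h
    exact h.trans (hbq b hb.le)
  have g3 : 2 ^ (N + 1) * Real.log X ^ K1 ≤ (q : ℝ) ^ η := (hY3 X (by omega)).trans (hbq η hη.le)
  have g4 : 176 * Real.log X ≤ (Q : ℝ) ^ (1 / 10 : ℝ) := by
    have h := hY4 X (by omega)
    rw [pow_one] at h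
    exact h.trans (hbQ _ (by norm_num))
  have g5 : 8 ≤ (Q : ℝ) ^ (e1 / (4 * D)) := by
    have h := hY5 X (by omega)
    rw [pow_zero, mul_one] at h
    exact h.trans (hbQ _ hE.le)
  have hlog2 : 1 + Real.log (2 * ((X + 1 : ℕ) : ℝ)) ≤ (q : ℝ) ^ b := by
    refine le_trans ?_ g2
    have h1 : Real.log (2 * ((X + 1 : ℕ) : ℝ)) ≤ Real.log (4 * X) := by
      apply Real.log_le_log (by positivity)
      push_cast
      linarith
    have h2 : Real.log (4 * X) = Real.log 4 + Real.log X := Real.log_mul (by norm_num) (by linarith)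
    have h3 : Real.log 4 ≤ 3 := by
      have := Real.log_le_sub_one_of_pos (show (0 : ℝ) < 4 by norm_num)
      linarith
    linarith
  have hlog8 : 3 + Real.log (4 * ((2 * X : ℕ) : ℝ)) ≤ 11 * Real.log X := by
    have h1 : (4 * ((2 * X : ℕ) : ℝ)) = 8 * X := by
      push_cast
      ring
    have h2 : Real.log (8 * X) = Real.log 8 + Real.log X := Real.log_mul (by norm_num) (by linarith)
    have h3 : Real.log 8 ≤ 7 := by
      have := Real.log_le_sub_one_of_pos (show (0 : ℝ) < 8 by norm_num)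
      linarith
    rw [h1]
    linarith
  -- moments
  have hXX : (X : ℝ) * Real.log X ^ K1 * 2 ^ (N + 1) ≤ (q : ℝ) ^ η * ((X + 1 : ℕ) : ℝ) := by
    push_cast
    have h1 : (X : ℝ) * (2 ^ (N + 1) * Real.log X ^ K1) ≤ X * (q : ℝ) ^ η := by gcongr
    have h2 : 0 ≤ (q : ℝ) ^ η := by positivity
    nlinarith
  have hXX' : (X : ℝ) * Real.log X ^ K1 ≤ (q : ℝ) ^ η * ((X + 1 : ℕ) : ℝ) := by
    refine le_trans ?_ hXX
    have h1 : (1 : ℝ) ≤ 2 ^ (N + 1) := one_le_pow₀ (by norm_num)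
    have h2 : 0 ≤ (X : ℝ) * Real.log X ^ K1 := by positivity
    nlinarith
  obtain ⟨mL, mW⟩ := hmo X Q (by omega) hQL u3
  obtain ⟨ml, -⟩ := hmo X q (by omega) hqL ((show (q : ℝ) ≤ Q by exact_mod_cast hqQ).trans u3)
  have mL' := mom_sub (by omega : 1 ≤ X) _ _ mL
  have mW' := mom_sub (by omega : 1 ≤ X) _ _ mW
  have ml' := mom_sub (by omega : 1 ≤ X) _ _ ml
  have hms := htr X Q q (by omega) hqQ hqL u2
  have hSy := hD.sys X (by omega)
  have hMM : ∀ (ρ : ℝ) (F : ℕ → ℂ), (∀ T : Finset ℕ, TS X T → MSq (X + 1) ρ F T) → SysM (X + 1) i j (H X) τ ρ F :=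
    fun ρ F h => ⟨fun e he => h _ (hD.ts1 X (by omega) e he), fun e he => h _ (hD.ts2 X (by omega) e he)⟩
  have A1 := hA (q : ℝ) (X + 1) (y + 1) i j (H X) τ (by linarith) (by omega) (by omega) hlog2
    hSy hqH (Wf X Q) (Lm r X Q) (fun n => if n ≤ 1 then (0 : ℂ) else Wf X Q n)
    (hMM _ _ fun T hT => (hms T hT).1) (mW'.trans hXX') (mL'.trans hXX') (by
      refine le_trans (Finset.sum_le_sum fun n _ => ?_) (mW'.trans hXX')
      refine pow_le_pow_left₀ (norm_nonneg _) ?_ N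
      split_ifs
      · rw [norm_zero]
        exact norm_nonneg _
      · exact le_rfl)
  have A2 := hA (q : ℝ) (X + 1) (y + 1) i j (H X) τ (by linarith) (by omega) (by omega) hlog2
    hSy hqH (Lm r X Q) (Lm r X q) (fun n => if n ≤ 1 then (0 : ℂ) else Wf X Q n - Lm r X Q n)
    (hMM _ _ fun T hT => (hms T hT).2) (mL'.trans hXX') (ml'.trans hXX') (by
      refine le_trans (mom_diff (Wf X Q) (Lm r X Q) _ _ (fun n => ?_) mW' mL') (le_trans (le_of_eq ?_) hXX)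
      · split_ifs
        · rw [norm_zero]
          positivity
        · exact norm_sub_le _ _
      · ring)
  -- part (B)
  have hqc : (q : ℝ) ≤ ((2 * X : ℕ) : ℝ) ^ c := by
    refine ((show (q : ℝ) ≤ Q by exact_mod_cast hqQ).trans u4).trans ?_
    refine Real.rpow_le_rpow (by linarith) ?_ hc.le
    push_cast
    linarith
  have hRg : Rg c (2 * X) q := by
    refine ⟨le_trans (Real.exp_le_exp.2 ?_) hqL, hqc⟩
    have h1 : Real.log ((2 * X : ℕ) : ℝ) ≤ (2 * L) ^ 2 := by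
      have h2 : Real.log ((2 * X : ℕ) : ℝ) = Real.log 2 + Real.log X := by
        push_cast
        exact Real.log_mul (by norm_num) (by linarith)
      have h3 : Real.log 2 ≤ 1 := by
        have := Real.log_le_sub_one_of_pos (show (0 : ℝ) < 2 by norm_num)
        linarith
      rw [h2, hLsq]
      nlinarith
    have h4 : Real.sqrt (Real.log ((2 * X : ℕ) : ℝ)) ≤ 2 * L := by
      have h5 := Real.sqrt_le_sqrt h1
      rwa [Real.sqrt_sq (by linarith)] at h5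
    linarith
  obtain ⟨bb, hbb1, hbb2⟩ := hBS (2 * X) q (by omega) hRg
  have hq0'' : q0' ≤ q := by
    have h1 : (q0' : ℝ) ≤ q := by linarith
    exact_mod_cast h1
  set S : ℝ := 2 * (8 * X * (Q : ℝ) ^ (-(2 / 5 : ℝ))) * (3 + Real.log (4 * ((2 * X : ℕ) : ℝ))) with hSdef
  have hl8 : 0 ≤ 3 + Real.log (4 * ((2 * X : ℕ) : ℝ)) := by
    have : 0 ≤ Real.log (4 * ((2 * X : ℕ) : ℝ)) := by
      apply Real.log_nonneg
      push_cast
      linarith
    linarith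
  have hS0 : 0 ≤ S := by positivity
  have hAle : ∀ a : Fin r → ℕ, (∀ e, a e ≤ X) → ‖∑ n ∈ Icc 1 y, (Wf X Q (n + 1) - Lm r X Q (n + 1)) *
      ∏ e, LL (2 * X) q (q ^ (8 * (r + 1))) (n + (1 + a e))‖ ≤ X * (Q : ℝ) ^ (-(1 / 5 : ℝ)) := by
    intro a ha
    have h1 := hZ (2 * X) q hq0'' hq5 bb hbb1 hbb2 (fun n => Wf X Q (n + 1) - Lm r X Q (n + 1)) S y
      (by omega) hS0 (fun y' hy' θ => supF (fun n => Wf X Q n - Lm r X Q n) X (by omega) _
        (hsup X Q (by omega) hQL u1) y' (by omega) θ) (fun e => 1 + a e) (fun e => by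
        have := ha e
        omega)
    refine h1.trans ?_
    have h2 : (q : ℝ) ^ D0 ≤ (Q : ℝ) ^ (1 / 10 : ℝ) := by
      have h3 := pow_le_pow_left₀ hqpos.le hq2 D0
      refine h3.trans ?_
      rw [← Real.rpow_natCast, ← Real.rpow_mul hQpos.le]
      refine Real.rpow_le_rpow_of_exponent_le hQ1' ?_
      rw [one_div, ← div_eq_inv_mul, div_le_iff₀ hDr, hDdef]
      push_cast
      linarith
    have h4 : S ≤ (Q : ℝ) ^ (1 / 10 : ℝ) * (X * (Q : ℝ) ^ (-(2 / 5 : ℝ))) := by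
      have h5 : 16 * (3 + Real.log (4 * ((2 * X : ℕ) : ℝ))) ≤ (Q : ℝ) ^ (1 / 10 : ℝ) := by linarith
      have h6 : 0 ≤ (X : ℝ) * (Q : ℝ) ^ (-(2 / 5 : ℝ)) := by positivity
      calc S = (16 * (3 + Real.log (4 * ((2 * X : ℕ) : ℝ)))) * (X * (Q : ℝ) ^ (-(2 / 5 : ℝ))) := by
            rw [hSdef]
            ring
        _ ≤ _ := mul_le_mul_of_nonneg_right h5 h6
    calc (q : ℝ) ^ D0 * S ≤ (Q : ℝ) ^ (1 / 10 : ℝ) * ((Q : ℝ) ^ (1 / 10 : ℝ) * (X * (Q : ℝ) ^ (-(2 / 5 : ℝ)))) :=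
          mul_le_mul h2 h4 hS0 (by positivity)
      _ = X * ((Q : ℝ) ^ (1 / 10 : ℝ) * (Q : ℝ) ^ (1 / 10 : ℝ) * (Q : ℝ) ^ (-(2 / 5 : ℝ))) := by ring
      _ = X * (Q : ℝ) ^ (-(1 / 5 : ℝ)) := by
          rw [← Real.rpow_add hQpos, ← Real.rpow_add hQpos]
          norm_num
  -- the exceptional set
  have hqe : (q : ℝ) ^ (-e1) ≤ (Q : ℝ) ^ (-(e1 / (4 * D))) * (Q : ℝ) ^ (-(e1 / (4 * D))) := by
    have h1 : (q : ℝ) ^ (-e1) ≤ ((Q : ℝ) ^ (1 / (2 * D : ℝ))) ^ (-e1) :=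
      Real.rpow_le_rpow_of_nonpos (by positivity) hq3 (by linarith)
    refine h1.trans (le_of_eq ?_)
    rw [← Real.rpow_mul hQpos.le, ← Real.rpow_add hQpos]
    congr 1
    field_simp
    ring
  set w : ℝ := (Q : ℝ) ^ (-(e1 / (4 * D))) with hw
  have hw0 : 0 < w := by positivity
  have hw8 : 8 * w ≤ 1 := by
    have h1 : w * (Q : ℝ) ^ (e1 / (4 * D)) = 1 := by
      rw [hw, ← Real.rpow_add hQpos]
      norm_num
    nlinarith
  have hcard : ((∏ k, (H X k : ℝ)) : ℝ) = (Bg H X).card := by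
    unfold Bg
    rw [Fintype.card_piFinset]
    push_cast
    refine Finset.prod_congr rfl fun k _ => ?_
    rw [Nat.card_Icc]
    simp
  rw [hcard] at A1 A2
  set E1 := (Fintype.piFinset (fun k => Icc 1 (H X k))).filter (fun t => ((X + 1 : ℕ) : ℝ) * (q : ℝ) ^ (-e1) <
      ‖∑ n ∈ Icc 1 (y + 1), (fun n => if n ≤ 1 then (0 : ℂ) else Wf X Q n) n *
        (∏ e, Wf X Q (n + sf i j τ t e) - ∏ e, Lm r X Q (n + sf i j τ t e))‖) with hE1
  set E2 := (Fintype.piFinset (fun k => Icc 1 (H X k))).filter (fun t => ((X + 1 : ℕ) : ℝ) * (q : ℝ) ^ (-e1) <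
      ‖∑ n ∈ Icc 1 (y + 1), (fun n => if n ≤ 1 then (0 : ℂ) else Wf X Q n - Lm r X Q n) n *
        (∏ e, Lm r X Q (n + sf i j τ t e) - ∏ e, Lm r X q (n + sf i j τ t e))‖) with hE2
  have hsub : (Bg H X).filter (fun t => X * (Q : ℝ) ^ (-(min (e1 / (4 * D)) (1 / 10))) <
      ‖dev r X Q (sf i j τ t) y‖) ⊆ E1 ∪ E2 := by
    intro t ht
    rw [mem_filter] at ht
    obtain ⟨ht1, ht2⟩ := ht
    by_contra hcon
    rw [mem_union, not_or] at hcon
    obtain ⟨n1, n2⟩ := hcon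
    rw [hE1, mem_filter, not_and, not_lt] at n1
    rw [hE2, mem_filter, not_and, not_lt] at n2
    have d1 := n1 ht1
    have d2 := n2 ht1
    have d3 := hAle (sf i j τ t) (hD.le X t ht1)
    have d4 : ‖dev r X Q (sf i j τ t) y‖ ≤ ((X + 1 : ℕ) : ℝ) * (q : ℝ) ^ (-e1) +
        ((X + 1 : ℕ) : ℝ) * (q : ℝ) ^ (-e1) + X * (Q : ℝ) ^ (-(1 / 5 : ℝ)) := by
      rw [dev_eq r X Q q]
      refine (norm_add_le _ _).trans (add_le_add ((norm_add_le _ _).trans (add_le_add d1 d2)) d3)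
    have hW : w ≤ (Q : ℝ) ^ (-(min (e1 / (4 * D)) (1 / 10))) := by
      rw [hw]
      refine Real.rpow_le_rpow_of_exponent_le hQ1' ?_
      have := min_le_left (e1 / (4 * D)) (1 / 10)
      linarith
    have hV : (Q : ℝ) ^ (-(1 / 5 : ℝ)) ≤ 1 / 2 * (Q : ℝ) ^ (-(min (e1 / (4 * D)) (1 / 10))) := by
      have h1 : (Q : ℝ) ^ (-(1 / 10 : ℝ)) ≤ (Q : ℝ) ^ (-(min (e1 / (4 * D)) (1 / 10))) := by
        refine Real.rpow_le_rpow_of_exponent_le hQ1' ?_
        have := min_le_right (e1 / (4 * D)) (1 / 10)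
        linarith
      have h2 : (Q : ℝ) ^ (-(1 / 5 : ℝ)) * (Q : ℝ) ^ (1 / 10 : ℝ) = (Q : ℝ) ^ (-(1 / 10 : ℝ)) := by
        rw [← Real.rpow_add hQpos]
        norm_num
      have h3 : 2 ≤ (Q : ℝ) ^ (1 / 10 : ℝ) := by linarith
      have h4 : 0 < (Q : ℝ) ^ (-(1 / 5 : ℝ)) := by positivity
      nlinarith
    have hfin : ((X + 1 : ℕ) : ℝ) * (q : ℝ) ^ (-e1) + ((X + 1 : ℕ) : ℝ) * (q : ℝ) ^ (-e1) ≤
        X * (1 / 2 * w) := by
      push_cast
      have h1 : (q : ℝ) ^ (-e1) ≤ w * (1 / 8) := hqe.trans (by nlinarith)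
      have h2 : ((X : ℝ) + 1) * (q : ℝ) ^ (-e1) ≤ (2 * X) * (w * (1 / 8)) := by
        apply mul_le_mul (by linarith) h1 (by positivity) (by positivity)
      linarith
    have hfin2 : X * (1 / 2 * w) ≤ X * (1 / 2 * (Q : ℝ) ^ (-(min (e1 / (4 * D)) (1 / 10)))) := by gcongr
    have hfin3 : (X : ℝ) * (Q : ℝ) ^ (-(1 / 5 : ℝ)) ≤ X * (1 / 2 * (Q : ℝ) ^ (-(min (e1 / (4 * D)) (1 / 10)))) := by
      gcongr
    linarith
  have hc1' : ((E1 ∪ E2).card : ℝ) ≤ E1.card + E2.card := by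
    exact_mod_cast Finset.card_union_le E1 E2
  have hc2' : (((Bg H X).filter (fun t => X * (Q : ℝ) ^ (-(min (e1 / (4 * D)) (1 / 10))) <
      ‖dev r X Q (sf i j τ t) y‖)).card : ℝ) ≤ (E1 ∪ E2).card := by
    exact_mod_cast Finset.card_le_card hsub
  have hqw : (q : ℝ) ^ (-e1) ≤ 1 / 2 * w := hqe.trans (by nlinarith)
  have hB0 : (0 : ℝ) ≤ (Bg H X).card := Nat.cast_nonneg _
  calc _ ≤ _ := hc2'
    _ ≤ _ := hc1'
    _ ≤ (Bg H X).card * (q : ℝ) ^ (-e1) + (Bg H X).card * (q : ℝ) ^ (-e1) := add_le_add A1 A2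
    _ ≤ (Bg H X).card * (1 / 2 * w) + (Bg H X).card * (1 / 2 * w) :=
      add_le_add (mul_le_mul_of_nonneg_left hqw hB0) (mul_le_mul_of_nonneg_left hqw hB0)
    _ = _ := by ring


theorem famG {m r : ℕ} (hr : 1 ≤ r) (i j : Fin r → Fin m) (H : ℕ → Fin m → ℕ) (τ : Fin r → ℕ → ℕ) (N0 κ : ℝ) (Z : ℕ)
    (hD : BoxD i j H τ N0 κ Z) (B c : ℝ) (hc : 0 < c)
    (hB : BS B c) : ∃ e e' c' K : ℝ, Fam r (Bg H) (sf i j τ) N0 e e' c' K := by
  classical
  obtain ⟨e1, e1', c1, K1, he1, he1h, he1', hc1, hK1, X1, hT⟩ := transG hr i j H τ N0 κ Z hD B c hc hB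
  obtain ⟨K2, c2, hc2, X2, hM⟩ := lm_wf r (2 * (r + 1)) B c hc hB
  set f : ℝ := min e1 e1' / 2 with hf
  have hf0 : 0 < f := by
    have := lt_min he1 he1'
    linarith
  have hfe : 2 * f ≤ e1 := by
    have := min_le_left e1 e1'
    linarith
  have hfe' : 2 * f ≤ e1' := by
    have := min_le_right e1 e1'
    linarith
  have hf4 : f ≤ 1 / 4 := by linarith
  obtain ⟨Y1, hY1⟩ := ev (32 * ((r : ℝ) + 1)) (f / 2) K2 (by positivity)
  obtain ⟨Y2, hY2⟩ := ev 3 (f / 4) 0 (by positivity)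
  refine ⟨f / 4, f / 4, min (min c1 c2) 1, max K1 1, ?_, by positivity, by linarith, by positivity,
    lt_min (lt_min hc1 hc2) one_pos, lt_of_lt_of_le hK1 (le_max_left _ _),
    X1 + X2 + Y1 + Y2 + 3, fun X Q hX hQ1 hQ2 => ?_⟩
  · intro X t ht
    unfold Tup
    rw [Fintype.mem_piFinset]
    intro e
    rw [mem_range]
    have := hD.le X t ht e
    omega
  have hX1 : 1 ≤ X := by omega
  have hXr : (1 : ℝ) ≤ X := by exact_mod_cast hX1
  have hX0 : (0 : ℝ) < X := by linarith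
  set L : ℝ := Real.sqrt (Real.log X) with hL
  have hL0 : 0 ≤ L := Real.sqrt_nonneg _
  have hQL : Real.exp L ≤ Q := by
    refine le_trans (Real.exp_le_exp.2 ?_) hQ1
    nlinarith [le_max_right K1 1]
  have hQK : Real.exp (K1 * L) ≤ Q := by
    refine le_trans (Real.exp_le_exp.2 ?_) hQ1
    exact mul_le_mul_of_nonneg_right (le_max_left _ _) hL0
  have hQr : (1 : ℝ) ≤ Q := (Real.one_le_exp hL0).trans hQL
  have hQ0 : (0 : ℝ) < Q := by linarith
  have hQc1 : (Q : ℝ) ≤ (X : ℝ) ^ c1 := hQ2.trans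
    (Real.rpow_le_rpow_of_exponent_le hXr ((min_le_left _ _).trans (min_le_left _ _)))
  have hQc2 : (Q : ℝ) ≤ (X : ℝ) ^ c2 := hQ2.trans
    (Real.rpow_le_rpow_of_exponent_le hXr ((min_le_left _ _).trans (min_le_right _ _)))
  have hQX : (Q : ℝ) ≤ X := by
    have h := hQ2.trans (Real.rpow_le_rpow_of_exponent_le hXr (min_le_right _ _))
    rwa [Real.rpow_one] at h
  obtain ⟨mL, mW⟩ := hM X Q (by omega) hQL hQc2
  -- growth
  have hbQ : ∀ s : ℝ, 0 ≤ s → Real.exp (s * L) ≤ (Q : ℝ) ^ s := by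
    intro s hs
    have h := Real.rpow_le_rpow (Real.exp_pos _).le hQL hs
    rwa [← Real.exp_mul, mul_comm] at h
  have g1 : 32 * ((r : ℝ) + 1) * Real.log X ^ K2 ≤ (Q : ℝ) ^ (f / 2) :=
    (hY1 X (by omega)).trans (hbQ _ (by positivity))
  have g2 : 3 ≤ (Q : ℝ) ^ (f / 4) := by
    have h := hY2 X (by omega)
    rw [pow_zero, mul_one] at h
    exact h.trans (hbQ _ (by positivity))
  set w : ℝ := (Q : ℝ) ^ (-(f / 4)) with hw
  have hw0 : 0 < w := by positivity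
  have hw1 : w * (Q : ℝ) ^ (f / 4) = 1 := by
    rw [hw, ← Real.rpow_add hQ0]
    norm_num
  have hw3 : 3 * w ≤ 1 := by nlinarith
  have hpow : ∀ n : ℕ, (Q : ℝ) ^ (-((n : ℝ) * (f / 4))) = w ^ n := by
    intro n
    rw [hw, ← Real.rpow_natCast, ← Real.rpow_mul hQ0.le]
    congr 1
    ring
  -- the grid
  set G : ℕ := ⌈(Q : ℝ) ^ f⌉₊ with hG
  have hQf : (1 : ℝ) ≤ (Q : ℝ) ^ f := Real.one_le_rpow hQr hf0.le
  have hG1 : 1 ≤ G := Nat.one_le_iff_ne_zero.2 (Nat.pos_iff_ne_zero.1 (Nat.ceil_pos.2 (by linarith)))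
  have hGl : (Q : ℝ) ^ f ≤ G := Nat.le_ceil _
  have hGu : (G : ℝ) ≤ (Q : ℝ) ^ f + 1 := (Nat.ceil_lt_add_one (by linarith)).le
  have hfw : (Q : ℝ) ^ f * w ^ 4 = 1 := by
    rw [← hpow 4, ← Real.rpow_add hQ0]
    push_cast
    rw [show f + -(4 * (f / 4)) = 0 by ring, Real.rpow_zero]
  have hQfX : (Q : ℝ) ^ f ≤ X := by
    have h : (Q : ℝ) ^ f ≤ (Q : ℝ) ^ (1 : ℝ) := Real.rpow_le_rpow_of_exponent_le hQr (by linarith)
    rw [Real.rpow_one] at h
    exact h.trans hQX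
  refine ⟨(range (G + 1)).biUnion (fun l => (Bg H X).filter (fun t => X * (Q : ℝ) ^ (-e1) <
    ‖dev r X Q (sf i j τ t) (l * X / G)‖)), ?_, ?_⟩
  · have h1 : ∀ l ∈ range (G + 1), (((Bg H X).filter (fun t => X * (Q : ℝ) ^ (-e1) <
        ‖dev r X Q (sf i j τ t) (l * X / G)‖)).card : ℝ) ≤ (X : ℝ) ^ N0 * w ^ 8 := by
      intro l hl
      have hlG : l ≤ G := by
        rw [mem_range] at hl
        omega
      have hy : l * X / G ≤ X := by
        refine (Nat.div_le_div_right (Nat.mul_le_mul_right X hlG)).trans ?_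
        rw [Nat.mul_div_cancel_left _ hG1]
      refine (hT X Q (by omega) hQK hQc1 _ hy).trans ?_
      refine mul_le_mul (hD.card X hX1) ?_ (by positivity) (by positivity)
      rw [← hpow 8]
      refine Real.rpow_le_rpow_of_exponent_le hQr ?_
      push_cast
      linarith
    have h2 : (((range (G + 1)).biUnion (fun l => (Bg H X).filter (fun t => X * (Q : ℝ) ^ (-e1) <
        ‖dev r X Q (sf i j τ t) (l * X / G)‖))).card : ℝ) ≤ ∑ l ∈ range (G + 1),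
        (((Bg H X).filter (fun t => X * (Q : ℝ) ^ (-e1) <
        ‖dev r X Q (sf i j τ t) (l * X / G)‖)).card : ℝ) := by
      exact_mod_cast card_biUnion_le
    refine h2.trans ((sum_le_sum h1).trans ?_)
    rw [sum_const, card_range, nsmul_eq_mul]
    push_cast
    have h3 : ((G : ℝ) + 1) ≤ 3 * (Q : ℝ) ^ f := by linarith
    have h4 : 0 ≤ (X : ℝ) ^ N0 := by positivity
    calc ((G : ℝ) + 1) * ((X : ℝ) ^ N0 * w ^ 8) ≤ (3 * (Q : ℝ) ^ f) * ((X : ℝ) ^ N0 * w ^ 8) :=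
          mul_le_mul_of_nonneg_right h3 (by positivity)
      _ = (X : ℝ) ^ N0 * (3 * w ^ 4) * ((Q : ℝ) ^ f * w ^ 4) := by ring
      _ = (X : ℝ) ^ N0 * (3 * w ^ 4) := by rw [hfw, mul_one]
      _ ≤ (X : ℝ) ^ N0 * w := by
          refine mul_le_mul_of_nonneg_left ?_ h4
          have h5 : w ≤ 1 := by linarith
          have h6 : w ^ 3 ≤ w := by
            calc w ^ 3 ≤ w ^ 1 := pow_le_pow_of_le_one hw0.le h5 (by norm_num)
              _ = w := pow_one w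
          have h7 : 3 * w ^ 4 = w * (3 * w ^ 3) := by ring
          rw [h7]
          nlinarith
  · intro t ht hnt y hy
    rw [mem_biUnion] at hnt
    push Not at hnt
    obtain ⟨l, hlG, hl1, hl2⟩ := grid X G y hX1 hG1 hy
    have h1 := hnt l (by
      rw [mem_range]
      omega)
    rw [mem_filter, not_and, not_lt] at h1
    have h2 := h1 ht
    have h3 : (X : ℝ) * (Q : ℝ) ^ (-e1) ≤ X * (1 / 3 * w) := by
      refine mul_le_mul_of_nonneg_left ?_ hX0.le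
      calc (Q : ℝ) ^ (-e1) ≤ (Q : ℝ) ^ (-(((2 : ℕ) : ℝ) * (f / 4))) := by
            refine Real.rpow_le_rpow_of_exponent_le hQr ?_
            push_cast
            linarith
        _ = w ^ 2 := hpow 2
        _ ≤ 1 / 3 * w := by nlinarith
    have h4 : (y : ℝ) - ((l * X / G : ℕ) : ℝ) ≤ 2 * (X * w ^ 4) := by
      refine hl2.trans ?_
      have e1 : (X : ℝ) / G ≤ X * w ^ 4 := by
        rw [div_le_iff₀ (lt_of_lt_of_le (by linarith) hGl)]
        have e2 : X * w ^ 4 * (Q : ℝ) ^ f ≤ X * w ^ 4 * G :=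
          mul_le_mul_of_nonneg_left hGl (by positivity)
        have e3 : (X : ℝ) * w ^ 4 * (Q : ℝ) ^ f = X := by
          have e5 : (X : ℝ) * w ^ 4 * (Q : ℝ) ^ f = (X : ℝ) * ((Q : ℝ) ^ f * w ^ 4) := by ring
          rw [e5, hfw, mul_one]
        linarith
      have e4 : (1 : ℝ) ≤ X * w ^ 4 := by
        rw [← hfw]
        exact mul_le_mul_of_nonneg_right hQfX (by positivity)
      linarith
    have h5 := gap X Q hX1 _ mL mW (sf i j τ t) (hD.le X t ht) (l * X / G) y hl1 hy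
      (X * (1 / 4 * w)) (by positivity) (by
        have hR : (0 : ℝ) ≤ ((r : ℝ) + 1) * (X * Real.log X ^ K2) := by
          have := Real.log_nonneg hXr
          positivity
        refine (mul_le_mul_of_nonneg_right h4 hR).trans ?_
        have e5 : (Q : ℝ) ^ (f / 2) * w ^ 2 = 1 := by
          rw [← hpow 2, ← Real.rpow_add hQ0]
          push_cast
          rw [show f / 2 + -(2 * (f / 4)) = 0 by ring, Real.rpow_zero]
        calc 2 * (X * w ^ 4) * (((r : ℝ) + 1) * (X * Real.log X ^ K2)) =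
              (X ^ 2 * w ^ 4 / 16) * (32 * ((r : ℝ) + 1) * Real.log X ^ K2) := by ring
          _ ≤ (X ^ 2 * w ^ 4 / 16) * (Q : ℝ) ^ (f / 2) := mul_le_mul_of_nonneg_left g1 (by positivity)
          _ = (X ^ 2 * w ^ 2 / 16) * ((Q : ℝ) ^ (f / 2) * w ^ 2) := by ring
          _ = (X * (1 / 4 * w)) ^ 2 := by
              rw [e5]
              ring)
    refine h5.trans ?_
    have h6 : 0 < X * w := by positivity
    linarith

end Pool.Agent.DSH
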