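import Pool.Agent.Lib.DSH.TrMs
import Pool.Agent.Lib.DSH.PartA
import Pool.Agent.Lib.DSH.SlotZ
import Pool.Agent.Lib.DSH.Cut

/-!
# DSH.TransY (2 h): primes and model for almost all parameters, one `y`

PROOF. `x = X + 1`. Let `D0, q0'` from `slotZ r B` and `b, η, e1, N, q0` from `partA m r`; `D = 10 D0 + 10`, `q = ⌊Q^(1/D)⌋₊`, `K = 4 D`: then `exp(2 √(log X)) ≤ q`, `Q^(1/(2D)) ≤ q ≤ Q^(1/D)`. With `c0 a i ≤ X`,
`dev r X Q a y = ∑_{n ∈ Icc 1 y} (Wf(n+1) ∏_e Wf(n+1+a e) - Lm(n+1) ∏_e Lm(n+1+a e))` (`Fin.prod_univ_succ`) `= (A) + (C) + (B)`, `a = sft i j lg t`: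
(A) `∑ Wf_Q(n+1) (∏ Wf_Q(n+1+a e) - ∏ Lm_Q(n+1+a e))`, (C) `∑ (Wf_Q - Lm_Q)(n+1) (∏ Lm_Q(n+1+a e) - ∏ Lm_q(n+1+a e))`, (B) `∑ (Wf_Q - Lm_Q)(n+1) ∏ Lm_q(n+1+a e)`.
(A), (C): `n' = n + 1 ∈ Icc 2 (y+1) ⊆ Icc 1 x`: `partA` with `x = X+1`, `y+1` and the weight `w n' = 0` for `n' = 1`, `Wf_Q n'` or `(Wf_Q - Lm_Q) n'` for `n' ≥ 2`; the moments by `lm_wf` at `Q` and at `q` (`‖Wf - Lm‖^N ≤ 2^N (‖Wf‖^N + ‖Lm‖^N)`);
`SysM` from `trMs`: product slots have `H_i H_j = (√X)² ≤ X + 1 ≤ 8 (√X)²`, long single slots `Icc 1 X`, short ones the squares; `Sys` and `q ≤ H k` are easy (`q ≤ X^(1/4)`).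
(B): `slotZ` at `Z = 2X` (`b` from `BS` at `q`; `Lm r X q = LL (2X) q (q^(8(r+1)))`, `h i = 1 + a i ≤ X + 1`) with `F n = (Wf_Q - Lm_Q)(n+1)`: by `supW` and `cut` (`∑_{n ∈ Icc 1 y'} F n ex(nθ) = ex(-θ) ∑_{n' ∈ Icc 2 (y'+1)}`, a difference of two `range` sums)
`S = 16 X Q^(-2/5) (3 + log (8X))`, so `(B) ≤ q^D0 S ≤ Q^(1/10) S ≤ X Q^(-1/5)` for `X ≥ X0`. The exceptional set is the union of the two from `partA`: `≤ 2 ∏ H q^(-e1) ≤ 2 |Bx| Q^(-e1/(2D))`;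
outside it `‖dev‖ ≤ 2 (X+1) q^(-e1) + X Q^(-1/5) ≤ X Q^(-e)`, `e = e1/(4D)` (and `≤ 1/2`), `e' = e1/(4D)`.
-/

set_option autoImplicit false

open Finset Filter

namespace Pool.Agent.DSH

open Pool.Agent.HLB Pool.Agent.HLT Pool.Agent.HLR Pool.Agent.Lib.GMV Pool.Agent.BLF

namespace TransYAux

lemma shift (g : ℕ → ℂ) (y : ℕ) : ∑ n ∈ Icc 1 (y + 1), g n = g 1 + ∑ n ∈ Icc 1 y, g (n + 1) := by
  induction y with
  | zero => simp
  | succ y ih =>
    rw [Finset.sum_Icc_succ_top (by omega), ih, Finset.sum_Icc_succ_top (by omega : 1 ≤ y + 1),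
      add_assoc]

lemma shift2 (g : ℕ → ℂ) (y : ℕ) :
    ∑ n ∈ Icc 1 y, g (n + 1) = ∑ n ∈ range (y + 2), g n - ∑ n ∈ range 2, g n := by
  induction y with
  | zero => simp
  | succ y ih =>
    rw [Finset.sum_Icc_succ_top (by omega : 1 ≤ y + 1), ih,
      show y + 1 + 2 = (y + 2) + 1 by ring, Finset.sum_range_succ _ (y + 2)]
    ring

/-- Powers of `log X` against `exp (b √(log X))`. -/
lemma ev (A b : ℝ) (n : ℕ) (hb : 0 < b) : ∃ X0 : ℕ, ∀ X : ℕ, X0 ≤ X →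
    A * Real.log X ^ n ≤ Real.exp (b * Real.sqrt (Real.log X)) := by
  have h1 : Tendsto (fun X : ℕ => Real.sqrt (Real.log X)) atTop atTop :=
    Real.tendsto_sqrt_atTop.comp (Real.tendsto_log_atTop.comp tendsto_natCast_atTop_atTop)
  have h2 := (isLittleO_pow_exp_pos_mul_atTop (k := 2 * n) hb).bound
    (show (0 : ℝ) < 1 / (|A| + 1) by positivity)
  obtain ⟨X0, hX0⟩ := Filter.eventually_atTop.mp (h1.eventually h2)
  refine ⟨max X0 1, fun X hX => ?_⟩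
  have h3 := hX0 X ((le_max_left _ _).trans hX)
  have hX1 : (1 : ℝ) ≤ X := by exact_mod_cast (le_max_right _ _).trans hX
  have hl : 0 ≤ Real.log X := Real.log_nonneg hX1
  rw [pow_mul, Real.sq_sqrt hl, Real.norm_of_nonneg (by positivity),
    Real.norm_of_nonneg (by positivity)] at h3
  calc A * Real.log X ^ n ≤ (|A| + 1) * Real.log X ^ n := by
        gcongr
        linarith [le_abs_self A]
    _ ≤ (|A| + 1) * (1 / (|A| + 1) * Real.exp (b * Real.sqrt (Real.log X))) := by gcongr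
    _ = _ := by field_simp

/-- The part with a Fourier small first factor. -/
lemma supF (G : ℕ → ℂ) (X : ℕ) (hX : 1 ≤ X) (A : ℝ) (hA : ∀ t, ‖ft (4 * (2 * X)) G t‖ ≤ A) (y : ℕ)
    (hy : y ≤ X) (θ : ℝ) :
    ‖∑ n ∈ Icc 1 y, G (n + 1) * ex (n * θ)‖ ≤ 2 * A * (3 + Real.log (4 * ((2 * X : ℕ) : ℝ))) := by
  have h1 : ∑ n ∈ Icc 1 y, G (n + 1) * ex (n * θ) =
      ex (-θ) * ∑ n ∈ Icc 1 y, (fun k : ℕ => G k * ex (k * θ)) (n + 1) := by
    rw [Finset.mul_sum]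
    refine Finset.sum_congr rfl fun n _ => ?_
    have h2 : ex (n * θ) = ex (-θ) * ex (((n + 1 : ℕ) : ℝ) * θ) := by
      rw [← ex_add]
      congr 1
      push_cast
      ring
    simp only
    rw [h2]
    ring
  rw [h1, norm_mul, norm_ex, one_mul, shift2 (fun k : ℕ => G k * ex (k * θ)) y]
  have h3 := cut (2 * X) (by omega) G A hA (y + 2) (by omega) θ
  have h4 := cut (2 * X) (by omega) G A hA 2 (by omega) θ
  calc _ ≤ _ := norm_sub_le _ _
    _ ≤ _ := add_le_add h3 h4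
    _ = _ := by ring

lemma sys {m r : ℕ} (i j : Fin r → Fin m) (lg : Fin m → Bool) (hS : Slt i j lg) (X : ℕ) :
    Sys (X + 1) i j (HH lg X) (tau lg i) where
  ord := hS.ord
  inj := hS.inj
  edge := by
    intro e he
    obtain ⟨h1, h2⟩ := hS.short e he
    unfold HH
    rw [h1, h2]
    have := Nat.sqrt_le X
    simp only [Bool.false_eq_true, if_false]
    omega
  single := by
    intro e _
    unfold HH tau
    by_cases h : lg (i e) = true
    · simp only [h, if_true]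
      refine ⟨fun a _ b _ hab => hab, fun t ht => ?_⟩
      rw [mem_Icc] at ht
      omega
    · simp only [Bool.not_eq_true] at h
      simp only [h, Bool.false_eq_true, if_false]
      refine ⟨fun a _ b _ hab => ?_, fun t ht => ?_⟩
      · exact Nat.pow_left_injective (n := 2) (by norm_num) hab
      · rw [mem_Icc] at ht
        have h1 : t ^ 2 ≤ Nat.sqrt X ^ 2 := Nat.pow_le_pow_left ht.2 2
        have h2 := Nat.sqrt_le X
        rw [sq (Nat.sqrt X)] at h1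
        omega

lemma sysM {m r : ℕ} (i j : Fin r → Fin m) (lg : Fin m → Bool) (hS : Slt i j lg) (X : ℕ) (hX : 1 ≤ X)
    (ρ : ℝ) (F : ℕ → ℂ) (h : ∀ T : Finset ℕ, TS X T → MSq (X + 1) ρ F T) :
    SysM (X + 1) i j (HH lg X) (tau lg i) ρ F := by
  refine ⟨fun e he => h _ (Or.inl ?_), fun e _ => h _ ?_⟩
  · obtain ⟨h1, h2⟩ := hS.short e he
    refine ⟨Nat.sqrt X * Nat.sqrt X, ?_, ?_, ?_⟩
    · have := Nat.sqrt_le X
      omega
    · have h3 := Nat.sqrt_le_add X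
      have h4 : 1 ≤ Nat.sqrt X := Nat.le_sqrt.2 (by omega)
      have h5 : Nat.sqrt X ≤ Nat.sqrt X * Nat.sqrt X := Nat.le_mul_of_pos_left _ h4
      omega
    · unfold HH
      rw [h1, h2]
      simp only [Bool.false_eq_true, if_false]
  · unfold HH tau
    by_cases hl : lg (i e) = true
    · simp only [hl, if_true]
      left
      refine ⟨X, by omega, by omega, ?_⟩
      exact Finset.image_id
    · simp only [Bool.not_eq_true] at hl
      simp only [hl, Bool.false_eq_true, if_false]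
      right
      rfl

/-- The identity for the products. -/
lemma dev_eq (r X Q q : ℕ) (a : Fin r → ℕ) (y : ℕ) : dev r X Q a y =
    ∑ n ∈ Icc 1 (y + 1), (if n ≤ 1 then (0 : ℂ) else Wf X Q n) *
      (∏ e, Wf X Q (n + a e) - ∏ e, Lm r X Q (n + a e)) +
    ∑ n ∈ Icc 1 (y + 1), (if n ≤ 1 then (0 : ℂ) else Wf X Q n - Lm r X Q n) *
      (∏ e, Lm r X Q (n + a e) - ∏ e, Lm r X q (n + a e)) +
    ∑ n ∈ Icc 1 y, (Wf X Q (n + 1) - Lm r X Q (n + 1)) * ∏ e, LL (2 * X) q (q ^ (8 * (r + 1))) (n + (1 + a e)) := by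
  rw [shift, shift]
  simp only [le_refl, if_true, zero_mul, zero_add]
  rw [← Finset.sum_add_distrib, ← Finset.sum_add_distrib]
  unfold dev
  refine Finset.sum_congr rfl fun n hn => ?_
  have hn1 : ¬ n + 1 ≤ 1 := by
    have := (mem_Icc.1 hn).1
    omega
  rw [if_neg hn1, if_neg hn1, Fin.prod_univ_succ, Fin.prod_univ_succ]
  have h0 : c0 a 0 = 0 := rfl
  have h1 : ∀ e : Fin r, c0 a e.succ = a e := fun e => rfl
  simp only [h0, h1, add_zero]
  have h2 : ∀ e : Fin r, n + (1 + a e) = n + 1 + a e := fun e => by ring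
  simp only [h2]
  have h3 : ∀ k, LL (2 * X) q (q ^ (8 * (r + 1))) k = Lm r X q k := fun k => rfl
  simp only [h3]
  ring

/-- The facts about the smaller parameter. -/
lemma qfacts (D : ℕ) (hD : 1 ≤ D) (L Qr : ℝ) (hL : 1 ≤ L) (hQ : Real.exp (4 * D * L) ≤ Qr) :
    Real.exp (2 * L) ≤ (⌊Qr ^ (1 / (D : ℝ))⌋₊ : ℝ) ∧ (⌊Qr ^ (1 / (D : ℝ))⌋₊ : ℝ) ≤ Qr ^ (1 / (D : ℝ)) ∧
      Qr ^ (1 / (2 * D : ℝ)) ≤ (⌊Qr ^ (1 / (D : ℝ))⌋₊ : ℝ) := by
  have hD0 : (0 : ℝ) < D := by exact_mod_cast hD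
  have hQ0 : 0 < Qr := lt_of_lt_of_le (Real.exp_pos _) hQ
  have h1 : Real.exp (2 * L) ≤ Qr ^ (1 / (2 * D : ℝ)) := by
    have h := Real.rpow_le_rpow (Real.exp_pos _).le hQ (show (0 : ℝ) ≤ 1 / (2 * D) by positivity)
    rw [← Real.exp_mul] at h
    refine le_trans (le_of_eq ?_) h
    congr 1
    field_simp
    ring
  have h2 : Qr ^ (1 / (D : ℝ)) = Qr ^ (1 / (2 * D : ℝ)) * Qr ^ (1 / (2 * D : ℝ)) := by
    rw [← Real.rpow_add hQ0]
    congr 1
    field_simp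
    norm_num
  have h3 : (3 : ℝ) ≤ Real.exp (2 * L) := by
    have := Real.add_one_le_exp (2 * L)
    linarith
  have h4 := Nat.lt_floor_add_one (Qr ^ (1 / (D : ℝ)))
  have h5 : Qr ^ (1 / (2 * D : ℝ)) ≤ (⌊Qr ^ (1 / (D : ℝ))⌋₊ : ℝ) := by
    nlinarith
  exact ⟨h1.trans h5, Nat.floor_le (by positivity), h5⟩

lemma mom_sub {N : ℕ} {X : ℕ} (hX : 1 ≤ X) (f : ℕ → ℂ) (R : ℝ)
    (h : ∑ m ∈ range (4 * (2 * X)), ‖f m‖ ^ N ≤ R) : ∑ m ∈ Icc 1 (2 * (X + 1)), ‖f m‖ ^ N ≤ R := by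
  refine le_trans (Finset.sum_le_sum_of_subset_of_nonneg ?_ fun _ _ _ => by positivity) h
  intro m hm
  rw [mem_Icc] at hm
  rw [mem_range]
  omega

lemma mom_diff {N : ℕ} {s : Finset ℕ} (f g w : ℕ → ℂ) (R : ℝ) (hw : ∀ n, ‖w n‖ ≤ ‖f n‖ + ‖g n‖)
    (hf : ∑ m ∈ s, ‖f m‖ ^ N ≤ R) (hg : ∑ m ∈ s, ‖g m‖ ^ N ≤ R) :
    ∑ m ∈ s, ‖w m‖ ^ N ≤ 2 ^ (N + 1) * R := by
  have h1 : ∀ m ∈ s, ‖w m‖ ^ N ≤ 2 ^ N * (‖f m‖ ^ N + ‖g m‖ ^ N) := by
    intro m _
    refine (pow_le_pow_left₀ (norm_nonneg _) (hw m) N).trans ?_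
    refine (add_pow_le (norm_nonneg _) (norm_nonneg _) N).trans ?_
    refine mul_le_mul_of_nonneg_right ?_ (by positivity)
    exact pow_le_pow_right₀ (by norm_num) (Nat.sub_le _ _)
  calc _ ≤ _ := Finset.sum_le_sum h1
    _ = 2 ^ N * (∑ m ∈ s, ‖f m‖ ^ N + ∑ m ∈ s, ‖g m‖ ^ N) := by
      rw [← Finset.mul_sum, Finset.sum_add_distrib]
    _ ≤ 2 ^ N * (R + R) := by gcongr
    _ = _ := by ring

end TransYAux

open TransYAux

open scoped Classical in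
theorem transY {m r : ℕ} (hr : 1 ≤ r) (i j : Fin r → Fin m) (lg : Fin m → Bool) (hS : Slt i j lg) (B c : ℝ) (hc : 0 < c)
    (hB : BS B c) : ∃ e e' c' K : ℝ, 0 < e ∧ e ≤ 1 / 2 ∧ 0 < e' ∧ 0 < c' ∧ 0 < K ∧ ∃ X0 : ℕ, ∀ X Q : ℕ, X0 ≤ X →
    Real.exp (K * Real.sqrt (Real.log X)) ≤ Q → (Q : ℝ) ≤ (X : ℝ) ^ c' → ∀ y ≤ X,
    (((Bx lg X).filter (fun t => X * (Q : ℝ) ^ (-e) < ‖dev r X Q (sft i j lg t) y‖)).card : ℝ) ≤
      (Bx lg X).card * (Q : ℝ) ^ (-e') := by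
  obtain ⟨D0, q0', hZ⟩ := slotZ r B
  obtain ⟨b, η, e1, N, q0, hb, hη, he1, hq0, hA⟩ := partA m r
  obtain ⟨c1, hc1, X1, hsup⟩ := supW r B c hc hB
  obtain ⟨c2, hc2, X2, htr⟩ := trMs r B c hc hB
  obtain ⟨K1, c3, hc3, X3, hmo⟩ := lm_wf r N B c hc hB
  obtain ⟨X4, hBS⟩ := hB
  set D : ℕ := 10 * D0 + 10 with hDdef
  have hD1 : 1 ≤ D := by omega
  have hDr : (0 : ℝ) < D := by exact_mod_cast hD1
  have hE : 0 < e1 / (4 * D) := by positivity
  obtain ⟨Y1, hY1⟩ := ev (q0 + q0' + 10) 1 0 one_pos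
  obtain ⟨Y2, hY2⟩ := ev 5 b 1 hb
  obtain ⟨Y3, hY3⟩ := ev (2 ^ (N + 1)) η K1 hη
  obtain ⟨Y4, hY4⟩ := ev 176 (1 / 10) 1 (by norm_num)
  obtain ⟨Y5, hY5⟩ := ev 8 (e1 / (4 * D)) 0 hE
  refine ⟨min (e1 / (4 * D)) (1 / 10), e1 / (4 * D), min (min c1 c2) (min (min c3 c) (1 / 5)), 4 * D,
    lt_min hE (by norm_num), (min_le_right _ _).trans (by norm_num), hE,
    lt_min (lt_min hc1 hc2) (lt_min (lt_min hc3 hc) (by norm_num)), by positivity,
    X1 + X2 + X3 + X4 + Y1 + Y2 + Y3 + Y4 + Y5 + 3, fun X Q hX hQ1 hQ2 y hy => ?_⟩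
  have hX3 : 3 ≤ X := by omega
  have hXr : (3 : ℝ) ≤ X := by exact_mod_cast hX3
  have hX1 : (1 : ℝ) ≤ X := by linarith
  set L : ℝ := Real.sqrt (Real.log X) with hLdef
  have hlog : 1 ≤ Real.log X := by
    rw [Real.le_log_iff_exp_le (by linarith)]
    exact (Real.exp_one_lt_d9.le.trans (by norm_num)).trans hXr
  have hL1 : 1 ≤ L := by
    rw [hLdef, Real.le_sqrt' one_pos]
    linarith
  have hLsq : Real.log X = L ^ 2 := (Real.sq_sqrt (by linarith)).symm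
  set q : ℕ := ⌊(Q : ℝ) ^ (1 / (D : ℝ))⌋₊ with hqdef
  obtain ⟨hq1, hq2, hq3⟩ := qfacts D hD1 L Q hL1 hQ1
  rw [← hqdef] at hq1 hq2 hq3
  have hQpos : (0 : ℝ) < Q := lt_of_lt_of_le (Real.exp_pos _) hQ1
  have hexpL : Real.exp L ≤ Real.exp (2 * L) := Real.exp_le_exp.2 (by linarith)
  have hqL : Real.exp L ≤ (q : ℝ) := hexpL.trans hq1
  have hqpos : (0 : ℝ) < q := lt_of_lt_of_le (Real.exp_pos _) hqL
  have hQL : Real.exp L ≤ (Q : ℝ) := by
    refine le_trans (Real.exp_le_exp.2 ?_) hQ1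
    have : (1 : ℝ) ≤ D := by exact_mod_cast hD1
    nlinarith
  have hQ1' : (1 : ℝ) ≤ Q := by
    refine le_trans ?_ hQL
    exact Real.one_le_exp (by linarith)
  have hqQ : q ≤ Q := by
    have h1 : (q : ℝ) ≤ (Q : ℝ) ^ (1 : ℝ) := by
      refine hq2.trans (Real.rpow_le_rpow_of_exponent_le hQ1' ?_)
      rw [div_le_one hDr]
      exact_mod_cast hD1
    rw [Real.rpow_one] at h1
    exact_mod_cast h1
  -- the upper bounds for `Q`
  have hup : ∀ c'' : ℝ, min (min c1 c2) (min (min c3 c) (1 / 5)) ≤ c'' → (Q : ℝ) ≤ (X : ℝ) ^ c'' :=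
    fun c'' h => hQ2.trans (Real.rpow_le_rpow_of_exponent_le hX1 h)
  have u1 := hup c1 ((min_le_left _ _).trans (min_le_left _ _))
  have u2 := hup c2 ((min_le_left _ _).trans (min_le_right _ _))
  have u3 := hup c3 ((min_le_right _ _).trans ((min_le_left _ _).trans (min_le_left _ _)))
  have u4 := hup c ((min_le_right _ _).trans ((min_le_left _ _).trans (min_le_right _ _)))
  have u5 := hup (1 / 5) ((min_le_right _ _).trans (min_le_right _ _))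
  have hQ5 : Q ^ 5 ≤ X := by
    have h1 : (Q : ℝ) ^ 5 ≤ ((X : ℝ) ^ (1 / 5 : ℝ)) ^ 5 := pow_le_pow_left₀ hQpos.le u5 5
    rw [← Real.rpow_natCast ((X : ℝ) ^ (1 / 5 : ℝ)) 5, ← Real.rpow_mul (by linarith)] at h1
    norm_num at h1
    exact_mod_cast h1
  have hQ0 : 1 ≤ Q := by exact_mod_cast hQ1'
  have hq5 : q ^ 5 ≤ 2 * X := by
    have := Nat.pow_le_pow_left hqQ 5
    omega
  have hqH : ∀ k, (q : ℝ) ≤ HH lg X k := by
    intro k
    have h1 : Q ≤ Q ^ 5 := Nat.le_self_pow (by norm_num) Q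
    have h2 : Q * Q ≤ Q ^ 5 := by
      rw [← sq]
      exact Nat.pow_le_pow_right hQ0 (by norm_num)
    have h3 : Q ≤ Nat.sqrt X := Nat.le_sqrt.2 (h2.trans hQ5)
    have h4 : q ≤ HH lg X k := by
      unfold HH
      split_ifs
      · omega
      · omega
    exact_mod_cast h4
  -- growth
  have g1 : q0 + q0' + 10 ≤ (q : ℝ) := by
    have h := hY1 X (by omega)
    rw [pow_zero, mul_one, one_mul] at h
    exact h.trans hqL
  have hbq : ∀ s : ℝ, 0 ≤ s → Real.exp (s * L) ≤ (q : ℝ) ^ s := by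
    intro s hs
    have h := Real.rpow_le_rpow (Real.exp_pos _).le hqL hs
    rwa [← Real.exp_mul, mul_comm] at h
  have hbQ : ∀ s : ℝ, 0 ≤ s → Real.exp (s * L) ≤ (Q : ℝ) ^ s := by
    intro s hs
    have h := Real.rpow_le_rpow (Real.exp_pos _).le hQL hs
    rwa [← Real.exp_mul, mul_comm] at h
  have g2 : 5 * Real.log X ≤ (q : ℝ) ^ b := by
    have h := hY2 X (by omega)
    rw [pow_one] at h
    exact h.trans (hbq b hb.le)
  have g3 : 2 ^ (N + 1) * Real.log X ^ K1 ≤ (q : ℝ) ^ η := (hY3 X (by omega)).trans (hbq η hη.le)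
  have g4 : 176 * Real.log X ≤ (Q : ℝ) ^ (1 / 10 : ℝ) := by
    have h := hY4 X (by omega)
    rw [pow_one] at h
    exact h.trans (hbQ _ (by norm_num))
  have g5 : 8 ≤ (Q : ℝ) ^ (e1 / (4 * D)) := by
    have h := hY5 X (by omega)
    rw [pow_zero, mul_one] at h
    exact h.trans (hbQ _ hE.le)
  have hlog2 : 1 + Real.log (2 * ((X + 1 : ℕ) : ℝ)) ≤ (q : ℝ) ^ b := by
    refine le_trans ?_ g2
    have h1 : Real.log (2 * ((X + 1 : ℕ) : ℝ)) ≤ Real.log (4 * X) := by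
      apply Real.log_le_log (by positivity)
      push_cast
      linarith
    have h2 : Real.log (4 * X) = Real.log 4 + Real.log X := Real.log_mul (by norm_num) (by linarith)
    have h3 : Real.log 4 ≤ 3 := by
      have := Real.log_le_sub_one_of_pos (show (0 : ℝ) < 4 by norm_num)
      linarith
    linarith
  have hlog8 : 3 + Real.log (4 * ((2 * X : ℕ) : ℝ)) ≤ 11 * Real.log X := by
    have h1 : (4 * ((2 * X : ℕ) : ℝ)) = 8 * X := by
      push_cast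
      ring
    have h2 : Real.log (8 * X) = Real.log 8 + Real.log X := Real.log_mul (by norm_num) (by linarith)
    have h3 : Real.log 8 ≤ 7 := by
      have := Real.log_le_sub_one_of_pos (show (0 : ℝ) < 8 by norm_num)
      linarith
    rw [h1]
    linarith
  -- moments
  have hXX : (X : ℝ) * Real.log X ^ K1 * 2 ^ (N + 1) ≤ (q : ℝ) ^ η * ((X + 1 : ℕ) : ℝ) := by
    push_cast
    have h1 : (X : ℝ) * (2 ^ (N + 1) * Real.log X ^ K1) ≤ X * (q : ℝ) ^ η := by gcongr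
    have h2 : 0 ≤ (q : ℝ) ^ η := by positivity
    nlinarith
  have hXX' : (X : ℝ) * Real.log X ^ K1 ≤ (q : ℝ) ^ η * ((X + 1 : ℕ) : ℝ) := by
    refine le_trans ?_ hXX
    have h1 : (1 : ℝ) ≤ 2 ^ (N + 1) := one_le_pow₀ (by norm_num)
    have h2 : 0 ≤ (X : ℝ) * Real.log X ^ K1 := by positivity
    nlinarith
  obtain ⟨mL, mW⟩ := hmo X Q (by omega) hQL u3
  obtain ⟨ml, -⟩ := hmo X q (by omega) hqL ((show (q : ℝ) ≤ Q by exact_mod_cast hqQ).trans u3)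
  have mL' := mom_sub (by omega : 1 ≤ X) _ _ mL
  have mW' := mom_sub (by omega : 1 ≤ X) _ _ mW
  have ml' := mom_sub (by omega : 1 ≤ X) _ _ ml
  have hms := htr X Q q (by omega) hqQ hqL u2
  have hSy := sys i j lg hS X
  have A1 := hA (q : ℝ) (X + 1) (y + 1) i j (HH lg X) (tau lg i) (by linarith) (by omega) (by omega) hlog2
    hSy hqH (Wf X Q) (Lm r X Q) (fun n => if n ≤ 1 then (0 : ℂ) else Wf X Q n)
    (sysM i j lg hS X (by omega) _ _ fun T hT => (hms T hT).1) (mW'.trans hXX') (mL'.trans hXX') (by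
      refine le_trans (Finset.sum_le_sum fun n _ => ?_) (mW'.trans hXX')
      refine pow_le_pow_left₀ (norm_nonneg _) ?_ N
      split_ifs
      · rw [norm_zero]
        exact norm_nonneg _
      · exact le_rfl)
  have A2 := hA (q : ℝ) (X + 1) (y + 1) i j (HH lg X) (tau lg i) (by linarith) (by omega) (by omega) hlog2
    hSy hqH (Lm r X Q) (Lm r X q) (fun n => if n ≤ 1 then (0 : ℂ) else Wf X Q n - Lm r X Q n)
    (sysM i j lg hS X (by omega) _ _ fun T hT => (hms T hT).2) (mL'.trans hXX') (ml'.trans hXX') (by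
      refine le_trans (mom_diff (Wf X Q) (Lm r X Q) _ _ (fun n => ?_) mW' mL') (le_trans (le_of_eq ?_) hXX)
      · split_ifs
        · rw [norm_zero]
          positivity
        · exact norm_sub_le _ _
      · ring)
  -- part (B)
  have hqc : (q : ℝ) ≤ ((2 * X : ℕ) : ℝ) ^ c := by
    refine ((show (q : ℝ) ≤ Q by exact_mod_cast hqQ).trans u4).trans ?_
    refine Real.rpow_le_rpow (by linarith) ?_ hc.le
    push_cast
    linarith
  have hRg : Rg c (2 * X) q := by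
    refine ⟨le_trans (Real.exp_le_exp.2 ?_) hqL, hqc⟩
    have h1 : Real.log ((2 * X : ℕ) : ℝ) ≤ (2 * L) ^ 2 := by
      have h2 : Real.log ((2 * X : ℕ) : ℝ) = Real.log 2 + Real.log X := by
        push_cast
        exact Real.log_mul (by norm_num) (by linarith)
      have h3 : Real.log 2 ≤ 1 := by
        have := Real.log_le_sub_one_of_pos (show (0 : ℝ) < 2 by norm_num)
        linarith
      rw [h2, hLsq]
      nlinarith
    have h4 : Real.sqrt (Real.log ((2 * X : ℕ) : ℝ)) ≤ 2 * L := by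
      have h5 := Real.sqrt_le_sqrt h1
      rwa [Real.sqrt_sq (by linarith)] at h5
    linarith
  obtain ⟨bb, hbb1, hbb2⟩ := hBS (2 * X) q (by omega) hRg
  have hq0'' : q0' ≤ q := by
    have h1 : (q0' : ℝ) ≤ q := by linarith
    exact_mod_cast h1
  set S : ℝ := 2 * (8 * X * (Q : ℝ) ^ (-(2 / 5 : ℝ))) * (3 + Real.log (4 * ((2 * X : ℕ) : ℝ))) with hSdef
  have hl8 : 0 ≤ 3 + Real.log (4 * ((2 * X : ℕ) : ℝ)) := by
    have : 0 ≤ Real.log (4 * ((2 * X : ℕ) : ℝ)) := by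
      apply Real.log_nonneg
      push_cast
      linarith
    linarith
  have hS0 : 0 ≤ S := by positivity
  have hAle : ∀ a : Fin r → ℕ, (∀ e, a e ≤ X) → ‖∑ n ∈ Icc 1 y, (Wf X Q (n + 1) - Lm r X Q (n + 1)) *
      ∏ e, LL (2 * X) q (q ^ (8 * (r + 1))) (n + (1 + a e))‖ ≤ X * (Q : ℝ) ^ (-(1 / 5 : ℝ)) := by
    intro a ha
    have h1 := hZ (2 * X) q hq0'' hq5 bb hbb1 hbb2 (fun n => Wf X Q (n + 1) - Lm r X Q (n + 1)) S y
      (by omega) hS0 (fun y' hy' θ => supF (fun n => Wf X Q n - Lm r X Q n) X (by omega) _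
        (hsup X Q (by omega) hQL u1) y' (by omega) θ) (fun e => 1 + a e) (fun e => by
        have := ha e
        omega)
    refine h1.trans ?_
    have h2 : (q : ℝ) ^ D0 ≤ (Q : ℝ) ^ (1 / 10 : ℝ) := by
      have h3 := pow_le_pow_left₀ hqpos.le hq2 D0
      refine h3.trans ?_
      rw [← Real.rpow_natCast, ← Real.rpow_mul hQpos.le]
      refine Real.rpow_le_rpow_of_exponent_le hQ1' ?_
      rw [one_div, ← div_eq_inv_mul, div_le_iff₀ hDr, hDdef]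
      push_cast
      linarith
    have h4 : S ≤ (Q : ℝ) ^ (1 / 10 : ℝ) * (X * (Q : ℝ) ^ (-(2 / 5 : ℝ))) := by
      have h5 : 16 * (3 + Real.log (4 * ((2 * X : ℕ) : ℝ))) ≤ (Q : ℝ) ^ (1 / 10 : ℝ) := by linarith
      have h6 : 0 ≤ (X : ℝ) * (Q : ℝ) ^ (-(2 / 5 : ℝ)) := by positivity
      calc S = (16 * (3 + Real.log (4 * ((2 * X : ℕ) : ℝ)))) * (X * (Q : ℝ) ^ (-(2 / 5 : ℝ))) := by
            rw [hSdef]
            ring
        _ ≤ _ := mul_le_mul_of_nonneg_right h5 h6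
    calc (q : ℝ) ^ D0 * S ≤ (Q : ℝ) ^ (1 / 10 : ℝ) * ((Q : ℝ) ^ (1 / 10 : ℝ) * (X * (Q : ℝ) ^ (-(2 / 5 : ℝ)))) :=
          mul_le_mul h2 h4 hS0 (by positivity)
      _ = X * ((Q : ℝ) ^ (1 / 10 : ℝ) * (Q : ℝ) ^ (1 / 10 : ℝ) * (Q : ℝ) ^ (-(2 / 5 : ℝ))) := by ring
      _ = X * (Q : ℝ) ^ (-(1 / 5 : ℝ)) := by
          rw [← Real.rpow_add hQpos, ← Real.rpow_add hQpos]
          norm_num
  -- the exceptional set
  have hqe : (q : ℝ) ^ (-e1) ≤ (Q : ℝ) ^ (-(e1 / (4 * D))) * (Q : ℝ) ^ (-(e1 / (4 * D))) := by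
    have h1 : (q : ℝ) ^ (-e1) ≤ ((Q : ℝ) ^ (1 / (2 * D : ℝ))) ^ (-e1) :=
      Real.rpow_le_rpow_of_nonpos (by positivity) hq3 (by linarith)
    refine h1.trans (le_of_eq ?_)
    rw [← Real.rpow_mul hQpos.le, ← Real.rpow_add hQpos]
    congr 1
    field_simp
    ring
  set w : ℝ := (Q : ℝ) ^ (-(e1 / (4 * D))) with hw
  have hw0 : 0 < w := by positivity
  have hw8 : 8 * w ≤ 1 := by
    have h1 : w * (Q : ℝ) ^ (e1 / (4 * D)) = 1 := by
      rw [hw, ← Real.rpow_add hQpos]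
      norm_num
    nlinarith
  have hcard : ((∏ k, (HH lg X k : ℝ)) : ℝ) = (Bx lg X).card := by
    unfold Bx
    rw [Fintype.card_piFinset]
    push_cast
    refine Finset.prod_congr rfl fun k _ => ?_
    rw [Nat.card_Icc]
    simp
  rw [hcard] at A1 A2
  set E1 := (Fintype.piFinset (fun k => Icc 1 (HH lg X k))).filter (fun t => ((X + 1 : ℕ) : ℝ) * (q : ℝ) ^ (-e1) <
      ‖∑ n ∈ Icc 1 (y + 1), (fun n => if n ≤ 1 then (0 : ℂ) else Wf X Q n) n *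
        (∏ e, Wf X Q (n + sf i j (tau lg i) t e) - ∏ e, Lm r X Q (n + sf i j (tau lg i) t e))‖) with hE1
  set E2 := (Fintype.piFinset (fun k => Icc 1 (HH lg X k))).filter (fun t => ((X + 1 : ℕ) : ℝ) * (q : ℝ) ^ (-e1) <
      ‖∑ n ∈ Icc 1 (y + 1), (fun n => if n ≤ 1 then (0 : ℂ) else Wf X Q n - Lm r X Q n) n *
        (∏ e, Lm r X Q (n + sf i j (tau lg i) t e) - ∏ e, Lm r X q (n + sf i j (tau lg i) t e))‖) with hE2
  have hsub : (Bx lg X).filter (fun t => X * (Q : ℝ) ^ (-(min (e1 / (4 * D)) (1 / 10))) <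
      ‖dev r X Q (sft i j lg t) y‖) ⊆ E1 ∪ E2 := by
    intro t ht
    rw [mem_filter] at ht
    obtain ⟨ht1, ht2⟩ := ht
    by_contra hcon
    rw [mem_union, not_or] at hcon
    obtain ⟨n1, n2⟩ := hcon
    rw [hE1, mem_filter, not_and, not_lt] at n1
    rw [hE2, mem_filter, not_and, not_lt] at n2
    have d1 := n1 ht1
    have d2 := n2 ht1
    have d3 := hAle (sft i j lg t) (fun e => by
      unfold sft sf
      have ht' : ∀ k, t k ∈ Icc 1 (HH lg X k) := fun k => Fintype.mem_piFinset.mp ht1 k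
      split_ifs with he
      · have hk := (mem_Icc.1 (ht' (i e))).2
        unfold tau
        unfold HH at hk
        split_ifs with hl
        · simpa [hl] using hk
        · simp only [Bool.not_eq_true] at hl
          simp only [hl, Bool.false_eq_true, if_false] at hk
          have h1 := Nat.pow_le_pow_left hk 2
          have h2 := Nat.sqrt_le X
          rw [sq (Nat.sqrt X)] at h1
          omega
      · obtain ⟨s1, s2⟩ := hS.short e he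
        have k1 := (mem_Icc.1 (ht' (i e))).2
        have k2 := (mem_Icc.1 (ht' (j e))).2
        unfold HH at k1 k2
        simp only [s1, s2, Bool.false_eq_true, if_false] at k1 k2
        exact (Nat.mul_le_mul k1 k2).trans (Nat.sqrt_le X))
    have d4 : ‖dev r X Q (sft i j lg t) y‖ ≤ ((X + 1 : ℕ) : ℝ) * (q : ℝ) ^ (-e1) +
        ((X + 1 : ℕ) : ℝ) * (q : ℝ) ^ (-e1) + X * (Q : ℝ) ^ (-(1 / 5 : ℝ)) := by
      rw [dev_eq r X Q q]
      refine (norm_add_le _ _).trans (add_le_add ((norm_add_le _ _).trans (add_le_add d1 d2)) d3)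
    have hW : w ≤ (Q : ℝ) ^ (-(min (e1 / (4 * D)) (1 / 10))) := by
      rw [hw]
      refine Real.rpow_le_rpow_of_exponent_le hQ1' ?_
      have := min_le_left (e1 / (4 * D)) (1 / 10)
      linarith
    have hV : (Q : ℝ) ^ (-(1 / 5 : ℝ)) ≤ 1 / 2 * (Q : ℝ) ^ (-(min (e1 / (4 * D)) (1 / 10))) := by
      have h1 : (Q : ℝ) ^ (-(1 / 10 : ℝ)) ≤ (Q : ℝ) ^ (-(min (e1 / (4 * D)) (1 / 10))) := by
        refine Real.rpow_le_rpow_of_exponent_le hQ1' ?_
        have := min_le_right (e1 / (4 * D)) (1 / 10)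
        linarith
      have h2 : (Q : ℝ) ^ (-(1 / 5 : ℝ)) * (Q : ℝ) ^ (1 / 10 : ℝ) = (Q : ℝ) ^ (-(1 / 10 : ℝ)) := by
        rw [← Real.rpow_add hQpos]
        norm_num
      have h3 : 2 ≤ (Q : ℝ) ^ (1 / 10 : ℝ) := by linarith
      have h4 : 0 < (Q : ℝ) ^ (-(1 / 5 : ℝ)) := by positivity
      nlinarith
    have hfin : ((X + 1 : ℕ) : ℝ) * (q : ℝ) ^ (-e1) + ((X + 1 : ℕ) : ℝ) * (q : ℝ) ^ (-e1) ≤
        X * (1 / 2 * w) := by
      push_cast
      have h1 : (q : ℝ) ^ (-e1) ≤ w * (1 / 8) := hqe.trans (by nlinarith)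
      have h2 : ((X : ℝ) + 1) * (q : ℝ) ^ (-e1) ≤ (2 * X) * (w * (1 / 8)) := by
        apply mul_le_mul (by linarith) h1 (by positivity) (by positivity)
      linarith
    have hfin2 : X * (1 / 2 * w) ≤ X * (1 / 2 * (Q : ℝ) ^ (-(min (e1 / (4 * D)) (1 / 10)))) := by gcongr
    have hfin3 : (X : ℝ) * (Q : ℝ) ^ (-(1 / 5 : ℝ)) ≤ X * (1 / 2 * (Q : ℝ) ^ (-(min (e1 / (4 * D)) (1 / 10)))) := by
      gcongr
    linarith
  have hc1' : ((E1 ∪ E2).card : ℝ) ≤ E1.card + E2.card := by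
    exact_mod_cast Finset.card_union_le E1 E2
  have hc2' : (((Bx lg X).filter (fun t => X * (Q : ℝ) ^ (-(min (e1 / (4 * D)) (1 / 10))) <
      ‖dev r X Q (sft i j lg t) y‖)).card : ℝ) ≤ (E1 ∪ E2).card := by
    exact_mod_cast Finset.card_le_card hsub
  have hqw : (q : ℝ) ^ (-e1) ≤ 1 / 2 * w := hqe.trans (by nlinarith)
  have hB0 : (0 : ℝ) ≤ (Bx lg X).card := Nat.cast_nonneg _
  calc _ ≤ _ := hc2'
    _ ≤ _ := hc1'
    _ ≤ (Bx lg X).card * (q : ℝ) ^ (-e1) + (Bx lg X).card * (q : ℝ) ^ (-e1) := add_le_add A1 A2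
    _ ≤ (Bx lg X).card * (1 / 2 * w) + (Bx lg X).card * (1 / 2 * w) :=
      add_le_add (mul_le_mul_of_nonneg_left hqw hB0) (mul_le_mul_of_nonneg_left hqw hB0)
    _ = _ := by ring

end Pool.Agent.DSH
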